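import Pool.Agent.Lib.MP_85963d_gt.H87.Laplace

/-!
# Section 9.7 of the Gardner project: the cylinder has a solution with non-zero integral
(helper87)

Two solutions `G1 ~ c1 X^(-1/2)`, `G2 ~ c2 X^(1/2)` (`X → 0+`) of the cylinder equation (9.1) that
decay like `X^(-7/4)` cannot both have integral zero.  Proof: their Laplace transforms `u1, u2`
satisfy `u'' v - 6 u' v' + u v'' = 0` with `v` the transform of the kernel, so the Wronskian `w`
is a multiple of `v^6`; the behaviour at `+∞` shows that the multiple is non-zero, the behaviour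
at `0+` that it is zero.
-/

open MeasureTheory Set Filter Topology

namespace Pool.Agent.Lib.MP_85963d_gt.H87

/-- the cylinder kernel `Y^(-1/2) (1+Y)^(-3/2)` -/
noncomputable def cylK (Y : ℝ) : ℝ := 1 / (√Y * ((1 + Y) * √(1 + Y)))

/-- solutions of the cylinder equation (9.1) -/
structure CylSol (G : ℝ → ℝ) : Prop where
  cont : ContinuousOn G (Ioi 0)
  bd0 : ∃ C : ℝ, ∀ X ∈ Ioc (0 : ℝ) 1, |G X| ≤ C / √X
  eq : ∀ s : ℝ, 0 < s →
    ∫ X in (0 : ℝ)..s, (1 - 8 * X * (s - X) / s ^ 2) * (G X * cylK (s - X)) = 0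

theorem cylK_meas : Measurable cylK := by unfold cylK; fun_prop

theorem cylK_nonneg {Y : ℝ} (hY : 0 < Y) : 0 < cylK Y := by
  unfold cylK
  have h1 : 0 < √Y := Real.sqrt_pos.mpr hY
  have h2 : 0 < √(1 + Y) := Real.sqrt_pos.mpr (by linarith)
  positivity

theorem cylK_le {Y : ℝ} (hY : 0 < Y) : cylK Y ≤ 1 / √Y := by
  unfold cylK
  have h1 : 0 < √Y := Real.sqrt_pos.mpr hY
  have h2 : 1 ≤ √(1 + Y) := by
    rw [show (1 : ℝ) = √1 by simp]
    exact Real.sqrt_le_sqrt (by linarith [Real.sqrt_one])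
  refine one_div_le_one_div_of_le h1 ?_
  have h3 : 1 ≤ (1 + Y) * √(1 + Y) := by nlinarith
  nlinarith

theorem rpow_neg_half {X : ℝ} (hX : 0 < X) : X ^ ((1 / 2 : ℝ) - 1) = 1 / √X := by
  rw [Real.sqrt_eq_rpow, one_div (X ^ (1 / 2 : ℝ)), ← Real.rpow_neg hX.le]
  congr 1; norm_num

theorem cylK_PB : PB cylK (1 / 2) 1 := by
  refine ⟨cylK_meas.aestronglyMeasurable, fun X hX => ?_⟩
  rw [abs_of_pos (cylK_nonneg hX), rpow_neg_half hX, one_mul]
  exact cylK_le hX

theorem CylSol.meas {G : ℝ → ℝ} (h : CylSol G) :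
    AEStronglyMeasurable G (volume.restrict (Ioi (0 : ℝ))) :=
  h.cont.aestronglyMeasurable measurableSet_Ioi

/-- decay `X^(-7/4)` -/
def Decay (G : ℝ → ℝ) : Prop := ∃ C : ℝ, ∀ X : ℝ, 1 ≤ X → |G X| ≤ C * X ^ (-(7 / 4) : ℝ)

theorem CylSol.pb {G : ℝ → ℝ} (h : CylSol G) (hd : Decay G) : ∃ A, 0 ≤ A ∧ PB G (1 / 2) A := by
  obtain ⟨C, hC⟩ := h.bd0
  obtain ⟨D, hD⟩ := hd
  refine ⟨|C| + |D|, by positivity, h.meas, fun X hX => ?_⟩
  rcases le_total X 1 with h1 | h1
  · rw [rpow_neg_half hX]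
    refine (hC X ⟨hX, h1⟩).trans ?_
    rw [mul_one_div]
    have := le_abs_self C
    have := abs_nonneg D
    gcongr
    linarith
  · refine (hD X h1).trans ?_
    have e : X ^ (-(7 / 4) : ℝ) ≤ X ^ ((1 / 2 : ℝ) - 1) :=
      Real.rpow_le_rpow_of_exponent_le h1 (by norm_num)
    have e0 : 0 < X ^ (-(7 / 4) : ℝ) := Real.rpow_pos_of_pos hX _
    have := le_abs_self D
    have := abs_nonneg C
    calc D * X ^ (-(7 / 4) : ℝ) ≤ |D| * X ^ (-(7 / 4) : ℝ) := by gcongr
      _ ≤ |D| * X ^ ((1 / 2 : ℝ) - 1) := by gcongr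
      _ ≤ (|C| + |D|) * X ^ ((1 / 2 : ℝ) - 1) := by
        have : 0 < X ^ ((1 / 2 : ℝ) - 1) := Real.rpow_pos_of_pos hX _
        nlinarith

/-- the better bound for a solution that vanishes at `0` -/
theorem CylSol.pb2 {G : ℝ → ℝ} (h : CylSol G) (hd : Decay G) {c : ℝ}
    (hlim : Tendsto (fun X => G X / √X) (𝓝[>] 0) (𝓝 c)) : ∃ A, 0 ≤ A ∧ PB G (3 / 2) A := by
  obtain ⟨A, hA0, hA⟩ := h.pb hd
  have hev : ∀ᶠ X in 𝓝[>] (0 : ℝ), |G X / √X| < |c| + 1 :=
    (hlim.abs).eventually_lt_const (by linarith)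
  rw [eventually_nhdsWithin_iff, Metric.eventually_nhds_iff] at hev
  obtain ⟨δ, hδ, hev⟩ := hev
  refine ⟨(|c| + 1) + A / δ, by positivity, h.meas, fun X hX => ?_⟩
  have hsq : 0 < √X := Real.sqrt_pos.mpr hX
  have e1 : X ^ ((3 / 2 : ℝ) - 1) = √X := by
    rw [Real.sqrt_eq_rpow]; congr 1; norm_num
  rw [e1]
  rcases lt_or_ge X δ with h1 | h1
  · have h2 := hev (y := X) (by rw [Real.dist_eq, sub_zero, abs_of_pos hX]; exact h1) hX
    rw [abs_div, abs_of_pos hsq, div_lt_iff₀ hsq] at h2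
    have : 0 ≤ A / δ * √X := by positivity
    nlinarith
  · have h2 := hA.bd X hX
    rw [rpow_neg_half hX] at h2
    have h3 : A * (1 / √X) ≤ A / δ * √X := by
      rw [mul_one_div, div_le_iff₀ hsq]
      have : A / δ * √X * √X = A * (X / δ) := by
        rw [mul_assoc, Real.mul_self_sqrt hX.le]; ring
      rw [this]
      have : 1 ≤ X / δ := by rw [le_div_iff₀ hδ]; linarith
      nlinarith
    have : 0 ≤ (|c| + 1) * √X := by positivity
    nlinarith

theorem conv_integrable {G : ℝ → ℝ} {A : ℝ} (hA0 : 0 ≤ A) (hA : PB G (1 / 2) A) {s : ℝ}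
    (hs : 0 < s) : IntervalIntegrable (fun X => G X * cylK (s - X)) volume 0 s := by
  have hd : IntervalIntegrable (fun X : ℝ => A * (√(s / 2))⁻¹ *
      (X ^ ((1 / 2 : ℝ) - 1) + (s - X) ^ ((1 / 2 : ℝ) - 1))) volume 0 s := by
    have h1 : IntervalIntegrable (fun X : ℝ => X ^ ((1 / 2 : ℝ) - 1)) volume 0 s :=
      intervalIntegral.intervalIntegrable_rpow' (by norm_num)
    have h2 : IntervalIntegrable (fun X : ℝ => (s - X) ^ ((1 / 2 : ℝ) - 1)) volume 0 s := by
      have := h1.comp_sub_left s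
      simp only [sub_zero, sub_self] at this
      exact this.symm
    exact (h1.add h2).const_mul _
  rw [intervalIntegrable_iff_integrableOn_Ioo_of_le hs.le] at hd ⊢
  refine Integrable.mono' hd ?_ ?_
  · have hm : AEStronglyMeasurable G (volume.restrict (Ioo 0 s)) :=
      hA.meas.mono_measure (Measure.restrict_mono Ioo_subset_Ioi_self le_rfl)
    exact hm.mul (cylK_meas.comp (measurable_const.sub measurable_id)).aestronglyMeasurable
  · refine (ae_restrict_iff' measurableSet_Ioo).mpr (Eventually.of_forall fun X hX => ?_)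
    have hX0 : 0 < X := hX.1
    have hY0 : 0 < s - X := by linarith [hX.2]
    rw [norm_mul, Real.norm_eq_abs, Real.norm_eq_abs, abs_of_pos (cylK_nonneg hY0),
      rpow_neg_half hX0, rpow_neg_half hY0]
    have h1 := hA.bd X hX0
    rw [rpow_neg_half hX0] at h1
    have h2 := cylK_le hY0
    have p1 : 0 < √X := Real.sqrt_pos.mpr hX0
    have p2 : 0 < √(s - X) := Real.sqrt_pos.mpr hY0
    have p3 : 0 < √(s / 2) := Real.sqrt_pos.mpr (by linarith)
    calc |G X| * cylK (s - X) ≤ (A * (1 / √X)) * (1 / √(s - X)) :=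
          mul_le_mul h1 h2 (cylK_nonneg hY0).le (by positivity)
      _ ≤ A * (√(s / 2))⁻¹ * (1 / √X + 1 / √(s - X)) := by
          rw [mul_assoc, mul_assoc]
          refine mul_le_mul_of_nonneg_left ?_ hA0
          rcases le_total (s / 2) X with h3 | h3
          · have : 1 / √X ≤ (√(s / 2))⁻¹ := by
              rw [one_div]
              exact inv_anti₀ p3 (Real.sqrt_le_sqrt h3)
            calc 1 / √X * (1 / √(s - X)) ≤ (√(s / 2))⁻¹ * (1 / √(s - X)) := by gcongr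
              _ ≤ (√(s / 2))⁻¹ * (1 / √X + 1 / √(s - X)) := by
                gcongr
                have : 0 < 1 / √X := by positivity
                linarith
          · have : 1 / √(s - X) ≤ (√(s / 2))⁻¹ := by
              rw [one_div]
              exact inv_anti₀ p3 (Real.sqrt_le_sqrt (by linarith))
            calc 1 / √X * (1 / √(s - X)) ≤ 1 / √X * (√(s / 2))⁻¹ := by gcongr
              _ = (√(s / 2))⁻¹ * (1 / √X) := by ring
              _ ≤ (√(s / 2))⁻¹ * (1 / √X + 1 / √(s - X)) := by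
                gcongr
                have : 0 < 1 / √(s - X) := by positivity
                linarith

theorem lin3 {μ : Measure ℝ} {f g h : ℝ → ℝ} (hf : Integrable f μ) (hg : Integrable g μ)
    (hh : Integrable h μ) : (∫ x, f x ∂μ) - 6 * (∫ x, g x ∂μ) + (∫ x, h x ∂μ) =
      ∫ x, (f x - 6 * g x + h x) ∂μ := by
  have h1 : ∫ x, (f x - 6 * g x) ∂μ = (∫ x, f x ∂μ) - 6 * (∫ x, g x ∂μ) := by
    rw [← integral_const_mul]
    exact integral_sub hf (hg.const_mul 6)
  have h2 : ∫ x, (f x - 6 * g x + h x) ∂μ = (∫ x, (f x - 6 * g x) ∂μ) + ∫ x, h x ∂μ :=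
    integral_add (hf.sub (hg.const_mul 6)) hh
  rw [h2, h1]

/-- The Laplace transform of (9.1). -/
theorem ode {G : ℝ → ℝ} {A : ℝ} (hA0 : 0 ≤ A) (hA : PB G (1 / 2) A)
    (heq : ∀ s : ℝ, 0 < s →
      ∫ X in (0 : ℝ)..s, (1 - 8 * X * (s - X) / s ^ 2) * (G X * cylK (s - X)) = 0)
    {p : ℝ} (hp : 0 < p) :
    lap (fun X => X * (X * G X)) p * lap cylK p
      - 6 * (lap (fun X => X * G X) p * lap (fun X => X * cylK X) p)
      + lap G p * lap (fun X => X * (X * cylK X)) p = 0 := by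
  have e1 := lap_mul hA.mulX.mulX cylK_PB (by norm_num) (by norm_num) hp
  have e2 := lap_mul hA.mulX cylK_PB.mulX (by norm_num) (by norm_num) hp
  have e3 := lap_mul hA cylK_PB.mulX.mulX (by norm_num) (by norm_num) hp
  have i1 := lap_conv_int hA.mulX.mulX cylK_PB (by norm_num) (by norm_num) hp
  have i2 := lap_conv_int hA.mulX cylK_PB.mulX (by norm_num) (by norm_num) hp
  have i3 := lap_conv_int hA cylK_PB.mulX.mulX (by norm_num) (by norm_num) hp
  rw [← e1, ← e2, ← e3, lin3 i1 i2 i3]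
  refine setIntegral_eq_zero_of_forall_eq_zero (fun s hs => ?_)
  have hs' : 0 < s := hs
  have hc := conv_integrable hA0 hA hs'
  have j1 : IntervalIntegrable (fun t => t * (t * G t) * cylK (s - t)) volume 0 s := by
    have := hc.continuousOn_mul (g := fun t : ℝ => t * t) (by fun_prop)
    refine this.congr (fun t _ => ?_)
    ring
  have j2 : IntervalIntegrable (fun t => t * G t * ((s - t) * cylK (s - t))) volume 0 s := by
    have := hc.continuousOn_mul (g := fun t : ℝ => t * (s - t)) (by fun_prop)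
    refine this.congr (fun t _ => ?_)
    ring
  have j3 : IntervalIntegrable (fun t => G t * ((s - t) * ((s - t) * cylK (s - t))))
      volume 0 s := by
    have := hc.continuousOn_mul (g := fun t : ℝ => (s - t) * (s - t)) (by fun_prop)
    refine this.congr (fun t _ => ?_)
    ring
  have h0 := heq s hs'
  have key : (∫ t in (0 : ℝ)..s, t * (t * G t) * cylK (s - t))
      - 6 * (∫ t in (0 : ℝ)..s, t * G t * ((s - t) * cylK (s - t)))
      + (∫ t in (0 : ℝ)..s, G t * ((s - t) * ((s - t) * cylK (s - t)))) = 0 := by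
    rw [← intervalIntegral.integral_const_mul, ← intervalIntegral.integral_sub j1 (j2.const_mul 6),
      ← intervalIntegral.integral_add (j1.sub (j2.const_mul 6)) j3]
    have : (∫ t in (0 : ℝ)..s, (t * (t * G t) * cylK (s - t)
        - 6 * (t * G t * ((s - t) * cylK (s - t)))
        + G t * ((s - t) * ((s - t) * cylK (s - t)))))
        = ∫ t in (0 : ℝ)..s, s ^ 2 * ((1 - 8 * t * (s - t) / s ^ 2) * (G t * cylK (s - t))) := by
      refine intervalIntegral.integral_congr (fun t _ => ?_)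
      field_simp
      ring
    rw [this, intervalIntegral.integral_const_mul, h0, mul_zero]
  have key' := congrArg (fun z => Real.exp (-(p * s)) * z) key
  simp only [mul_zero] at key'
  refine Eq.trans ?_ key'
  ring

/-- `|u(p)| = O(p^(5/8))` as `p → 0+` if the integral vanishes -/
theorem lap_small {G : ℝ → ℝ} {A : ℝ} (hA : PB G (1 / 2) A) (hd : Decay G)
    (h0 : ∫ X in Ioi (0 : ℝ), G X = 0) :
    ∃ B : ℝ, 0 ≤ B ∧ ∀ p : ℝ, 0 < p → |lap G p| ≤ B * p ^ (5 / 8 : ℝ) := by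
  obtain ⟨D, hD⟩ := hd
  -- integrability of `X^(5/8) |G X|` and of `G`
  have hm := hA.meas
  have hint : ∀ b : ℝ, 0 ≤ b → b ≤ 5 / 8 →
      IntegrableOn (fun X : ℝ => X ^ b * G X) (Ioi 0) := by
    intro b hb0 hb
    have hmeas : AEStronglyMeasurable (fun X : ℝ => X ^ b * G X) (volume.restrict (Ioi (0:ℝ))) :=
      (measurable_id.pow_const b).aestronglyMeasurable.mul hm
    rw [← Ioc_union_Ioi_eq_Ioi (zero_le_one (α := ℝ)), integrableOn_union]
    constructor
    · have h1 : IntegrableOn (fun X : ℝ => A * X ^ (b + (1 / 2 - 1))) (Ioc 0 1) := by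
        have := (intervalIntegral.intervalIntegrable_rpow' (a := 0) (b := 1)
          (r := b + (1 / 2 - 1)) (by linarith)).const_mul A
        rwa [intervalIntegrable_iff_integrableOn_Ioc_of_le zero_le_one] at this
      refine Integrable.mono' h1
        (hmeas.mono_measure (Measure.restrict_mono Ioc_subset_Ioi_self le_rfl)) ?_
      refine (ae_restrict_iff' measurableSet_Ioc).mpr (Eventually.of_forall fun X hX => ?_)
      have hX0 : 0 < X := hX.1
      rw [norm_mul, Real.norm_eq_abs, Real.norm_eq_abs, abs_of_pos (Real.rpow_pos_of_pos hX0 _),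
        Real.rpow_add hX0]
      calc X ^ b * |G X| ≤ X ^ b * (A * X ^ ((1 / 2 : ℝ) - 1)) := by
            have := hA.bd X hX0
            gcongr
        _ = _ := by ring
    · have h1 : IntegrableOn (fun X : ℝ => D * X ^ (b + (-(7 / 4)))) (Ioi 1) :=
        (integrableOn_Ioi_rpow_of_lt (by linarith) one_pos).const_mul D
      refine Integrable.mono' h1
        (hmeas.mono_measure (Measure.restrict_mono (Ioi_subset_Ioi zero_le_one) le_rfl)) ?_
      refine (ae_restrict_iff' measurableSet_Ioi).mpr (Eventually.of_forall fun X hX => ?_)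
      have hX1 : 1 < X := hX
      have hX0 : 0 < X := by linarith
      rw [norm_mul, Real.norm_eq_abs, Real.norm_eq_abs, abs_of_pos (Real.rpow_pos_of_pos hX0 _),
        Real.rpow_add hX0]
      calc X ^ b * |G X| ≤ X ^ b * (D * X ^ (-(7 / 4) : ℝ)) := by
            have := hD X hX1.le
            gcongr
        _ = _ := by ring
  have hG : IntegrableOn G (Ioi 0) := by
    refine (hint 0 le_rfl (by norm_num)).congr_fun (fun X _ => ?_) measurableSet_Ioi
    simp
  have hW := (hint (5 / 8) (by norm_num) le_rfl).norm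
  refine ⟨∫ X in Ioi (0 : ℝ), ‖X ^ (5 / 8 : ℝ) * G X‖, integral_nonneg fun _ => norm_nonneg _,
    fun p hp => ?_⟩
  have e1 : lap G p = ∫ X in Ioi (0 : ℝ), (Real.exp (-(p * X)) - 1) * G X := by
    have h2 : ∫ X in Ioi (0 : ℝ), (Real.exp (-(p * X)) - 1) * G X =
        (∫ X in Ioi (0 : ℝ), Real.exp (-(p * X)) * G X) - ∫ X in Ioi (0 : ℝ), G X := by
      rw [← integral_sub (hA.int (by norm_num) hp) hG]
      refine setIntegral_congr_fun measurableSet_Ioi (fun X _ => ?_)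
      ring
    rw [h2, h0, sub_zero, lap]
  rw [e1, ← integral_mul_const, ← Real.norm_eq_abs]
  refine norm_integral_le_of_norm_le (hW.mul_const _) ?_
  refine (ae_restrict_iff' measurableSet_Ioi).mpr (Eventually.of_forall fun X hX => ?_)
  have hX0 : 0 < X := hX
  have hpX : 0 < p * X := mul_pos hp hX0
  rw [norm_mul, norm_mul, Real.norm_eq_abs, Real.norm_eq_abs,
    Real.norm_eq_abs (X ^ (5 / 8 : ℝ)), abs_of_pos (Real.rpow_pos_of_pos hX0 _)]
  have h3 : |Real.exp (-(p * X)) - 1| ≤ (p * X) ^ (5 / 8 : ℝ) := by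
    have h4 : Real.exp (-(p * X)) ≤ 1 := Real.exp_le_one_iff.mpr (by linarith)
    have h5 : 1 - p * X ≤ Real.exp (-(p * X)) := by
      have := Real.add_one_le_exp (-(p * X)); linarith
    have h6 := Real.exp_pos (-(p * X))
    rw [abs_of_nonpos (by linarith)]
    rcases le_total (p * X) 1 with h7 | h7
    · have : p * X ≤ (p * X) ^ (5 / 8 : ℝ) := by
        conv_lhs => rw [← Real.rpow_one (p * X)]
        exact Real.rpow_le_rpow_of_exponent_ge hpX h7 (by norm_num)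
      linarith
    · have : 1 ≤ (p * X) ^ (5 / 8 : ℝ) := Real.one_le_rpow h7 (by norm_num)
      linarith
  rw [Real.mul_rpow hp.le hX0.le] at h3
  calc |Real.exp (-(p * X)) - 1| * |G X|
      ≤ (p ^ (5 / 8 : ℝ) * X ^ (5 / 8 : ℝ)) * |G X| := by gcongr
    _ = _ := by ring

/-- `|u'(p)| = O(p^(-1/4))` -/
theorem lap_deriv_bd {G : ℝ → ℝ} {A : ℝ} (hA0 : 0 ≤ A) (hA : PB G (1 / 2) A) (hd : Decay G) :
    ∃ B : ℝ, 0 ≤ B ∧ ∀ p : ℝ, 0 < p → |lap (fun X => X * G X) p| ≤ B * p ^ (-(1 / 4) : ℝ) := by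
  obtain ⟨D, hD⟩ := hd
  have h1 : PB (fun X => X * G X) (1 / 4) (A + |D|) := by
    refine ⟨hA.mulX.meas, fun X hX => ?_⟩
    rw [abs_mul, abs_of_pos hX]
    have e0 : 0 < X ^ ((1 / 4 : ℝ) - 1) := Real.rpow_pos_of_pos hX _
    have hDn := abs_nonneg D
    rcases le_total X 1 with h | h
    · have h2 := hA.bd X hX
      have h3 : X * X ^ ((1 / 2 : ℝ) - 1) ≤ X ^ ((1 / 4 : ℝ) - 1) := by
        have : X * X ^ ((1 / 2 : ℝ) - 1) = X ^ (1 / 2 : ℝ) := by
          conv_lhs => rw [← Real.rpow_one X, Real.rpow_one (X), ← Real.rpow_one_add' hX.le (by norm_num)]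
          congr 1; norm_num
        rw [this]
        exact Real.rpow_le_rpow_of_exponent_ge hX h (by norm_num)
      calc X * |G X| ≤ X * (A * X ^ ((1 / 2 : ℝ) - 1)) := by gcongr
        _ = A * (X * X ^ ((1 / 2 : ℝ) - 1)) := by ring
        _ ≤ A * X ^ ((1 / 4 : ℝ) - 1) := by gcongr
        _ ≤ (A + |D|) * X ^ ((1 / 4 : ℝ) - 1) := by nlinarith
    · have h2 := hD X h
      have h3 : X * X ^ (-(7 / 4) : ℝ) = X ^ ((1 / 4 : ℝ) - 1) := by
        have : X * X ^ (-(7 / 4) : ℝ) = X ^ (1 + (-(7 / 4)) : ℝ) := by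
          rw [Real.rpow_one_add' hX.le (by norm_num)]
        rw [this]; congr 1; norm_num
      calc X * |G X| ≤ X * (D * X ^ (-(7 / 4) : ℝ)) := by gcongr
        _ = D * X ^ ((1 / 4 : ℝ) - 1) := by rw [← h3]; ring
        _ ≤ |D| * X ^ ((1 / 4 : ℝ) - 1) := by
          have := le_abs_self D
          gcongr
        _ ≤ (A + |D|) * X ^ ((1 / 4 : ℝ) - 1) := by nlinarith
  refine ⟨(A + |D|) * Real.Gamma (1 / 4), ?_, fun p hp => h1.lap_bound (by norm_num) hp⟩
  have := Real.Gamma_pos_of_pos (s := 1 / 4) (by norm_num)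
  have := abs_nonneg D
  positivity

theorem gamma_three_half : Real.Gamma (3 / 2) = 1 / 2 * √Real.pi := by
  rw [show (3 / 2 : ℝ) = 1 / 2 + 1 by norm_num, Real.Gamma_add_one (by norm_num),
    Real.Gamma_one_half_eq]

theorem gamma_five_half : Real.Gamma (5 / 2) = 3 / 4 * √Real.pi := by
  rw [show (5 / 2 : ℝ) = 3 / 2 + 1 by norm_num, Real.Gamma_add_one (by norm_num),
    gamma_three_half]
  ring

theorem lap_K_pos {p : ℝ} (hp : 0 < p) : 0 < lap cylK p := by
  have hi := cylK_PB.int (by norm_num) hp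
  refine (setIntegral_pos_iff_support_of_nonneg_ae ?_ hi).mpr ?_
  · refine (ae_restrict_iff' measurableSet_Ioi).mpr (Eventually.of_forall fun X hX => ?_)
    exact (mul_pos (Real.exp_pos _) (cylK_nonneg hX)).le
  · have : Ioi (0 : ℝ) ⊆ (Function.support fun X : ℝ => Real.exp (-(p * X)) * cylK X) ∩ Ioi 0 :=
      fun X hX => ⟨(mul_pos (Real.exp_pos _) (cylK_nonneg hX)).ne', hX⟩
    refine lt_of_lt_of_le ?_ (measure_mono this)
    simp

theorem lap_K_anti {p q : ℝ} (hp : 0 < p) (hpq : p ≤ q) : lap cylK q ≤ lap cylK p := by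
  refine setIntegral_mono_on (cylK_PB.int (by norm_num) (by linarith))
    (cylK_PB.int (by norm_num) hp) measurableSet_Ioi (fun X hX => ?_)
  refine mul_le_mul_of_nonneg_right (Real.exp_le_exp.mpr ?_) (cylK_nonneg hX).le
  have : p * X ≤ q * X := mul_le_mul_of_nonneg_right hpq (le_of_lt hX)
  linarith

theorem cylK_lim : Tendsto (fun X : ℝ => X ^ (1 - (1 / 2) : ℝ) * cylK X) (𝓝[>] 0) (𝓝 1) := by
  have h1 : Tendsto (fun X : ℝ => 1 / ((1 + X) * √(1 + X))) (𝓝[>] 0) (𝓝 1) := by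
    have hc : ContinuousAt (fun X : ℝ => 1 / ((1 + X) * √(1 + X))) 0 := by
      refine ContinuousAt.div (by fun_prop) (by fun_prop) ?_
      simp
    have := hc.tendsto
    simp only [add_zero, Real.sqrt_one, mul_one, div_one] at this
    exact this.mono_left nhdsWithin_le_nhds
  refine h1.congr' ?_
  filter_upwards [self_mem_nhdsWithin] with X hX
  have hX0 : 0 < X := hX
  have e : X ^ (1 - (1 / 2) : ℝ) = √X := by
    rw [Real.sqrt_eq_rpow]; congr 1; norm_num
  rw [e, cylK]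
  have : √X ≠ 0 := (Real.sqrt_pos.mpr hX0).ne'
  have h3 : √(1 + X) ≠ 0 := (Real.sqrt_pos.mpr (by linarith)).ne'
  have h4 : (1 + X) ≠ 0 := by linarith
  field_simp

/-- (9.7) Two solutions of the cylinder equation with leading terms `c1 X^(-1/2)` and
`c2 X^(1/2)` at `0` and decay `X^(-7/4)` cannot both have integral zero. -/
theorem not_both_zero {G1 G2 : ℝ → ℝ} (h1 : CylSol G1) (h2 : CylSol G2) (d1 : Decay G1)
    (d2 : Decay G2) {c1 c2 : ℝ} (hc1 : c1 ≠ 0) (hc2 : c2 ≠ 0)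
    (l1 : Tendsto (fun X => √X * G1 X) (𝓝[>] 0) (𝓝 c1))
    (l2 : Tendsto (fun X => G2 X / √X) (𝓝[>] 0) (𝓝 c2))
    (z1 : ∫ X in Ioi (0 : ℝ), G1 X = 0) (z2 : ∫ X in Ioi (0 : ℝ), G2 X = 0) : False := by
  obtain ⟨A1, hA10, hA1⟩ := h1.pb d1
  obtain ⟨A2, hA20, hA2⟩ := h2.pb d2
  obtain ⟨A3, hA30, hA3⟩ := h2.pb2 d2 l2
  set u1 : ℝ → ℝ := lap G1 with hu1
  set u2 : ℝ → ℝ := lap G2 with hu2
  set v : ℝ → ℝ := lap cylK with hv
  set x1 : ℝ → ℝ := lap (fun X => X * G1 X) with hx1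
  set x2 : ℝ → ℝ := lap (fun X => X * G2 X) with hx2
  set xv : ℝ → ℝ := lap (fun X => X * cylK X) with hxv
  set y1 : ℝ → ℝ := lap (fun X => X * (X * G1 X)) with hy1
  set y2 : ℝ → ℝ := lap (fun X => X * (X * G2 X)) with hy2
  set yv : ℝ → ℝ := lap (fun X => X * (X * cylK X)) with hyv
  have du1 : ∀ p : ℝ, 0 < p → HasDerivAt u1 (-(x1 p)) p := fun p hp =>
    hA1.hasDerivAt (by norm_num) hp
  have du2 : ∀ p : ℝ, 0 < p → HasDerivAt u2 (-(x2 p)) p := fun p hp =>
    hA2.hasDerivAt (by norm_num) hp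
  have dv : ∀ p : ℝ, 0 < p → HasDerivAt v (-(xv p)) p := fun p hp =>
    cylK_PB.hasDerivAt (by norm_num) hp
  have dx1 : ∀ p : ℝ, 0 < p → HasDerivAt x1 (-(y1 p)) p := fun p hp =>
    hA1.mulX.hasDerivAt (by norm_num) hp
  have dx2 : ∀ p : ℝ, 0 < p → HasDerivAt x2 (-(y2 p)) p := fun p hp =>
    hA2.mulX.hasDerivAt (by norm_num) hp
  have o1 : ∀ p : ℝ, 0 < p → y1 p * v p - 6 * (x1 p * xv p) + u1 p * yv p = 0 := fun p hp =>
    ode hA10 hA1 h1.eq hp
  have o2 : ∀ p : ℝ, 0 < p → y2 p * v p - 6 * (x2 p * xv p) + u2 p * yv p = 0 := fun p hp =>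
    ode hA20 hA2 h2.eq hp
  have vpos : ∀ p : ℝ, 0 < p → 0 < v p := fun p hp => lap_K_pos hp
  -- the Wronskian
  set w : ℝ → ℝ := fun p => x1 p * u2 p - u1 p * x2 p with hw
  have dw : ∀ p : ℝ, 0 < p → HasDerivAt w (u1 p * y2 p - y1 p * u2 p) p := by
    intro p hp
    have := ((dx1 p hp).mul (du2 p hp)).sub ((du1 p hp).mul (dx2 p hp))
    refine this.congr_deriv ?_
    ring
  have dφ : ∀ p : ℝ, 0 < p → HasDerivAt (fun q => w q / v q ^ 6) 0 p := by
    intro p hp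
    have hvp := vpos p hp
    have := (dw p hp).div ((dv p hp).pow 6) (pow_pos hvp 6).ne'
    refine this.congr_deriv ?_
    rw [div_eq_zero_iff]
    left
    have e1 := o1 p hp
    have e2 := o2 p hp
    have e3 : v p * (u1 p * y2 p - y1 p * u2 p) = -6 * xv p * w p := by
      rw [hw]
      linear_combination u1 p * e2 - u2 p * e1
    push_cast
    have : (u1 p * y2 p - y1 p * u2 p) * v p ^ 6 = -6 * xv p * w p * v p ^ 5 := by
      rw [← e3]; ring
    rw [Pi.pow_apply, this]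
    norm_num
    ring
  have hconst : ∀ p : ℝ, 0 < p → w p / v p ^ 6 = w 1 / v 1 ^ 6 := by
    intro p hp
    have hconv : Convex ℝ (Ioi (0 : ℝ)) := convex_Ioi 0
    have := hconv.norm_image_sub_le_of_norm_hasDerivWithin_le
      (f := fun q => w q / v q ^ 6) (f' := fun _ => (0 : ℝ)) (C := 0) (x := 1) (y := p)
      (fun q hq => (dφ q hq).hasDerivWithinAt) (fun q _ => by simp) (mem_Ioi.mpr one_pos) (mem_Ioi.mpr hp)
    rw [zero_mul, norm_le_zero_iff, sub_eq_zero] at this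
    exact this
  -- behaviour at infinity
  have tl1 : Tendsto (fun X : ℝ => X ^ (1 - (1 / 2) : ℝ) * G1 X) (𝓝[>] 0) (𝓝 c1) := by
    refine l1.congr' ?_
    filter_upwards [self_mem_nhdsWithin] with X hX
    rw [Real.sqrt_eq_rpow]; congr 2; norm_num
  have tl1' : Tendsto (fun X : ℝ => X ^ (1 - (1 / 2 + 1) : ℝ) * (X * G1 X)) (𝓝[>] 0) (𝓝 c1) := by
    refine tl1.congr' ?_
    filter_upwards [self_mem_nhdsWithin] with X hX
    have hX0 : 0 < X := hX
    have : X ^ (1 - (1 / 2) : ℝ) = X ^ (1 - (1 / 2 + 1) : ℝ) * X := by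
      rw [← Real.rpow_add_one hX0.ne']; congr 1; ring
    rw [this]; ring
  have tl2 : Tendsto (fun X : ℝ => X ^ (1 - (3 / 2) : ℝ) * G2 X) (𝓝[>] 0) (𝓝 c2) := by
    refine l2.congr' ?_
    filter_upwards [self_mem_nhdsWithin] with X hX
    have hX0 : 0 < X := hX
    have : X ^ (1 - (3 / 2) : ℝ) = (√X)⁻¹ := by
      rw [Real.sqrt_eq_rpow, ← Real.rpow_neg hX0.le]; congr 1; norm_num
    rw [this]; ring
  have tl2' : Tendsto (fun X : ℝ => X ^ (1 - (3 / 2 + 1) : ℝ) * (X * G2 X)) (𝓝[>] 0) (𝓝 c2) := by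
    refine tl2.congr' ?_
    filter_upwards [self_mem_nhdsWithin] with X hX
    have hX0 : 0 < X := hX
    have : X ^ (1 - (3 / 2) : ℝ) = X ^ (1 - (3 / 2 + 1) : ℝ) * X := by
      rw [← Real.rpow_add_one hX0.ne']; congr 1; ring
    rw [this]; ring
  have w1 := hA1.watson (by norm_num) tl1
  have w1' := hA1.mulX.watson (by norm_num) tl1'
  have w2 := hA3.watson (by norm_num) tl2
  have w2' := hA3.mulX.watson (by norm_num) tl2'
  have wv := cylK_PB.watson (by norm_num) cylK_lim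
  have limw := (w1'.mul w2).sub (w1.mul w2')
  have limv := wv.pow 6
  have hpi : √Real.pi ≠ 0 := (Real.sqrt_pos.mpr Real.pi_pos).ne'
  have hne : (1 * Real.Gamma (1 / 2)) ^ 6 ≠ 0 := by
    rw [one_mul, Real.Gamma_one_half_eq]; exact pow_ne_zero _ hpi
  have limq := limw.div limv hne
  have hlimval : (c1 * Real.Gamma (1 / 2 + 1) * (c2 * Real.Gamma (3 / 2)) -
      c1 * Real.Gamma (1 / 2) * (c2 * Real.Gamma (3 / 2 + 1))) / (1 * Real.Gamma (1 / 2)) ^ 6
      ≠ 0 := by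
    refine div_ne_zero ?_ hne
    rw [show (1 / 2 + 1 : ℝ) = 3 / 2 by norm_num, show (3 / 2 + 1 : ℝ) = 5 / 2 by norm_num,
      gamma_three_half, gamma_five_half, Real.Gamma_one_half_eq]
    have : c1 * (1 / 2 * √Real.pi) * (c2 * (1 / 2 * √Real.pi)) -
        c1 * √Real.pi * (c2 * (3 / 4 * √Real.pi)) = -(1 / 2) * c1 * c2 * √Real.pi ^ 2 := by ring
    rw [this]
    exact mul_ne_zero (mul_ne_zero (mul_ne_zero (by norm_num) hc1) hc2) (pow_ne_zero _ hpi)
  have hval : w 1 / v 1 ^ 6 ≠ 0 := by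
    have hev : (fun p : ℝ => w p / v p ^ 6) =ᶠ[atTop] (fun p : ℝ =>
        (p ^ (1 / 2 + 1 : ℝ) * lap (fun X => X * G1 X) p * (p ^ (3 / 2 : ℝ) * lap G2 p) -
          p ^ (1 / 2 : ℝ) * lap G1 p * (p ^ (3 / 2 + 1 : ℝ) * lap (fun X => X * G2 X) p)) /
          (p ^ (1 / 2 : ℝ) * lap cylK p) ^ 6) := by
      filter_upwards [eventually_gt_atTop 0] with p hp
      have e3 : p ^ (1 / 2 + 1 : ℝ) * p ^ (3 / 2 : ℝ) = p ^ (3 : ℕ) := by
        rw [← Real.rpow_add hp, ← Real.rpow_natCast]; congr 1; norm_num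
      have e4 : p ^ (1 / 2 : ℝ) * p ^ (3 / 2 + 1 : ℝ) = p ^ (3 : ℕ) := by
        rw [← Real.rpow_add hp, ← Real.rpow_natCast]; congr 1; norm_num
      have e5 : (p ^ (1 / 2 : ℝ)) ^ 6 = p ^ (3 : ℕ) := by
        rw [← Real.rpow_natCast (p ^ (1 / 2 : ℝ)), ← Real.rpow_mul hp.le, ← Real.rpow_natCast p]
        congr 1; norm_num
      have e6 : p ^ (1 / 2 + 1 : ℝ) * lap (fun X => X * G1 X) p * (p ^ (3 / 2 : ℝ) * lap G2 p) -
          p ^ (1 / 2 : ℝ) * lap G1 p * (p ^ (3 / 2 + 1 : ℝ) * lap (fun X => X * G2 X) p)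
          = p ^ (3 : ℕ) * w p := by
        rw [hw]
        linear_combination (x1 p * u2 p) * e3 - (u1 p * x2 p) * e4
      rw [e6, mul_pow, e5]
      have hp3 : p ^ 3 ≠ 0 := (pow_pos hp 3).ne'
      rw [mul_div_mul_left _ _ hp3]
    have hlim2 : Tendsto (fun p : ℝ => w p / v p ^ 6) atTop (𝓝 (w 1 / v 1 ^ 6)) := by
      refine tendsto_const_nhds.congr' ?_
      filter_upwards [eventually_gt_atTop 0] with p hp
      exact (hconst p hp).symm
    rw [tendsto_nhds_unique (hlim2.congr' hev) limq]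
    exact hlimval
  -- behaviour at `0`
  obtain ⟨B1, hB10, hB1⟩ := lap_small hA1 d1 z1
  obtain ⟨B2, hB20, hB2⟩ := lap_small hA2 d2 z2
  obtain ⟨E1, hE10, hE1⟩ := lap_deriv_bd hA10 hA1 d1
  obtain ⟨E2, hE20, hE2⟩ := lap_deriv_bd hA20 hA2 d2
  have hv1 := vpos 1 one_pos
  have hbound : ∀ p : ℝ, 0 < p → p ≤ 1 →
      |w 1 / v 1 ^ 6| * v 1 ^ 6 ≤ (E1 * B2 + B1 * E2) * p ^ (3 / 8 : ℝ) := by
    intro p hp hp1
    have hvp := vpos p hp
    have hva : v 1 ≤ v p := lap_K_anti hp hp1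
    have e1 : |w p| = |w 1 / v 1 ^ 6| * v p ^ 6 := by
      rw [← hconst p hp, abs_div, abs_of_pos (pow_pos hvp 6), div_mul_cancel₀]
      exact (pow_pos hvp 6).ne'
    have e2 : |w 1 / v 1 ^ 6| * v 1 ^ 6 ≤ |w p| := by
      rw [e1]; gcongr
    refine e2.trans ?_
    have e3 : p ^ (-(1 / 4) : ℝ) * p ^ (5 / 8 : ℝ) = p ^ (3 / 8 : ℝ) := by
      rw [← Real.rpow_add hp]; congr 1; norm_num
    have a1 : |x1 p * u2 p| ≤ (E1 * p ^ (-(1 / 4) : ℝ)) * (B2 * p ^ (5 / 8 : ℝ)) := by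
      rw [abs_mul]
      exact mul_le_mul (hE1 p hp) (hB2 p hp) (abs_nonneg _) (by positivity)
    have a2 : |u1 p * x2 p| ≤ (B1 * p ^ (5 / 8 : ℝ)) * (E2 * p ^ (-(1 / 4) : ℝ)) := by
      rw [abs_mul]
      exact mul_le_mul (hB1 p hp) (hE2 p hp) (abs_nonneg _) (by positivity)
    calc |w p| ≤ |x1 p * u2 p| + |u1 p * x2 p| := abs_sub _ _
      _ ≤ (E1 * p ^ (-(1 / 4) : ℝ)) * (B2 * p ^ (5 / 8 : ℝ)) +
          (B1 * p ^ (5 / 8 : ℝ)) * (E2 * p ^ (-(1 / 4) : ℝ)) := add_le_add a1 a2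
      _ = (E1 * B2 + B1 * E2) * (p ^ (-(1 / 4) : ℝ) * p ^ (5 / 8 : ℝ)) := by ring
      _ = _ := by rw [e3]
  have hlim0 : Tendsto (fun p : ℝ => (E1 * B2 + B1 * E2) * p ^ (3 / 8 : ℝ)) (𝓝[>] 0) (𝓝 0) := by
    have hc : Tendsto (fun p : ℝ => p ^ (3 / 8 : ℝ)) (𝓝[>] 0) (𝓝 0) := by
      have := (Real.continuousAt_rpow_const (0 : ℝ) (3 / 8) (Or.inr (by norm_num))).tendsto
      rw [Real.zero_rpow (by norm_num)] at this
      exact this.mono_left nhdsWithin_le_nhds
    have := hc.const_mul (E1 * B2 + B1 * E2)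
    rwa [mul_zero] at this
  have hle : |w 1 / v 1 ^ 6| * v 1 ^ 6 ≤ 0 := by
    refine ge_of_tendsto hlim0 ?_
    have : ∀ᶠ p in 𝓝[>] (0 : ℝ), p ∈ Ioc (0 : ℝ) 1 := Ioc_mem_nhdsGT one_pos
    filter_upwards [this] with p hp
    exact hbound p hp.1 hp.2
  have hpos : 0 < |w 1 / v 1 ^ 6| * v 1 ^ 6 := mul_pos (abs_pos.mpr hval) (pow_pos hv1 6)
  linarith

/-- A continuous function on `(0,∞)`, integrable with integral zero and not identically zero,
takes both signs. -/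
theorem both_signs {G : ℝ → ℝ} (hc : ContinuousOn G (Ioi 0)) (hi : IntegrableOn G (Ioi 0))
    (h0 : ∫ X in Ioi (0 : ℝ), G X = 0) (hne : ∃ X : ℝ, 0 < X ∧ G X ≠ 0) :
    (∃ X : ℝ, 0 < X ∧ 0 < G X) ∧ (∃ X : ℝ, 0 < X ∧ G X < 0) := by
  have key : ∀ F : ℝ → ℝ, ContinuousOn F (Ioi 0) → IntegrableOn F (Ioi 0) →
      ∫ X in Ioi (0 : ℝ), F X = 0 → (∃ X : ℝ, 0 < X ∧ F X ≠ 0) → ∃ X : ℝ, 0 < X ∧ F X < 0 := by
    intro F hF hFi hF0 hFne
    by_contra hcon
    push Not at hcon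
    obtain ⟨X0, hX0, hFX⟩ := hFne
    have hpos : 0 < ∫ X in Ioi (0 : ℝ), F X := by
      refine (setIntegral_pos_iff_support_of_nonneg_ae ?_ hFi).mpr ?_
      · exact (ae_restrict_iff' measurableSet_Ioi).mpr
          (Eventually.of_forall fun X hX => hcon X hX)
      · have hat : ContinuousAt F X0 := hF.continuousAt (Ioi_mem_nhds hX0)
        have hev : ∀ᶠ X in 𝓝 X0, F X ≠ 0 := hat.eventually_ne hFX
        have hev2 : ∀ᶠ X in 𝓝 X0, X ∈ Function.support F ∩ Ioi 0 := by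
          filter_upwards [hev, Ioi_mem_nhds hX0] with X h1 h2
          exact ⟨h1, h2⟩
        exact MeasureTheory.Measure.measure_pos_of_mem_nhds volume hev2
    linarith
  refine ⟨?_, key G hc hi h0 hne⟩
  obtain ⟨X0, hX0, hGX⟩ := hne
  obtain ⟨X, hX, hneg⟩ := key (fun X => -G X) hc.neg hi.neg (by rw [integral_neg, h0, neg_zero])
    ⟨X0, hX0, neg_ne_zero.mpr hGX⟩
  exact ⟨X, hX, by linarith⟩

/-- integrability of a solution with decay -/
theorem CylSol.int {G : ℝ → ℝ} (h : CylSol G) (hd : Decay G) : IntegrableOn G (Ioi 0) := by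
  obtain ⟨A, hA0, hA⟩ := h.pb hd
  obtain ⟨D, hD⟩ := hd
  rw [← Ioc_union_Ioi_eq_Ioi (zero_le_one (α := ℝ)), integrableOn_union]
  constructor
  · have h1 : IntegrableOn (fun X : ℝ => A * X ^ ((1 / 2 : ℝ) - 1)) (Ioc 0 1) := by
      have := (intervalIntegral.intervalIntegrable_rpow' (a := 0) (b := 1)
        (r := (1 / 2 - 1)) (by norm_num)).const_mul A
      rwa [intervalIntegrable_iff_integrableOn_Ioc_of_le zero_le_one] at this
    refine Integrable.mono' h1
      (hA.meas.mono_measure (Measure.restrict_mono Ioc_subset_Ioi_self le_rfl)) ?_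
    exact (ae_restrict_iff' measurableSet_Ioc).mpr
      (Eventually.of_forall fun X hX => hA.bd X hX.1)
  · have h1 : IntegrableOn (fun X : ℝ => D * X ^ (-(7 / 4) : ℝ)) (Ioi 1) :=
      (integrableOn_Ioi_rpow_of_lt (by norm_num) one_pos).const_mul D
    refine Integrable.mono' h1
      (hA.meas.mono_measure (Measure.restrict_mono (Ioi_subset_Ioi zero_le_one) le_rfl)) ?_
    exact (ae_restrict_iff' measurableSet_Ioi).mpr
      (Eventually.of_forall fun X hX => hD X (le_of_lt hX))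

end Pool.Agent.Lib.MP_85963d_gt.H87
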