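import Pool.Agent.Lib.MP_85963d_gt.H87.AB3

/-!
# Section 7, main theorems (helper87): extension, uniqueness, dimension, continuity in the weight
-/

open MeasureTheory Set Filter Topology Real

namespace Pool.Agent.Lib.MP_85963d_gt.H87

variable {b A c C : ℝ} {ω ω' : ℝ → ℝ → ℝ} {m : ℝ → ℝ → ℝ}

theorem fix_unique {δ α β : ℝ} {g₁ g₂ : ℝ → ℝ} (hm : MK b C m) (hC : 0 ≤ C) (hδ : 0 < δ)
    (hδb : δ ≤ b) (hδs : 120 * C * δ ≤ 1) (h1 : ContinuousOn g₁ (Icc 0 b))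
    (h2 : ContinuousOn g₂ (Icc 0 b))
    (hf1 : ∀ σ ∈ Icc (0 : ℝ) b, g₁ σ = α + β * σ + TT m δ g₁ σ)
    (hf2 : ∀ σ ∈ Icc (0 : ℝ) b, g₂ σ = α + β * σ + TT m δ g₂ σ) :
    ∀ σ ∈ Icc (0 : ℝ) b, g₁ σ = g₂ σ := by
  intro σ hσ
  have h3 : ContinuousOn (fun X => g₁ X - g₂ X) (Icc 0 b) := h1.sub h2
  have h4 := apriori (lam := 2 / δ) (F := 0) hm hC hδ hδb (by field_simp) hδs h3 (fun τ hτ => ?_)
    σ hσ
  · rw [mul_zero, zero_mul] at h4
    have := abs_nonpos_iff.mp h4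
    linarith
  · rw [TT_sub hm hC hδ hδb h1 h2 hτ, hf1 τ hτ, hf2 τ hτ]
    rw [show α + β * τ + TT m δ g₁ τ - (α + β * τ + TT m δ g₂ τ) -
      (TT m δ g₁ τ - TT m δ g₂ τ) = 0 by ring]
    simp

theorem Rg_local {m₁ m₂ : ℝ → ℝ → ℝ} {g₁ g₂ : ℝ → ℝ} {x : ℝ}
    (hm : ∀ X σ, 0 < X → X < σ → σ ≤ x → m₁ X σ = m₂ X σ) (hg : ∀ X ∈ Ioc 0 x, g₁ X = g₂ X)
    {σ : ℝ} (hσ : σ ≤ x) : Rg m₁ g₁ σ = Rg m₂ g₂ σ := by
  unfold Rg RR
  refine setIntegral_congr_fun measurableSet_Ioo (fun X hX => ?_)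
  simp only
  rw [hm X σ hX.1 hX.2 hσ, hg X ⟨hX.1, hX.2.le.trans hσ⟩]

theorem TT_local {m₁ m₂ : ℝ → ℝ → ℝ} {g₁ g₂ : ℝ → ℝ} {x δ : ℝ} (hδx : δ ≤ x)
    (hm : ∀ X σ, 0 < X → X < σ → σ ≤ x → m₁ X σ = m₂ X σ) (hg : ∀ X ∈ Ioc 0 x, g₁ X = g₂ X)
    {σ : ℝ} (hσ0 : 0 ≤ σ) (hσ : σ ≤ x) : TT m₁ δ g₁ σ = TT m₂ δ g₂ σ := by
  unfold TT
  rw [Rg_local hm hg hσ]
  have e1 : ∫ X in (0 : ℝ)..σ, Rg m₁ g₁ X / √X = ∫ X in (0 : ℝ)..σ, Rg m₂ g₂ X / √X := by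
    refine intervalIntegral.integral_congr (fun X hX => ?_)
    rw [uIcc_of_le hσ0] at hX
    rw [Rg_local hm hg (hX.2.trans hσ)]
  have e2 : ∫ X in δ..σ, Rg m₁ g₁ X / (X * √X) = ∫ X in δ..σ, Rg m₂ g₂ X / (X * √X) := by
    refine intervalIntegral.integral_congr (fun X hX => ?_)
    have hXx : X ≤ x := by
      rcases le_total δ σ with h | h
      · rw [uIcc_of_le h] at hX; exact hX.2.trans hσ
      · rw [uIcc_of_ge h] at hX; exact hX.2.trans hδx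
    rw [Rg_local hm hg hXx]
  rw [e1, e2]

theorem data_local {m₁ m₂ : ℝ → ℝ → ℝ} {g₁ g₂ : ℝ → ℝ} {x δ α₁ β₁ α₂ β₂ : ℝ} (hx : 0 < x)
    (hδx : δ ≤ x) (hm : ∀ X σ, 0 < X → X < σ → σ ≤ x → m₁ X σ = m₂ X σ)
    (hg : ∀ X ∈ Ioc 0 x, g₁ X = g₂ X)
    (hf1 : ∀ σ ∈ Icc (0 : ℝ) x, g₁ σ = α₁ + β₁ * σ + TT m₁ δ g₁ σ)
    (hf2 : ∀ σ ∈ Icc (0 : ℝ) x, g₂ σ = α₂ + β₂ * σ + TT m₂ δ g₂ σ) : α₁ = α₂ ∧ β₁ = β₂ := by
  have key : ∀ σ ∈ Ioc (0 : ℝ) x, α₁ + β₁ * σ = α₂ + β₂ * σ := by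
    intro σ hσ
    have h1 := hf1 σ ⟨hσ.1.le, hσ.2⟩
    have h2 := hf2 σ ⟨hσ.1.le, hσ.2⟩
    have h3 := TT_local hδx hm hg hσ.1.le hσ.2
    have h4 := hg σ hσ
    linarith
  have k1 := key x ⟨hx, le_rfl⟩
  have k2 := key (x / 2) ⟨by linarith, by linarith⟩
  have hb : β₁ = β₂ := by
    have : (β₁ - β₂) * (x / 2) = 0 := by linarith
    rcases mul_eq_zero.mp this with h | h
    · linarith
    · linarith
  subst hb
  exact ⟨by linarith, rfl⟩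

/-- extension of solutions -/
theorem extend (h : WT b A c ω ω') (hb : 0 < b) (hc : 0 < c) {x : ℝ} (hx : 0 < x) (hxb : x ≤ b)
    {G₀ : ℝ → ℝ} (hG₀ : SolW x ω G₀) :
    ∃ G : ℝ → ℝ, SolW b ω G ∧ ∀ X ∈ Ioc (0 : ℝ) x, G X = G₀ X := by
  have hm := h.toMK hb hc
  have hmx := (h.mono hxb).toMK hx hc
  have hC := hm.C_nonneg hb
  obtain ⟨δ, hδ, hδx, hδs⟩ := exists_delta _ hC hx
  have hδb := hδx.trans hxb
  obtain ⟨α, β, g₀, hg₀, -, hGg, hfix⟩ := fix_of_sv hmx hC hδ hδx (hG₀.sv (h.mono hxb) hx hc)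
  obtain ⟨g, hg, hgf⟩ := exists_fix (lam := 2 / δ) hm hC hδ hδb (by field_simp) hδs
    (f := fun σ => α + β * σ) (by fun_prop)
  have hu := fix_unique hmx hC hδ hδx hδs hg.continuousOn hg₀
    (fun σ hσ => hgf σ ⟨hσ.1, hσ.2.trans hxb⟩) hfix
  refine ⟨fun X => g X / √X, ?_, fun X hX => ?_⟩
  · exact (sv_of_fix hm hC hδ hδb hg.continuousOn hgf).solW h hb hc
  · simp only
    rw [hGg X hX, hu X ⟨hX.1.le, hX.2⟩]

/-- two solutions which agree near `0` agree -/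
theorem unique_cont (h : WT b A c ω ω') (hb : 0 < b) (hc : 0 < c) {x : ℝ} (hx : 0 < x) (hxb : x ≤ b)
    {G₁ G₂ : ℝ → ℝ} (h1 : SolW b ω G₁) (h2 : SolW b ω G₂) (he : ∀ X ∈ Ioc (0 : ℝ) x, G₁ X = G₂ X) :
    ∀ X ∈ Ioc (0 : ℝ) b, G₁ X = G₂ X := by
  have hm := h.toMK hb hc
  have hC := hm.C_nonneg hb
  obtain ⟨δ, hδ, hδx, hδs⟩ := exists_delta _ hC hx
  have hδb := hδx.trans hxb
  obtain ⟨α₁, β₁, g₁, hg₁, -, hGg₁, hfix₁⟩ := fix_of_sv hm hC hδ hδb (h1.sv h hb hc)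
  obtain ⟨α₂, β₂, g₂, hg₂, -, hGg₂, hfix₂⟩ := fix_of_sv hm hC hδ hδb (h2.sv h hb hc)
  have heq : ∀ X ∈ Ioc (0 : ℝ) x, g₁ X = g₂ X := by
    intro X hX
    have hs : √X ≠ 0 := (Real.sqrt_pos.mpr hX.1).ne'
    have a1 := hGg₁ X ⟨hX.1, hX.2.trans hxb⟩
    have a2 := hGg₂ X ⟨hX.1, hX.2.trans hxb⟩
    have a3 := he X hX
    rw [a1, a2] at a3
    field_simp at a3
    exact a3
  obtain ⟨ea, eb⟩ := data_local hx hδx (fun X σ _ _ _ => rfl) heq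
    (fun σ hσ => hfix₁ σ ⟨hσ.1, hσ.2.trans hxb⟩) (fun σ hσ => hfix₂ σ ⟨hσ.1, hσ.2.trans hxb⟩)
  subst ea eb
  have hu := fix_unique hm hC hδ hδb hδs hg₁ hg₂ hfix₁ hfix₂
  intro X hX
  rw [hGg₁ X hX, hGg₂ X hX, hu X ⟨hX.1.le, hX.2⟩]

theorem SolW.congr {G G' : ℝ → ℝ} (h : SolW b ω G) (he : ∀ X ∈ Ioc (0 : ℝ) b, G' X = G X) :
    SolW b ω G' where
  cont := h.cont.congr he
  int := h.int.congr_fun (fun X hX => (he X ⟨hX.1, hX.2.le⟩).symm) measurableSet_Ioo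
  eq := by
    filter_upwards [h.eq, ae_restrict_mem measurableSet_Ioo] with s hs hsb
    rw [← hs, TG, TG]
    refine setIntegral_congr_fun measurableSet_Ioo (fun X hX => ?_)
    rw [he X ⟨hX.1, (hX.2.trans hsb.2).le⟩]

/-- restriction of solutions -/
theorem SolW.mono {G : ℝ → ℝ} (h : SolW b ω G) {x : ℝ} (hxb : x ≤ b) : SolW x ω G where
  cont := h.cont.mono (Ioc_subset_Ioc_right hxb)
  int := h.int.mono_set (Ioo_subset_Ioo_right hxb)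
  eq := ae_mono (Measure.restrict_mono (Ioo_subset_Ioo_right hxb) le_rfl) h.eq

/-- a solution is a solution of any equation whose weight agrees on the triangle -/
theorem SolW.congr_weight {ω₁ : ℝ → ℝ → ℝ} {G : ℝ → ℝ} (h : SolW b ω G)
    (he : ∀ X Y, 0 < X → 0 ≤ Y → X + Y ≤ b → ω₁ X Y = ω X Y) : SolW b ω₁ G where
  cont := h.cont
  int := h.int
  eq := by
    filter_upwards [h.eq, ae_restrict_mem measurableSet_Ioo] with s hs hsb
    rw [← hs, TG, TG]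
    refine setIntegral_congr_fun measurableSet_Ioo (fun X hX => ?_)
    simp only [HK]
    rw [he X (s - X) hX.1 (by linarith [hX.2]) (by linarith [hsb.2])]

/-- linear combinations of solutions -/
theorem SVsol.lin {G₁ G₂ : ℝ → ℝ} (hm : MK b C m) (h1 : SVsol b m G₁) (h2 : SVsol b m G₂)
    (p q : ℝ) : SVsol b m (fun X => p * G₁ X + q * G₂ X) where
  cont := (continuousOn_const.mul h1.cont).add (continuousOn_const.mul h2.cont)
  int := (h1.int.const_mul p).add (h2.int.const_mul q)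
  eq := by
    intro σ hσ
    have i1 : IntervalIntegrable G₁ volume 0 σ := by
      rw [intervalIntegrable_iff_integrableOn_Ioo_of_le hσ.1.le]
      exact h1.int.mono_set (Ioo_subset_Ioo_right hσ.2)
    have i2 : IntervalIntegrable G₂ volume 0 σ := by
      rw [intervalIntegrable_iff_integrableOn_Ioo_of_le hσ.1.le]
      exact h2.int.mono_set (Ioo_subset_Ioo_right hσ.2)
    have j1 : IntervalIntegrable (fun X => X * G₁ X) volume 0 σ :=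
      i1.continuousOn_mul (by fun_prop)
    have j2 : IntervalIntegrable (fun X => X * G₂ X) volume 0 σ :=
      i2.continuousOn_mul (by fun_prop)
    have e1 : ∫ X in (0 : ℝ)..σ, (p * G₁ X + q * G₂ X) =
        p * (∫ X in (0 : ℝ)..σ, G₁ X) + q * ∫ X in (0 : ℝ)..σ, G₂ X := by
      rw [intervalIntegral.integral_add (i1.const_mul p) (i2.const_mul q),
        intervalIntegral.integral_const_mul, intervalIntegral.integral_const_mul]
    have e2 : ∫ X in (0 : ℝ)..σ, X * (p * G₁ X + q * G₂ X) =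
        p * (∫ X in (0 : ℝ)..σ, X * G₁ X) + q * ∫ X in (0 : ℝ)..σ, X * G₂ X := by
      have : ∀ X : ℝ, X * (p * G₁ X + q * G₂ X) = p * (X * G₁ X) + q * (X * G₂ X) :=
        fun X => by ring
      simp only [this]
      rw [intervalIntegral.integral_add (j1.const_mul p) (j2.const_mul q),
        intervalIntegral.integral_const_mul, intervalIntegral.integral_const_mul]
    have e3 : RR m (fun X => p * G₁ X + q * G₂ X) σ = p * RR m G₁ σ + q * RR m G₂ σ := by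
      rw [RR, RR, RR]
      have : ∀ X : ℝ, m X σ * (p * G₁ X + q * G₂ X) = p * (m X σ * G₁ X) + q * (m X σ * G₂ X) :=
        fun X => by ring
      simp only [this]
      rw [integral_add ((hm.integrable h1.int hσ.2).const_mul p)
        ((hm.integrable h2.int hσ.2).const_mul q), integral_const_mul, integral_const_mul]
    rw [e1, e2, e3, h1.eq σ hσ, h2.eq σ hσ]
    ring

theorem SolW.lin (h : WT b A c ω ω') (hb : 0 < b) (hc : 0 < c) {G₁ G₂ : ℝ → ℝ}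
    (h1 : SolW b ω G₁) (h2 : SolW b ω G₂) (p q : ℝ) :
    SolW b ω (fun X => p * G₁ X + q * G₂ X) :=
  ((h1.sv h hb hc).lin (h.toMK hb hc) (h2.sv h hb hc) p q).solW h hb hc

/-- solutions are `O(1/√X)`, and `√X G(X)` extends continuously to `0` -/
theorem SolW.bound (h : WT b A c ω ω') (hb : 0 < b) (hc : 0 < c) {G : ℝ → ℝ}
    (hG : SolW b ω G) :
    ∃ g : ℝ → ℝ, ContinuousOn g (Icc 0 b) ∧ (∀ X ∈ Ioc (0 : ℝ) b, G X = g X / √X) ∧
      ∃ K : ℝ, 0 ≤ K ∧ ∀ X ∈ Ioc (0 : ℝ) b, |G X| ≤ K / √X := by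
  have hm := h.toMK hb hc
  have hC := hm.C_nonneg hb
  obtain ⟨δ, hδ, hδb, hδs⟩ := exists_delta _ hC hb
  obtain ⟨α, β, g, hg, -, hGg, -⟩ := fix_of_sv hm hC hδ hδb (hG.sv h hb hc)
  obtain ⟨K, hK⟩ := isCompact_Icc.exists_bound_of_continuousOn hg
  have hK0 : 0 ≤ K := (norm_nonneg _).trans (hK 0 ⟨le_rfl, hb.le⟩)
  refine ⟨g, hg, hGg, K, hK0, fun X hX => ?_⟩
  rw [hGg X hX, abs_div, abs_of_nonneg (Real.sqrt_nonneg X)]
  gcongr
  exact hK X ⟨hX.1.le, hX.2⟩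

/-- the space of solutions has dimension two -/
theorem basis (h : WT b A c ω ω') (hb : 0 < b) (hc : 0 < c) :
    ∃ G₁ G₂ : ℝ → ℝ, SolW b ω G₁ ∧ SolW b ω G₂ ∧
      (∀ G : ℝ → ℝ, SolW b ω G → ∃ p q : ℝ, ∀ X ∈ Ioc (0 : ℝ) b, G X = p * G₁ X + q * G₂ X) ∧
      (∀ x ∈ Ioc (0 : ℝ) b, ∀ p q : ℝ, (∀ X ∈ Ioc (0 : ℝ) x, p * G₁ X + q * G₂ X = 0) →
        p = 0 ∧ q = 0) := by
  have hm := h.toMK hb hc
  have hC := hm.C_nonneg hb
  obtain ⟨δ, hδ, hδb, hδs⟩ := exists_delta _ hC hb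
  obtain ⟨g₁, hg₁, hf₁⟩ := exists_fix (lam := 2 / δ) hm hC hδ hδb (by field_simp) hδs
    (f := fun σ => 1 + 0 * σ) (by fun_prop)
  obtain ⟨g₂, hg₂, hf₂⟩ := exists_fix (lam := 2 / δ) hm hC hδ hδb (by field_simp) hδs
    (f := fun σ => 0 + 1 * σ) (by fun_prop)
  have hs1 := (sv_of_fix hm hC hδ hδb hg₁.continuousOn hf₁).solW h hb hc
  have hs2 := (sv_of_fix hm hC hδ hδb hg₂.continuousOn hf₂).solW h hb hc
  refine ⟨fun X => g₁ X / √X, fun X => g₂ X / √X, hs1, hs2, ?_, ?_⟩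
  · intro G hG
    obtain ⟨α, β, g, hg, -, hGg, hfix⟩ := fix_of_sv hm hC hδ hδb (hG.sv h hb hc)
    have hc1 : ContinuousOn (fun X => α * g₁ X) (Icc 0 b) := continuousOn_const.mul hg₁.continuousOn
    have hc2 : ContinuousOn (fun X => β * g₂ X) (Icc 0 b) := continuousOn_const.mul hg₂.continuousOn
    have hu := fix_unique hm hC hδ hδb hδs (α := α) (β := β) hg (hc1.add hc2) hfix (fun σ hσ => by
      have e1 := TT_add hm hC hδ hδb hc1 hc2 hσ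
      have e2 : TT (mW ω ω') δ ((fun X => α * g₁ X) + fun X => β * g₂ X) σ =
        TT (mW ω ω') δ (fun X => α * g₁ X + β * g₂ X) σ := rfl
      rw [e2, e1, TT_smul, TT_smul]
      simp only [Pi.add_apply]
      rw [hf₁ σ hσ, hf₂ σ hσ]
      ring)
    refine ⟨α, β, fun X hX => ?_⟩
    rw [hGg X hX, hu X ⟨hX.1.le, hX.2⟩]
    simp only [Pi.add_apply]
    ring
  · intro x hx p q hpq
    have hG := hs1.lin h hb hc hs2 p q
    have hz : SolW b ω (fun _ => 0) := by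
      have := hs1.lin h hb hc hs2 0 0
      simpa using this
    have hu := unique_cont h hb hc hx.1 hx.2 hG hz hpq
    have hgz : ∀ X ∈ Ioc (0 : ℝ) b, p * g₁ X + q * g₂ X = 0 := by
      intro X hX
      have h1 := hu X hX
      have hs : √X ≠ 0 := (Real.sqrt_pos.mpr hX.1).ne'
      field_simp at h1
      linarith
    have hc1 : ContinuousOn (fun X => p * g₁ X) (Icc 0 b) := continuousOn_const.mul hg₁.continuousOn
    have hc2 : ContinuousOn (fun X => q * g₂ X) (Icc 0 b) := continuousOn_const.mul hg₂.continuousOn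
    have hd := data_local (m₁ := mW ω ω') (m₂ := mW ω ω') (g₁ := fun X => p * g₁ X + q * g₂ X)
      (g₂ := fun _ => 0) (α₁ := p) (β₁ := q) (α₂ := 0) (β₂ := 0) hb hδb
      (fun X σ _ _ _ => rfl) hgz (fun σ hσ => by
        rw [TT_add hm hC hδ hδb hc1 hc2 hσ, TT_smul, TT_smul]
        rw [hf₁ σ hσ, hf₂ σ hσ]
        ring) (fun σ hσ => by
        have : TT (mW ω ω') δ (fun _ => (0 : ℝ)) σ = 0 := by
          have := TT_smul (m := mW ω ω') (δ := δ) 0 (fun _ => (0 : ℝ)) σ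
          simpa using this
        rw [this]; ring)
    exact hd

end Pool.Agent.Lib.MP_85963d_gt.H87
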