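import Pool.Agent.Lib.MP_85963d_gt.H87.SV4

/-!
# Singular Volterra equation, part 5: unique continuation, leading coefficient (helper87)
-/

open MeasureTheory Set Filter Topology

namespace Pool.Agent.Lib.MP_85963d_gt.H87

variable {b C : ℝ} {m : ℝ → ℝ → ℝ}

/-- a good value of `δ`, below any prescribed bound -/
theorem exists_delta (C : ℝ) (hC : 0 ≤ C) {x : ℝ} (hx : 0 < x) :
    ∃ δ : ℝ, 0 < δ ∧ δ ≤ x ∧ 120 * C * δ ≤ 1 := by
  refine ⟨min x (1 / (120 * (C + 1))), lt_min hx (by positivity), min_le_left _ _, ?_⟩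
  have h : min x (1 / (120 * (C + 1))) ≤ 1 / (120 * (C + 1)) := min_le_right _ _
  calc 120 * C * min x (1 / (120 * (C + 1))) ≤ 120 * C * (1 / (120 * (C + 1))) := by gcongr
    _ = C / (C + 1) := by field_simp
    _ ≤ 1 := by rw [div_le_one (by linarith)]; linarith

theorem Rg_zero_of {g : ℝ → ℝ} {x σ : ℝ} (hσ : σ ≤ x) (hg : ∀ X ∈ Ioo (0 : ℝ) x, g X = 0) :
    Rg m g σ = 0 := by
  unfold Rg RR
  refine setIntegral_eq_zero_of_forall_eq_zero (fun X hX => ?_)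
  simp only [hg X ⟨hX.1, lt_of_lt_of_le hX.2 hσ⟩, zero_div, mul_zero]

/-- unique continuation: a solution that vanishes near `0` vanishes -/
theorem vanish {G : ℝ → ℝ} (hm : MK b C m) (hb : 0 < b) (hG : SVsol b m G) {x : ℝ} (hx : 0 < x)
    (h0 : ∀ X ∈ Ioo (0 : ℝ) x, X ≤ b → G X = 0) : ∀ σ ∈ Ioc (0 : ℝ) b, G σ = 0 := by
  have hC := hm.C_nonneg hb
  obtain ⟨δ, hδ, hδx, hδs⟩ := exists_delta C hC (x := min b (x / 2)) (lt_min hb (by linarith))
  have hδb : δ ≤ b := hδx.trans (min_le_left _ _)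
  have hδx' : δ < x := lt_of_le_of_lt (hδx.trans (min_le_right _ _)) (by linarith)
  obtain ⟨α, β, g, hg, hg0, hGg, hfix⟩ := fix_of_sv hm hC hδ hδb hG
  have hgz : ∀ X ∈ Ioo (0 : ℝ) (min x b), g X = 0 := by
    intro X hX
    have h1 := hGg X ⟨hX.1, (hX.2.le.trans (min_le_right _ _))⟩
    rw [h0 X ⟨hX.1, lt_of_lt_of_le hX.2 (min_le_left _ _)⟩ (hX.2.le.trans (min_le_right _ _))]
      at h1
    have hs : √X ≠ 0 := (Real.sqrt_pos.mpr hX.1).ne'
    rcases div_eq_zero_iff.mp h1.symm with h | h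
    · exact h
    · exact absurd h hs
  have hxb : 0 < min x b := lt_min hx hb
  -- `α = 0`
  have hα : α = 0 := by
    have h1 : Tendsto g (𝓝[Ioo 0 (min x b)] 0) (𝓝 (g 0)) :=
      (hg 0 ⟨le_rfl, hb.le⟩).mono_left (nhdsWithin_mono _ (fun X hX =>
        ⟨hX.1.le, hX.2.le.trans (min_le_right _ _)⟩))
    have h2 : Tendsto g (𝓝[Ioo 0 (min x b)] 0) (𝓝 0) := by
      refine tendsto_const_nhds.congr' ?_
      filter_upwards [self_mem_nhdsWithin] with X hX
      exact (hgz X hX).symm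
    have : (𝓝[Ioo 0 (min x b)] (0 : ℝ)).NeBot := by
      rw [← mem_closure_iff_nhdsWithin_neBot, closure_Ioo hxb.ne]
      exact ⟨le_rfl, hxb.le⟩
    rw [← hg0]
    exact tendsto_nhds_unique h1 h2
  -- `β = 0`
  have hδm : δ < min x b ∨ δ = b := by
    rcases lt_or_eq_of_le hδb with h | h
    · exact Or.inl (lt_min hδx' h)
    · exact Or.inr h
  have hβ : β = 0 := by
    set σ : ℝ := δ / 2 with hσ
    have hσ0 : 0 < σ := by rw [hσ]; linarith
    have hσδ : σ < δ := by rw [hσ]; linarith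
    have hσm : σ ∈ Ioo (0 : ℝ) (min x b) := ⟨hσ0, lt_min (lt_trans hσδ hδx') (lt_of_lt_of_le hσδ hδb)⟩
    have h1 := hfix σ ⟨hσ0.le, hσm.2.le.trans (min_le_right _ _)⟩
    have hR : ∀ X : ℝ, X ≤ min x b → Rg m g X = 0 := fun X hX => Rg_zero_of hX hgz
    have h2 : TT m δ g σ = 0 := by
      unfold TT
      have e1 : ∫ X in (0 : ℝ)..σ, Rg m g X / √X = 0 := by
        refine (intervalIntegral.integral_congr (g := fun _ => (0 : ℝ)) (fun X hX => ?_)).trans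
          (by simp)
        rw [uIcc_of_le hσ0.le] at hX
        simp only
        rw [hR X (hX.2.trans hσm.2.le), zero_div]
      have e2 : ∫ X in δ..σ, Rg m g X / (X * √X) = 0 := by
        refine (intervalIntegral.integral_congr (g := fun _ => (0 : ℝ)) (fun X hX => ?_)).trans
          (by simp)
        rw [uIcc_of_ge hσδ.le] at hX
        simp only
        rw [hR X (hX.2.trans (le_min hδx'.le hδb)), zero_div]
      rw [e1, e2, hR σ hσm.2.le]; ring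
    rw [hgz σ hσm, h2, hα] at h1
    have : β * σ = 0 := by linarith
    rcases mul_eq_zero.mp this with h | h
    · exact h
    · exact absurd h hσ0.ne'
  -- conclusion
  have hld : 2 / δ * δ = 2 := by field_simp
  have hz := apriori (F := 0) (h := g) hm hC hδ hδb hld hδs hg (fun σ hσ => by
    rw [hfix σ hσ, hα, hβ]; simp)
  intro σ hσ
  have h1 := hz σ ⟨hσ.1.le, hσ.2⟩
  have h2 : g σ = 0 := by
    have : |g σ| ≤ 0 := by simpa using h1
    exact abs_nonpos_iff.mp this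
  rw [hGg σ hσ, h2, zero_div]

/-- near `0`, `T g = O(√σ)` -/
theorem TT_sqrt {g : ℝ → ℝ} {δ : ℝ} (hm : MK b C m) (hC : 0 ≤ C) (hδ : 0 < δ) (hδb : δ ≤ b)
    (hg : ContinuousOn g (Icc 0 b)) :
    ∃ K : ℝ, 0 ≤ K ∧ ∀ σ ∈ Ioc (0 : ℝ) δ, |TT m δ g σ| ≤ K * √σ := by
  have hb : 0 < b := lt_of_lt_of_le hδ hδb
  obtain ⟨M, hM0, hgM⟩ := bound_of_cont hg hb
  set E := Real.exp (1 * b) with hE
  have hEpos : 0 < E := Real.exp_pos _
  refine ⟨2 * C * M * E * √b + 3 / 2 * C * M * E * √b + 15 * C * M * E * √δ, by positivity, ?_⟩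
  intro σ hσ
  have hσb : σ ∈ Ioc (0 : ℝ) b := ⟨hσ.1, hσ.2.trans hδb⟩
  have hs : 0 < √σ := Real.sqrt_pos.mpr hσ.1
  have hsb : √σ ≤ √b := Real.sqrt_le_sqrt hσb.2
  have hexp : Real.exp (1 * σ) ≤ E := Real.exp_le_exp.mpr (by linarith [hσb.2])
  have hexpδ : Real.exp (1 * δ) ≤ E := Real.exp_le_exp.mpr (by linarith)
  have a1 : |√σ * Rg m g σ| ≤ 2 * C * M * E * √b * √σ := by
    rw [abs_mul, abs_of_pos hs]
    calc √σ * |Rg m g σ| ≤ √σ * (2 * C * M * √σ * Real.exp (1 * σ)) := by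
          gcongr; exact Rg_le1 hm hC hM0 one_pos hgM hσb
      _ ≤ √σ * (2 * C * M * √b * E) := by gcongr
      _ = _ := by ring
  have a2 : |3 / 4 * ∫ X in (0 : ℝ)..σ, Rg m g X / √X| ≤ 3 / 2 * C * M * E * √b * √σ := by
    rw [abs_mul, abs_of_pos (by norm_num : (0 : ℝ) < 3 / 4)]
    have h1 : |∫ X in (0 : ℝ)..σ, Rg m g X / √X| ≤ 2 * C * M * E * |σ - 0| := by
      rw [← Real.norm_eq_abs]
      refine intervalIntegral.norm_integral_le_of_norm_le_const (fun X hX => ?_)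
      rw [uIoc_of_le hσ.1.le] at hX
      have hsX : 0 < √X := Real.sqrt_pos.mpr hX.1
      rw [Real.norm_eq_abs, abs_div, abs_of_pos hsX, div_le_iff₀ hsX]
      refine (Rg_le1 hm hC hM0 one_pos hgM ⟨hX.1, hX.2.trans hσb.2⟩).trans ?_
      have : Real.exp (1 * X) ≤ E := Real.exp_le_exp.mpr (by linarith [hX.2, hσb.2])
      calc 2 * C * M * √X * Real.exp (1 * X) ≤ 2 * C * M * √X * E := by gcongr
        _ = _ := by ring
    rw [sub_zero, abs_of_pos hσ.1] at h1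
    have hsq : √σ * √σ = σ := Real.mul_self_sqrt hσ.1.le
    calc 3 / 4 * |∫ X in (0 : ℝ)..σ, Rg m g X / √X| ≤ 3 / 4 * (2 * C * M * E * σ) := by gcongr
      _ = 3 / 2 * C * M * E * √σ * √σ := by rw [mul_assoc _ √σ √σ, hsq]; ring
      _ ≤ 3 / 2 * C * M * E * √b * √σ := by gcongr
  have a3 : |15 / 4 * (σ * ∫ X in δ..σ, Rg m g X / (X * √X))| ≤
      15 * C * M * E * √δ * √σ := by
    rw [abs_mul, abs_of_pos (by norm_num : (0 : ℝ) < 15 / 4), abs_mul, abs_of_pos hσ.1]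
    have h1 := P3_small hm hC hM0 one_pos hgM hδb hσ.1 hσ.2
    have h2 := (sigma_log hσ.1 hσ.2).2
    have hI : 0 ≤ ∫ X in σ..δ, 1 / X := by
      rw [integral_one_div_of_pos hσ.1 hδ]
      exact Real.log_nonneg (by rw [le_div_iff₀ hσ.1]; linarith [hσ.2])
    calc 15 / 4 * (σ * |∫ X in δ..σ, Rg m g X / (X * √X)|)
        ≤ 15 / 4 * (σ * (2 * C * M * Real.exp (1 * δ) * ∫ X in σ..δ, 1 / X)) := by
          have := hσ.1.le
          gcongr
      _ = 15 / 2 * C * M * Real.exp (1 * δ) * (σ * ∫ X in σ..δ, 1 / X) := by ring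
      _ ≤ 15 / 2 * C * M * E * (2 * √δ * √σ) := by
        refine mul_le_mul ?_ h2 (mul_nonneg hσ.1.le hI) (by positivity)
        gcongr
      _ = _ := by ring
  have htot : |TT m δ g σ| ≤ |√σ * Rg m g σ| +
      |3 / 4 * ∫ X in (0 : ℝ)..σ, Rg m g X / √X| +
      |15 / 4 * (σ * ∫ X in δ..σ, Rg m g X / (X * √X))| := by
    unfold TT
    exact (abs_add_le _ _).trans (by gcongr; exact abs_sub _ _)
  linarith

/-- `|R g(σ)| ≤ C L σ` if `|g X| ≤ L √X` -/
theorem Rg_le_lin {g : ℝ → ℝ} {L η : ℝ} (hm : MK b C m) (hC : 0 ≤ C)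
    (hηb : η ≤ b) (hL : ∀ X ∈ Ioo (0 : ℝ) η, |g X| ≤ L * √X) {σ : ℝ} (hσ : σ ∈ Icc 0 η) :
    |Rg m g σ| ≤ C * L * σ := by
  have h := hm.RR_le (G := fun X => g X / √X) (F := fun _ => L) (hσ.2.trans hηb)
    (integrableOn_const (by simp)) (fun X hX => ?_) hC
  · refine h.trans (le_of_eq ?_)
    rw [setIntegral_const]
    simp [hσ.1]
    ring
  · have hs : 0 < √X := Real.sqrt_pos.mpr hX.1
    rw [abs_div, abs_of_pos hs, div_le_iff₀ hs]
    exact hL X ⟨hX.1, lt_of_lt_of_le hX.2 hσ.2⟩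

/-- the leading coefficient at `0` of a solution with `√σ G → 0` -/
theorem lead {G : ℝ → ℝ} (hm : MK b C m) (hb : 0 < b) (hG : SVsol b m G)
    (h0 : Tendsto (fun σ => √σ * G σ) (𝓝[>] 0) (𝓝 0)) :
    ∃ c : ℝ, Tendsto (fun σ => G σ / √σ) (𝓝[>] 0) (𝓝 c) ∧
      (c = 0 → ∀ σ ∈ Ioc (0 : ℝ) b, G σ = 0) := by
  have hC := hm.C_nonneg hb
  obtain ⟨δ, hδ, hδb, hδs⟩ := exists_delta C hC hb
  obtain ⟨α, β, g, hg, hg0, hGg, hfix⟩ := fix_of_sv hm hC hδ hδb hG
  have hIoo : ∀ x : ℝ, 0 < x → ∀ᶠ σ in 𝓝[>] (0 : ℝ), σ ∈ Ioo (0 : ℝ) x := fun x hx =>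
    Ioo_mem_nhdsGT hx
  -- `α = 0`
  have hα : α = 0 := by
    have h1 : Tendsto g (𝓝[>] 0) (𝓝 (g 0)) := by
      have h2 : Tendsto g (𝓝[Icc 0 b] 0) (𝓝 (g 0)) := hg 0 ⟨le_rfl, hb.le⟩
      refine h2.mono_left ?_
      refine nhdsWithin_le_iff.mpr ?_
      filter_upwards [hIoo b hb] with σ hσ
      exact ⟨hσ.1.le, hσ.2.le⟩
    have h2 : Tendsto g (𝓝[>] 0) (𝓝 0) := by
      refine h0.congr' ?_
      filter_upwards [hIoo b hb] with σ hσ
      rw [hGg σ ⟨hσ.1, hσ.2.le⟩, mul_div_cancel₀ _ (Real.sqrt_pos.mpr hσ.1).ne']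
    rw [← hg0]
    exact tendsto_nhds_unique h1 h2
  -- step 1
  obtain ⟨K, hK0, hK⟩ := TT_sqrt hm hC hδ hδb hg
  have hgs : ∀ σ ∈ Ioc (0 : ℝ) δ, |g σ| ≤ (|β| * √b + K) * √σ := by
    intro σ hσ
    have hs : 0 < √σ := Real.sqrt_pos.mpr hσ.1
    have hsq : √σ * √σ = σ := Real.mul_self_sqrt hσ.1.le
    have hsb : √σ ≤ √b := Real.sqrt_le_sqrt (hσ.2.trans hδb)
    rw [hfix σ ⟨hσ.1.le, hσ.2.trans hδb⟩, hα, zero_add]
    refine (abs_add_le _ _).trans ?_
    have h1 := hK σ hσ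
    have h2 : |β * σ| ≤ |β| * √b * √σ := by
      rw [abs_mul, abs_of_pos hσ.1]
      calc |β| * σ = |β| * √σ * √σ := by rw [mul_assoc, hsq]
        _ ≤ |β| * √b * √σ := by gcongr
    linarith
  set L := |β| * √b + K with hL
  have hL0 : 0 ≤ L := by positivity
  have hR : ∀ σ ∈ Icc (0 : ℝ) δ, |Rg m g σ| ≤ C * L * σ := fun σ hσ =>
    Rg_le_lin hm hC hδb (fun X hX => hgs X ⟨hX.1, hX.2.le⟩) hσ
  -- integrability of `R g/(X √X)` on `(0,δ)`
  have hRc : ContinuousOn (Rg m g) (Ioc 0 b) := Rg_cont hm hg hb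
  have hf2 : ContinuousOn (fun X => Rg m g X / (X * √X)) (Ioc 0 b) :=
    hRc.div (by fun_prop) (fun X hX => mul_ne_zero hX.1.ne' (Real.sqrt_pos.mpr hX.1).ne')
  have hi : IntervalIntegrable (fun X => Rg m g X / (X * √X)) volume 0 δ := by
    rw [intervalIntegrable_iff_integrableOn_Ioo_of_le hδ.le]
    refine Integrable.mono' ((int_inv_sqrt hδ.le).1.const_mul (C * L)) ?_ ?_
    · exact (hf2.mono (fun X hX => ⟨hX.1, hX.2.le.trans hδb⟩)).aestronglyMeasurable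
        measurableSet_Ioo
    · refine (ae_restrict_iff' measurableSet_Ioo).mpr (Eventually.of_forall fun X hX => ?_)
      have hs : 0 < √X := Real.sqrt_pos.mpr hX.1
      rw [Real.norm_eq_abs, abs_div, abs_of_pos (mul_pos hX.1 hs), div_le_iff₀ (mul_pos hX.1 hs)]
      refine (hR X ⟨hX.1.le, hX.2.le⟩).trans (le_of_eq ?_)
      field_simp
  set c : ℝ := β - 15 / 4 * ∫ X in (0 : ℝ)..δ, Rg m g X / (X * √X) with hc
  have hiσ : ∀ σ ∈ Ioo (0 : ℝ) δ, IntervalIntegrable (fun X => Rg m g X / (X * √X)) volume 0 σ := by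
    intro σ hσ
    refine hi.mono_set ?_
    rw [uIcc_of_le hσ.1.le, uIcc_of_le hδ.le]
    exact Icc_subset_Icc_right hσ.2.le
  -- the decomposition
  have hdec : ∀ σ ∈ Ioo (0 : ℝ) δ, g σ = c * σ + (√σ * Rg m g σ -
      3 / 4 * (∫ X in (0 : ℝ)..σ, Rg m g X / √X) +
      15 / 4 * (σ * ∫ X in (0 : ℝ)..σ, Rg m g X / (X * √X))) := by
    intro σ hσ
    have h1 := hfix σ ⟨hσ.1.le, hσ.2.le.trans hδb⟩
    have h2 : ∫ X in δ..σ, Rg m g X / (X * √X) =
        (∫ X in (0 : ℝ)..σ, Rg m g X / (X * √X)) - ∫ X in (0 : ℝ)..δ, Rg m g X / (X * √X) := by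
      have := intervalIntegral.integral_interval_sub_left (hiσ σ hσ) hi
      rw [← this]
    rw [h1, TT, h2, hα, hc]
    ring
  -- general estimate of the remainder
  have hrem : ∀ (M η : ℝ), 0 ≤ M → η ≤ δ → (∀ X ∈ Ioo (0 : ℝ) η, |g X| ≤ M * √X) →
      ∀ σ ∈ Ioo (0 : ℝ) η, |√σ * Rg m g σ - 3 / 4 * (∫ X in (0 : ℝ)..σ, Rg m g X / √X) +
      15 / 4 * (σ * ∫ X in (0 : ℝ)..σ, Rg m g X / (X * √X))| ≤ 10 * C * M * (σ * √σ) := by
    intro M η hM hη hgM σ hσ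
    have hRM : ∀ X ∈ Icc (0 : ℝ) η, |Rg m g X| ≤ C * M * X := fun X hX =>
      Rg_le_lin hm hC (hη.trans hδb) hgM hX
    have hs : 0 < √σ := Real.sqrt_pos.mpr hσ.1
    have hsq : √σ * √σ = σ := Real.mul_self_sqrt hσ.1.le
    have a1 : |√σ * Rg m g σ| ≤ C * M * (σ * √σ) := by
      rw [abs_mul, abs_of_pos hs]
      calc √σ * |Rg m g σ| ≤ √σ * (C * M * σ) := by
            gcongr; exact hRM σ ⟨hσ.1.le, hσ.2.le⟩
        _ = _ := by ring
    have a2 : |3 / 4 * ∫ X in (0 : ℝ)..σ, Rg m g X / √X| ≤ 3 / 4 * (C * M * (σ * √σ)) := by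
      rw [abs_mul, abs_of_pos (by norm_num : (0 : ℝ) < 3 / 4)]
      refine mul_le_mul_of_nonneg_left ?_ (by norm_num)
      have h1 : |∫ X in (0 : ℝ)..σ, Rg m g X / √X| ≤ C * M * √σ * |σ - 0| := by
        rw [← Real.norm_eq_abs]
        refine intervalIntegral.norm_integral_le_of_norm_le_const (fun X hX => ?_)
        rw [uIoc_of_le hσ.1.le] at hX
        have hsX : 0 < √X := Real.sqrt_pos.mpr hX.1
        have hsqX : √X * √X = X := Real.mul_self_sqrt hX.1.le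
        have hle : √X ≤ √σ := Real.sqrt_le_sqrt hX.2
        rw [Real.norm_eq_abs, abs_div, abs_of_pos hsX, div_le_iff₀ hsX]
        refine (hRM X ⟨hX.1.le, hX.2.trans hσ.2.le⟩).trans ?_
        calc C * M * X = C * M * (√X * √X) := by rw [hsqX]
          _ ≤ C * M * (√σ * √X) := by gcongr
          _ = _ := by ring
      rw [sub_zero, abs_of_pos hσ.1] at h1
      linarith [h1]
    have a3 : |15 / 4 * (σ * ∫ X in (0 : ℝ)..σ, Rg m g X / (X * √X))| ≤
        15 / 4 * (2 * (C * M * (σ * √σ))) := by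
      rw [abs_mul, abs_of_pos (by norm_num : (0 : ℝ) < 15 / 4), abs_mul, abs_of_pos hσ.1]
      refine mul_le_mul_of_nonneg_left ?_ (by norm_num)
      have h5 : |∫ X in (0 : ℝ)..σ, Rg m g X / (X * √X)| ≤ C * M * (2 * √σ) := by
        rw [← (int_inv_sqrt hσ.1.le).2, ← integral_const_mul,
          intervalIntegral.integral_of_le hσ.1.le, integral_Ioc_eq_integral_Ioo,
          ← Real.norm_eq_abs]
        refine norm_integral_le_of_norm_le ((int_inv_sqrt hσ.1.le).1.const_mul _) ?_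
        refine (ae_restrict_iff' measurableSet_Ioo).mpr (Eventually.of_forall fun X hX => ?_)
        have hsX : 0 < √X := Real.sqrt_pos.mpr hX.1
        rw [Real.norm_eq_abs, abs_div, abs_of_pos (mul_pos hX.1 hsX),
          div_le_iff₀ (mul_pos hX.1 hsX)]
        refine (hRM X ⟨hX.1.le, hX.2.le.trans hσ.2.le⟩).trans (le_of_eq ?_)
        field_simp
      calc σ * |∫ X in (0 : ℝ)..σ, Rg m g X / (X * √X)| ≤ σ * (C * M * (2 * √σ)) :=
            mul_le_mul_of_nonneg_left h5 hσ.1.le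
        _ = _ := by ring
    have hnn : 0 ≤ C * M * (σ * √σ) := by
      have := hσ.1.le
      positivity
    calc |√σ * Rg m g σ - 3 / 4 * (∫ X in (0 : ℝ)..σ, Rg m g X / √X) +
          15 / 4 * (σ * ∫ X in (0 : ℝ)..σ, Rg m g X / (X * √X))|
        ≤ |√σ * Rg m g σ| + |3 / 4 * ∫ X in (0 : ℝ)..σ, Rg m g X / √X| +
          |15 / 4 * (σ * ∫ X in (0 : ℝ)..σ, Rg m g X / (X * √X))| :=
          (abs_add_le _ _).trans (by gcongr; exact abs_sub _ _)
      _ ≤ 10 * C * M * (σ * √σ) := by nlinarith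
  refine ⟨c, ?_, ?_⟩
  · -- the limit
    rw [tendsto_iff_norm_sub_tendsto_zero]
    have hlim : Tendsto (fun σ : ℝ => 10 * C * L * √σ) (𝓝[>] 0) (𝓝 0) := by
      have : ContinuousAt (fun σ : ℝ => 10 * C * L * √σ) 0 := by fun_prop
      have h := this.tendsto
      simp only [Real.sqrt_zero, mul_zero] at h
      exact h.mono_left nhdsWithin_le_nhds
    refine squeeze_zero' (Eventually.of_forall fun _ => norm_nonneg _) ?_ hlim
    filter_upwards [hIoo δ hδ] with σ hσ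
    have hs : 0 < √σ := Real.sqrt_pos.mpr hσ.1
    have hsq : √σ * √σ = σ := Real.mul_self_sqrt hσ.1.le
    have e : G σ / √σ - c = (g σ - c * σ) / σ := by
      rw [hGg σ ⟨hσ.1, hσ.2.le.trans hδb⟩, div_div, hsq, sub_div, mul_div_assoc,
        div_self hσ.1.ne', mul_one]
    rw [e, Real.norm_eq_abs, abs_div, abs_of_pos hσ.1, div_le_iff₀ hσ.1, hdec σ hσ,
      add_sub_cancel_left]
    refine (hrem L δ hL0 le_rfl (fun X hX => hgs X ⟨hX.1, hX.2.le⟩) σ hσ).trans (le_of_eq ?_)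
    ring
  · -- `c = 0`
    intro hc0
    obtain ⟨η, hη, hηδ, hηs⟩ := exists_delta C hC hδ
    have hind : ∀ n : ℕ, ∀ X ∈ Ioo (0 : ℝ) η, |g X| ≤ L / 2 ^ n * √X := by
      intro n
      induction n with
      | zero => intro X hX; simpa using hgs X ⟨hX.1, hX.2.le.trans hηδ⟩
      | succ n ih =>
        intro σ hσ
        have hσδ : σ ∈ Ioo (0 : ℝ) δ := ⟨hσ.1, lt_of_lt_of_le hσ.2 hηδ⟩
        rw [hdec σ hσδ, hc0, zero_mul, zero_add]
        refine (hrem (L / 2 ^ n) η (by positivity) hηδ ih σ hσ).trans ?_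
        have hs : 0 < √σ := Real.sqrt_pos.mpr hσ.1
        have h1 : 10 * C * σ ≤ 1 / 2 := by
          have : C * σ ≤ C * η := mul_le_mul_of_nonneg_left hσ.2.le hC
          nlinarith
        have h2 : 0 ≤ L / 2 ^ n * √σ := by positivity
        calc 10 * C * (L / 2 ^ n) * (σ * √σ) = (10 * C * σ) * (L / 2 ^ n * √σ) := by ring
          _ ≤ 1 / 2 * (L / 2 ^ n * √σ) := mul_le_mul_of_nonneg_right h1 h2
          _ = L / 2 ^ (n + 1) * √σ := by rw [pow_succ]; ring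
    refine vanish hm hb hG hη (fun X hX hXb => ?_)
    have hlim : Tendsto (fun n : ℕ => L / 2 ^ n * √X) atTop (𝓝 0) := by
      have h1 : Tendsto (fun n : ℕ => L * ((1 / 2 : ℝ)) ^ n * √X) atTop (𝓝 (L * 0 * √X)) :=
        ((tendsto_pow_atTop_nhds_zero_of_lt_one (by norm_num) (by norm_num)).const_mul L).mul_const _
      simp only [mul_zero, zero_mul] at h1
      refine h1.congr (fun n => ?_)
      rw [one_div, inv_pow]; rfl
    have h3 : |g X| ≤ 0 := ge_of_tendsto hlim (Eventually.of_forall fun n => hind n X hX)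
    rw [hGg X ⟨hX.1, hXb⟩, abs_nonpos_iff.mp h3, zero_div]

end Pool.Agent.Lib.MP_85963d_gt.H87
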