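import Pool.Agent.Lib.MP_85963d_gt.H87.AB6

/-!
# Section 7 for profiles (helper87): solutions with data
-/

open MeasureTheory Set Filter Topology Real

namespace Pool.Agent.Lib.MP_85963d_gt.H87

open Pool.Agent.Lib.MP_85963d_gt.H70

variable {b A c C p₀ δ : ℝ} {ω ω' : ℝ → ℝ → ℝ} {P Q S K : ℝ → ℝ}

/-! ### normalisation -/

/-- division by a constant -/
noncomputable def nm (p : ℝ) (f : ℝ → ℝ) (t : ℝ) : ℝ := f t / p

theorem F5_scale {P Q S K Y p : ℝ} (hp : 0 < p) :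
    F5 (P / p, Q / p, S / p, K / p, Y) = p ^ 2 * F5 (P, Q, S, K, Y) := by
  have hr : r5 (P / p, Q / p, S / p, K / p, Y) = r5 (P, Q, S, K, Y) / p := by
    unfold r5
    have : (P / p) ^ 2 + Y * ((Q / p) ^ 2 + (S / p) ^ 2) =
        (P ^ 2 + Y * (Q ^ 2 + S ^ 2)) / p ^ 2 := by
      field_simp
    simp only
    rw [this, Real.sqrt_div' _ (by positivity), Real.sqrt_sq hp.le]
  unfold F5
  rw [hr]
  simp only
  rcases eq_or_ne (r5 (P, Q, S, K, Y)) 0 with h0 | h0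
  · rw [h0]; simp
  · field_simp

theorem F5'_scale {P Q S K Y p : ℝ} (hp : 0 < p) :
    F5' (P / p, Q / p, S / p, K / p, Y) = p ^ 2 * F5' (P, Q, S, K, Y) := by
  have hr : r5 (P / p, Q / p, S / p, K / p, Y) = r5 (P, Q, S, K, Y) / p := by
    unfold r5
    have : (P / p) ^ 2 + Y * ((Q / p) ^ 2 + (S / p) ^ 2) =
        (P ^ 2 + Y * (Q ^ 2 + S ^ 2)) / p ^ 2 := by
      field_simp
    simp only
    rw [this, Real.sqrt_div' _ (by positivity), Real.sqrt_sq hp.le]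
  unfold F5'
  rw [hr]
  simp only
  rcases eq_or_ne (r5 (P, Q, S, K, Y)) 0 with h0 | h0
  · rw [h0]; simp
  · field_simp

theorem om_norm (hp : 0 < p₀) :
    om (nm p₀ P) (nm p₀ Q) (nm p₀ S) (nm p₀ K) = fun X Y => p₀ ^ 2 * om P Q S K X Y := by
  funext X Y
  exact F5_scale hp

theorem om'_norm (hp : 0 < p₀) :
    om' (nm p₀ P) (nm p₀ Q) (nm p₀ S) (nm p₀ K) = fun X Y => p₀ ^ 2 * om' P Q S K X Y := by
  funext X Y
  exact F5'_scale hp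

theorem mW_smul {k : ℝ} (hk : k ≠ 0) :
    mW (fun X Y => k * ω X Y) (fun X Y => k * ω' X Y) = mW ω ω' := by
  funext X σ
  unfold mW
  have e : kd (HK' (fun X Y => k * ω X Y) fun X Y => k * ω' X Y) X (σ - X) =
      k * kd (HK' ω ω') X (σ - X) := by
    rw [kd, kd, ← integral_const_mul]
    refine setIntegral_congr_fun measurableSet_Ioo (fun θ _ => ?_)
    simp only [HK']
    ring
  rw [e]
  have e2 : π * (σ ^ 2 * (k * ω σ 0)) = k * (π * (σ ^ 2 * ω σ 0)) := by ring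
  rw [e2, mul_div_mul_left _ _ hk]

/-- the kernel of a profile -/
noncomputable def kerP (P Q S K : ℝ → ℝ) : ℝ → ℝ → ℝ := mW (om P Q S K) (om' P Q S K)

theorem kerP_norm (hp : 0 < p₀) : kerP (nm p₀ P) (nm p₀ Q) (nm p₀ S) (nm p₀ K) = kerP P Q S K := by
  unfold kerP
  rw [om_norm hp, om'_norm hp]
  exact mW_smul (by positivity)

theorem PD.norm (h : PD b c C p₀ P Q S K) (hc : 0 < c) :
    PD b (c / C) (C / c) 1 (nm p₀ P) (nm p₀ Q) (nm p₀ S) (nm p₀ K) := by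
  have hC := h.C_pos hc
  have hp : 0 < p₀ := lt_of_lt_of_le hc h.p0.1
  have hcC : c ≤ C := h.p0.1.trans h.p0.2
  refine ⟨h.mP.div_const p₀, h.mQ.div_const p₀, h.mS.div_const p₀, h.mK.div_const p₀,
    h.cP.div_const p₀, h.cS.div_const p₀, ⟨?_, ?_⟩, ?_, ?_, ?_, ?_, ?_, ?_⟩
  · rw [div_le_one hC]; exact hcC
  · rw [one_le_div hc]; exact hcC
  · intro t ht
    have h1 := h.bP t ht
    refine ⟨?_, ?_⟩
    · exact div_le_div₀ (by linarith) h1.1 hp h.p0.2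
    · exact div_le_div₀ hC.le h1.2 hc h.p0.1
  · intro t ht
    have h1 := h.bS t ht
    refine ⟨?_, ?_⟩
    · exact div_le_div₀ (by linarith) h1.1 hp h.p0.2
    · exact div_le_div₀ hC.le h1.2 hc h.p0.1
  · intro t ht
    rw [nm, abs_div, abs_of_pos hp]
    exact div_le_div₀ hC.le (h.bQ t ht) hc h.p0.1
  · intro t ht
    rw [nm, abs_div, abs_of_pos hp]
    exact div_le_div₀ hC.le (h.bK t ht) hc h.p0.1
  · intro t ht
    have e : nm p₀ P t - 1 = (P t - p₀) / p₀ := by rw [nm]; field_simp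
    rw [e, abs_div, abs_of_pos hp, div_mul_eq_mul_div]
    exact div_le_div₀ (by positivity) (h.nP t ht) hc h.p0.1
  · intro t ht
    have e : nm p₀ S t - 1 = (S t - p₀) / p₀ := by rw [nm]; field_simp
    rw [e, abs_div, abs_of_pos hp, div_mul_eq_mul_div]
    exact div_le_div₀ (by positivity) (h.nS t ht) hc h.p0.1

theorem PD.mono (h : PD b c C p₀ P Q S K) {x : ℝ} (hx : x ≤ b) : PD x c C p₀ P Q S K := by
  have hs : Ioc 0 (√x) ⊆ Ioc 0 (√b) := Ioc_subset_Ioc_right (Real.sqrt_le_sqrt hx)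
  exact ⟨h.mP, h.mQ, h.mS, h.mK, h.cP.mono hs, h.cS.mono hs, h.p0, fun t ht => h.bP t (hs ht),
    fun t ht => h.bS t (hs ht), fun t ht => h.bQ t (hs ht), fun t ht => h.bK t (hs ht),
    fun t ht => h.nP t (hs ht), fun t ht => h.nS t (hs ht)⟩

/-- the admissible constants `δ` -/
def Small (b c C δ : ℝ) : Prop :=
  0 < δ ∧ δ ≤ b ∧ ∃ M : ℝ, 0 ≤ M ∧ 120 * M * δ ≤ 1 ∧
    ∀ (p₀ : ℝ) (P Q S K : ℝ → ℝ), PD b c C p₀ P Q S K → MK b M (kerP P Q S K)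

theorem exists_small (hb : 0 < b) (hc : 0 < c) (C : ℝ) {x : ℝ} (hx : 0 < x) (hxb : x ≤ b) :
    ∃ δ : ℝ, Small b c C δ ∧ δ ≤ x := by
  rcases le_or_gt C 0 with hC | hC
  · refine ⟨x, ⟨hx, hxb, 0, le_rfl, by simp, fun p₀ P Q S K h => ?_⟩, le_rfl⟩
    have := h.C_pos hc
    linarith
  obtain ⟨A, c', hc', hw⟩ := wt_unif b hb (c := c / C) (by positivity) (C / c)
  obtain ⟨δ, hδ, hδx, hδs⟩ := exists_delta (|13 * A / c'|) (abs_nonneg _) hx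
  refine ⟨δ, ⟨hδ, hδx.trans hxb, _, abs_nonneg _, hδs, fun p₀ P Q S K h => ?_⟩, hδx⟩
  have h1 := (hw _ _ _ _ (h.norm hc)).toMK hb hc'
  have h2 := kerP_norm (P := P) (Q := Q) (S := S) (K := K) (lt_of_lt_of_le hc h.p0.1)
  unfold kerP at h2
  rw [h2] at h1
  exact ⟨h1.meas, fun X σ a1 a2 a3 => (h1.bd X σ a1 a2 a3).trans (le_abs_self _), h1.cont⟩

/-- `IsSol` in terms of the Volterra equation -/
theorem PD.sv_iff (h : PD b c C p₀ P Q S K) (hb : 0 < b) (hc : 0 < c) {G : ℝ → ℝ} :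
    IsSol (om P Q S K) b G ↔ SVsol b (kerP P Q S K) G := by
  have hp : 0 < p₀ := lt_of_lt_of_le hc h.p0.1
  have hC := h.C_pos hc
  obtain ⟨A, c', hc', hw⟩ := wt_unif b hb (c := c / C) (by positivity) (C / c)
  have h1 := hw _ _ _ _ (h.norm hc)
  have h2 : IsSol (om P Q S K) b G ↔
      IsSol (om (nm p₀ P) (nm p₀ Q) (nm p₀ S) (nm p₀ K)) b G := by
    rw [om_norm hp]
    exact (isSol_smul (by positivity)).symm
  rw [h2, ← kerP_norm (P := P) (Q := Q) (S := S) (K := K) hp]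
  exact ⟨fun h3 => (solW_of_isSol hb h3).sv h1 hb hc',
    fun h3 => (h3.solW h1 hb hc').isSol h1 hb hc'⟩

/-- `G` is the solution on `(0,b]` with data `α, β` -/
def Dat (b δ : ℝ) (P Q S K : ℝ → ℝ) (α β : ℝ) (G : ℝ → ℝ) : Prop :=
  ∃ g : ℝ → ℝ, ContinuousOn g (Icc 0 b) ∧ (∀ X ∈ Ioc (0 : ℝ) b, G X = g X / √X) ∧
    ∀ σ ∈ Icc (0 : ℝ) b, g σ = α + β * σ + TT (kerP P Q S K) δ g σ

/-- (A1) existence -/
theorem Dat.exists' (hs : Small b c C δ) (h : PD b c C p₀ P Q S K) (α β : ℝ) :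
    ∃ G : ℝ → ℝ, Dat b δ P Q S K α β G := by
  obtain ⟨hδ, hδb, M, hM, hsm, hMK⟩ := hs
  have hm := hMK _ _ _ _ _ h
  obtain ⟨g, hg, hgf⟩ := exists_fix (lam := 2 / δ) hm hM hδ hδb (by field_simp) hsm
    (f := fun σ => α + β * σ) (by fun_prop)
  exact ⟨fun X => g X / √X, g, hg.continuousOn, fun X _ => rfl, hgf⟩

/-- (A2) it is a solution -/
theorem Dat.isSol (hb : 0 < b) (hc : 0 < c) (hs : Small b c C δ) (h : PD b c C p₀ P Q S K)
    {α β : ℝ} {G : ℝ → ℝ} (d : Dat b δ P Q S K α β G) : IsSol (om P Q S K) b G := by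
  obtain ⟨hδ, hδb, M, hM, hsm, hMK⟩ := hs
  have hm := hMK _ _ _ _ _ h
  obtain ⟨g, hg, hGg, hgf⟩ := d
  have h1 := (h.sv_iff hb hc).mpr (sv_of_fix hm hM hδ hδb hg hgf)
  refine ⟨h1.cont.congr hGg, ?_, ?_⟩
  · obtain ⟨C', hC'⟩ := h1.bd
    exact ⟨C', fun X hX => by rw [hGg X hX]; exact hC' X hX⟩
  · filter_upwards [h1.eq] with s hs hsb
    rw [← hs hsb, TX, TX]
    refine setIntegral_congr_fun measurableSet_Ioo (fun X hX => ?_)
    rw [hGg X ⟨hX.1, (hX.2.trans hsb.2).le⟩]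

/-- (A3) every solution has data -/
theorem Dat.of_isSol (hb : 0 < b) (hc : 0 < c) (hs : Small b c C δ) (h : PD b c C p₀ P Q S K)
    {G : ℝ → ℝ} (hG : IsSol (om P Q S K) b G) : ∃ α β : ℝ, Dat b δ P Q S K α β G := by
  obtain ⟨hδ, hδb, M, hM, hsm, hMK⟩ := hs
  have hm := hMK _ _ _ _ _ h
  obtain ⟨α, β, g, hg, -, hGg, hfix⟩ := fix_of_sv hm hM hδ hδb ((h.sv_iff hb hc).mp hG)
  exact ⟨α, β, g, hg, hGg, hfix⟩

/-- (B) locality: the same data and profiles which agree on `(0,√x)` give the same solution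
on `(0,x)` -/
theorem Dat.local (hs : Small b c C δ) {p₁ : ℝ} {P₁ Q₁ S₁ K₁ : ℝ → ℝ}
    (h : PD b c C p₀ P Q S K) (h₁ : PD b c C p₁ P₁ Q₁ S₁ K₁) {x : ℝ} (hδx : δ < x) (hxb : x ≤ b)
    (he : ∀ t ∈ Ioo 0 (√x), P₁ t = P t ∧ Q₁ t = Q t ∧ S₁ t = S t ∧ K₁ t = K t)
    {α β : ℝ} {G G₁ : ℝ → ℝ} (d : Dat b δ P Q S K α β G) (d₁ : Dat b δ P₁ Q₁ S₁ K₁ α β G₁) :
    ∀ X ∈ Ioo 0 x, G₁ X = G X := by
  obtain ⟨hδ, hδb, M, hM, hsm, hMK⟩ := hs
  have hm := hMK _ _ _ _ _ h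
  have hm₁ := hMK _ _ _ _ _ h₁
  obtain ⟨g, hg, hGg, hgf⟩ := d
  obtain ⟨g₁, hg₁, hGg₁, hgf₁⟩ := d₁
  have hmm : ∀ y < x, ∀ X σ, 0 < X → X < σ → σ ≤ y → kerP P₁ Q₁ S₁ K₁ X σ = kerP P Q S K X σ := by
    intro y hy X σ hX hXσ hσ
    have e : ∀ X, 0 < X → X < x → ∀ Y, om P₁ Q₁ S₁ K₁ X Y = om P Q S K X Y ∧
        om' P₁ Q₁ S₁ K₁ X Y = om' P Q S K X Y := by
      intro X hX hXx Y
      obtain ⟨e1, e2, e3, e4⟩ := he (√X) ⟨Real.sqrt_pos.mpr hX, Real.sqrt_lt_sqrt hX.le hXx⟩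
      rw [om_eq, om_eq, om', om', e1, e2, e3, e4]
      exact ⟨rfl, rfl⟩
    unfold kerP
    rw [mW, mW, (e σ (by linarith) (by linarith) 0).1]
    congr 2
    rw [kd, kd]
    refine setIntegral_congr_fun measurableSet_Ioo (fun θ _ => ?_)
    simp only [HK']
    rw [(e X hX (by linarith) _).1, (e X hX (by linarith) _).2]
  intro X hX
  set y := max X δ with hy
  have hyx : y < x := max_lt hX.2 hδx
  have hyb : y ≤ b := hyx.le.trans hxb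
  have hmy : MK y M (kerP P Q S K) := ⟨hm.meas, fun X σ a1 a2 a3 => hm.bd X σ a1 a2 (a3.trans hyb),
    fun X hX => (hm.cont X hX).mono (Ioc_subset_Ioc_right hyb)⟩
  have hsub : Icc 0 y ⊆ Icc 0 b := Icc_subset_Icc_right hyb
  have hfix₁ : ∀ σ ∈ Icc (0 : ℝ) y, g₁ σ = α + β * σ + TT (kerP P Q S K) δ g₁ σ := by
    intro σ hσ
    rw [← TT_local (g₁ := g₁) (g₂ := g₁) (le_max_right _ _ : δ ≤ y) (hmm y hyx)
      (fun X _ => rfl) hσ.1 hσ.2]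
    exact hgf₁ σ (hsub hσ)
  have hu := fix_unique hmy hM hδ (le_max_right _ _) hsm (hg₁.mono hsub) (hg.mono hsub) hfix₁
    (fun σ hσ => hgf σ (hsub hσ)) X ⟨hX.1.le, le_max_left _ _⟩
  rw [hGg X ⟨hX.1, hX.2.le.trans hxb⟩, hGg₁ X ⟨hX.1, hX.2.le.trans hxb⟩, hu]

/-- (A4) uniqueness -/
theorem Dat.unique (hs : Small b c C δ) (h : PD b c C p₀ P Q S K)
    {α β : ℝ} {G G₁ : ℝ → ℝ} (d : Dat b δ P Q S K α β G) (d₁ : Dat b δ P Q S K α β G₁) :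
    ∀ X ∈ Ioc 0 b, G₁ X = G X := by
  obtain ⟨hδ, hδb, M, hM, hsm, hMK⟩ := hs
  have hm := hMK _ _ _ _ _ h
  obtain ⟨g, hg, hGg, hgf⟩ := d
  obtain ⟨g₁, hg₁, hGg₁, hgf₁⟩ := d₁
  intro X hX
  rw [hGg X hX, hGg₁ X hX, fix_unique hm hM hδ hδb hsm hg₁ hg hgf₁ hgf X ⟨hX.1.le, hX.2⟩]

/-- (A5) linearity -/
theorem Dat.lin (hs : Small b c C δ) (h : PD b c C p₀ P Q S K)
    {α₁ β₁ α₂ β₂ : ℝ} {G₁ G₂ : ℝ → ℝ} (d₁ : Dat b δ P Q S K α₁ β₁ G₁)
    (d₂ : Dat b δ P Q S K α₂ β₂ G₂) (p q : ℝ) :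
    Dat b δ P Q S K (p * α₁ + q * α₂) (p * β₁ + q * β₂) (fun X => p * G₁ X + q * G₂ X) := by
  obtain ⟨hδ, hδb, M, hM, hsm, hMK⟩ := hs
  have hm := hMK _ _ _ _ _ h
  obtain ⟨g₁, hg₁, hGg₁, hgf₁⟩ := d₁
  obtain ⟨g₂, hg₂, hGg₂, hgf₂⟩ := d₂
  have hc1 : ContinuousOn (fun X => p * g₁ X) (Icc 0 b) := continuousOn_const.mul hg₁
  have hc2 : ContinuousOn (fun X => q * g₂ X) (Icc 0 b) := continuousOn_const.mul hg₂
  refine ⟨fun X => p * g₁ X + q * g₂ X, hc1.add hc2, fun X hX => ?_, fun σ hσ => ?_⟩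
  · simp only
    rw [hGg₁ X hX, hGg₂ X hX]
    ring
  · rw [TT_add hm hM hδ hδb hc1 hc2 hσ, TT_smul, TT_smul]
    simp only
    rw [hgf₁ σ hσ, hgf₂ σ hσ]
    ring

/-- (A6) the data are determined by the solution near `0` -/
theorem Dat.inj (hs : Small b c C δ) {p₁ : ℝ} {P₁ Q₁ S₁ K₁ : ℝ → ℝ}
    (h : PD b c C p₀ P Q S K) (h₁ : PD b c C p₁ P₁ Q₁ S₁ K₁) {x : ℝ} (hδx : δ < x) (hxb : x ≤ b)
    (he : ∀ t ∈ Ioo 0 (√x), P₁ t = P t ∧ Q₁ t = Q t ∧ S₁ t = S t ∧ K₁ t = K t)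
    {α β α₁ β₁ : ℝ} {G G₁ : ℝ → ℝ} (d : Dat b δ P Q S K α β G)
    (d₁ : Dat b δ P₁ Q₁ S₁ K₁ α₁ β₁ G₁) (hG : ∀ X ∈ Ioo 0 x, G₁ X = G X) :
    α₁ = α ∧ β₁ = β := by
  obtain ⟨hδ, hδb, M, hM, hsm, hMK⟩ := hs
  obtain ⟨g, hg, hGg, hgf⟩ := d
  obtain ⟨g₁, hg₁, hGg₁, hgf₁⟩ := d₁
  have hmm : ∀ X σ, 0 < X → X < σ → σ ≤ δ → kerP P₁ Q₁ S₁ K₁ X σ = kerP P Q S K X σ := by
    intro X σ hX hXσ hσ
    have e : ∀ X, 0 < X → X < x → ∀ Y, om P₁ Q₁ S₁ K₁ X Y = om P Q S K X Y ∧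
        om' P₁ Q₁ S₁ K₁ X Y = om' P Q S K X Y := by
      intro X hX hXx Y
      obtain ⟨e1, e2, e3, e4⟩ := he (√X) ⟨Real.sqrt_pos.mpr hX, Real.sqrt_lt_sqrt hX.le hXx⟩
      rw [om_eq, om_eq, om', om', e1, e2, e3, e4]
      exact ⟨rfl, rfl⟩
    unfold kerP
    rw [mW, mW, (e σ (by linarith) (by linarith) 0).1]
    congr 2
    rw [kd, kd]
    refine setIntegral_congr_fun measurableSet_Ioo (fun θ _ => ?_)
    simp only [HK']
    rw [(e X hX (by linarith) _).1, (e X hX (by linarith) _).2]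
  have heq : ∀ X ∈ Ioc (0 : ℝ) δ, g₁ X = g X := by
    intro X hX
    have hs : √X ≠ 0 := (Real.sqrt_pos.mpr hX.1).ne'
    have a1 := hGg₁ X ⟨hX.1, hX.2.trans hδb⟩
    have a2 := hGg X ⟨hX.1, hX.2.trans hδb⟩
    have a3 := hG X ⟨hX.1, lt_of_le_of_lt hX.2 hδx⟩
    rw [a1, a2] at a3
    field_simp at a3
    exact a3
  exact data_local hδ le_rfl hmm heq (fun σ hσ => hgf₁ σ ⟨hσ.1, hσ.2.trans hδb⟩)
    (fun σ hσ => hgf σ ⟨hσ.1, hσ.2.trans hδb⟩)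

/-- a solution which vanishes near `0` vanishes -/
theorem PD.vanish (h : PD b c C p₀ P Q S K) (hb : 0 < b) (hc : 0 < c) {G : ℝ → ℝ}
    (hG : IsSol (om P Q S K) b G) {x : ℝ} (hx : 0 < x) (h0 : ∀ X ∈ Ioo 0 x, X ≤ b → G X = 0) :
    ∀ X ∈ Ioc 0 b, G X = 0 := by
  obtain ⟨δ, ⟨hδ, hδb, M, hM, hsm, hMK⟩, -⟩ := exists_small hb hc C hb le_rfl
  exact Pool.Agent.Lib.MP_85963d_gt.H87.vanish (hMK _ _ _ _ _ h) hb ((h.sv_iff hb hc).mp hG) hx h0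

/-! ### smooth profiles -/

open Pool.Agent.MP85963d in
/-- the profile data of a smooth profile -/
theorem pd_of_prof {h tc : ℝ} {ψ : ℝ → ℝ} (H : IsProf h tc ψ) (b : ℝ) :
    ∃ c C : ℝ, 0 < c ∧ PD b c C (ψ 0) ψ (deriv ψ) (Sf ψ) (deriv (deriv ψ)) := by
  obtain ⟨c, C, hc, hC, hb⟩ := prof_bounds H (√b)
  have hsb : 0 ≤ √b := Real.sqrt_nonneg b
  have hd0 : deriv ψ 0 = 0 := by
    have h1 : HasDerivAt (fun t => ψ (-t)) (-deriv ψ 0) 0 := by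
      have := (prof_hasDerivAt H (-0)).comp 0 (hasDerivAt_neg (0:ℝ))
      simp only [neg_zero, mul_neg, mul_one] at this
      exact this
    have h2 : (fun t => ψ (-t)) = ψ := by
      ext t
      exact H.even t
    rw [h2] at h1
    have := h1.unique (prof_hasDerivAt H 0)
    linarith
  have hd : ∀ t ∈ Icc (0 : ℝ) (√b), |deriv ψ t| ≤ C * t := by
    intro t ht
    have := norm_image_sub_le_of_norm_deriv_le_segment' (a := 0) (b := t) (C := C)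
      (f := deriv ψ) (f' := deriv (deriv ψ))
      (fun y hy => (prof_hasDerivAt2 H y).hasDerivWithinAt)
      (fun y hy => by
        have h2 := hb y ⟨hy.1, hy.2.le.trans ht.2⟩
        rw [Real.norm_eq_abs, abs_of_nonneg h2.2.2.2.2.2.2.1]
        exact h2.2.2.2.2.2.2.2) t ⟨ht.1, le_rfl⟩
    rw [hd0, sub_zero, sub_zero] at this
    exact this
  have hS0 : Sf ψ 0 = ψ 0 := by simp [Sf]
  have hp : ∀ t ∈ Icc (0 : ℝ) (√b), |ψ t - ψ 0| ≤ C * t ^ 2 := by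
    intro t ht
    have := norm_image_sub_le_of_norm_deriv_le_segment' (a := 0) (b := t) (C := C * t)
      (f := ψ) (f' := deriv ψ)
      (fun y hy => (prof_hasDerivAt H y).hasDerivWithinAt)
      (fun y hy => by
        refine (hd y ⟨hy.1, hy.2.le.trans ht.2⟩).trans ?_
        have := hy.2.le
        gcongr) t ⟨ht.1, le_rfl⟩
    rw [sub_zero] at this
    refine this.trans (le_of_eq ?_)
    ring
  have hSd : ∀ t, HasDerivAt (Sf ψ) (-(t * deriv (deriv ψ) t)) t := by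
    intro t
    have h1 := (prof_hasDerivAt H t).sub ((hasDerivAt_id t).mul (prof_hasDerivAt2 H t))
    refine h1.congr_deriv ?_
    simp only [id]
    ring
  have hS : ∀ t ∈ Icc (0 : ℝ) (√b), |Sf ψ t - ψ 0| ≤ C * t ^ 2 := by
    intro t ht
    have := norm_image_sub_le_of_norm_deriv_le_segment' (a := 0) (b := t) (C := t * C)
      (f := Sf ψ) (f' := fun t => -(t * deriv (deriv ψ) t))
      (fun y hy => (hSd y).hasDerivWithinAt)
      (fun y hy => by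
        have h2 := hb y ⟨hy.1, hy.2.le.trans ht.2⟩
        rw [norm_neg, norm_mul, Real.norm_eq_abs, Real.norm_eq_abs,
          abs_of_nonneg h2.2.2.2.2.2.2.1, abs_of_nonneg hy.1]
        have h3 := hy.1
        have h4 := hy.2.le
        have h5 := h2.2.2.2.2.2.2.2
        have h6 := h2.2.2.2.2.2.2.1
        exact mul_le_mul h4 h5 h6 ht.1) t ⟨ht.1, le_rfl⟩
    rw [sub_zero, hS0] at this
    refine this.trans (le_of_eq ?_)
    ring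
  have hmem : ∀ t ∈ Ioc (0 : ℝ) (√b), t ∈ Icc (0 : ℝ) (√b) := fun t ht => ⟨ht.1.le, ht.2⟩
  have h00 : (0 : ℝ) ∈ Icc (0 : ℝ) (√b) := ⟨le_rfl, hsb⟩
  refine ⟨c, C, hc, H.smooth.continuous.measurable, (prof_d1 H).continuous.measurable,
    (prof_S_cont H).measurable, (prof_d2 H).continuous.measurable,
    H.smooth.continuous.continuousOn, (prof_S_cont H).continuousOn, ?_, ?_, ?_, ?_, ?_,
    fun t ht => hp t (hmem t ht), fun t ht => hS t (hmem t ht)⟩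
  · have h1 := hb 0 h00
    exact ⟨h1.1, h1.2.2.1⟩
  · intro t ht
    have h1 := hb t (hmem t ht)
    exact ⟨h1.1, h1.2.2.1⟩
  · intro t ht
    have h1 := hb t (hmem t ht)
    exact ⟨h1.2.1, h1.2.2.2.1⟩
  · intro t ht
    have h1 := hb t (hmem t ht)
    rw [abs_of_nonneg h1.2.2.2.2.1]
    exact h1.2.2.2.2.2.1
  · intro t ht
    have h1 := hb t (hmem t ht)
    rw [abs_of_nonneg h1.2.2.2.2.2.2.1]
    exact h1.2.2.2.2.2.2.2

/-- unique continuation for smooth profiles -/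
theorem van : VanStatement := by
  intro h tc ψ H b x₁ G hx hxb hG h0 X hX
  have hb : 0 < b := lt_of_lt_of_le hx hxb
  obtain ⟨c, C, hc, hpd⟩ := pd_of_prof H b
  exact hpd.vanish hb hc hG hx (fun X hX _ => h0 X hX) X ⟨hX.1, hX.2.le⟩

end Pool.Agent.Lib.MP_85963d_gt.H87
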