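import Pool.Agent.Lib.MP_85963d_gt.H87.AB7

/-!
# Section 7 for profiles (helper87): continuity in the profile
-/

open MeasureTheory Set Filter Topology Real

namespace Pool.Agent.Lib.MP_85963d_gt.H87

open Pool.Agent.Lib.MP_85963d_gt.H70

theorem sqrt_cv {b : ℝ} (hb : 0 < b) (f : ℝ → ℝ) :
    ∫ X in Ioo 0 b, f (√X) = ∫ t in Ioo 0 (√b), 2 * t * f t := by
  have hsb : 0 < √b := Real.sqrt_pos.mpr hb
  have himg : (fun t : ℝ => t ^ 2) '' Ioo 0 (√b) = Ioo 0 b := by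
    ext X
    constructor
    · rintro ⟨t, ht, rfl⟩
      have := ht.1
      refine ⟨by positivity, ?_⟩
      have h2 := ht.2
      calc t ^ 2 < (√b) ^ 2 := by gcongr
        _ = b := Real.sq_sqrt hb.le
    · intro hX
      exact ⟨√X, ⟨Real.sqrt_pos.mpr hX.1, Real.sqrt_lt_sqrt hX.1.le hX.2⟩, Real.sq_sqrt hX.1.le⟩
  have h := integral_image_eq_integral_abs_deriv_smul (s := Ioo 0 (√b))
    (f := fun t : ℝ => t ^ 2) (f' := fun t => 2 * t)
    measurableSet_Ioo (fun t _ => by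
      have := (hasDerivAt_pow 2 t).hasDerivWithinAt (s := Ioo 0 (√b))
      simpa using this)
    (fun x hx y hy hxy => by
      have h1 := hx.1.le
      have h2 := hy.1.le
      exact (pow_left_inj₀ h1 h2 two_ne_zero).mp hxy) (fun X => f (√X))
  rw [himg] at h
  rw [h]
  refine setIntegral_congr_fun measurableSet_Ioo (fun t ht => ?_)
  have h1 := ht.1
  simp only [smul_eq_mul]
  rw [Real.sqrt_sq h1.le, abs_of_pos (by positivity)]

variable {b c C : ℝ}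

theorem diff_unif (b : ℝ) (hb : 0 < b) (hc : 0 < c) (C : ℝ) :
    ∃ L L' : ℝ, 0 ≤ L ∧ 0 ≤ L' ∧ ∀ (P Q S K P₁ Q₁ S₁ K₁ : ℝ → ℝ) (ε : ℝ),
      PD b c C 1 P Q S K → PD b c C 1 P₁ Q₁ S₁ K₁ → 0 ≤ ε →
      (∀ t ∈ Ioc 0 (√b), |P₁ t - P t| ≤ ε * t ^ 2) →
      (∀ t ∈ Ioc 0 (√b), |S₁ t - S t| ≤ ε * t ^ 2) →
      (∀ t ∈ Ioc 0 (√b), |Q₁ t - Q t| ≤ ε) →
      (∀ X, 0 < X → X ≤ b → |om P₁ Q₁ S₁ K₁ X 0 - om P Q S K X 0| ≤ X * (L * ε)) ∧
      (∀ X Y, 0 < X → 0 ≤ Y → X + Y ≤ b → |om' P₁ Q₁ S₁ K₁ X Y - om' P Q S K X Y| ≤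
        L' * ((1 + b) * ε + |K₁ (√X) - K (√X)|)) ∧
      (∀ X Y, 0 < X → 0 ≤ Y → X + Y ≤ b → |om P₁ Q₁ S₁ K₁ X Y - om P Q S K X Y| ≤
        X * (L * ε) + Y * (L' * ((1 + b) * ε + |K₁ (√X) - K (√X)|))) := by
  obtain ⟨L, hL0, hL⟩ := lip_box (F5_contDiff (b := b) (C := C) hc)
  obtain ⟨L', hL0', hL'⟩ := lip_box (F5'_contDiff (b := b) (C := C) hc)
  refine ⟨L, L', hL0, hL0', ?_⟩
  intro P Q S K P₁ Q₁ S₁ K₁ ε h h₁ hε e1 e2 e3
  have hC0 := h.C_pos hc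
  have h0C : (0 : ℝ) ∈ Icc (-C) C := ⟨by linarith, hC0.le⟩
  have hA : ∀ X, 0 < X → X ≤ b → |om P₁ Q₁ S₁ K₁ X 0 - om P Q S K X 0| ≤ X * (L * ε) := by
    intro X hX hXb
    have ht := sqrt_mem (b := b) hX hXb
    have q1 : om P₁ Q₁ S₁ K₁ X 0 = F5 (P₁ (√X), 0, S₁ (√X), 0, 0) := by simp [om_eq, F5, r5]
    have q2 : om P Q S K X 0 = F5 (P (√X), 0, S (√X), 0, 0) := by simp [om_eq, F5, r5]
    rw [q1, q2]
    have m1 : ((P₁ (√X), 0, S₁ (√X), 0, 0) : ℝ × ℝ × ℝ × ℝ × ℝ) ∈ box5 b c C :=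
      ⟨h₁.bP _ ht, h0C, h₁.bS _ ht, h0C, le_rfl, hb.le⟩
    have m2 : ((P (√X), 0, S (√X), 0, 0) : ℝ × ℝ × ℝ × ℝ × ℝ) ∈ box5 b c C :=
      ⟨h.bP _ ht, h0C, h.bS _ ht, h0C, le_rfl, hb.le⟩
    have a1 := e1 _ ht
    have a2 := e2 _ ht
    rw [Real.sq_sqrt hX.le] at a1 a2
    have a3 : 0 ≤ ε * X := by positivity
    have a4 : ‖((P₁ (√X), 0, S₁ (√X), 0, 0) : ℝ × ℝ × ℝ × ℝ × ℝ) -
        (P (√X), 0, S (√X), 0, 0)‖ ≤ ε * X := by
      simp only [Prod.mk_sub_mk, sub_self, Prod.norm_mk, norm_zero, Real.norm_eq_abs]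
      exact max_le a1 (max_le a3 (max_le a2 a3))
    calc _ ≤ L * ‖((P₁ (√X), 0, S₁ (√X), 0, 0) : ℝ × ℝ × ℝ × ℝ × ℝ) -
        (P (√X), 0, S (√X), 0, 0)‖ := hL _ m1 _ m2
      _ ≤ L * (ε * X) := by gcongr
      _ = _ := by ring
  have hB : ∀ X Y, 0 < X → 0 ≤ Y → X + Y ≤ b → |om' P₁ Q₁ S₁ K₁ X Y - om' P Q S K X Y| ≤
        L' * ((1 + b) * ε + |K₁ (√X) - K (√X)|) := by
    intro X Y hX hY hXY
    have ht := sqrt_mem (b := b) hX (by linarith)
    have a1 := e1 _ ht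
    have a2 := e2 _ ht
    have a3 := e3 _ ht
    rw [Real.sq_sqrt hX.le] at a1 a2
    have a0 : 0 ≤ |K₁ (√X) - K (√X)| := abs_nonneg _
    have a5 : ε * X ≤ b * ε := by nlinarith
    have a6 : 0 ≤ b * ε := by positivity
    have a4 : ‖((P₁ (√X), Q₁ (√X), S₁ (√X), K₁ (√X), Y) : ℝ × ℝ × ℝ × ℝ × ℝ) -
        (P (√X), Q (√X), S (√X), K (√X), Y)‖ ≤ (1 + b) * ε + |K₁ (√X) - K (√X)| := by
      simp only [Prod.mk_sub_mk, sub_self, Prod.norm_mk, norm_zero, Real.norm_eq_abs]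
      exact max_le (by linarith) (max_le (by linarith) (max_le (by linarith)
        (max_le (by linarith) (by linarith))))
    calc _ ≤ L' * ‖((P₁ (√X), Q₁ (√X), S₁ (√X), K₁ (√X), Y) : ℝ × ℝ × ℝ × ℝ × ℝ) -
        (P (√X), Q (√X), S (√X), K (√X), Y)‖ :=
          hL' _ (h₁.mem_box hX hY hXY) _ (h.mem_box hX hY hXY)
      _ ≤ _ := by gcongr
  refine ⟨hA, hB, ?_⟩
  intro X Y hX hY hXY
  have hder : ∀ y, 0 ≤ y → X + y ≤ b → HasDerivAt
      (fun y => om P₁ Q₁ S₁ K₁ X y - om P Q S K X y)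
      (om' P₁ Q₁ S₁ K₁ X y - om' P Q S K X y) y := fun y hy hXy =>
    (F5_hasDerivAt (box5_q hc (h₁.mem_box hX hy hXy))).sub
      (F5_hasDerivAt (box5_q hc (h.mem_box hX hy hXy)))
  have a2 := norm_image_sub_le_of_norm_deriv_le_segment' (a := 0) (b := Y)
    (C := L' * ((1 + b) * ε + |K₁ (√X) - K (√X)|))
    (f := fun y => om P₁ Q₁ S₁ K₁ X y - om P Q S K X y)
    (f' := fun y => om' P₁ Q₁ S₁ K₁ X y - om' P Q S K X y)
    (fun y hy => (hder y hy.1 (by linarith [hy.2])).hasDerivWithinAt)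
    (fun y hy => hB X y hX hy.1 (by linarith [hy.2])) Y ⟨hY, le_rfl⟩
  rw [Real.norm_eq_abs, sub_zero] at a2
  have a1 := hA X hX (by linarith)
  have a3 : |om P₁ Q₁ S₁ K₁ X Y - om P Q S K X Y| ≤
      |(om P₁ Q₁ S₁ K₁ X 0 - om P Q S K X 0)| +
      |(om P₁ Q₁ S₁ K₁ X Y - om P Q S K X Y) - (om P₁ Q₁ S₁ K₁ X 0 - om P Q S K X 0)| := by
    calc |om P₁ Q₁ S₁ K₁ X Y - om P Q S K X Y| =
        |(om P₁ Q₁ S₁ K₁ X 0 - om P Q S K X 0) +
        ((om P₁ Q₁ S₁ K₁ X Y - om P Q S K X Y) - (om P₁ Q₁ S₁ K₁ X 0 - om P Q S K X 0))| := by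
          rw [add_sub_cancel]
      _ ≤ _ := abs_add_le _ _
  linarith

/-- (C) continuity in the profile, one step -/
theorem Dat.cont {p₀ δ α β x : ℝ} {P Q S K G : ℝ → ℝ} (hb : 0 < b) (hc : 0 < c)
    (hs : Small b c C δ) (hx : 0 < x) (h : PD b c C p₀ P Q S K)
    (d : Dat b δ P Q S K α β G) :
    ∃ M : ℝ, 0 ≤ M ∧ ∀ (p₁ ε : ℝ) (P₁ Q₁ S₁ K₁ G₁ : ℝ → ℝ), PD b c C p₁ P₁ Q₁ S₁ K₁ →
      Dat b δ P₁ Q₁ S₁ K₁ α β G₁ → |p₁ - p₀| ≤ ε →
      (∀ t ∈ Ioc 0 (√b), |(P₁ t - p₁) - (P t - p₀)| ≤ ε * t ^ 2) →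
      (∀ t ∈ Ioc 0 (√b), |(S₁ t - p₁) - (S t - p₀)| ≤ ε * t ^ 2) →
      (∀ t ∈ Ioc 0 (√b), |Q₁ t - Q t| ≤ ε) →
      (∀ t ∈ Ioo 0 x, |K₁ t - K t| ≤ ε) →
      (∫ t in (0 : ℝ)..√b, |K₁ t - K t| ≤ ε) →
      ∀ X ∈ Ioc (0 : ℝ) b, |G₁ X - G X| ≤ M * ε / √X := by
  have hC := h.C_pos hc
  obtain ⟨hδ, hδb, M, hM, hsm, hMK⟩ := hs
  obtain ⟨g, hg, hGg, hgf⟩ := d
  obtain ⟨K₀, hK₀, hst⟩ := stab (x := x ^ 2) (hMK _ _ _ _ _ h) hδ hδb hsm hg (by positivity) hgf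
  obtain ⟨A, c', hc', hw⟩ := wt_unif b hb (c := c / C) (by positivity) (C / c)
  obtain ⟨L, L', hL, hL', hdiff⟩ := diff_unif b hb (c := c / C) (by positivity) (C / c)
  set E : ℝ := 1 / c + C / c ^ 2 with hE
  have hE0 : 0 ≤ E := by positivity
  have hEc : 1 / c ≤ E := by rw [hE]; have : 0 ≤ C / c ^ 2 := by positivity
                             linarith
  have hEC : C / c ^ 2 ≤ E := by rw [hE]; have : 0 ≤ 1 / c := by positivity
                                 linarith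
  have hw₀ := hw _ _ _ _ (h.norm hc)
  have hA0 := hw₀.A_nonneg hb
  set R : ℝ := E * (7 / c' * (L + L' * (3 + b)) + 7 / c' * (b * (L + L' * (2 + b)) + 2 * √b * L') +
    (6 / c' + 13 * A * b / c' ^ 2) * L) with hR
  have hR1 : 0 ≤ E * (7 / c' * (L + L' * (3 + b))) := by positivity
  have hR2 : 0 ≤ E * (7 / c' * (b * (L + L' * (2 + b)) + 2 * √b * L')) := by positivity
  have hR3 : 0 ≤ E * ((6 / c' + 13 * A * b / c' ^ 2) * L) := by positivity
  have hR0 : 0 ≤ R := by rw [hR]; nlinarith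
  refine ⟨K₀ * R, by positivity, ?_⟩
  intro p₁ ε P₁ Q₁ S₁ K₁ G₁ h₁ d₁ e0 e1 e2 e3 e4 e5 X hX
  obtain ⟨g₁, hg₁, hGg₁, hgf₁⟩ := d₁
  have hε : 0 ≤ ε := (abs_nonneg _).trans e0
  have hp0 : 0 < p₀ := lt_of_lt_of_le hc h.p0.1
  have hp1 : 0 < p₁ := lt_of_lt_of_le hc h₁.p0.1
  have hw₁ := hw _ _ _ _ (h₁.norm hc)
  -- normalised differences
  have hinv : |1 / p₁ - 1 / p₀| ≤ ε / c ^ 2 := by
    have : 1 / p₁ - 1 / p₀ = (p₀ - p₁) / (p₁ * p₀) := by field_simp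
    rw [this, abs_div, abs_of_pos (by positivity : 0 < p₁ * p₀), abs_sub_comm]
    have h3 : c ^ 2 ≤ p₁ * p₀ := by nlinarith [h.p0.1, h₁.p0.1]
    exact div_le_div₀ hε e0 (by positivity) h3
  have n1 : ∀ t ∈ Ioc 0 (√b), |nm p₁ P₁ t - nm p₀ P t| ≤ E * ε * t ^ 2 := by
    intro t ht
    have e : nm p₁ P₁ t - nm p₀ P t = ((P₁ t - p₁) - (P t - p₀)) / p₁ +
        (P t - p₀) * (1 / p₁ - 1 / p₀) := by
      rw [nm, nm]; field_simp; ring
    rw [e]
    refine (abs_add_le _ _).trans ?_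
    rw [abs_div, abs_of_pos hp1, abs_mul]
    have a1 : |(P₁ t - p₁) - (P t - p₀)| / p₁ ≤ ε * t ^ 2 / c :=
      div_le_div₀ (by positivity) (e1 t ht) hc h₁.p0.1
    have a2 : |P t - p₀| * |1 / p₁ - 1 / p₀| ≤ (C * t ^ 2) * (ε / c ^ 2) :=
      mul_le_mul (h.nP t ht) hinv (abs_nonneg _) (by positivity)
    calc _ ≤ ε * t ^ 2 / c + (C * t ^ 2) * (ε / c ^ 2) := add_le_add a1 a2
      _ = _ := by rw [hE]; ring
  have n2 : ∀ t ∈ Ioc 0 (√b), |nm p₁ S₁ t - nm p₀ S t| ≤ E * ε * t ^ 2 := by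
    intro t ht
    have e : nm p₁ S₁ t - nm p₀ S t = ((S₁ t - p₁) - (S t - p₀)) / p₁ +
        (S t - p₀) * (1 / p₁ - 1 / p₀) := by
      rw [nm, nm]; field_simp; ring
    rw [e]
    refine (abs_add_le _ _).trans ?_
    rw [abs_div, abs_of_pos hp1, abs_mul]
    have a1 : |(S₁ t - p₁) - (S t - p₀)| / p₁ ≤ ε * t ^ 2 / c :=
      div_le_div₀ (by positivity) (e2 t ht) hc h₁.p0.1
    have a2 : |S t - p₀| * |1 / p₁ - 1 / p₀| ≤ (C * t ^ 2) * (ε / c ^ 2) :=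
      mul_le_mul (h.nS t ht) hinv (abs_nonneg _) (by positivity)
    calc _ ≤ ε * t ^ 2 / c + (C * t ^ 2) * (ε / c ^ 2) := add_le_add a1 a2
      _ = _ := by rw [hE]; ring
  have n3 : ∀ t ∈ Ioc 0 (√b), |nm p₁ Q₁ t - nm p₀ Q t| ≤ E * ε := by
    intro t ht
    have e : nm p₁ Q₁ t - nm p₀ Q t = (Q₁ t - Q t) / p₁ + Q t * (1 / p₁ - 1 / p₀) := by
      rw [nm, nm]; field_simp; ring
    rw [e]
    refine (abs_add_le _ _).trans ?_
    rw [abs_div, abs_of_pos hp1, abs_mul]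
    have a1 : |Q₁ t - Q t| / p₁ ≤ ε / c := div_le_div₀ hε (e3 t ht) hc h₁.p0.1
    have a2 : |Q t| * |1 / p₁ - 1 / p₀| ≤ C * (ε / c ^ 2) :=
      mul_le_mul (h.bQ t ht) hinv (abs_nonneg _) hC.le
    calc _ ≤ ε / c + C * (ε / c ^ 2) := add_le_add a1 a2
      _ = _ := by rw [hE]; ring
  have n4 : ∀ t ∈ Ioc 0 (√b), |nm p₁ K₁ t - nm p₀ K t| ≤ E * |K₁ t - K t| + E * ε := by
    intro t ht
    have e : nm p₁ K₁ t - nm p₀ K t = (K₁ t - K t) / p₁ + K t * (1 / p₁ - 1 / p₀) := by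
      rw [nm, nm]; field_simp; ring
    rw [e]
    refine (abs_add_le _ _).trans ?_
    rw [abs_div, abs_of_pos hp1, abs_mul]
    have a0 : 0 ≤ |K₁ t - K t| := abs_nonneg _
    have a1 : |K₁ t - K t| / p₁ ≤ |K₁ t - K t| * (1 / c) := by
      rw [mul_one_div]; exact div_le_div₀ a0 le_rfl hc h₁.p0.1
    have a2 : |K t| * |1 / p₁ - 1 / p₀| ≤ C * (ε / c ^ 2) :=
      mul_le_mul (h.bK t ht) hinv (abs_nonneg _) hC.le
    have a3 : |K₁ t - K t| * (1 / c) ≤ |K₁ t - K t| * E := by gcongr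
    have a4 : C * (ε / c ^ 2) = C / c ^ 2 * ε := by ring
    have a5 : C / c ^ 2 * ε ≤ E * ε := by gcongr
    linarith
  obtain ⟨D1, D2, D3⟩ := hdiff _ _ _ _ _ _ _ _ (E * ε) (h.norm hc) (h₁.norm hc)
    (by positivity) n1 n2 n3
  set D : ℝ → ℝ := fun X => |nm p₁ K₁ (√X) - nm p₀ K (√X)| with hD
  have hD0 : ∀ X, 0 ≤ D X := fun X => abs_nonneg _
  set η : ℝ → ℝ := fun X => L * (E * ε) + L' * ((1 + b) * (E * ε) + D X) with hη
  have hη0 : ∀ X, 0 ≤ η X := fun X => by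
    have := hD0 X
    positivity
  have hDK : ∀ X ∈ Ioo 0 b, D X ≤ E * |K₁ (√X) - K (√X)| + E * ε := fun X hX =>
    n4 _ (sqrt_mem hX.1 hX.2.le)
  -- integrability
  have hKm : Measurable fun X => |K₁ (√X) - K (√X)| := by
    have := h.mK
    have := h₁.mK
    fun_prop
  have hKi : IntegrableOn (fun X => |K₁ (√X) - K (√X)|) (Ioo 0 b) := by
    refine Integrable.mono' (g := fun _ => 2 * C) (integrableOn_const (by simp))
      hKm.aestronglyMeasurable ?_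
    refine (ae_restrict_iff' measurableSet_Ioo).mpr (Eventually.of_forall fun X hX => ?_)
    have ht := sqrt_mem (b := b) hX.1 hX.2.le
    rw [Real.norm_eq_abs, abs_abs]
    refine (abs_sub _ _).trans ?_
    have := h.bK _ ht
    have := h₁.bK _ ht
    linarith
  have hKint : ∫ X in Ioo 0 b, |K₁ (√X) - K (√X)| ≤ 2 * √b * ε := by
    rw [sqrt_cv hb (fun t => |K₁ t - K t|)]
    have hsb : 0 ≤ √b := Real.sqrt_nonneg b
    rw [intervalIntegral.integral_of_le hsb, integral_Ioc_eq_integral_Ioo] at e5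
    have hKm' : Measurable fun t => |K₁ t - K t| := by
      have := h.mK
      have := h₁.mK
      fun_prop
    have hi1 : IntegrableOn (fun t => |K₁ t - K t|) (Ioo 0 (√b)) := by
      refine Integrable.mono' (g := fun _ => 2 * C) (integrableOn_const (by simp))
        hKm'.aestronglyMeasurable ?_
      refine (ae_restrict_iff' measurableSet_Ioo).mpr (Eventually.of_forall fun t ht => ?_)
      have ht' : t ∈ Ioc 0 (√b) := ⟨ht.1, ht.2.le⟩
      rw [Real.norm_eq_abs, abs_abs]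
      refine (abs_sub _ _).trans ?_
      have := h.bK _ ht'
      have := h₁.bK _ ht'
      linarith
    calc ∫ t in Ioo 0 (√b), 2 * t * |K₁ t - K t| ≤ ∫ t in Ioo 0 (√b), 2 * √b * |K₁ t - K t| := by
          refine setIntegral_mono_on ?_ (hi1.const_mul _) measurableSet_Ioo (fun t ht => ?_)
          · refine Integrable.mono' (hi1.const_mul (2 * √b))
              (Measurable.mul (by fun_prop) hKm').aestronglyMeasurable ?_
            refine (ae_restrict_iff' measurableSet_Ioo).mpr (Eventually.of_forall fun t ht => ?_)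
            have h1 := ht.1
            have h2 := ht.2.le
            rw [norm_mul, Real.norm_eq_abs, Real.norm_eq_abs, abs_abs,
              abs_of_pos (by positivity : 0 < 2 * t)]
            gcongr
          · have h1 := ht.1
            have h2 := ht.2.le
            gcongr
      _ = 2 * √b * ∫ t in Ioo 0 (√b), |K₁ t - K t| := by rw [integral_const_mul]
      _ ≤ 2 * √b * ε := by gcongr
  have hDm : Measurable D := by
    have := h.mK
    have := h₁.mK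
    have e : D = fun X => |K₁ (√X) / p₁ - K (√X) / p₀| := rfl
    rw [e]
    fun_prop
  have hDi : IntegrableOn D (Ioo 0 b) := by
    refine Integrable.mono' ((hKi.const_mul E).add (integrableOn_const (C := E * ε) (by simp)))
      hDm.aestronglyMeasurable ?_
    refine (ae_restrict_iff' measurableSet_Ioo).mpr (Eventually.of_forall fun X hX => ?_)
    rw [Real.norm_of_nonneg (hD0 X)]
    exact hDK X hX
  have hDint : ∫ X in Ioo 0 b, D X ≤ E * (2 * √b * ε) + b * (E * ε) := by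
    calc ∫ X in Ioo 0 b, D X ≤ ∫ X in Ioo 0 b, (E * |K₁ (√X) - K (√X)| + E * ε) :=
          setIntegral_mono_on hDi ((hKi.const_mul E).add (integrableOn_const (by simp)))
            measurableSet_Ioo hDK
      _ = E * (∫ X in Ioo 0 b, |K₁ (√X) - K (√X)|) + b * (E * ε) := by
          rw [integral_add (hKi.const_mul E) (integrableOn_const (by simp)), integral_const_mul,
            setIntegral_const, Measure.real, volume_Ioo, sub_zero, ENNReal.toReal_ofReal hb.le,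
            smul_eq_mul]
      _ ≤ _ := by gcongr
  have hηi : IntegrableOn η (Ioo 0 b) := by
    have h1 : IntegrableOn (fun _ : ℝ => L * (E * ε)) (Ioo 0 b) := integrableOn_const (by simp)
    have h2 : IntegrableOn (fun X => L' * ((1 + b) * (E * ε) + D X)) (Ioo 0 b) :=
      ((integrableOn_const (C := (1 + b) * (E * ε)) (by simp)).add hDi).const_mul L'
    exact h1.add h2
  have hηint : ∫ X in Ioo 0 b, η X ≤ E * (b * (L + L' * (2 + b)) + 2 * √b * L') * ε := by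
    have h1 : IntegrableOn (fun _ : ℝ => L * (E * ε)) (Ioo 0 b) := integrableOn_const (by simp)
    have h3 : IntegrableOn (fun _ : ℝ => (1 + b) * (E * ε)) (Ioo 0 b) :=
      integrableOn_const (by simp)
    have h2 : IntegrableOn (fun X => L' * ((1 + b) * (E * ε) + D X)) (Ioo 0 b) :=
      (h3.add hDi).const_mul L'
    have e : ∫ X in Ioo 0 b, η X = b * (L * (E * ε)) +
        L' * (b * ((1 + b) * (E * ε)) + ∫ X in Ioo 0 b, D X) := by
      rw [hη, integral_add h1 h2, setIntegral_const, integral_const_mul L',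
        integral_add h3 hDi, setIntegral_const, Measure.real, volume_Ioo, sub_zero,
        ENNReal.toReal_ofReal hb.le, smul_eq_mul, smul_eq_mul]
    rw [e]
    calc b * (L * (E * ε)) + L' * (b * ((1 + b) * (E * ε)) + ∫ X in Ioo 0 b, D X) ≤
        b * (L * (E * ε)) + L' * (b * ((1 + b) * (E * ε)) +
          (E * (2 * √b * ε) + b * (E * ε))) := by gcongr
      _ = _ := by ring
  have hc7 : 0 ≤ 7 / c' := by positivity
  have hmain := hst (kerP P₁ Q₁ S₁ K₁) g₁ (fun X => 7 / c' * η X) (R * ε) (hMK _ _ _ _ _ h₁)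
    hg₁ hgf₁ (by positivity) (hηi.const_mul _) (fun X _ => mul_nonneg hc7 (hη0 X))
    (fun X hX hXx => ?_) ?_ ?_ X ⟨hX.1.le, hX.2⟩
  · rw [hGg₁ X hX, hGg X hX, ← sub_div, abs_div, abs_of_nonneg (Real.sqrt_nonneg X)]
    have : K₀ * R * ε = K₀ * (R * ε) := by ring
    rw [this]
    gcongr
  · -- near zero
    have ht : √X ∈ Ioo 0 x := ⟨Real.sqrt_pos.mpr hX.1, (Real.sqrt_lt' hx).mpr hXx⟩
    have a1 := hDK X hX
    have a2 := e4 _ ht
    have a3 : D X ≤ E * ε + E * ε := by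
      refine a1.trans ?_
      gcongr
    have a4 : η X ≤ E * (L + L' * (3 + b)) * ε := by
      calc η X ≤ L * (E * ε) + L' * ((1 + b) * (E * ε) + (E * ε + E * ε)) := by
            show L * (E * ε) + L' * ((1 + b) * (E * ε) + D X) ≤ _
            gcongr
        _ = _ := by ring
    calc 7 / c' * η X ≤ 7 / c' * (E * (L + L' * (3 + b)) * ε) := by gcongr
      _ = E * (7 / c' * (L + L' * (3 + b))) * ε := by ring
      _ ≤ R * ε := by
          gcongr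
          rw [hR]; linarith
  · rw [integral_const_mul]
    calc 7 / c' * ∫ X in Ioo 0 b, η X ≤
        7 / c' * (E * (b * (L + L' * (2 + b)) + 2 * √b * L') * ε) := by gcongr
      _ = E * (7 / c' * (b * (L + L' * (2 + b)) + 2 * √b * L')) * ε := by ring
      _ ≤ R * ε := by
          gcongr
          rw [hR]; linarith
  · intro X σ hX hXσ hσ
    have e1 := kerP_norm (P := P) (Q := Q) (S := S) (K := K) hp0
    have e2 := kerP_norm (P := P₁) (Q := Q₁) (S := S₁) (K := K₁) hp1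
    rw [← e1, ← e2]
    unfold kerP
    have h5 := mW_diff (η := η) (ε := L * (E * ε)) hw₀ hw₁ hb hc' (fun X Y hX hY hXY => ?_)
      (fun X Y hX hY hXY => ?_) (fun s hs => ?_) hX hXσ hσ
    · refine h5.trans ?_
      have : (6 / c' + 13 * A * b / c' ^ 2) * (L * (E * ε)) ≤ R * ε := by
        calc _ = E * ((6 / c' + 13 * A * b / c' ^ 2) * L) * ε := by ring
          _ ≤ R * ε := by
              gcongr
              rw [hR]; linarith
      linarith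
    · refine (D3 X Y hX hY hXY).trans ?_
      show _ ≤ (X + Y) * (L * (E * ε) + L' * ((1 + b) * (E * ε) + D X))
      have a1 : 0 ≤ Y * (L * (E * ε)) := by positivity
      have a2 : 0 ≤ X * (L' * ((1 + b) * (E * ε) + D X)) := by
        have := hD0 X
        positivity
      have a3 : |nm p₁ K₁ (√X) - nm p₀ K (√X)| = D X := rfl
      rw [a3]
      nlinarith
    · refine (D2 X Y hX hY hXY).trans ?_
      show _ ≤ L * (E * ε) + L' * ((1 + b) * (E * ε) + D X)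
      have a1 : 0 ≤ L * (E * ε) := by positivity
      have a3 : |nm p₁ K₁ (√X) - nm p₀ K (√X)| = D X := rfl
      rw [a3]
      linarith
    · exact D1 s hs.1 hs.2

/-- (C) sequence form -/
theorem Dat.tendsto {p₀ δ α β x : ℝ} {P Q S K G : ℝ → ℝ} (hb : 0 < b) (hc : 0 < c)
    (hs : Small b c C δ) (hx : 0 < x) (h : PD b c C p₀ P Q S K)
    {pn : ℕ → ℝ} {Pn Qn Sn Kn Gn : ℕ → ℝ → ℝ} {ε : ℕ → ℝ}
    (hn : ∀ n, PD b c C (pn n) (Pn n) (Qn n) (Sn n) (Kn n))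
    (d : Dat b δ P Q S K α β G) (dn : ∀ n, Dat b δ (Pn n) (Qn n) (Sn n) (Kn n) α β (Gn n))
    (hε : Tendsto ε atTop (𝓝 0)) (e0 : ∀ n, |pn n - p₀| ≤ ε n)
    (e1 : ∀ n, ∀ t ∈ Ioc 0 (√b), |(Pn n t - pn n) - (P t - p₀)| ≤ ε n * t ^ 2)
    (e2 : ∀ n, ∀ t ∈ Ioc 0 (√b), |(Sn n t - pn n) - (S t - p₀)| ≤ ε n * t ^ 2)
    (e3 : ∀ n, ∀ t ∈ Ioc 0 (√b), |Qn n t - Q t| ≤ ε n)
    (e4 : ∀ n, ∀ t ∈ Ioo 0 x, |Kn n t - K t| ≤ ε n)
    (e5 : ∀ n, ∫ t in (0 : ℝ)..√b, |Kn n t - K t| ≤ ε n) :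
    (∀ X ∈ Ioc (0 : ℝ) b, Tendsto (fun n => Gn n X) atTop (𝓝 (G X))) ∧
    ∃ M : ℝ, 0 ≤ M ∧ ∀ n, ∀ X ∈ Ioc (0 : ℝ) b, |Gn n X| ≤ M / √X := by
  obtain ⟨M, hM, hst⟩ := d.cont hb hc hs hx h
  have hε0 : ∀ n, 0 ≤ ε n := fun n => (abs_nonneg _).trans (e0 n)
  have hdiff : ∀ n, ∀ X ∈ Ioc (0 : ℝ) b, |Gn n X - G X| ≤ M * ε n / √X := fun n =>
    hst (pn n) (ε n) _ _ _ _ _ (hn n) (dn n) (e0 n) (e1 n) (e2 n) (e3 n) (e4 n) (e5 n)
  constructor
  · intro X hX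
    rw [tendsto_iff_norm_sub_tendsto_zero]
    have h1 : Tendsto (fun n => M * ε n / √X) atTop (𝓝 0) := by
      have := (hε.const_mul M).div_const (√X)
      simpa using this
    exact squeeze_zero (fun n => norm_nonneg _) (fun n => hdiff n X hX) h1
  · obtain ⟨g, hg, hGg, -⟩ := d
    obtain ⟨K₀, hK⟩ := isCompact_Icc.exists_bound_of_continuousOn hg
    have hK₀ : 0 ≤ K₀ := (norm_nonneg _).trans (hK 0 ⟨le_rfl, hb.le⟩)
    obtain ⟨E, hE⟩ := hε.bddAbove_range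
    have hE' : ∀ n, ε n ≤ E := fun n => hE ⟨n, rfl⟩
    have hE0 : 0 ≤ E := (hε0 0).trans (hE' 0)
    refine ⟨M * E + K₀, by positivity, fun n X hX => ?_⟩
    have h1 := hdiff n X hX
    have h2 : |G X| ≤ K₀ / √X := by
      rw [hGg X hX, abs_div, abs_of_nonneg (Real.sqrt_nonneg X)]
      gcongr
      exact hK X ⟨hX.1.le, hX.2⟩
    have h3 : |Gn n X| ≤ |Gn n X - G X| + |G X| := by
      calc |Gn n X| = |(Gn n X - G X) + G X| := by rw [sub_add_cancel]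
        _ ≤ _ := abs_add_le _ _
    have h4 : M * ε n / √X ≤ M * E / √X := by
      have := hE' n
      gcongr
    rw [add_div]
    linarith

end Pool.Agent.Lib.MP_85963d_gt.H87
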