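import Pool.Agent.Lib.MP_85963d_gt.H87.SV1

/-!
# Abel transform, part 1 (helper87)
-/

open MeasureTheory Set Filter Topology Real

namespace Pool.Agent.Lib.MP_85963d_gt.H87

/-- `∫_0^τ F = 0` for all `τ` implies `F = 0` a.e. -/
theorem ae_zero_of_integrals {b : ℝ} {F : ℝ → ℝ} (hb : 0 < b) (hF : IntegrableOn F (Ioo 0 b))
    (h : ∀ τ ∈ Ioo (0 : ℝ) b, ∫ s in Ioo (0 : ℝ) τ, F s = 0) :
    ∀ᵐ s ∂(volume.restrict (Ioo (0 : ℝ) b)), F s = 0 := by
  rw [← intervalIntegrable_iff_integrableOn_Ioo_of_le hb.le] at hF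
  have hd := hF.ae_hasDerivAt_integral
  rw [ae_restrict_iff' measurableSet_Ioo]
  filter_upwards [hd] with s hs hsb
  have h1 := hs (by rw [uIcc_of_le hb.le]; exact Ioo_subset_Icc_self hsb) 0 left_mem_uIcc
  have h2 : HasDerivAt (fun x => ∫ t in (0 : ℝ)..x, F t) 0 s := by
    refine (hasDerivAt_const s (0 : ℝ)).congr_of_eventuallyEq ?_
    filter_upwards [Ioo_mem_nhds hsb.1 hsb.2] with x hx
    rw [intervalIntegral.integral_of_le hx.1.le, integral_Ioc_eq_integral_Ioo]
    exact h x hx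
  exact h1.unique h2

section cv

variable {D : ℝ}

theorem sin_cos_pos {θ : ℝ} (hθ : θ ∈ Ioo 0 (π / 2)) : 0 < sin θ ∧ 0 < cos θ :=
  ⟨sin_pos_of_pos_of_lt_pi hθ.1 (by linarith [hθ.2, pi_pos]),
    cos_pos_of_mem_Ioo ⟨by linarith [hθ.1, pi_pos], hθ.2⟩⟩

theorem sinsq_strictMono (hD : 0 < D) : StrictMonoOn (fun θ => D * sin θ ^ 2) (Icc 0 (π / 2)) := by
  intro x hx y hy hxy
  have h1 : sin x < sin y := strictMonoOn_sin ⟨by linarith [hx.1, pi_pos], hx.2⟩
    ⟨by linarith [hy.1, pi_pos], hy.2⟩ hxy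
  have h2 : 0 ≤ sin x := sin_nonneg_of_nonneg_of_le_pi hx.1 (by linarith [hx.2, pi_pos])
  have h3 : sin x ^ 2 < sin y ^ 2 := by nlinarith
  exact mul_lt_mul_of_pos_left h3 hD

theorem image_sinsq (hD : 0 < D) : (fun θ => D * sin θ ^ 2) '' Ioo 0 (π / 2) = Ioo 0 D := by
  have hmono := sinsq_strictMono hD
  have hp : (0 : ℝ) ≤ π / 2 := by positivity
  have h0 : (fun θ => D * sin θ ^ 2) 0 = 0 := by simp
  have h1 : (fun θ => D * sin θ ^ 2) (π / 2) = D := by simp
  apply Subset.antisymm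
  · rintro _ ⟨b, hb, rfl⟩
    have hb' := Ioo_subset_Icc_self hb
    constructor
    · calc (0 : ℝ) = (fun θ => D * sin θ ^ 2) 0 := h0.symm
        _ < _ := hmono (left_mem_Icc.2 hp) hb' hb.1
    · calc (fun θ => D * sin θ ^ 2) b < (fun θ => D * sin θ ^ 2) (π / 2) :=
            hmono hb' (right_mem_Icc.2 hp) hb.2
        _ = D := h1
  · intro y hy
    have := intermediate_value_Ioo hp (f := fun θ => D * sin θ ^ 2) (by fun_prop)
    refine this ?_
    simpa using hy

theorem deriv_sinsq (θ : ℝ) : HasDerivAt (fun θ => D * sin θ ^ 2) (2 * D * sin θ * cos θ) θ := by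
  have := ((hasDerivAt_sin θ).pow 2).const_mul D
  refine this.congr_deriv ?_
  push_cast
  ring

theorem abel_jac (hD : 0 < D) (f : ℝ → ℝ) {θ : ℝ} (hθ : θ ∈ Ioo 0 (π / 2)) :
    |2 * D * sin θ * cos θ| * (f (D * sin θ ^ 2) / (√(D * sin θ ^ 2) * √(D - D * sin θ ^ 2))) =
      2 * f (D * sin θ ^ 2) := by
  obtain ⟨hs, hc⟩ := sin_cos_pos hθ
  have e1 : √(D * sin θ ^ 2) = √D * sin θ := by rw [sqrt_mul hD.le, sqrt_sq hs.le]
  have e2 : √(D - D * sin θ ^ 2) = √D * cos θ := by
    rw [show D - D * sin θ ^ 2 = D * cos θ ^ 2 by rw [cos_sq']; ring, sqrt_mul hD.le,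
      sqrt_sq hc.le]
  have hsD : 0 < √D := sqrt_pos.2 hD
  have hq : √D * √D = D := mul_self_sqrt hD.le
  rw [e1, e2, abs_of_pos (by positivity)]
  have e3 : √D * sin θ * (√D * cos θ) = D * sin θ * cos θ := by
    calc √D * sin θ * (√D * cos θ) = (√D * √D) * sin θ * cos θ := by ring
      _ = _ := by rw [hq]
  rw [e3]
  field_simp

theorem abel_cv (hD : 0 < D) (f : ℝ → ℝ) :
    ∫ Y in Ioo 0 D, f Y / (√Y * √(D - Y)) = ∫ θ in Ioo 0 (π / 2), 2 * f (D * sin θ ^ 2) := by
  have h := integral_image_eq_integral_abs_deriv_smul (s := Ioo 0 (π / 2))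
    (f := fun θ => D * sin θ ^ 2) (f' := fun θ => 2 * D * sin θ * cos θ)
    measurableSet_Ioo (fun θ _ => (deriv_sinsq θ).hasDerivWithinAt)
    ((sinsq_strictMono hD).mono Ioo_subset_Icc_self).injOn (fun Y => f Y / (√Y * √(D - Y)))
  rw [image_sinsq hD] at h
  rw [h]
  refine setIntegral_congr_fun measurableSet_Ioo (fun θ hθ => ?_)
  simp only [smul_eq_mul]
  exact abel_jac hD f hθ

theorem abel_cv_int (hD : 0 < D) (f : ℝ → ℝ) :
    IntegrableOn (fun Y => f Y / (√Y * √(D - Y))) (Ioo 0 D) ↔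
      IntegrableOn (fun θ => 2 * f (D * sin θ ^ 2)) (Ioo 0 (π / 2)) := by
  have h := integrableOn_image_iff_integrableOn_abs_deriv_smul (s := Ioo 0 (π / 2))
    (f := fun θ => D * sin θ ^ 2) (f' := fun θ => 2 * D * sin θ * cos θ)
    measurableSet_Ioo (fun θ _ => (deriv_sinsq θ).hasDerivWithinAt)
    ((sinsq_strictMono hD).mono Ioo_subset_Icc_self).injOn (fun Y => f Y / (√Y * √(D - Y)))
  rw [image_sinsq hD] at h
  rw [h]
  refine integrableOn_congr_fun (fun θ hθ => ?_) measurableSet_Ioo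
  simp only [smul_eq_mul]
  exact abel_jac hD f hθ

end cv

/-- translation of a set integral -/
theorem setIntegral_shift {X σ : ℝ} (h : X < σ) (g : ℝ → ℝ) :
    ∫ s in Ioo X σ, g (s - X) = ∫ Y in Ioo 0 (σ - X), g Y := by
  rw [← integral_Ioc_eq_integral_Ioo, ← intervalIntegral.integral_of_le h.le,
    intervalIntegral.integral_comp_sub_right g X, sub_self,
    intervalIntegral.integral_of_le (by linarith), integral_Ioc_eq_integral_Ioo]

theorem integrableOn_shift {X σ : ℝ} (h : X < σ) {g : ℝ → ℝ}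
    (hg : IntegrableOn g (Ioo 0 (σ - X))) : IntegrableOn (fun s => g (s - X)) (Ioo X σ) := by
  have h0 : (0 : ℝ) ≤ σ - X := by linarith
  rw [← intervalIntegrable_iff_integrableOn_Ioo_of_le h0] at hg
  rw [← intervalIntegrable_iff_integrableOn_Ioo_of_le h.le]
  have := hg.comp_sub_right X
  simpa using this

/-- the inner integral of the Abel transform -/
noncomputable def kk (H : ℝ → ℝ → ℝ) (X D : ℝ) : ℝ :=
  ∫ θ in Ioo 0 (π / 2), 2 * H X (D * sin θ ^ 2)

/-- the operator `s ↦ ∫_0^s G(X) H(X,s-X)/√(s-X) dX` -/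
noncomputable def TG (H : ℝ → ℝ → ℝ) (G : ℝ → ℝ) (s : ℝ) : ℝ :=
  ∫ X in Ioo 0 s, G X * (H X (s - X) / √(s - X))

/-- bounded measurable kernels on the triangle -/
structure BK (b B : ℝ) (H : ℝ → ℝ → ℝ) : Prop where
  meas : Measurable (Function.uncurry H)
  bd : ∀ X Y, 0 < X → 0 ≤ Y → X + Y ≤ b → |H X Y| ≤ B

theorem BK.mono {b b' B : ℝ} {H : ℝ → ℝ → ℝ} (h : BK b B H) (hb : b' ≤ b) : BK b' B H :=
  ⟨h.meas, fun X Y hX hY hXY => h.bd X Y hX hY (hXY.trans hb)⟩

theorem BK.B_nonneg {b B : ℝ} {H : ℝ → ℝ → ℝ} (h : BK b B H) (hb : 0 < b) : 0 ≤ B :=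
  (abs_nonneg _).trans (h.bd b 0 hb le_rfl (by simp))

theorem vol_half_pi : (volume : Measure ℝ).real (Ioo 0 (π / 2)) = π / 2 := by
  rw [Measure.real, volume_Ioo, sub_zero, ENNReal.toReal_ofReal (by positivity)]

theorem sinsq_le {D : ℝ} (hD : 0 ≤ D) (θ : ℝ) : 0 ≤ D * sin θ ^ 2 ∧ D * sin θ ^ 2 ≤ D := by
  constructor
  · positivity
  · have := sin_sq_le_one θ
    nlinarith

theorem BK.theta_int {b B : ℝ} {H : ℝ → ℝ → ℝ} (h : BK b B H) {X D : ℝ} (hX : 0 < X)
    (hD : 0 ≤ D) (hXD : X + D ≤ b) :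
    IntegrableOn (fun θ => 2 * H X (D * sin θ ^ 2)) (Ioo 0 (π / 2)) := by
  refine Integrable.mono' (g := fun _ => 2 * B) (integrableOn_const (by simp)) ?_ ?_
  · refine Measurable.aestronglyMeasurable ?_
    have : Measurable fun θ : ℝ => Function.uncurry H (X, D * sin θ ^ 2) :=
      h.meas.comp (by fun_prop)
    exact this.const_mul 2
  · refine Eventually.of_forall fun θ => ?_
    rw [norm_mul, Real.norm_eq_abs, Real.norm_eq_abs, abs_of_pos (by norm_num : (0:ℝ) < 2)]
    have h1 := sinsq_le hD θ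
    have := h.bd X (D * sin θ ^ 2) hX h1.1 (by linarith)
    linarith

theorem BK.kk_le {b B : ℝ} {H : ℝ → ℝ → ℝ} (h : BK b B H) {X D : ℝ} (hX : 0 < X)
    (hD : 0 ≤ D) (hXD : X + D ≤ b) : |kk H X D| ≤ π * B := by
  have h2 := norm_setIntegral_le_of_norm_le_const (μ := volume) (s := Ioo 0 (π / 2)) (C := 2 * B)
    (f := fun θ => 2 * H X (D * sin θ ^ 2)) (by simp) (fun θ _ => ?_)
  · rw [vol_half_pi] at h2
    rw [kk, ← Real.norm_eq_abs]
    refine h2.trans (le_of_eq ?_)
    ring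
  · rw [norm_mul, Real.norm_eq_abs, Real.norm_eq_abs, abs_of_pos (by norm_num : (0:ℝ) < 2)]
    have h1 := sinsq_le hD θ
    have := h.bd X (D * sin θ ^ 2) hX h1.1 (by linarith)
    linarith

/-- the inner integral -/
theorem BK.inner {b B : ℝ} {H : ℝ → ℝ → ℝ} (h : BK b B H) {X σ : ℝ} (hX : 0 < X) (hXσ : X < σ)
    (hσ : σ ≤ b) :
    IntegrableOn (fun s => H X (s - X) / (√(s - X) * √(σ - s))) (Ioo X σ) ∧
    ∫ s in Ioo X σ, H X (s - X) / (√(s - X) * √(σ - s)) = kk H X (σ - X) := by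
  have hD : 0 < σ - X := by linarith
  have e : (fun s => H X (s - X) / (√(s - X) * √(σ - s))) =
      fun s => (fun Y => H X Y / (√Y * √(σ - X - Y))) (s - X) := by
    funext s
    simp only
    rw [show σ - X - (s - X) = σ - s by ring]
  rw [e]
  constructor
  · refine integrableOn_shift (g := fun Y => H X Y / (√Y * √(σ - X - Y))) hXσ ?_
    rw [abel_cv_int hD]
    exact h.theta_int hX hD.le (by linarith)
  · refine (setIntegral_shift hXσ (fun Y => H X Y / (√Y * √(σ - X - Y)))).trans ?_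
    rw [abel_cv hD]
    rfl

/-- Fubini for the Abel transform. -/
theorem abel_fubini {b B : ℝ} {H : ℝ → ℝ → ℝ} {G : ℝ → ℝ} (h : BK b B H)
    (hG : IntegrableOn G (Ioo 0 b)) {σ : ℝ} (hσ : 0 < σ) (hσb : σ ≤ b) :
    IntegrableOn (fun s => TG H G s / √(σ - s)) (Ioo 0 σ) ∧
    ∫ s in Ioo 0 σ, TG H G s / √(σ - s) = ∫ X in Ioo 0 σ, G X * kk H X (σ - X) := by
  have hb : 0 < b := lt_of_lt_of_le hσ hσb
  have hB := h.B_nonneg hb
  set μ : Measure ℝ := volume.restrict (Ioo 0 σ) with hμ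
  have hGσ : Integrable G μ := hG.mono_set (Ioo_subset_Ioo_right hσb)
  set F : ℝ × ℝ → ℝ := fun p => if p.2 < p.1 then
    G p.2 * (H p.2 (p.1 - p.2) / (√(p.1 - p.2) * √(σ - p.1))) else 0 with hF
  have hFm : AEStronglyMeasurable F (μ.prod μ) := by
    have h1 : AEStronglyMeasurable (fun p : ℝ × ℝ => G p.2) (μ.prod μ) := hGσ.1.comp_snd
    have h2 : Measurable (fun p : ℝ × ℝ => H p.2 (p.1 - p.2) / (√(p.1 - p.2) * √(σ - p.1))) := by
      have : Measurable fun p : ℝ × ℝ => Function.uncurry H (p.2, p.1 - p.2) :=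
        h.meas.comp (by fun_prop)
      exact this.div (by fun_prop)
    have h3 : MeasurableSet {p : ℝ × ℝ | p.2 < p.1} := measurableSet_lt measurable_snd measurable_fst
    exact (h1.mul h2.aestronglyMeasurable).indicator h3
  -- sections
  have hsec : ∀ X ∈ Ioo 0 σ, (fun s => F (s, X)) = (Ioi X).indicator (fun s => G X *
      (H X (s - X) / (√(s - X) * √(σ - s)))) := by
    intro X _
    funext s
    simp only [hF, indicator, mem_Ioi]
  have hint1 : ∀ X ∈ Ioo 0 σ, Integrable (fun s => F (s, X)) μ := by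
    intro X hX
    rw [hsec X hX, integrable_indicator_iff measurableSet_Ioi, IntegrableOn,
      hμ, Measure.restrict_restrict measurableSet_Ioi,
      show Ioi X ∩ Ioo 0 σ = Ioo X σ by
        ext s
        simp only [mem_inter_iff, mem_Ioi, mem_Ioo]
        constructor
        · rintro ⟨h1, h2, h3⟩; exact ⟨h1, h3⟩
        · rintro ⟨h1, h2⟩; exact ⟨h1, lt_trans hX.1 h1, h2⟩]
    exact (h.inner hX.1 hX.2 hσb).1.const_mul (G X)
  have hval1 : ∀ X ∈ Ioo 0 σ, ∫ s, F (s, X) ∂μ = G X * kk H X (σ - X) := by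
    intro X hX
    rw [hsec X hX, integral_indicator measurableSet_Ioi, hμ,
      Measure.restrict_restrict measurableSet_Ioi,
      show Ioi X ∩ Ioo 0 σ = Ioo X σ by
        ext s
        simp only [mem_inter_iff, mem_Ioi, mem_Ioo]
        constructor
        · rintro ⟨h1, h2, h3⟩; exact ⟨h1, h3⟩
        · rintro ⟨h1, h2⟩; exact ⟨h1, lt_trans hX.1 h1, h2⟩,
      integral_const_mul, (h.inner hX.1 hX.2 hσb).2]
  -- absolute kernel
  have habs : BK b B (fun X Y => ‖H X Y‖) :=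
    ⟨h.meas.norm, fun X Y a b c => by rw [abs_norm]; exact h.bd X Y a b c⟩
  have hnorm : ∀ X ∈ Ioo 0 σ, ∫ s, ‖F (s, X)‖ ∂μ ≤ |G X| * (π * B) := by
    intro X hX
    have e : (fun s => ‖F (s, X)‖) = (Ioi X).indicator (fun s => |G X| *
        (‖H X (s - X)‖ / (√(s - X) * √(σ - s)))) := by
      funext s
      rw [show F (s, X) = (fun s => F (s, X)) s from rfl, hsec X hX]
      by_cases hs : s ∈ Ioi X
      · rw [indicator_of_mem hs, indicator_of_mem hs, norm_mul, norm_div, Real.norm_eq_abs (G X),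
          Real.norm_of_nonneg (by positivity : (0:ℝ) ≤ √(s - X) * √(σ - s))]
      · rw [indicator_of_notMem hs, indicator_of_notMem hs, norm_zero]
    rw [e, integral_indicator measurableSet_Ioi, hμ,
      Measure.restrict_restrict measurableSet_Ioi,
      show Ioi X ∩ Ioo 0 σ = Ioo X σ by
        ext s
        simp only [mem_inter_iff, mem_Ioi, mem_Ioo]
        constructor
        · rintro ⟨h1, h2, h3⟩; exact ⟨h1, h3⟩
        · rintro ⟨h1, h2⟩; exact ⟨h1, lt_trans hX.1 h1, h2⟩,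
      integral_const_mul, (habs.inner hX.1 hX.2 hσb).2]
    refine mul_le_mul_of_nonneg_left ?_ (abs_nonneg _)
    exact (le_abs_self _).trans (habs.kk_le hX.1 (by linarith [hX.2]) (by linarith))
  have hFi : Integrable F (μ.prod μ) := by
    rw [integrable_prod_iff' hFm]
    constructor
    · exact (ae_restrict_iff' measurableSet_Ioo).mpr (Eventually.of_forall hint1)
    · refine Integrable.mono' (hGσ.norm.mul_const (π * B)) ?_ ?_
      · exact hFm.norm.prod_swap.integral_prod_right'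
      · refine (ae_restrict_iff' measurableSet_Ioo).mpr (Eventually.of_forall fun X hX => ?_)
        rw [Real.norm_of_nonneg (integral_nonneg fun _ => norm_nonneg _)]
        exact hnorm X hX
  -- the other section
  have hval2 : ∀ s ∈ Ioo 0 σ, ∫ X, F (s, X) ∂μ = TG H G s / √(σ - s) := by
    intro s hs
    have e : (fun X => F (s, X)) = (Iio s).indicator (fun X => G X *
        (H X (s - X) / √(s - X)) * (1 / √(σ - s))) := by
      funext X
      simp only [hF, indicator, mem_Iio]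
      split_ifs
      · rw [mul_assoc]; congr 1; rw [div_mul_div_comm, mul_one]
      · rfl
    rw [e, integral_indicator measurableSet_Iio, hμ,
      Measure.restrict_restrict measurableSet_Iio,
      show Iio s ∩ Ioo 0 σ = Ioo 0 s by
        ext X
        simp only [mem_inter_iff, mem_Iio, mem_Ioo]
        constructor
        · rintro ⟨h1, h2, h3⟩; exact ⟨h2, h1⟩
        · rintro ⟨h1, h2⟩; exact ⟨h2, h1, lt_trans h2 hs.2⟩,
      integral_mul_const]
    rw [TG]; ring
  constructor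
  · have := hFi.integral_prod_left
    refine this.congr ?_
    filter_upwards [ae_restrict_mem measurableSet_Ioo] with s hs
    exact hval2 s hs
  · have hsw := integral_integral_swap (f := fun s X => F (s, X)) (μ := μ) (ν := μ) hFi
    calc ∫ s in Ioo 0 σ, TG H G s / √(σ - s) = ∫ s, ∫ X, F (s, X) ∂μ ∂μ := by
          refine integral_congr_ae ?_
          filter_upwards [ae_restrict_mem measurableSet_Ioo] with s hs
          exact (hval2 s hs).symm
      _ = ∫ X, ∫ s, F (s, X) ∂μ ∂μ := hsw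
      _ = _ := by
          refine integral_congr_ae ?_
          filter_upwards [ae_restrict_mem measurableSet_Ioo] with X hX
          exact hval1 X hX

/-- `T G` is integrable -/
theorem TG_int {b B : ℝ} {H : ℝ → ℝ → ℝ} {G : ℝ → ℝ} (h : BK b B H) (hb : 0 < b)
    (hG : IntegrableOn G (Ioo 0 b)) : IntegrableOn (TG H G) (Ioo 0 b) := by
  have h1 := (abel_fubini h hG hb le_rfl).1
  have h2 : IntegrableOn (fun s => √(b - s) * (TG H G s / √(b - s))) (Ioo 0 b) := by
    refine Integrable.bdd_mul h1 (Continuous.aestronglyMeasurable (by fun_prop)) (c := √b) ?_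
    refine (ae_restrict_iff' measurableSet_Ioo).mpr (Eventually.of_forall fun s hs => ?_)
    rw [Real.norm_of_nonneg (sqrt_nonneg _)]
    exact Real.sqrt_le_sqrt (by linarith [hs.1])
  refine h2.congr_fun (fun s hs => ?_) measurableSet_Ioo
  have : √(b - s) ≠ 0 := (sqrt_pos.2 (by linarith [hs.2])).ne'
  simp only
  field_simp

/-- injectivity of the Abel transform -/
theorem abel_inj {b : ℝ} {F : ℝ → ℝ} (hb : 0 < b) (hF : IntegrableOn F (Ioo 0 b))
    (h : ∀ σ ∈ Ioo (0 : ℝ) b, ∫ s in Ioo 0 σ, F s / √(σ - s) = 0) :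
    ∀ᵐ s ∂(volume.restrict (Ioo (0 : ℝ) b)), F s = 0 := by
  have hone : BK b 1 (fun _ _ => 1) := ⟨measurable_const, fun _ _ _ _ _ => by simp⟩
  refine ae_zero_of_integrals hb hF (fun τ hτ => ?_)
  have h1 := (abel_fubini hone hF hτ.1 hτ.2.le).2
  have h2 : ∀ s ∈ Ioo 0 τ, TG (fun _ _ => 1) F s / √(τ - s) = 0 := by
    intro s hs
    have h3 : TG (fun _ _ => 1) F s = 0 := by
      rw [← h s ⟨hs.1, lt_trans hs.2 hτ.2⟩, TG]
      refine setIntegral_congr_fun measurableSet_Ioo (fun X _ => ?_)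
      ring
    rw [h3, zero_div]
  rw [setIntegral_eq_zero_of_forall_eq_zero h2] at h1
  have h4 : ∀ X, kk (fun _ _ => 1) X (τ - X) = π := by
    intro X
    simp only [kk, mul_one]
    rw [setIntegral_const, vol_half_pi, smul_eq_mul]; ring
  simp only [h4] at h1
  rw [integral_mul_const] at h1
  rcases mul_eq_zero.mp h1.symm with h5 | h5
  · exact h5
  · exact absurd h5 pi_ne_zero

end Pool.Agent.Lib.MP_85963d_gt.H87
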