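import Pool.Agent.Lib.MP_85963d_gt.H87.SV3

/-!
# Singular Volterra equation, part 4: the equation and the fixed point problem (helper87)
-/

set_option linter.unusedSimpArgs false

open MeasureTheory Set Filter Topology

namespace Pool.Agent.Lib.MP_85963d_gt.H87

variable {b C : ℝ} {m : ℝ → ℝ → ℝ}

/-- solutions of the singular Volterra equation on `(0,b]` -/
structure SVsol (b : ℝ) (m : ℝ → ℝ → ℝ) (G : ℝ → ℝ) : Prop where
  cont : ContinuousOn G (Ioc 0 b)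
  int : IntegrableOn G (Ioo 0 b)
  eq : ∀ σ ∈ Ioc (0 : ℝ) b, G σ = -(3 / 4) / σ * (∫ X in (0 : ℝ)..σ, G X) +
    15 / 4 / σ ^ 2 * (∫ X in (0 : ℝ)..σ, X * G X) + RR m G σ

theorem hasDerivAt_sqrt' {σ : ℝ} (hσ : 0 < σ) : HasDerivAt (fun σ : ℝ => √σ) (1 / (2 * √σ)) σ :=
  (hasDerivAt_id σ).sqrt hσ.ne'

/-- FTC for a function continuous on `(0,b]` -/
theorem ftc_right {f : ℝ → ℝ} (hf : ContinuousOn f (Ioc 0 b)) {a σ : ℝ}
    (hi : IntervalIntegrable f volume a σ) (hσ : σ ∈ Ioo 0 b) :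
    HasDerivAt (fun τ => ∫ X in a..τ, f X) (f σ) σ := by
  have hc : ContinuousAt f σ := (hf.mono Ioo_subset_Ioc_self).continuousAt (isOpen_Ioo.mem_nhds hσ)
  refine intervalIntegral.integral_hasDerivAt_right hi ?_ hc
  exact ContinuousOn.stronglyMeasurableAtFilter isOpen_Ioo (hf.mono Ioo_subset_Ioc_self) σ hσ

theorem Rg_contIcc {g : ℝ → ℝ} (hm : MK b C m) (hC : 0 ≤ C) (hb : 0 < b)
    (hg : ContinuousOn g (Icc 0 b)) : ContinuousOn (Rg m g) (Icc 0 b) := by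
  obtain ⟨M, hM0, hM⟩ := bound_of_cont hg hb
  have h0 : Rg m g 0 = 0 := by simp [Rg, RR]
  intro σ hσ
  rcases eq_or_lt_of_le hσ.1 with h | h
  · subst h
    rw [ContinuousWithinAt, h0, tendsto_iff_norm_sub_tendsto_zero]
    have hlim : Tendsto (fun σ : ℝ => 2 * C * M * √σ * Real.exp (1 * σ)) (𝓝[Icc 0 b] 0) (𝓝 0) := by
      have : ContinuousAt (fun σ : ℝ => 2 * C * M * √σ * Real.exp (1 * σ)) 0 := by fun_prop
      have h := this.tendsto
      simp only [Real.sqrt_zero, mul_zero, zero_mul] at h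
      exact h.mono_left nhdsWithin_le_nhds
    refine squeeze_zero' (Eventually.of_forall fun _ => norm_nonneg _) ?_ hlim
    filter_upwards [self_mem_nhdsWithin] with τ h2
    rw [sub_zero, Real.norm_eq_abs]
    rcases eq_or_lt_of_le h2.1 with h3 | h3
    · rw [← h3, h0]; simp
    · exact Rg_le1 hm hC hM0 one_pos hM ⟨h3, h2.2⟩
  · refine (Rg_cont hm hg hb σ ⟨h, hσ.2⟩).mono_of_mem_nhdsWithin ?_
    rw [mem_nhdsWithin]
    exact ⟨Ioi 0, isOpen_Ioi, h, fun τ hτ => ⟨hτ.1, hτ.2.2⟩⟩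

/-- a fixed point gives a solution -/
theorem sv_of_fix {g : ℝ → ℝ} {δ α β : ℝ} (hm : MK b C m) (hC : 0 ≤ C) (hδ : 0 < δ) (hδb : δ ≤ b)
    (hg : ContinuousOn g (Icc 0 b))
    (hfix : ∀ σ ∈ Icc (0 : ℝ) b, g σ = α + β * σ + TT m δ g σ) :
    SVsol b m (fun X => g X / √X) := by
  have hb : 0 < b := lt_of_lt_of_le hδ hδb
  set r : ℝ → ℝ := Rg m g with hr
  set a : ℝ → ℝ := fun σ => α - 3 / 4 * ∫ X in (0 : ℝ)..σ, r X / √X with ha
  set be : ℝ → ℝ := fun σ => β + 15 / 4 * ∫ X in δ..σ, r X / (X * √X) with hbe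
  have hgdec : ∀ σ ∈ Icc (0 : ℝ) b, g σ = a σ + σ * be σ + √σ * r σ := by
    intro σ hσ
    rw [hfix σ hσ, TT, ha, hbe]
    simp only
    ring
  have hrc : ContinuousOn r (Icc 0 b) := Rg_contIcc hm hC hb hg
  have hrc' : ContinuousOn r (Ioc 0 b) := hrc.mono Ioc_subset_Icc_self
  have hf1 : ContinuousOn (fun X => r X / √X) (Ioc 0 b) :=
    hrc'.div (by fun_prop) (fun X hX => (Real.sqrt_pos.mpr hX.1).ne')
  have hf2 : ContinuousOn (fun X => r X / (X * √X)) (Ioc 0 b) :=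
    hrc'.div (by fun_prop) (fun X hX => mul_ne_zero hX.1.ne' (Real.sqrt_pos.mpr hX.1).ne')
  have hac : ContinuousOn a (Icc 0 b) := by
    refine ContinuousOn.sub continuousOn_const (ContinuousOn.mul continuousOn_const ?_)
    have h1 : IntegrableOn (fun X => r X / √X) (Icc 0 b) := by
      have := P2_intv hm hC hb hg (σ := b) ⟨hb.le, le_rfl⟩
      rwa [intervalIntegrable_iff_integrableOn_Icc_of_le hb.le] at this
    have := intervalIntegral.continuousOn_primitive_interval (a := 0) (b := b) (μ := volume)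
      (f := fun X => r X / √X) (by rwa [uIcc_of_le hb.le])
    rwa [uIcc_of_le hb.le] at this
  have hda : ∀ σ ∈ Ioo (0 : ℝ) b, HasDerivAt a (-(3 / 4 * (r σ / √σ))) σ := by
    intro σ hσ
    have h1 := ftc_right hf1 (P2_intv hm hC hb hg ⟨hσ.1.le, hσ.2.le⟩) hσ
    exact (h1.const_mul (3 / 4)).const_sub α
  have hdb : ∀ σ ∈ Ioo (0 : ℝ) b, HasDerivAt be (15 / 4 * (r σ / (σ * √σ))) σ := by
    intro σ hσ
    have h1 := ftc_right hf2 (P3_int hm hg hb ⟨hδ, hδb⟩ ⟨hσ.1, hσ.2.le⟩) hσ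
    exact (h1.const_mul (15 / 4)).const_add β
  have hGint := gi hg hb
  have hGi : ∀ σ ∈ Icc (0 : ℝ) b, IntervalIntegrable (fun X => g X / √X) volume 0 σ := by
    intro σ hσ
    rw [intervalIntegrable_iff_integrableOn_Ioo_of_le hσ.1]
    exact hGint.mono_set (Ioo_subset_Ioo_right hσ.2)
  have hGi2 : ∀ σ ∈ Icc (0 : ℝ) b, IntervalIntegrable (fun X => X * (g X / √X)) volume 0 σ := by
    intro σ hσ
    exact (hGi σ hσ).continuousOn_mul continuousOn_id
  -- `∫ G`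
  have hN0 : ∀ σ ∈ Ioc (0 : ℝ) b, ∫ X in (0 : ℝ)..σ, g X / √X =
      2 * a σ * √σ + 2 / 3 * (be σ * (σ * √σ)) := by
    intro σ hσ
    have hσ' : σ ∈ Icc (0 : ℝ) b := ⟨hσ.1.le, hσ.2⟩
    set F : ℝ → ℝ := fun σ => 2 * a σ * √σ + 2 / 3 * (√σ * (g σ - a σ - √σ * r σ)) with hF
    have hFc : ContinuousOn F (Icc 0 σ) := by
      have h1 := hac.mono (Icc_subset_Icc_right hσ.2)
      have h2 := hg.mono (Icc_subset_Icc_right hσ.2)
      have h3 := hrc.mono (Icc_subset_Icc_right hσ.2)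
      have h4 : ContinuousOn (fun σ : ℝ => √σ) (Icc 0 σ) := by fun_prop
      exact ((continuousOn_const.mul h1).mul h4).add
        (continuousOn_const.mul (h4.mul ((h2.sub h1).sub (h4.mul h3))))
    have hFd : ∀ τ ∈ Ioo (0 : ℝ) σ, HasDerivAt F (g τ / √τ) τ := by
      intro τ hτ
      have hτb : τ ∈ Ioo (0 : ℝ) b := ⟨hτ.1, lt_of_lt_of_le hτ.2 hσ.2⟩
      have hs : √τ ≠ 0 := (Real.sqrt_pos.mpr hτ.1).ne'
      have hsq : √τ * √τ = τ := Real.mul_self_sqrt hτ.1.le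
      have d1 := ((hda τ hτb).const_mul 2).mul (hasDerivAt_sqrt' hτ.1)
      have d2 := ((hdb τ hτb).mul ((hasDerivAt_id τ).mul (hasDerivAt_sqrt' hτ.1))).const_mul (2 / 3)
      have d := d1.add d2
      have heq : F =ᶠ[𝓝 τ] fun σ => 2 * a σ * √σ + 2 / 3 * (be σ * (σ * √σ)) := by
        filter_upwards [isOpen_Ioo.mem_nhds hτb] with s hs'
        simp only [hF]
        rw [hgdec s ⟨hs'.1.le, hs'.2.le⟩]; ring
      have d' := d.congr_of_eventuallyEq heq
      refine d'.congr_deriv ?_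
      simp only [Pi.mul_apply, Pi.pow_apply, id]
      rw [hgdec τ ⟨hτb.1.le, hτb.2.le⟩]
      have hτ0 : τ ≠ 0 := hτ.1.ne'
      have hsq' : √τ ^ 2 = τ := by rw [sq]; exact hsq
      field_simp
      ring_nf
      rw [hsq']
      ring
    have h := intervalIntegral.integral_eq_sub_of_hasDerivAt_of_le hσ.1.le hFc hFd (hGi σ hσ')
    rw [h]
    simp only [hF, Real.sqrt_zero, mul_zero, zero_mul, add_zero, sub_zero]
    rw [hgdec σ hσ']; ring
  have hN1 : ∀ σ ∈ Ioc (0 : ℝ) b, ∫ X in (0 : ℝ)..σ, X * (g X / √X) =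
      2 / 3 * a σ * (σ * √σ) + 2 / 5 * (be σ * (σ ^ 2 * √σ)) := by
    intro σ hσ
    have hσ' : σ ∈ Icc (0 : ℝ) b := ⟨hσ.1.le, hσ.2⟩
    set F : ℝ → ℝ := fun σ => 2 / 3 * a σ * (σ * √σ) +
      2 / 5 * (σ * √σ * (g σ - a σ - √σ * r σ)) with hF
    have hFc : ContinuousOn F (Icc 0 σ) := by
      have h1 := hac.mono (Icc_subset_Icc_right hσ.2)
      have h2 := hg.mono (Icc_subset_Icc_right hσ.2)
      have h3 := hrc.mono (Icc_subset_Icc_right hσ.2)
      have h4 : ContinuousOn (fun σ : ℝ => √σ) (Icc 0 σ) := by fun_prop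
      have h5 : ContinuousOn (fun σ : ℝ => σ * √σ) (Icc 0 σ) := by fun_prop
      exact ((continuousOn_const.mul h1).mul h5).add
        (continuousOn_const.mul (h5.mul ((h2.sub h1).sub (h4.mul h3))))
    have hFd : ∀ τ ∈ Ioo (0 : ℝ) σ, HasDerivAt F (τ * (g τ / √τ)) τ := by
      intro τ hτ
      have hτb : τ ∈ Ioo (0 : ℝ) b := ⟨hτ.1, lt_of_lt_of_le hτ.2 hσ.2⟩
      have hs : √τ ≠ 0 := (Real.sqrt_pos.mpr hτ.1).ne'
      have hsq : √τ * √τ = τ := Real.mul_self_sqrt hτ.1.le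
      have d1 := ((hda τ hτb).const_mul (2 / 3)).mul
        ((hasDerivAt_id τ).mul (hasDerivAt_sqrt' hτ.1))
      have d2 := ((hdb τ hτb).mul (((hasDerivAt_id τ).pow 2).mul
        (hasDerivAt_sqrt' hτ.1))).const_mul (2 / 5)
      have d := d1.add d2
      have heq : F =ᶠ[𝓝 τ] fun σ => 2 / 3 * a σ * (σ * √σ) + 2 / 5 * (be σ * (σ ^ 2 * √σ)) := by
        filter_upwards [isOpen_Ioo.mem_nhds hτb] with s hs'
        simp only [hF]
        rw [hgdec s ⟨hs'.1.le, hs'.2.le⟩]; ring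
      have d' := d.congr_of_eventuallyEq heq
      refine d'.congr_deriv ?_
      simp only [Pi.mul_apply, Pi.pow_apply, id]
      rw [hgdec τ ⟨hτb.1.le, hτb.2.le⟩]
      have hτ0 : τ ≠ 0 := hτ.1.ne'
      have hsq' : √τ ^ 2 = τ := by rw [sq]; exact hsq
      push_cast
      field_simp
      ring_nf
      rw [hsq']
      ring
    have h := intervalIntegral.integral_eq_sub_of_hasDerivAt_of_le hσ.1.le hFc hFd (hGi2 σ hσ')
    rw [h]
    simp only [hF, Real.sqrt_zero, mul_zero, zero_mul, add_zero, sub_zero]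
    rw [hgdec σ hσ']; ring
  refine ⟨?_, hGint, fun σ hσ => ?_⟩
  · exact (hg.mono Ioc_subset_Icc_self).div (by fun_prop)
      (fun X hX => (Real.sqrt_pos.mpr hX.1).ne')
  · rw [hN0 σ hσ, hN1 σ hσ]
    have hr' : RR m (fun X => g X / √X) σ = r σ := rfl
    rw [hr', hgdec σ ⟨hσ.1.le, hσ.2⟩]
    have hs : √σ ≠ 0 := (Real.sqrt_pos.mpr hσ.1).ne'
    have hσ0 : σ ≠ 0 := hσ.1.ne'
    have hsq' : √σ ^ 2 = σ := Real.sq_sqrt hσ.1.le
    field_simp
    ring_nf
    rw [hsq']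
    ring

/-! ### from a solution to the fixed point -/

theorem int_rpow32 {σ δ : ℝ} (hσ : 0 < σ) (hδ : σ ≤ δ) :
    ∫ X in σ..δ, 1 / (X * √X) ≤ 2 / √σ := by
  have hd : ∀ X ∈ uIcc σ δ, HasDerivAt (fun X => -(2 / √X)) (1 / (X * √X)) X := by
    intro X hX
    rw [uIcc_of_le hδ] at hX
    have hX0 : 0 < X := lt_of_lt_of_le hσ hX.1
    have hs : √X ≠ 0 := (Real.sqrt_pos.mpr hX0).ne'
    have h := ((hasDerivAt_const X (2 : ℝ)).div (hasDerivAt_sqrt' hX0) hs).neg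
    refine h.congr_deriv ?_
    have hsq' : √X ^ 2 = X := Real.sq_sqrt hX0.le
    have hX1 : X ≠ 0 := hX0.ne'
    field_simp
    rw [hsq']
    ring
  have hc : ContinuousOn (fun X => 1 / (X * √X)) (uIcc σ δ) := by
    rw [uIcc_of_le hδ]
    exact continuousOn_const.div (by fun_prop) (fun X hX =>
      mul_ne_zero (lt_of_lt_of_le hσ hX.1).ne' (Real.sqrt_pos.mpr (lt_of_lt_of_le hσ hX.1)).ne')
  rw [intervalIntegral.integral_eq_sub_of_hasDerivAt hd hc.intervalIntegrable]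
  have : 0 ≤ 2 / √δ := by positivity
  linarith

/-- FTC on `(0,b]` -/
theorem ftc_Ioc {F f : ℝ → ℝ} (hF : ContinuousOn F (Ioc 0 b)) (hf : ContinuousOn f (Ioc 0 b))
    (hd : ∀ σ ∈ Ioo (0 : ℝ) b, HasDerivAt F (f σ) σ) {u v : ℝ} (hu : u ∈ Ioc 0 b)
    (hv : v ∈ Ioc 0 b) : ∫ X in u..v, f X = F v - F u := by
  have key : ∀ u v : ℝ, u ∈ Ioc 0 b → v ∈ Ioc 0 b → u ≤ v → ∫ X in u..v, f X = F v - F u := by
    intro u v hu hv huv
    have hsub : Icc u v ⊆ Ioc 0 b := fun x hx => ⟨lt_of_lt_of_le hu.1 hx.1, hx.2.trans hv.2⟩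
    refine intervalIntegral.integral_eq_sub_of_hasDerivAt_of_le huv (hF.mono hsub)
      (fun x hx => hd x ⟨lt_trans hu.1 hx.1, lt_of_lt_of_le hx.2 hv.2⟩) ?_
    refine ContinuousOn.intervalIntegrable ?_
    rw [uIcc_of_le huv]
    exact hf.mono hsub
  rcases le_total u v with h | h
  · exact key u v hu hv h
  · rw [intervalIntegral.integral_symm, key v u hv hu h]; ring

/-- every solution comes from a fixed point -/
theorem fix_of_sv {G : ℝ → ℝ} {δ : ℝ} (hm : MK b C m) (hC : 0 ≤ C) (hδ : 0 < δ) (hδb : δ ≤ b)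
    (hG : SVsol b m G) :
    ∃ α β : ℝ, ∃ g : ℝ → ℝ, ContinuousOn g (Icc 0 b) ∧ g 0 = α ∧
      (∀ σ ∈ Ioc (0 : ℝ) b, G σ = g σ / √σ) ∧
      (∀ σ ∈ Icc (0 : ℝ) b, g σ = α + β * σ + TT m δ g σ) := by
  have hb : 0 < b := lt_of_lt_of_le hδ hδb
  set r : ℝ → ℝ := RR m G with hr
  have hrc : ContinuousOn r (Ioc 0 b) := hm.RR_cont hG.int
  set K : ℝ := C * ∫ X in Ioo (0 : ℝ) b, |G X| with hK
  have hK0 : 0 ≤ K := mul_nonneg hC (integral_nonneg fun _ => abs_nonneg _)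
  have hrK : ∀ σ ∈ Ioc (0 : ℝ) b, |r σ| ≤ K := by
    intro σ hσ
    have hi : IntegrableOn (fun X => |G X|) (Ioo 0 b) := hG.int.abs
    refine (hm.RR_le hσ.2 (hi.mono_set (Ioo_subset_Ioo_right hσ.2)) (fun X _ => le_rfl) hC).trans ?_
    refine mul_le_mul_of_nonneg_left ?_ hC
    exact setIntegral_mono_set hi (Eventually.of_forall fun _ => abs_nonneg _)
      (Ioo_subset_Ioo_right hσ.2).eventuallyLE
  have hGi : ∀ σ ∈ Icc (0 : ℝ) b, IntervalIntegrable G volume 0 σ := by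
    intro σ hσ
    rw [intervalIntegrable_iff_integrableOn_Ioo_of_le hσ.1]
    exact hG.int.mono_set (Ioo_subset_Ioo_right hσ.2)
  have hGi2 : ∀ σ ∈ Icc (0 : ℝ) b, IntervalIntegrable (fun X => X * G X) volume 0 σ := by
    intro σ hσ
    exact (hGi σ hσ).continuousOn_mul continuousOn_id
  set N0 : ℝ → ℝ := fun σ => ∫ X in (0 : ℝ)..σ, G X with hN0
  set N1 : ℝ → ℝ := fun σ => ∫ X in (0 : ℝ)..σ, X * G X with hN1
  have hdN0 : ∀ σ ∈ Ioo (0 : ℝ) b, HasDerivAt N0 (G σ) σ := fun σ hσ =>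
    ftc_right hG.cont (hGi σ ⟨hσ.1.le, hσ.2.le⟩) hσ
  have hdN1 : ∀ σ ∈ Ioo (0 : ℝ) b, HasDerivAt N1 (σ * G σ) σ := fun σ hσ =>
    ftc_right (f := fun X => X * G X) (continuousOn_id.mul hG.cont) (hGi2 σ ⟨hσ.1.le, hσ.2.le⟩) hσ
  have hN0c : ContinuousOn N0 (Icc 0 b) := by
    have := intervalIntegral.continuousOn_primitive_interval (a := 0) (b := b) (μ := volume)
      (f := G) (by
        have := hGi b ⟨hb.le, le_rfl⟩
        rw [intervalIntegrable_iff_integrableOn_Icc_of_le hb.le] at this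
        rwa [uIcc_of_le hb.le])
    rwa [uIcc_of_le hb.le] at this
  have hN1c : ContinuousOn N1 (Icc 0 b) := by
    have := intervalIntegral.continuousOn_primitive_interval (a := 0) (b := b) (μ := volume)
      (f := fun X => X * G X) (by
        have := hGi2 b ⟨hb.le, le_rfl⟩
        rw [intervalIntegrable_iff_integrableOn_Icc_of_le hb.le] at this
        rwa [uIcc_of_le hb.le])
    rwa [uIcc_of_le hb.le] at this
  set a : ℝ → ℝ := fun σ => 9 / 8 * (N0 σ / √σ) - 15 / 8 * (N1 σ / (σ * √σ)) with ha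
  set be : ℝ → ℝ := fun σ => 45 / 8 * (N1 σ / (σ ^ 2 * √σ)) - 15 / 8 * (N0 σ / (σ * √σ)) with hbe
  have hGdec : ∀ σ ∈ Ioc (0 : ℝ) b, G σ = a σ / √σ + be σ * √σ + r σ := by
    intro σ hσ
    rw [hG.eq σ hσ, ha, hbe]
    have hs : √σ ≠ 0 := (Real.sqrt_pos.mpr hσ.1).ne'
    have hσ0 : σ ≠ 0 := hσ.1.ne'
    have hsq' : √σ ^ 2 = σ := Real.sq_sqrt hσ.1.le
    have e0 : ∫ X in (0 : ℝ)..σ, G X = N0 σ := rfl
    have e1 : ∫ X in (0 : ℝ)..σ, X * G X = N1 σ := rfl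
    rw [e0, e1]
    field_simp
    ring_nf
    rw [hsq']
    ring
  have hsqc : ContinuousOn (fun σ : ℝ => √σ) (Ioc 0 b) := by fun_prop
  have hac : ContinuousOn a (Ioc 0 b) := by
    have h1 := hN0c.mono Ioc_subset_Icc_self
    have h2 := hN1c.mono Ioc_subset_Icc_self
    exact (continuousOn_const.mul (h1.div hsqc (fun X hX => (Real.sqrt_pos.mpr hX.1).ne'))).sub
      (continuousOn_const.mul (h2.div (continuousOn_id.mul hsqc)
        (fun X hX => mul_ne_zero hX.1.ne' (Real.sqrt_pos.mpr hX.1).ne')))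
  have hbc : ContinuousOn be (Ioc 0 b) := by
    have h1 := hN0c.mono Ioc_subset_Icc_self
    have h2 := hN1c.mono Ioc_subset_Icc_self
    exact (continuousOn_const.mul (h2.div ((continuousOn_id.pow 2).mul hsqc)
        (fun X hX => mul_ne_zero (pow_ne_zero 2 hX.1.ne') (Real.sqrt_pos.mpr hX.1).ne'))).sub
      (continuousOn_const.mul (h1.div (continuousOn_id.mul hsqc)
        (fun X hX => mul_ne_zero hX.1.ne' (Real.sqrt_pos.mpr hX.1).ne')))
  have hda : ∀ σ ∈ Ioo (0 : ℝ) b, HasDerivAt a (-(3 / 4 * (r σ / √σ))) σ := by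
    intro σ hσ
    have hs : √σ ≠ 0 := (Real.sqrt_pos.mpr hσ.1).ne'
    have hσ0 : σ ≠ 0 := hσ.1.ne'
    have hsq' : √σ ^ 2 = σ := Real.sq_sqrt hσ.1.le
    have d1 := ((hdN0 σ hσ).div (hasDerivAt_sqrt' hσ.1) hs).const_mul (9 / 8)
    have d2 := ((hdN1 σ hσ).div ((hasDerivAt_id σ).mul (hasDerivAt_sqrt' hσ.1))
      (mul_ne_zero hσ0 hs)).const_mul (15 / 8)
    have d := d1.sub d2
    refine d.congr_deriv ?_
    simp only [Pi.mul_apply, Pi.pow_apply, id]
    have e : r σ = G σ - a σ / √σ - be σ * √σ := by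
      rw [hGdec σ ⟨hσ.1, hσ.2.le⟩]; ring
    rw [e, ha, hbe]
    simp only
    field_simp
    ring_nf
    simp only [show √σ ^ 3 = √σ ^ 2 * √σ by ring, show √σ ^ 4 = (√σ ^ 2) ^ 2 by ring,
      show √σ ^ 5 = (√σ ^ 2) ^ 2 * √σ by ring, show √σ ^ 6 = (√σ ^ 2) ^ 3 by ring, hsq']
    ring
  have hdb : ∀ σ ∈ Ioo (0 : ℝ) b, HasDerivAt be (15 / 4 * (r σ / (σ * √σ))) σ := by
    intro σ hσ
    have hs : √σ ≠ 0 := (Real.sqrt_pos.mpr hσ.1).ne'
    have hσ0 : σ ≠ 0 := hσ.1.ne'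
    have hsq' : √σ ^ 2 = σ := Real.sq_sqrt hσ.1.le
    have d1 := ((hdN1 σ hσ).div (((hasDerivAt_id σ).pow 2).mul (hasDerivAt_sqrt' hσ.1))
      (mul_ne_zero (pow_ne_zero 2 hσ0) hs)).const_mul (45 / 8)
    have d2 := ((hdN0 σ hσ).div ((hasDerivAt_id σ).mul (hasDerivAt_sqrt' hσ.1))
      (mul_ne_zero hσ0 hs)).const_mul (15 / 8)
    have d := d1.sub d2
    refine d.congr_deriv ?_
    simp only [Pi.mul_apply, Pi.pow_apply, id]
    have e : r σ = G σ - a σ / √σ - be σ * √σ := by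
      rw [hGdec σ ⟨hσ.1, hσ.2.le⟩]; ring
    rw [e, ha, hbe]
    simp only
    push_cast
    field_simp
    ring_nf
    simp only [show √σ ^ 3 = √σ ^ 2 * √σ by ring, show √σ ^ 4 = (√σ ^ 2) ^ 2 by ring,
      show √σ ^ 5 = (√σ ^ 2) ^ 2 * √σ by ring, show √σ ^ 6 = (√σ ^ 2) ^ 3 by ring, hsq']
    ring
  have hf1 : ContinuousOn (fun X => r X / √X) (Ioc 0 b) :=
    hrc.div (by fun_prop) (fun X hX => (Real.sqrt_pos.mpr hX.1).ne')
  have hf2 : ContinuousOn (fun X => r X / (X * √X)) (Ioc 0 b) :=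
    hrc.div (by fun_prop) (fun X hX => mul_ne_zero hX.1.ne' (Real.sqrt_pos.mpr hX.1).ne')
  -- integrability of `r/√X`
  have hr1 : IntegrableOn (fun X => r X / √X) (Ioo 0 b) := by
    refine Integrable.mono' ((int_inv_sqrt hb.le).1.const_mul K) ?_ ?_
    · exact (hf1.mono Ioo_subset_Ioc_self).aestronglyMeasurable measurableSet_Ioo
    · refine (ae_restrict_iff' measurableSet_Ioo).mpr (Eventually.of_forall fun X hX => ?_)
      have hs : 0 < √X := Real.sqrt_pos.mpr hX.1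
      rw [Real.norm_eq_abs, abs_div, abs_of_pos hs, div_eq_mul_one_div]
      exact mul_le_mul_of_nonneg_right (hrK X ⟨hX.1, hX.2.le⟩) (by positivity)
  have hr1i : ∀ σ ∈ Icc (0 : ℝ) b, IntervalIntegrable (fun X => r X / √X) volume 0 σ := by
    intro σ hσ
    rw [intervalIntegrable_iff_integrableOn_Ioo_of_le hσ.1]
    exact hr1.mono_set (Ioo_subset_Ioo_right hσ.2)
  have hδm : δ ∈ Ioc (0 : ℝ) b := ⟨hδ, hδb⟩
  have hδm' : δ ∈ Icc (0 : ℝ) b := ⟨hδ.le, hδb⟩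
  set α : ℝ := a δ + 3 / 4 * ∫ X in (0 : ℝ)..δ, r X / √X with hα
  have haσ : ∀ σ ∈ Ioc (0 : ℝ) b, a σ = α - 3 / 4 * ∫ X in (0 : ℝ)..σ, r X / √X := by
    intro σ hσ
    have h1 := ftc_Ioc hac (f := fun σ => -(3 / 4 * (r σ / √σ))) (continuousOn_const.mul hf1).neg
      hda hδm hσ
    have h2 : ∫ X in δ..σ, -(3 / 4 * (r X / √X)) = -(3 / 4 * ∫ X in δ..σ, r X / √X) := by
      rw [intervalIntegral.integral_neg, intervalIntegral.integral_const_mul]
    have h3 := intervalIntegral.integral_add_adjacent_intervals (hr1i δ hδm')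
      ((hr1i δ hδm').symm.trans (hr1i σ ⟨hσ.1.le, hσ.2⟩))
    rw [h2] at h1
    rw [← h3]
    linarith
  have hbσ : ∀ σ ∈ Ioc (0 : ℝ) b, be σ = be δ + 15 / 4 * ∫ X in δ..σ, r X / (X * √X) := by
    intro σ hσ
    have h1 := ftc_Ioc hbc (f := fun σ => 15 / 4 * (r σ / (σ * √σ))) (continuousOn_const.mul hf2)
      hdb hδm hσ
    have h2 : ∫ X in δ..σ, 15 / 4 * (r X / (X * √X)) = 15 / 4 * ∫ X in δ..σ, r X / (X * √X) := by
      rw [intervalIntegral.integral_const_mul]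
    rw [h2] at h1
    linarith
  set g : ℝ → ℝ := fun σ => if σ ≤ 0 then α else √σ * G σ with hgdef
  have hgpos : ∀ σ : ℝ, 0 < σ → g σ = √σ * G σ := fun σ hσ => by
    simp only [hgdef]; rw [if_neg (not_le.mpr hσ)]
  have hg0 : g 0 = α := by simp [hgdef]
  have hGg : ∀ σ : ℝ, 0 < σ → G σ = g σ / √σ := fun σ hσ => by
    rw [hgpos σ hσ, mul_div_cancel_left₀ _ (Real.sqrt_pos.mpr hσ).ne']
  have hrg : Rg m g = r := by
    funext σ
    rw [hr]
    unfold Rg RR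
    refine setIntegral_congr_fun measurableSet_Ioo (fun X hX => ?_)
    change m X σ * (g X / √X) = m X σ * G X
    rw [← hGg X hX.1]
  have hfix : ∀ σ ∈ Icc (0 : ℝ) b, g σ = α + be δ * σ + TT m δ g σ := by
    intro σ hσ
    rcases eq_or_lt_of_le hσ.1 with h | h
    · rw [← h, hg0, TT_zero]; ring
    · have hσ' : σ ∈ Ioc (0 : ℝ) b := ⟨h, hσ.2⟩
      have hs : √σ ≠ 0 := (Real.sqrt_pos.mpr h).ne'
      have hsq' : √σ ^ 2 = σ := Real.sq_sqrt h.le
      have e : g σ = a σ + σ * be σ + √σ * r σ := by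
        rw [hgpos σ h, hGdec σ hσ']
        field_simp
        rw [hsq']
        ring
      rw [e, haσ σ hσ', hbσ σ hσ', TT, hrg]
      ring
  refine ⟨α, be δ, g, ?_, hg0, fun σ hσ => hGg σ hσ.1, hfix⟩
  intro σ hσ
  rcases eq_or_lt_of_le hσ.1 with h | h
  · subst h
    rw [ContinuousWithinAt, hg0, tendsto_iff_norm_sub_tendsto_zero]
    set L : ℝ := |be δ| * √b + K + 3 / 2 * K + 15 / 2 * K with hL
    have hlim : Tendsto (fun σ : ℝ => L * √σ) (𝓝[Icc 0 b] 0) (𝓝 0) := by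
      have : ContinuousAt (fun σ : ℝ => L * √σ) 0 := by fun_prop
      have h := this.tendsto
      simp only [Real.sqrt_zero, mul_zero] at h
      exact h.mono_left nhdsWithin_le_nhds
    refine squeeze_zero' (Eventually.of_forall fun _ => norm_nonneg _) ?_ hlim
    have hev : ∀ᶠ τ in 𝓝[Icc 0 b] (0 : ℝ), τ < δ :=
      mem_nhdsWithin_of_mem_nhds (Iio_mem_nhds hδ)
    filter_upwards [hev, self_mem_nhdsWithin] with τ hτδ hτ
    rcases eq_or_lt_of_le hτ.1 with h3 | h3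
    · rw [← h3, hg0]; simp
    · have hτ' : τ ∈ Ioc (0 : ℝ) b := ⟨h3, hτ.2⟩
      have hs : 0 < √τ := Real.sqrt_pos.mpr h3
      have hsq : √τ * √τ = τ := Real.mul_self_sqrt h3.le
      have hsb : √τ ≤ √b := Real.sqrt_le_sqrt hτ.2
      rw [hfix τ hτ, TT, hrg, Real.norm_eq_abs]
      have a0 : |be δ * τ| ≤ |be δ| * √b * √τ := by
        rw [abs_mul, abs_of_pos h3]
        calc |be δ| * τ = |be δ| * √τ * √τ := by rw [mul_assoc, hsq]
          _ ≤ |be δ| * √b * √τ := by gcongr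
      have a1 : |√τ * r τ| ≤ K * √τ := by
        rw [abs_mul, abs_of_pos hs, mul_comm]
        exact mul_le_mul_of_nonneg_right (hrK τ hτ') hs.le
      have a2 : |3 / 4 * ∫ X in (0 : ℝ)..τ, r X / √X| ≤ 3 / 2 * K * √τ := by
        rw [abs_mul, abs_of_pos (by norm_num : (0 : ℝ) < 3 / 4)]
        have h5 : |∫ X in (0 : ℝ)..τ, r X / √X| ≤ K * (2 * √τ) := by
          rw [← (int_inv_sqrt h3.le).2, ← integral_const_mul,
            intervalIntegral.integral_of_le h3.le, integral_Ioc_eq_integral_Ioo,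
            ← Real.norm_eq_abs]
          refine norm_integral_le_of_norm_le ((int_inv_sqrt h3.le).1.const_mul K) ?_
          refine (ae_restrict_iff' measurableSet_Ioo).mpr (Eventually.of_forall fun X hX => ?_)
          have hs : 0 < √X := Real.sqrt_pos.mpr hX.1
          rw [Real.norm_eq_abs, abs_div, abs_of_pos hs, div_eq_mul_one_div]
          exact mul_le_mul_of_nonneg_right (hrK X ⟨hX.1, hX.2.le.trans hτ.2⟩) (by positivity)
        linarith
      have a3 : |15 / 4 * (τ * ∫ X in δ..τ, r X / (X * √X))| ≤ 15 / 2 * K * √τ := by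
        rw [abs_mul, abs_of_pos (by norm_num : (0 : ℝ) < 15 / 4), abs_mul, abs_of_pos h3]
        have hci : IntervalIntegrable (fun X : ℝ => K * (1 / (X * √X))) volume τ δ := by
          refine ContinuousOn.intervalIntegrable ?_
          rw [uIcc_of_le hτδ.le]
          exact continuousOn_const.mul (continuousOn_const.div (by fun_prop) (fun X hX =>
            mul_ne_zero (lt_of_lt_of_le h3 hX.1).ne'
              (Real.sqrt_pos.mpr (lt_of_lt_of_le h3 hX.1)).ne'))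
        have h5 : |∫ X in δ..τ, r X / (X * √X)| ≤ K * (2 / √τ) := by
          rw [intervalIntegral.integral_symm, abs_neg, ← Real.norm_eq_abs]
          have h6 : ‖∫ X in τ..δ, r X / (X * √X)‖ ≤ ∫ X in τ..δ, K * (1 / (X * √X)) := by
            refine intervalIntegral.norm_integral_le_of_norm_le hτδ.le ?_ hci
            refine Eventually.of_forall fun X hX => ?_
            have hX0 : 0 < X := lt_trans h3 hX.1
            have hs : 0 < √X := Real.sqrt_pos.mpr hX0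
            rw [Real.norm_eq_abs, abs_div, abs_of_pos (mul_pos hX0 hs), div_eq_mul_one_div]
            exact mul_le_mul_of_nonneg_right (hrK X ⟨hX0, hX.2.trans hδb⟩) (by positivity)
          rw [intervalIntegral.integral_const_mul] at h6
          exact h6.trans (mul_le_mul_of_nonneg_left (int_rpow32 h3 hτδ.le) hK0)
        calc 15 / 4 * (τ * |∫ X in δ..τ, r X / (X * √X)|) ≤ 15 / 4 * (τ * (K * (2 / √τ))) := by
              gcongr
          _ = 15 / 4 * ((√τ * √τ) * (K * (2 / √τ))) := by rw [hsq]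
          _ = 15 / 2 * K * √τ := by field_simp; ring
      have hsum : |α + be δ * τ + (√τ * r τ - 3 / 4 * (∫ X in (0 : ℝ)..τ, r X / √X) +
          15 / 4 * (τ * ∫ X in δ..τ, r X / (X * √X))) - α| ≤ |be δ * τ| + |√τ * r τ| +
          |3 / 4 * ∫ X in (0 : ℝ)..τ, r X / √X| +
          |15 / 4 * (τ * ∫ X in δ..τ, r X / (X * √X))| := by
        have e : α + be δ * τ + (√τ * r τ - 3 / 4 * (∫ X in (0 : ℝ)..τ, r X / √X) +
          15 / 4 * (τ * ∫ X in δ..τ, r X / (X * √X))) - α =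
          ((be δ * τ + √τ * r τ) - 3 / 4 * (∫ X in (0 : ℝ)..τ, r X / √X)) +
          15 / 4 * (τ * ∫ X in δ..τ, r X / (X * √X)) := by ring
        rw [e]
        refine (abs_add_le _ _).trans ?_
        gcongr
        refine (abs_sub _ _).trans ?_
        gcongr
        exact abs_add_le _ _
      rw [hL]
      linarith
  · have h1 : ContinuousWithinAt (fun σ => √σ * G σ) (Ioc 0 b) σ :=
      (Continuous.continuousWithinAt (by fun_prop)).mul (hG.cont σ ⟨h, hσ.2⟩)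
    have h2 : ContinuousWithinAt g (Ioc 0 b) σ :=
      h1.congr (fun τ hτ => hgpos τ hτ.1) (hgpos σ h)
    refine h2.mono_of_mem_nhdsWithin ?_
    rw [mem_nhdsWithin]
    exact ⟨Ioi 0, isOpen_Ioi, h, fun τ hτ => ⟨hτ.1, hτ.2.2⟩⟩

end Pool.Agent.Lib.MP_85963d_gt.H87
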