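import Pool.Agent.Lib.MP_85963d_gt.H87.AB1
import Pool.Agent.Lib.MP_85963d_gt.H87.SV4

/-!
# Abel transform, part 2 (helper87): differentiation
-/

open MeasureTheory Set Filter Topology Real

namespace Pool.Agent.Lib.MP_85963d_gt.H87

/-- kernels with one derivative in `Y` -/
structure DK (b B : ℝ) (H H' : ℝ → ℝ → ℝ) : Prop where
  bk : BK b B H
  bk' : BK b B H'
  deriv : ∀ X Y, 0 < X → 0 ≤ Y → X + Y ≤ b → HasDerivAt (H X) (H' X Y) Y
  cont : ∀ X, 0 < X → X ≤ b → ContinuousOn (H' X) (Icc 0 (b - X))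

/-- the derivative of `kk` -/
noncomputable def kd (H' : ℝ → ℝ → ℝ) (X D : ℝ) : ℝ :=
  ∫ θ in Ioo 0 (π / 2), 2 * sin θ ^ 2 * H' X (D * sin θ ^ 2)

section kd

variable {b B : ℝ} {H H' : ℝ → ℝ → ℝ}

theorem kd_integrand_le (h : BK b B H') {X D : ℝ} (hX : 0 < X) (hD : 0 ≤ D) (hXD : X + D ≤ b)
    (θ : ℝ) : ‖2 * sin θ ^ 2 * H' X (D * sin θ ^ 2)‖ ≤ 2 * B := by
  have h1 := sinsq_le hD θ
  have h2 := h.bd X (D * sin θ ^ 2) hX h1.1 (by linarith)
  have h3 := sin_sq_le_one θ
  have h4 : 0 ≤ sin θ ^ 2 := sq_nonneg _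
  rw [norm_mul, Real.norm_eq_abs, Real.norm_eq_abs, abs_of_nonneg (by positivity)]
  have h5 : 0 ≤ |H' X (D * sin θ ^ 2)| := abs_nonneg _
  nlinarith

theorem kd_le (h : BK b B H') {X D : ℝ} (hX : 0 < X) (hD : 0 ≤ D) (hXD : X + D ≤ b) :
    |kd H' X D| ≤ π * B := by
  have h2 := norm_setIntegral_le_of_norm_le_const (μ := volume) (s := Ioo 0 (π / 2)) (C := 2 * B)
    (f := fun θ => 2 * sin θ ^ 2 * H' X (D * sin θ ^ 2)) (by simp)
    (fun θ _ => kd_integrand_le h hX hD hXD θ)
  rw [vol_half_pi] at h2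
  rw [kd, ← Real.norm_eq_abs]
  refine h2.trans (le_of_eq ?_)
  ring

theorem kd_cont (h : DK b B H H') {X : ℝ} (hX : 0 < X) (hXb : X ≤ b) :
    ContinuousOn (kd H' X) (Icc 0 (b - X)) := by
  refine continuousOn_of_dominated (bound := fun _ => 2 * B) ?_ ?_ ?_ ?_
  · intro D _
    have : Measurable fun θ : ℝ => Function.uncurry H' (X, D * sin θ ^ 2) :=
      h.bk'.meas.comp (by fun_prop)
    exact (Measurable.mul (by fun_prop) this).aestronglyMeasurable
  · intro D hD
    exact Eventually.of_forall fun θ => kd_integrand_le h.bk' hX hD.1 (by linarith [hD.2]) θ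
  · exact integrableOn_const (by simp)
  · refine Eventually.of_forall fun θ => ?_
    refine ContinuousOn.mul continuousOn_const ?_
    refine (h.cont X hX hXb).comp (by fun_prop) (fun D hD => ?_)
    have h1 := sinsq_le hD.1 θ
    exact ⟨h1.1, h1.2.trans hD.2⟩

theorem kd_meas (h : Measurable (Function.uncurry H')) : Measurable (Function.uncurry (kd H')) := by
  have h1 : StronglyMeasurable (Function.uncurry fun (p : ℝ × ℝ) (θ : ℝ) =>
      2 * sin θ ^ 2 * H' p.1 (p.2 * sin θ ^ 2)) := by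
    refine Measurable.stronglyMeasurable ?_
    have : Measurable fun q : (ℝ × ℝ) × ℝ => Function.uncurry H' (q.1.1, q.1.2 * sin q.2 ^ 2) :=
      h.comp (by fun_prop)
    exact Measurable.mul (by fun_prop) this
  exact (h1.integral_prod_right (ν := volume.restrict (Ioo 0 (π / 2)))).measurable

/-- the kernel of the differentiated equation -/
noncomputable def mk0 (H' : ℝ → ℝ → ℝ) (X τ : ℝ) : ℝ := kd H' X (τ - X)

theorem mk0_MK (h : DK b B H H') : MK b (π * B) (mk0 H') where
  meas := by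
    have h1 := kd_meas h.bk'.meas
    exact h1.comp (g := Function.uncurry (kd H')) (f := fun p : ℝ × ℝ => (p.1, p.2 - p.1))
      (by fun_prop)
  bd := fun X σ hX hXσ hσ => kd_le h.bk' hX (by linarith) (by linarith)
  cont := fun X hX => by
    rcases le_or_gt X b with hXb | hXb
    · refine (kd_cont h hX hXb).comp (g := kd H' X) (f := fun τ => τ - X) (by fun_prop)
        (fun τ hτ => ⟨by linarith [hτ.1], by linarith [hτ.2]⟩)
    · rw [Ioc_eq_empty (by linarith)]
      exact continuousOn_empty _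

/-- fundamental theorem of calculus under the integral sign -/
theorem kk_eq (h : DK b B H H') {X D : ℝ} (hX : 0 < X) (hD : 0 ≤ D) (hXD : X + D ≤ b) :
    kk H X D = π * H X 0 + ∫ D' in Ioo 0 D, kd H' X D' := by
  have hF : ∀ θ : ℝ, H X (D * sin θ ^ 2) =
      H X 0 + ∫ D' in Ioo 0 D, sin θ ^ 2 * H' X (D' * sin θ ^ 2) := by
    intro θ
    have hd : ∀ D' ∈ uIcc 0 D, HasDerivAt (fun D' => H X (D' * sin θ ^ 2))
        (sin θ ^ 2 * H' X (D' * sin θ ^ 2)) D' := by
      intro D' hD'
      rw [uIcc_of_le hD] at hD'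
      have h1 := sinsq_le hD'.1 θ
      have h2 := h.deriv X (D' * sin θ ^ 2) hX h1.1 (by linarith [hD'.2])
      have h3 := h2.comp D' ((hasDerivAt_id D').mul_const (sin θ ^ 2))
      refine h3.congr_deriv ?_
      ring
    have hint : IntervalIntegrable (fun D' => sin θ ^ 2 * H' X (D' * sin θ ^ 2)) volume 0 D := by
      refine ContinuousOn.intervalIntegrable ?_
      rw [uIcc_of_le hD]
      refine ContinuousOn.mul continuousOn_const ?_
      refine (h.cont X hX (by linarith)).comp (by fun_prop) (fun D' hD' => ?_)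
      have h1 := sinsq_le hD'.1 θ
      exact ⟨h1.1, by linarith [hD'.2]⟩
    have h4 := intervalIntegral.integral_eq_sub_of_hasDerivAt hd hint
    rw [intervalIntegral.integral_of_le hD, integral_Ioc_eq_integral_Ioo] at h4
    rw [h4]
    simp only [zero_mul]
    ring
  have hm2 : Measurable (Function.uncurry fun θ D' : ℝ =>
      2 * sin θ ^ 2 * H' X (D' * sin θ ^ 2)) := by
    have : Measurable fun q : ℝ × ℝ => Function.uncurry H' (X, q.2 * sin q.1 ^ 2) :=
      h.bk'.meas.comp (by fun_prop)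
    exact Measurable.mul (by fun_prop) this
  have hI : Integrable (Function.uncurry fun θ D' : ℝ => 2 * sin θ ^ 2 * H' X (D' * sin θ ^ 2))
      ((volume.restrict (Ioo 0 (π / 2))).prod (volume.restrict (Ioo 0 D))) := by
    rw [Measure.prod_restrict]
    refine Integrable.mono' (g := fun _ => 2 * B) ?_ hm2.aestronglyMeasurable ?_
    · refine integrableOn_const ?_
      rw [Measure.prod_prod]
      simp [ENNReal.mul_eq_top]
    · refine (ae_restrict_iff' (measurableSet_Ioo.prod measurableSet_Ioo)).mpr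
        (Eventually.of_forall fun q hq => ?_)
      exact kd_integrand_le h.bk' hX hq.2.1.le (by linarith [hq.2.2]) q.1
  have hsw := integral_integral_swap hI
  calc kk H X D = ∫ θ in Ioo 0 (π / 2), (2 * H X 0 +
        ∫ D' in Ioo 0 D, 2 * sin θ ^ 2 * H' X (D' * sin θ ^ 2)) := by
        refine setIntegral_congr_fun measurableSet_Ioo (fun θ _ => ?_)
        rw [hF θ, mul_add, ← integral_const_mul]
        congr 1
        refine setIntegral_congr_fun measurableSet_Ioo (fun D' _ => ?_)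
        ring
    _ = (∫ _θ in Ioo 0 (π / 2), 2 * H X 0) +
        ∫ θ in Ioo 0 (π / 2), ∫ D' in Ioo 0 D, 2 * sin θ ^ 2 * H' X (D' * sin θ ^ 2) := by
        refine integral_add (integrableOn_const (by simp)) ?_
        exact hI.integral_prod_left
    _ = _ := by
        rw [setIntegral_const, vol_half_pi, smul_eq_mul, hsw]
        congr 1
        ring

end kd

/-- Fubini on the triangle -/
theorem tri_fubini {b C : ℝ} {m : ℝ → ℝ → ℝ} {G : ℝ → ℝ} (hm : MK b C m)
    (hG : IntegrableOn G (Ioo 0 b)) {σ : ℝ} (hσ : 0 < σ) (hσb : σ ≤ b) :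
    IntegrableOn (RR m G) (Ioo 0 σ) ∧
    ∫ τ in Ioo 0 σ, RR m G τ = ∫ X in Ioo 0 σ, G X * ∫ τ in Ioo X σ, m X τ := by
  have hb : 0 < b := lt_of_lt_of_le hσ hσb
  set μ : Measure ℝ := volume.restrict (Ioo 0 σ) with hμ
  have hGσ : Integrable G μ := hG.mono_set (Ioo_subset_Ioo_right hσb)
  set F : ℝ × ℝ → ℝ := fun p => if p.2 < p.1 then m p.2 p.1 * G p.2 else 0 with hF
  have hFm : AEStronglyMeasurable F (μ.prod μ) := by
    have h1 : AEStronglyMeasurable (fun p : ℝ × ℝ => G p.2) (μ.prod μ) := hGσ.1.comp_snd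
    have h2 : Measurable (fun p : ℝ × ℝ => m p.2 p.1) := by
      have : Measurable fun p : ℝ × ℝ => Function.uncurry m (p.2, p.1) :=
        hm.meas.comp (by fun_prop)
      exact this
    have h3 : MeasurableSet {p : ℝ × ℝ | p.2 < p.1} := measurableSet_lt measurable_snd measurable_fst
    exact (h2.aestronglyMeasurable.mul h1).indicator h3
  have hFi : Integrable F (μ.prod μ) := by
    refine Integrable.mono' (g := fun p => C * |G p.2|) ?_ hFm ?_
    · exact (hGσ.abs.comp_snd μ).const_mul C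
    · rw [hμ, Measure.prod_restrict]
      refine (ae_restrict_iff' (measurableSet_Ioo.prod measurableSet_Ioo)).mpr
        (Eventually.of_forall fun q hq => ?_)
      simp only [hF]
      split_ifs with hlt
      · rw [norm_mul, Real.norm_eq_abs, Real.norm_eq_abs]
        exact mul_le_mul_of_nonneg_right (hm.bd _ _ hq.2.1 hlt (hq.1.2.le.trans hσb))
          (abs_nonneg _)
      · rw [norm_zero]
        exact mul_nonneg (hm.C_nonneg hb) (abs_nonneg _)
  have hval1 : ∀ X ∈ Ioo 0 σ, ∫ s, F (s, X) ∂μ = G X * ∫ τ in Ioo X σ, m X τ := by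
    intro X hX
    have e : (fun s => F (s, X)) = (Ioi X).indicator (fun s => G X * m X s) := by
      funext s
      simp only [hF, indicator, mem_Ioi]
      split_ifs
      · ring
      · rfl
    rw [e, integral_indicator measurableSet_Ioi, hμ,
      Measure.restrict_restrict measurableSet_Ioi,
      show Ioi X ∩ Ioo 0 σ = Ioo X σ by
        ext s
        simp only [mem_inter_iff, mem_Ioi, mem_Ioo]
        constructor
        · rintro ⟨h1, h2, h3⟩; exact ⟨h1, h3⟩
        · rintro ⟨h1, h2⟩; exact ⟨h1, lt_trans hX.1 h1, h2⟩,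
      integral_const_mul]
  have hval2 : ∀ s ∈ Ioo 0 σ, ∫ X, F (s, X) ∂μ = RR m G s := by
    intro s hs
    have e : (fun X => F (s, X)) = (Iio s).indicator (fun X => m X s * G X) := by
      funext X
      simp only [hF, indicator, mem_Iio]
    rw [e, integral_indicator measurableSet_Iio, hμ,
      Measure.restrict_restrict measurableSet_Iio,
      show Iio s ∩ Ioo 0 σ = Ioo 0 s by
        ext X
        simp only [mem_inter_iff, mem_Iio, mem_Ioo]
        constructor
        · rintro ⟨h1, h2, h3⟩; exact ⟨h2, h1⟩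
        · rintro ⟨h1, h2⟩; exact ⟨h2, h1, lt_trans h2 hs.2⟩]
    rfl
  constructor
  · have := hFi.integral_prod_left
    refine this.congr ?_
    filter_upwards [ae_restrict_mem measurableSet_Ioo] with s hs
    exact hval2 s hs
  · have hsw := integral_integral_swap (f := fun s X => F (s, X)) (μ := μ) (ν := μ) hFi
    calc ∫ s in Ioo 0 σ, RR m G s = ∫ s, ∫ X, F (s, X) ∂μ ∂μ := by
          refine integral_congr_ae ?_
          filter_upwards [ae_restrict_mem measurableSet_Ioo] with s hs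
          exact (hval2 s hs).symm
      _ = ∫ X, ∫ s, F (s, X) ∂μ ∂μ := hsw
      _ = _ := by
          refine integral_congr_ae ?_
          filter_upwards [ae_restrict_mem measurableSet_Ioo] with X hX
          exact hval1 X hX

/-- the differentiated operator -/
noncomputable def VV (H H' : ℝ → ℝ → ℝ) (G : ℝ → ℝ) (τ : ℝ) : ℝ :=
  π * (H τ 0 * G τ) + RR (mk0 H') G τ

section star

variable {b B : ℝ} {H H' : ℝ → ℝ → ℝ} {G : ℝ → ℝ}

theorem H0G_int (h : BK b B H) (hG : IntegrableOn G (Ioo 0 b)) :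
    IntegrableOn (fun τ => H τ 0 * G τ) (Ioo 0 b) := by
  refine Integrable.bdd_mul hG (c := B) ?_ ?_
  · have : Measurable fun τ : ℝ => Function.uncurry H (τ, 0) := h.meas.comp (by fun_prop)
    exact this.aestronglyMeasurable
  · refine (ae_restrict_iff' measurableSet_Ioo).mpr (Eventually.of_forall fun X hX => ?_)
    rw [Real.norm_eq_abs]
    exact h.bd X 0 hX.1 le_rfl (by linarith [hX.2])

/-- the main identity -/
theorem star (h : DK b B H H') (hG : IntegrableOn G (Ioo 0 b)) {σ : ℝ} (hσ : 0 < σ)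
    (hσb : σ ≤ b) :
    IntegrableOn (VV H H' G) (Ioo 0 σ) ∧
    ∫ s in Ioo 0 σ, TG H G s / √(σ - s) = ∫ τ in Ioo 0 σ, VV H H' G τ := by
  have h1 := (abel_fubini h.bk hG hσ hσb).2
  have h2 := tri_fubini (mk0_MK h) hG hσ hσb
  have h3 : IntegrableOn (fun τ => π * (H τ 0 * G τ)) (Ioo 0 σ) :=
    ((H0G_int h.bk hG).mono_set (Ioo_subset_Ioo_right hσb)).const_mul π
  have h4 : IntegrableOn (VV H H' G) (Ioo 0 σ) := h3.add h2.1
  refine ⟨h4, ?_⟩
  have h5 : ∫ τ in Ioo 0 σ, VV H H' G τ =
      (∫ τ in Ioo 0 σ, π * (H τ 0 * G τ)) + ∫ τ in Ioo 0 σ, RR (mk0 H') G τ :=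
    integral_add h3 h2.1
  have h6 : ∀ X ∈ Ioo 0 σ, G X * kk H X (σ - X) =
      π * (H X 0 * G X) + G X * ∫ τ in Ioo X σ, mk0 H' X τ := by
    intro X hX
    rw [kk_eq h hX.1 (by linarith [hX.2]) (by linarith)]
    have : ∫ τ in Ioo X σ, mk0 H' X τ = ∫ D' in Ioo 0 (σ - X), kd H' X D' :=
      setIntegral_shift hX.2 (kd H' X)
    rw [this]
    ring
  have h7 : IntegrableOn (fun X => G X * ∫ τ in Ioo X σ, mk0 H' X τ) (Ioo 0 σ) := by
    have h8 : IntegrableOn (fun X => G X * kk H X (σ - X)) (Ioo 0 σ) := by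
      have hGσ : IntegrableOn G (Ioo 0 σ) := hG.mono_set (Ioo_subset_Ioo_right hσb)
      have hm : Measurable fun X => kk H X (σ - X) := by
        have h9 : StronglyMeasurable (Function.uncurry fun (X : ℝ) (θ : ℝ) =>
            2 * H X ((σ - X) * sin θ ^ 2)) := by
          refine Measurable.stronglyMeasurable ?_
          have : Measurable fun q : ℝ × ℝ => Function.uncurry H (q.1, (σ - q.1) * sin q.2 ^ 2) :=
            h.bk.meas.comp (by fun_prop)
          exact this.const_mul 2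
        exact (h9.integral_prod_right (ν := volume.restrict (Ioo 0 (π / 2)))).measurable
      have := Integrable.bdd_mul hGσ hm.aestronglyMeasurable (c := π * B) (by
        refine (ae_restrict_iff' measurableSet_Ioo).mpr (Eventually.of_forall fun X hX => ?_)
        rw [Real.norm_eq_abs]
        exact h.bk.kk_le hX.1 (by linarith [hX.2]) (by linarith))
      refine this.congr (Eventually.of_forall fun X => ?_)
      simp only
      ring
    refine (h8.sub h3).congr ?_
    filter_upwards [ae_restrict_mem measurableSet_Ioo] with X hX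
    simp only [Pi.sub_apply]
    rw [h6 X hX]
    ring
  rw [h1, h5, h2.2, ← integral_add h3 h7]
  exact setIntegral_congr_fun measurableSet_Ioo h6

theorem VV_cont (h : DK b B H H') (hG : IntegrableOn G (Ioo 0 b)) (hGc : ContinuousOn G (Ioc 0 b))
    (h0 : ContinuousOn (fun s => H s 0) (Ioc 0 b)) : ContinuousOn (VV H H' G) (Ioc 0 b) :=
  (continuousOn_const.mul (h0.mul hGc)).add ((mk0_MK h).RR_cont hG)

/-- forward direction -/
theorem VV_zero (hb : 0 < b) (h : DK b B H H') (hG : IntegrableOn G (Ioo 0 b))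
    (hGc : ContinuousOn G (Ioc 0 b)) (h0 : ContinuousOn (fun s => H s 0) (Ioc 0 b))
    (hT : ∀ᵐ s ∂(volume.restrict (Ioo (0 : ℝ) b)), TG H G s = 0) :
    ∀ σ ∈ Ioc (0 : ℝ) b, VV H H' G σ = 0 := by
  have hc := VV_cont h hG hGc h0
  have hz : ∀ σ ∈ Ioc (0 : ℝ) b, ∫ τ in Ioo 0 σ, VV H H' G τ = 0 := by
    intro σ hσ
    rw [← (star h hG hσ.1 hσ.2).2]
    refine integral_eq_zero_of_ae ?_
    have hT' : ∀ᵐ s ∂(volume.restrict (Ioo (0 : ℝ) σ)), TG H G s = 0 :=
      ae_mono (Measure.restrict_mono (Ioo_subset_Ioo_right hσ.2) le_rfl) hT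
    filter_upwards [hT'] with s hs
    simp [hs]
  have hioo : ∀ σ ∈ Ioo (0 : ℝ) b, VV H H' G σ = 0 := by
    intro σ hσ
    have hi : IntervalIntegrable (VV H H' G) volume 0 σ := by
      rw [intervalIntegrable_iff_integrableOn_Ioo_of_le hσ.1.le]
      exact (star h hG hσ.1 hσ.2.le).1
    have h1 := ftc_right (b := b) hc hi hσ
    have h2 : HasDerivAt (fun x => ∫ t in (0 : ℝ)..x, VV H H' G t) 0 σ := by
      refine (hasDerivAt_const σ (0 : ℝ)).congr_of_eventuallyEq ?_
      filter_upwards [Ioo_mem_nhds hσ.1 hσ.2] with x hx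
      rw [intervalIntegral.integral_of_le hx.1.le, integral_Ioc_eq_integral_Ioo]
      exact hz x ⟨hx.1, hx.2.le⟩
    exact h1.unique h2
  intro σ hσ
  rcases eq_or_lt_of_le hσ.2 with he | hlt
  · have h1 : Tendsto (VV H H' G) (𝓝[<] b) (𝓝 (VV H H' G b)) := by
      have := hc b ⟨hb, le_rfl⟩
      refine this.mono_left ?_
      rw [← nhdsWithin_Ioo_eq_nhdsLT hb]
      exact nhdsWithin_mono _ Ioo_subset_Ioc_self
    have h2 : Tendsto (VV H H' G) (𝓝[<] b) (𝓝 0) := by
      refine tendsto_const_nhds.congr' ?_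
      filter_upwards [Ioo_mem_nhdsLT hb] with x hx
      exact (hioo x hx).symm
    rw [he]
    exact tendsto_nhds_unique h1 h2
  · exact hioo σ ⟨hσ.1, hlt⟩

/-- backward direction -/
theorem TG_zero (hb : 0 < b) (h : DK b B H H') (hG : IntegrableOn G (Ioo 0 b))
    (hV : ∀ σ ∈ Ioo (0 : ℝ) b, VV H H' G σ = 0) :
    ∀ᵐ s ∂(volume.restrict (Ioo (0 : ℝ) b)), TG H G s = 0 := by
  refine abel_inj hb (TG_int h.bk hb hG) (fun σ hσ => ?_)
  rw [(star h hG hσ.1 hσ.2.le).2]
  exact setIntegral_eq_zero_of_forall_eq_zero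
    (fun τ hτ => hV τ ⟨hτ.1, lt_trans hτ.2 hσ.2⟩)

end star

end Pool.Agent.Lib.MP_85963d_gt.H87
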