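import Pool.Agent.Lib.MP_85963d_gt.H87.SV5

/-!
# Singular Volterra equation, part 6: continuous dependence on the kernel (helper87)
-/

open MeasureTheory Set Filter Topology

namespace Pool.Agent.Lib.MP_85963d_gt.H87

variable {b C : ℝ} {m : ℝ → ℝ → ℝ}

/-- difference of `T g` for two kernels -/
theorem TT_diff {m₁ m₂ : ℝ → ℝ → ℝ} {g : ℝ → ℝ} {δ ε : ℝ} (h₁ : MK b C m₁) (h₂ : MK b C m₂)
    (hC : 0 ≤ C) (hδ : 0 < δ) (hδb : δ ≤ b) (hg : ContinuousOn g (Icc 0 b)) (hε : 0 ≤ ε)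
    (hD : ∀ σ ∈ Ioc (0 : ℝ) b, |Rg m₁ g σ - Rg m₂ g σ| ≤ ε * √σ) {σ : ℝ} (hσ : σ ∈ Icc 0 b) :
    |TT m₁ δ g σ - TT m₂ δ g σ| ≤ ε * (2 * b + 4 * (δ + b * (b / δ))) := by
  have hb : 0 < b := lt_of_lt_of_le hδ hδb
  rcases eq_or_lt_of_le hσ.1 with h0 | h0
  · rw [← h0, TT_zero, TT_zero, sub_zero, abs_zero]; positivity
  have hσ' : σ ∈ Ioc (0 : ℝ) b := ⟨h0, hσ.2⟩
  have hs : 0 < √σ := Real.sqrt_pos.mpr h0
  have hsq : √σ * √σ = σ := Real.mul_self_sqrt h0.le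
  have e1 : (∫ X in (0 : ℝ)..σ, Rg m₁ g X / √X) - ∫ X in (0 : ℝ)..σ, Rg m₂ g X / √X =
      ∫ X in (0 : ℝ)..σ, (Rg m₁ g X / √X - Rg m₂ g X / √X) :=
    (intervalIntegral.integral_sub (P2_intv h₁ hC hb hg hσ) (P2_intv h₂ hC hb hg hσ)).symm
  have e2 : (∫ X in δ..σ, Rg m₁ g X / (X * √X)) - ∫ X in δ..σ, Rg m₂ g X / (X * √X) =
      ∫ X in δ..σ, (Rg m₁ g X / (X * √X) - Rg m₂ g X / (X * √X)) :=
    (intervalIntegral.integral_sub (P3_int h₁ hg hb ⟨hδ, hδb⟩ hσ')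
      (P3_int h₂ hg hb ⟨hδ, hδb⟩ hσ')).symm
  have hdec : TT m₁ δ g σ - TT m₂ δ g σ = √σ * (Rg m₁ g σ - Rg m₂ g σ) -
      3 / 4 * (∫ X in (0 : ℝ)..σ, (Rg m₁ g X / √X - Rg m₂ g X / √X)) +
      15 / 4 * (σ * ∫ X in δ..σ, (Rg m₁ g X / (X * √X) - Rg m₂ g X / (X * √X))) := by
    rw [← e1, ← e2]; unfold TT; ring
  have a1 : |√σ * (Rg m₁ g σ - Rg m₂ g σ)| ≤ ε * b := by
    rw [abs_mul, abs_of_pos hs]
    calc √σ * |Rg m₁ g σ - Rg m₂ g σ| ≤ √σ * (ε * √σ) := by gcongr; exact hD σ hσ'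
      _ = ε * (√σ * √σ) := by ring
      _ = ε * σ := by rw [hsq]
      _ ≤ ε * b := by gcongr; exact hσ.2
  have a2 : |3 / 4 * ∫ X in (0 : ℝ)..σ, (Rg m₁ g X / √X - Rg m₂ g X / √X)| ≤ ε * b := by
    rw [abs_mul, abs_of_pos (by norm_num : (0 : ℝ) < 3 / 4)]
    have h1 : |∫ X in (0 : ℝ)..σ, (Rg m₁ g X / √X - Rg m₂ g X / √X)| ≤ ε * |σ - 0| := by
      rw [← Real.norm_eq_abs]
      refine intervalIntegral.norm_integral_le_of_norm_le_const (fun X hX => ?_)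
      rw [uIoc_of_le h0.le] at hX
      have hsX : 0 < √X := Real.sqrt_pos.mpr hX.1
      rw [Real.norm_eq_abs, ← sub_div, abs_div, abs_of_pos hsX, div_le_iff₀ hsX]
      exact hD X ⟨hX.1, hX.2.trans hσ.2⟩
    rw [sub_zero, abs_of_pos h0] at h1
    have h2 : ε * σ ≤ ε * b := mul_le_mul_of_nonneg_left hσ.2 hε
    have h3 : 0 ≤ ε * b := by positivity
    linarith
  have a3 : |15 / 4 * (σ * ∫ X in δ..σ, (Rg m₁ g X / (X * √X) - Rg m₂ g X / (X * √X)))| ≤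
      ε * (4 * (δ + b * (b / δ))) := by
    have hpt : ∀ X ∈ Ioc (0 : ℝ) b, |Rg m₁ g X / (X * √X) - Rg m₂ g X / (X * √X)| ≤ ε * (1 / X) := by
      intro X hX
      have hsX : 0 < √X := Real.sqrt_pos.mpr hX.1
      rw [← sub_div, abs_div, abs_of_pos (mul_pos hX.1 hsX), div_le_iff₀ (mul_pos hX.1 hsX)]
      refine (hD X hX).trans (le_of_eq ?_)
      have := hX.1.ne'
      field_simp
    rw [abs_mul, abs_of_pos (by norm_num : (0 : ℝ) < 15 / 4), abs_mul, abs_of_pos h0]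
    have hmain : σ * |∫ X in δ..σ, (Rg m₁ g X / (X * √X) - Rg m₂ g X / (X * √X))| ≤
        ε * (δ + b * (b / δ)) := by
      rcases le_total σ δ with h | h
      · have hc : IntervalIntegrable (fun X : ℝ => ε * (1 / X)) volume σ δ := by
          refine ContinuousOn.intervalIntegrable ?_
          rw [uIcc_of_le h]
          exact continuousOn_const.mul (continuousOn_const.div continuousOn_id (fun X hX =>
            (lt_of_lt_of_le h0 hX.1).ne'))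
        have h1 : |∫ X in δ..σ, (Rg m₁ g X / (X * √X) - Rg m₂ g X / (X * √X))| ≤
            ε * ∫ X in σ..δ, 1 / X := by
          rw [intervalIntegral.integral_symm, abs_neg, ← Real.norm_eq_abs,
            ← intervalIntegral.integral_const_mul]
          refine intervalIntegral.norm_integral_le_of_norm_le h ?_ hc
          exact Eventually.of_forall fun X hX => hpt X ⟨lt_trans h0 hX.1, hX.2.trans hδb⟩
        calc σ * |∫ X in δ..σ, (Rg m₁ g X / (X * √X) - Rg m₂ g X / (X * √X))|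
            ≤ σ * (ε * ∫ X in σ..δ, 1 / X) := mul_le_mul_of_nonneg_left h1 h0.le
          _ = ε * (σ * ∫ X in σ..δ, 1 / X) := by ring
          _ ≤ ε * δ := mul_le_mul_of_nonneg_left (sigma_log h0 h).1 hε
          _ ≤ ε * (δ + b * (b / δ)) := by
            have : 0 ≤ b * (b / δ) := by positivity
            gcongr
            linarith
      · have h1 : |∫ X in δ..σ, (Rg m₁ g X / (X * √X) - Rg m₂ g X / (X * √X))| ≤
            ε / δ * |σ - δ| := by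
          rw [← Real.norm_eq_abs]
          refine intervalIntegral.norm_integral_le_of_norm_le_const (fun X hX => ?_)
          rw [uIoc_of_le h] at hX
          refine (hpt X ⟨lt_trans hδ hX.1, hX.2.trans hσ.2⟩).trans ?_
          rw [div_eq_mul_one_div ε δ]
          refine mul_le_mul_of_nonneg_left ?_ hε
          exact one_div_le_one_div_of_le hδ hX.1.le
        rw [abs_of_nonneg (show 0 ≤ σ - δ by linarith)] at h1
        calc σ * |∫ X in δ..σ, (Rg m₁ g X / (X * √X) - Rg m₂ g X / (X * √X))|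
            ≤ b * (ε / δ * b) := by
              refine mul_le_mul hσ.2 (h1.trans ?_) (abs_nonneg _) hb.le
              refine mul_le_mul_of_nonneg_left ?_ (by positivity)
              linarith [hσ.2]
          _ = ε * (b * (b / δ)) := by ring
          _ ≤ ε * (δ + b * (b / δ)) := by gcongr; linarith
    have hnn : 0 ≤ ε * (δ + b * (b / δ)) := by positivity
    calc 15 / 4 * (σ * |∫ X in δ..σ, (Rg m₁ g X / (X * √X) - Rg m₂ g X / (X * √X))|)
        ≤ 4 * (ε * (δ + b * (b / δ))) := by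
          have := mul_le_mul_of_nonneg_left hmain (by norm_num : (0 : ℝ) ≤ 15 / 4)
          linarith
      _ = _ := by ring
  rw [hdec]
  refine (abs_add_le _ _).trans ?_
  have := abs_sub (√σ * (Rg m₁ g σ - Rg m₂ g σ))
    (3 / 4 * (∫ X in (0 : ℝ)..σ, (Rg m₁ g X / √X - Rg m₂ g X / √X)))
  linarith

/-- smallness of `R_{m₁} g - R_{m₂} g` -/
theorem Rg_diff {m₁ m₂ : ℝ → ℝ → ℝ} {g η : ℝ → ℝ} {ε M x : ℝ} (h₁ : MK b C m₁) (h₂ : MK b C m₂)
    (hb : 0 < b) (hg : ContinuousOn g (Icc 0 b)) (hM : ∀ X ∈ Ioo (0 : ℝ) b, |g X| ≤ M)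
    (hM0 : 0 ≤ M) (hε : 0 ≤ ε) (hx : 0 < x)
    (hηi : IntegrableOn η (Ioo 0 b)) (hη0 : ∀ X ∈ Ioo (0 : ℝ) b, 0 ≤ η X)
    (hηx : ∀ X ∈ Ioo (0 : ℝ) b, X < x → η X ≤ ε) (hηI : ∫ X in Ioo (0 : ℝ) b, η X ≤ ε)
    (hd : ∀ X σ, 0 < X → X < σ → σ ≤ b → |m₁ X σ - m₂ X σ| ≤ η X + ε) :
    ∀ σ ∈ Ioc (0 : ℝ) b, |Rg m₁ g σ - Rg m₂ g σ| ≤ M * (4 + (1 + b) / x) * ε * √σ := by
  intro σ hσ
  have hs : 0 < √σ := Real.sqrt_pos.mpr hσ.1
  have hGi := gi hg hb
  have e : Rg m₁ g σ - Rg m₂ g σ = ∫ X in Ioo (0 : ℝ) σ, (m₁ X σ - m₂ X σ) * (g X / √X) := by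
    unfold Rg RR
    rw [← integral_sub (h₁.integrable hGi hσ.2) (h₂.integrable hGi hσ.2)]
    refine setIntegral_congr_fun measurableSet_Ioo (fun X _ => ?_)
    ring
  rw [e, ← Real.norm_eq_abs]
  have hηi' : IntegrableOn η (Ioo 0 σ) := hηi.mono_set (Ioo_subset_Ioo_right hσ.2)
  have hI1 := int_inv_sqrt hσ.1.le
  -- pointwise bound of the integrand
  have hbound : ∀ X ∈ Ioo (0 : ℝ) σ, ‖(m₁ X σ - m₂ X σ) * (g X / √X)‖ ≤
      2 * ε * M * (1 / √X) + M / √x * (η X + ε) := by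
    intro X hX
    have hXb : X ∈ Ioo (0 : ℝ) b := ⟨hX.1, lt_of_lt_of_le hX.2 hσ.2⟩
    have hsX : 0 < √X := Real.sqrt_pos.mpr hX.1
    have hsx : 0 < √x := Real.sqrt_pos.mpr hx
    have hη := hη0 X hXb
    rw [norm_mul, Real.norm_eq_abs, Real.norm_eq_abs, abs_div, abs_of_pos hsX]
    have h1 : |m₁ X σ - m₂ X σ| * (|g X| / √X) ≤ (η X + ε) * (M / √X) := by
      refine mul_le_mul (hd X σ hX.1 hX.2 hσ.2) ?_ (by positivity) (by positivity)
      exact div_le_div_of_nonneg_right (hM X hXb) hsX.le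
    refine h1.trans ?_
    rcases lt_or_ge X x with h | h
    · have h2 : (η X + ε) * (M / √X) ≤ (ε + ε) * (M / √X) := by
        have := hηx X hXb h
        gcongr
      have h3 : 0 ≤ M / √x * (η X + ε) := by positivity
      calc (η X + ε) * (M / √X) ≤ (ε + ε) * (M / √X) := h2
        _ = 2 * ε * M * (1 / √X) := by ring
        _ ≤ _ := by linarith
    · have h2 : M / √X ≤ M / √x := by
        have : √x ≤ √X := Real.sqrt_le_sqrt h
        gcongr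
      have h3 : 0 ≤ 2 * ε * M * (1 / √X) := by positivity
      calc (η X + ε) * (M / √X) ≤ (η X + ε) * (M / √x) := by gcongr
        _ = M / √x * (η X + ε) := by ring
        _ ≤ _ := by linarith
  have hci : IntegrableOn (fun _ : ℝ => ε) (Ioo 0 σ) := integrableOn_const (by simp)
  have hint : IntegrableOn (fun X => 2 * ε * M * (1 / √X) + M / √x * (η X + ε)) (Ioo 0 σ) :=
    (hI1.1.const_mul _).add ((hηi'.add hci).const_mul _)
  -- choose between the two regimes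
  rcases le_or_gt σ x with hσx | hσx
  · have hb2 : ∀ X ∈ Ioo (0 : ℝ) σ, ‖(m₁ X σ - m₂ X σ) * (g X / √X)‖ ≤ 2 * ε * M * (1 / √X) := by
      intro X hX
      have hXb : X ∈ Ioo (0 : ℝ) b := ⟨hX.1, lt_of_lt_of_le hX.2 hσ.2⟩
      have hsX : 0 < √X := Real.sqrt_pos.mpr hX.1
      rw [norm_mul, Real.norm_eq_abs, Real.norm_eq_abs, abs_div, abs_of_pos hsX]
      have h0 := hηx X hXb (lt_of_lt_of_le hX.2 hσx)
      have h00 := hη0 X hXb
      have h1 : |m₁ X σ - m₂ X σ| * (|g X| / √X) ≤ (ε + ε) * (M / √X) := by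
        refine mul_le_mul ((hd X σ hX.1 hX.2 hσ.2).trans (by linarith)) ?_ (by positivity)
          (by positivity)
        exact div_le_div_of_nonneg_right (hM X hXb) hsX.le
      refine h1.trans (le_of_eq ?_)
      ring
    have h5 := norm_integral_le_of_norm_le (μ := volume.restrict (Ioo (0 : ℝ) σ))
      (hI1.1.const_mul (2 * ε * M))
      ((ae_restrict_iff' measurableSet_Ioo).mpr (Eventually.of_forall hb2))
    rw [integral_const_mul, hI1.2] at h5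
    refine h5.trans ?_
    have h6 : 0 ≤ M * ((1 + b) / x) * ε * √σ := by positivity
    nlinarith
  · have h5 := norm_integral_le_of_norm_le (μ := volume.restrict (Ioo (0 : ℝ) σ)) hint
      ((ae_restrict_iff' measurableSet_Ioo).mpr (Eventually.of_forall hbound))
    refine h5.trans ?_
    have hsplit : ∫ X in Ioo (0 : ℝ) σ, (2 * ε * M * (1 / √X) + M / √x * (η X + ε)) =
        2 * ε * M * (2 * √σ) + M / √x * ((∫ X in Ioo (0 : ℝ) σ, η X) + σ * ε) := by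
      have hA : IntegrableOn (fun X => 2 * ε * M * (1 / √X)) (Ioo 0 σ) := hI1.1.const_mul _
      have hB0 : IntegrableOn (fun X => η X + ε) (Ioo 0 σ) := hηi'.add hci
      have hB : IntegrableOn (fun X => M / √x * (η X + ε)) (Ioo 0 σ) := hB0.const_mul _
      have s1 : ∫ X in Ioo (0 : ℝ) σ, (2 * ε * M * (1 / √X) + M / √x * (η X + ε)) =
          (∫ X in Ioo (0 : ℝ) σ, 2 * ε * M * (1 / √X)) +
          ∫ X in Ioo (0 : ℝ) σ, M / √x * (η X + ε) := integral_add hA hB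
      have s2 : ∫ X in Ioo (0 : ℝ) σ, (η X + ε) =
          (∫ X in Ioo (0 : ℝ) σ, η X) + ∫ _X in Ioo (0 : ℝ) σ, ε := integral_add hηi' hci
      rw [s1, integral_const_mul, integral_const_mul, hI1.2, s2, setIntegral_const]
      simp [hσ.1.le]
    rw [hsplit]
    have h7 : ∫ X in Ioo (0 : ℝ) σ, η X ≤ ε := by
      refine le_trans ?_ hηI
      refine setIntegral_mono_set hηi ?_ (Ioo_subset_Ioo_right hσ.2).eventuallyLE
      exact (ae_restrict_iff' measurableSet_Ioo).mpr (Eventually.of_forall hη0)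
    have hsx : 0 < √x := Real.sqrt_pos.mpr hx
    have hsq : √x * √x = x := Real.mul_self_sqrt hx.le
    have hxs : √x ≤ √σ := Real.sqrt_le_sqrt hσx.le
    have h8 : M / √x * ((∫ X in Ioo (0 : ℝ) σ, η X) + σ * ε) ≤ M * ((1 + b) / x) * ε * √σ := by
      calc M / √x * ((∫ X in Ioo (0 : ℝ) σ, η X) + σ * ε)
          ≤ M / √x * (ε + b * ε) := by
            have := hσ.2
            gcongr
        _ = M * ((1 + b) / (√x * √x)) * ε * √x := by field_simp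
        _ = M * ((1 + b) / x) * ε * √x := by rw [hsq]
        _ ≤ M * ((1 + b) / x) * ε * √σ := by gcongr
    nlinarith

/-- Stability of the solution with given data `(α, β)` at `(0, δ)`. -/
theorem stab {m₂ : ℝ → ℝ → ℝ} {δ α β x : ℝ} {g₂ : ℝ → ℝ} (h₂ : MK b C m₂)
    (hδ : 0 < δ) (hδb : δ ≤ b) (hδs : 120 * C * δ ≤ 1) (hg₂ : ContinuousOn g₂ (Icc 0 b))
    (hx : 0 < x) (hfix₂ : ∀ σ ∈ Icc (0 : ℝ) b, g₂ σ = α + β * σ + TT m₂ δ g₂ σ) :
    ∃ K : ℝ, 0 ≤ K ∧ ∀ (m₁ : ℝ → ℝ → ℝ) (g₁ η : ℝ → ℝ) (ε : ℝ), MK b C m₁ →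
      ContinuousOn g₁ (Icc 0 b) → (∀ σ ∈ Icc (0 : ℝ) b, g₁ σ = α + β * σ + TT m₁ δ g₁ σ) →
      0 ≤ ε → IntegrableOn η (Ioo 0 b) → (∀ X ∈ Ioo (0 : ℝ) b, 0 ≤ η X) →
      (∀ X ∈ Ioo (0 : ℝ) b, X < x → η X ≤ ε) → ∫ X in Ioo (0 : ℝ) b, η X ≤ ε →
      (∀ X σ, 0 < X → X < σ → σ ≤ b → |m₁ X σ - m₂ X σ| ≤ η X + ε) →
      ∀ σ ∈ Icc (0 : ℝ) b, |g₁ σ - g₂ σ| ≤ K * ε := by
  have hb : 0 < b := lt_of_lt_of_le hδ hδb
  have hC := h₂.C_nonneg hb
  obtain ⟨M, hM⟩ := isCompact_Icc.exists_bound_of_continuousOn hg₂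
  have hM0 : 0 ≤ M := (norm_nonneg _).trans (hM 0 ⟨le_rfl, hb.le⟩)
  have hM' : ∀ X ∈ Ioo (0 : ℝ) b, |g₂ X| ≤ M := fun X hX => hM X (Ioo_subset_Icc_self hX)
  set lam := 2 / δ with hlam
  have hld : lam * δ = 2 := by rw [hlam]; field_simp
  have hl : 0 < lam := by positivity
  set K0 : ℝ := M * (4 + (1 + b) / x) * (2 * b + 4 * (δ + b * (b / δ))) with hK0
  have hK0n : 0 ≤ K0 := by positivity
  refine ⟨2 * K0 * Real.exp (lam * b), by positivity, ?_⟩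
  intro m₁ g₁ η ε h₁ hg₁ hfix₁ hε hηi hη0 hηx hηI hd σ hσ
  have hD := Rg_diff h₁ h₂ hb hg₂ hM' hM0 hε hx hηi hη0 hηx hηI hd
  have hap := apriori (F := K0 * ε) (h := fun X => g₁ X - g₂ X) h₁ hC hδ hδb hld hδs
    (hg₁.sub hg₂) (fun τ hτ => by
      rw [TT_sub h₁ hC hδ hδb hg₁ hg₂ hτ]
      have e : g₁ τ - g₂ τ - (TT m₁ δ g₁ τ - TT m₁ δ g₂ τ) = TT m₁ δ g₂ τ - TT m₂ δ g₂ τ := by
        have e1 := hfix₁ τ hτ
        have e2 := hfix₂ τ hτ
        linarith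
      rw [e]
      have h3 := TT_diff (ε := M * (4 + (1 + b) / x) * ε) h₁ h₂ hC hδ hδb hg₂ (by positivity) hD hτ
      refine h3.trans ?_
      have h4 : 1 ≤ Real.exp (lam * τ) := Real.one_le_exp (mul_nonneg hl.le hτ.1)
      have h5 : 0 ≤ K0 * ε := by positivity
      calc M * (4 + (1 + b) / x) * ε * (2 * b + 4 * (δ + b * (b / δ))) = K0 * ε := by
            rw [hK0]; ring
        _ ≤ K0 * ε * Real.exp (lam * τ) := by nlinarith)
  refine (hap σ hσ).trans ?_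
  have h6 : Real.exp (lam * σ) ≤ Real.exp (lam * b) :=
    Real.exp_le_exp.mpr (mul_le_mul_of_nonneg_left hσ.2 hl.le)
  calc 2 * (K0 * ε) * Real.exp (lam * σ) ≤ 2 * (K0 * ε) * Real.exp (lam * b) := by gcongr
    _ = _ := by ring

end Pool.Agent.Lib.MP_85963d_gt.H87
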