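import Pool.Agent.Lib.MP_85963d_gt.H87.AB2
import Pool.Agent.Lib.MP_85963d_gt.H87.SV6

/-!
# Abel transform, part 3 (helper87): the equation `T G = 0` for a normalised weight
-/

open MeasureTheory Set Filter Topology Real

namespace Pool.Agent.Lib.MP_85963d_gt.H87

/-- normalised weights: `ω(X,Y)`, `X = t²`, `Y = s - t²`, `ω' = ∂ω/∂Y` -/
structure WT (b A c : ℝ) (ω ω' : ℝ → ℝ → ℝ) : Prop where
  meas : Measurable (Function.uncurry ω)
  meas' : Measurable (Function.uncurry ω')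
  deriv : ∀ X Y, 0 < X → 0 ≤ Y → X + Y ≤ b → HasDerivAt (ω X) (ω' X Y) Y
  cont' : ∀ X, 0 < X → X ≤ b → ContinuousOn (ω' X) (Icc 0 (b - X))
  near : ∀ X Y, 0 < X → 0 ≤ Y → X + Y ≤ b → |ω X Y - 1| ≤ A * (X + Y)
  bd' : ∀ X Y, 0 < X → 0 ≤ Y → X + Y ≤ b → |ω' X Y| ≤ A
  diag : ContinuousOn (fun s => ω s 0) (Ioc 0 b)
  low : ∀ s, 0 < s → s ≤ b → c ≤ ω s 0

/-- the kernel `(X² - 6XY + Y²) ω(X,Y)` -/
def HK (ω : ℝ → ℝ → ℝ) (X Y : ℝ) : ℝ := (X ^ 2 - 6 * X * Y + Y ^ 2) * ω X Y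

/-- its derivative in `Y` -/
def HK' (ω ω' : ℝ → ℝ → ℝ) (X Y : ℝ) : ℝ :=
  (2 * Y - 6 * X) * ω X Y + (X ^ 2 - 6 * X * Y + Y ^ 2) * ω' X Y

/-- the kernel of the Volterra equation -/
noncomputable def mW (ω ω' : ℝ → ℝ → ℝ) (X σ : ℝ) : ℝ :=
  (6 * σ - 30 * X) / (8 * σ ^ 2) - kd (HK' ω ω') X (σ - X) / (π * (σ ^ 2 * ω σ 0))

variable {b A c : ℝ} {ω ω' : ℝ → ℝ → ℝ}

theorem quad_le {X Y : ℝ} (hX : 0 ≤ X) (hY : 0 ≤ Y) : |X ^ 2 - 6 * X * Y + Y ^ 2| ≤ (X + Y) ^ 2 := by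
  rw [abs_le]
  constructor
  · nlinarith [sq_nonneg (X - Y), mul_nonneg hX hY]
  · nlinarith [mul_nonneg hX hY]

theorem lin_le {X Y : ℝ} (hX : 0 ≤ X) (hY : 0 ≤ Y) : |2 * Y - 6 * X| ≤ 6 * (X + Y) := by
  rw [abs_le]
  constructor <;> linarith

theorem WT.mono (h : WT b A c ω ω') {x : ℝ} (hx : x ≤ b) : WT x A c ω ω' where
  meas := h.meas
  meas' := h.meas'
  deriv := fun X Y h1 h2 h3 => h.deriv X Y h1 h2 (h3.trans hx)
  cont' := fun X h1 h2 => (h.cont' X h1 (h2.trans hx)).mono (Icc_subset_Icc_right (by linarith))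
  near := fun X Y h1 h2 h3 => h.near X Y h1 h2 (h3.trans hx)
  bd' := fun X Y h1 h2 h3 => h.bd' X Y h1 h2 (h3.trans hx)
  diag := h.diag.mono (Ioc_subset_Ioc_right hx)
  low := fun s h1 h2 => h.low s h1 (h2.trans hx)

theorem WT.A_nonneg (h : WT b A c ω ω') (hb : 0 < b) : 0 ≤ A :=
  (abs_nonneg _).trans (h.bd' b 0 hb le_rfl (by simp))

theorem WT.abs_le (h : WT b A c ω ω') (hb : 0 < b) {X Y : ℝ} (hX : 0 < X) (hY : 0 ≤ Y)
    (hXY : X + Y ≤ b) : |ω X Y| ≤ 1 + A * b := by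
  have h1 := h.near X Y hX hY hXY
  have hA := h.A_nonneg hb
  have h2 : |ω X Y| ≤ |ω X Y - 1| + |1| := by
    calc |ω X Y| = |(ω X Y - 1) + 1| := by rw [sub_add_cancel]
      _ ≤ _ := abs_add_le _ _
  rw [abs_one] at h2
  have h3 : A * (X + Y) ≤ A * b := by gcongr
  linarith

theorem WT.cont (h : WT b A c ω ω') {X : ℝ} (hX : 0 < X) :
    ContinuousOn (ω X) (Icc 0 (b - X)) := fun Y hY =>
  (h.deriv X Y hX hY.1 (by linarith [hY.2])).continuousAt.continuousWithinAt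

theorem WT.dk (h : WT b A c ω ω') (hb : 0 < b) :
    DK b ((6 * b + b ^ 2) * (1 + A * b) + b ^ 2 * A) (HK ω) (HK' ω ω') where
  bk := by
    refine ⟨?_, ?_⟩
    · exact Measurable.mul (by fun_prop) h.meas
    · intro X Y hX hY hXY
      have hA := h.A_nonneg hb
      have h1 := h.abs_le hb hX hY hXY
      have h2 := quad_le hX.le hY
      have h3 : (X + Y) ^ 2 ≤ b ^ 2 := by gcongr
      rw [HK, abs_mul]
      calc |X ^ 2 - 6 * X * Y + Y ^ 2| * |ω X Y| ≤ b ^ 2 * (1 + A * b) := by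
            gcongr
            exact h2.trans h3
        _ ≤ _ := by
            have : 0 ≤ 6 * b * (1 + A * b) + b ^ 2 * A := by positivity
            nlinarith
  bk' := by
    refine ⟨?_, ?_⟩
    · exact Measurable.add (Measurable.mul (by fun_prop) h.meas)
        (Measurable.mul (by fun_prop) h.meas')
    · intro X Y hX hY hXY
      have hA := h.A_nonneg hb
      have h1 := h.abs_le hb hX hY hXY
      have h1' := h.bd' X Y hX hY hXY
      have h2 := quad_le hX.le hY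
      have h2' := lin_le hX.le hY
      have h3 : (X + Y) ^ 2 ≤ b ^ 2 := by gcongr
      have h4 : |(2 * Y - 6 * X) * ω X Y| ≤ 6 * b * (1 + A * b) := by
        rw [abs_mul]
        gcongr
        linarith
      have h5 : |(X ^ 2 - 6 * X * Y + Y ^ 2) * ω' X Y| ≤ b ^ 2 * A := by
        rw [abs_mul]
        gcongr
        exact h2.trans h3
      have h6 : 0 ≤ b ^ 2 * (1 + A * b) := by positivity
      calc |HK' ω ω' X Y| ≤ |(2 * Y - 6 * X) * ω X Y| + |(X ^ 2 - 6 * X * Y + Y ^ 2) * ω' X Y| :=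
            abs_add_le _ _
        _ ≤ _ := by nlinarith
  deriv := by
    intro X Y hX hY hXY
    have h1 := h.deriv X Y hX hY hXY
    have h2 : HasDerivAt (fun Y : ℝ => X ^ 2 - 6 * X * Y + Y ^ 2) (2 * Y - 6 * X) Y := by
      have h3 := (((hasDerivAt_const Y (X ^ 2)).sub ((hasDerivAt_id Y).const_mul (6 * X))).add
        ((hasDerivAt_id Y).pow 2))
      refine h3.congr_deriv ?_
      simp only [id]
      push_cast
      ring
    exact h2.mul h1
  cont := by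
    intro X hX hXb
    exact (ContinuousOn.mul (by fun_prop) (h.cont hX)).add
      (ContinuousOn.mul (by fun_prop) (h.cont' X hX hXb))

theorem HK_zero (s : ℝ) : HK ω s 0 = s ^ 2 * ω s 0 := by
  simp [HK]

theorem WT.diagH (h : WT b A c ω ω') : ContinuousOn (fun s => HK ω s 0) (Ioc 0 b) := by
  have : (fun s => HK ω s 0) = fun s => s ^ 2 * ω s 0 := by
    funext s; exact HK_zero s
  rw [this]
  exact ContinuousOn.mul (by fun_prop) h.diag

theorem int_sin2 : ∫ θ in Ioo 0 (π / 2), sin θ ^ 2 = π / 4 := by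
  rw [← integral_Ioc_eq_integral_Ioo, ← intervalIntegral.integral_of_le (by positivity),
    integral_sin_sq]
  simp
  ring

theorem int_sin4 : ∫ θ in Ioo 0 (π / 2), sin θ ^ 4 = 3 * π / 16 := by
  rw [← integral_Ioc_eq_integral_Ioo, ← intervalIntegral.integral_of_le (by positivity),
    integral_sin_pow (n := 2), integral_sin_sq]
  simp
  ring

theorem int_base (X D : ℝ) :
    ∫ θ in Ioo 0 (π / 2), 2 * sin θ ^ 2 * (2 * (D * sin θ ^ 2) - 6 * X) =
      π * (3 * D / 4 - 3 * X) := by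
  have hi2 : IntegrableOn (fun θ => sin θ ^ 2) (Ioo 0 (π / 2)) :=
    (Continuous.integrableOn_Icc (by fun_prop)).mono_set Ioo_subset_Icc_self
  have hi4 : IntegrableOn (fun θ => sin θ ^ 4) (Ioo 0 (π / 2)) :=
    (Continuous.integrableOn_Icc (by fun_prop)).mono_set Ioo_subset_Icc_self
  have e : ∀ θ : ℝ, 2 * sin θ ^ 2 * (2 * (D * sin θ ^ 2) - 6 * X) =
      4 * D * sin θ ^ 4 - 12 * X * sin θ ^ 2 := fun θ => by ring
  simp only [e]
  rw [integral_sub (hi4.const_mul _) (hi2.const_mul _), integral_const_mul, integral_const_mul,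
    int_sin2, int_sin4]
  ring

/-- the remainder -/
noncomputable def JW (ω ω' : ℝ → ℝ → ℝ) (X σ : ℝ) : ℝ :=
  ∫ θ in Ioo 0 (π / 2), 2 * sin θ ^ 2 *
    ((2 * ((σ - X) * sin θ ^ 2) - 6 * X) * (ω X ((σ - X) * sin θ ^ 2) - ω σ 0) +
      (X ^ 2 - 6 * X * ((σ - X) * sin θ ^ 2) + ((σ - X) * sin θ ^ 2) ^ 2) *
        ω' X ((σ - X) * sin θ ^ 2))

theorem WT.kd_split (h : WT b A c ω ω') (hb : 0 < b) {X σ : ℝ} (hX : 0 < X) (hXσ : X < σ)
    (hσ : σ ≤ b) :
    kd (HK' ω ω') X (σ - X) = JW ω ω' X σ + ω σ 0 * (π * (3 * (σ - X) / 4 - 3 * X)) := by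
  have hi1 : IntegrableOn (fun θ => 2 * sin θ ^ 2 * HK' ω ω' X ((σ - X) * sin θ ^ 2))
      (Ioo 0 (π / 2)) := by
    refine Integrable.mono' (g := fun _ => 2 * ((6 * b + b ^ 2) * (1 + A * b) + b ^ 2 * A))
      (integrableOn_const (by simp)) ?_ ?_
    · have : Measurable fun θ : ℝ => Function.uncurry (HK' ω ω') (X, (σ - X) * sin θ ^ 2) :=
        (h.dk hb).bk'.meas.comp (by fun_prop)
      exact (Measurable.mul (by fun_prop) this).aestronglyMeasurable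
    · exact Eventually.of_forall fun θ =>
        kd_integrand_le (h.dk hb).bk' hX (by linarith) (by linarith) θ
  have hi2 : IntegrableOn (fun θ => ω σ 0 *
      (2 * sin θ ^ 2 * (2 * ((σ - X) * sin θ ^ 2) - 6 * X))) (Ioo 0 (π / 2)) :=
    (Continuous.integrableOn_Icc (by fun_prop)).mono_set Ioo_subset_Icc_self
  have e : ∀ θ : ℝ, 2 * sin θ ^ 2 *
    ((2 * ((σ - X) * sin θ ^ 2) - 6 * X) * (ω X ((σ - X) * sin θ ^ 2) - ω σ 0) +
      (X ^ 2 - 6 * X * ((σ - X) * sin θ ^ 2) + ((σ - X) * sin θ ^ 2) ^ 2) *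
        ω' X ((σ - X) * sin θ ^ 2)) =
      2 * sin θ ^ 2 * HK' ω ω' X ((σ - X) * sin θ ^ 2) -
      ω σ 0 * (2 * sin θ ^ 2 * (2 * ((σ - X) * sin θ ^ 2) - 6 * X)) := fun θ => by
    rw [HK']; ring
  rw [JW]
  simp only [e]
  rw [integral_sub hi1 hi2, integral_const_mul, int_base, kd]
  ring

theorem mW_eq (h : WT b A c ω ω') (hb : 0 < b) (hc : 0 < c) {X σ : ℝ} (hX : 0 < X) (hXσ : X < σ)
    (hσ : σ ≤ b) : mW ω ω' X σ = - (JW ω ω' X σ / (π * (σ ^ 2 * ω σ 0))) := by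
  have hσ0 : 0 < σ := lt_trans hX hXσ
  have hw : 0 < ω σ 0 := lt_of_lt_of_le hc (h.low σ hσ0 hσ)
  have hp := pi_pos
  rw [mW, h.kd_split hb hX hXσ hσ]
  field_simp
  ring

theorem JW_le (h : WT b A c ω ω') (hb : 0 < b) {X σ : ℝ} (hX : 0 < X) (hXσ : X < σ)
    (hσ : σ ≤ b) : |JW ω ω' X σ| ≤ π * (13 * A * σ ^ 2) := by
  have hA := h.A_nonneg hb
  have hσ0 : 0 < σ := lt_trans hX hXσ
  have h2 := norm_setIntegral_le_of_norm_le_const (μ := volume) (s := Ioo 0 (π / 2))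
    (C := 2 * (13 * A * σ ^ 2))
    (f := fun θ => 2 * sin θ ^ 2 *
    ((2 * ((σ - X) * sin θ ^ 2) - 6 * X) * (ω X ((σ - X) * sin θ ^ 2) - ω σ 0) +
      (X ^ 2 - 6 * X * ((σ - X) * sin θ ^ 2) + ((σ - X) * sin θ ^ 2) ^ 2) *
        ω' X ((σ - X) * sin θ ^ 2))) (by simp) (fun θ _ => ?_)
  · rw [vol_half_pi] at h2
    rw [JW, ← Real.norm_eq_abs]
    refine h2.trans (le_of_eq ?_)
    ring
  · set Y := (σ - X) * sin θ ^ 2 with hY
    have h1 : 0 ≤ Y ∧ Y ≤ σ - X := sinsq_le (by linarith) θ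
    have hXY : X + Y ≤ σ := by linarith
    have h3 := sin_sq_le_one θ
    have h4 : 0 ≤ sin θ ^ 2 := sq_nonneg _
    have h5 := quad_le hX.le h1.1
    have h6 := lin_le hX.le h1.1
    have h7 : |ω X Y - ω σ 0| ≤ 2 * A * σ := by
      have a1 := h.near X Y hX h1.1 (by linarith)
      have a2 := h.near σ 0 hσ0 le_rfl (by linarith)
      rw [add_zero] at a2
      have a3 : |ω X Y - ω σ 0| ≤ |ω X Y - 1| + |ω σ 0 - 1| := by
        rw [show ω X Y - ω σ 0 = (ω X Y - 1) - (ω σ 0 - 1) by ring]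
        exact abs_sub _ _
      have a4 : A * (X + Y) ≤ A * σ := by gcongr
      linarith
    have h8 := h.bd' X Y hX h1.1 (by linarith)
    have h9 : (X + Y) ^ 2 ≤ σ ^ 2 := by
      have := h1.1
      gcongr
    have h10 : |(2 * Y - 6 * X) * (ω X Y - ω σ 0)| ≤ 6 * σ * (2 * A * σ) := by
      rw [abs_mul]
      gcongr
      linarith
    have h11 : |(X ^ 2 - 6 * X * Y + Y ^ 2) * ω' X Y| ≤ σ ^ 2 * A := by
      rw [abs_mul]
      gcongr
      exact h5.trans h9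
    have h12 : |(2 * Y - 6 * X) * (ω X Y - ω σ 0) + (X ^ 2 - 6 * X * Y + Y ^ 2) * ω' X Y| ≤
        13 * A * σ ^ 2 := by
      refine (abs_add_le _ _).trans ?_
      calc _ ≤ 6 * σ * (2 * A * σ) + σ ^ 2 * A := add_le_add h10 h11
        _ = _ := by ring
    rw [norm_mul, Real.norm_eq_abs, Real.norm_eq_abs, abs_of_nonneg (by positivity)]
    calc 2 * sin θ ^ 2 * |(2 * Y - 6 * X) * (ω X Y - ω σ 0) +
          (X ^ 2 - 6 * X * Y + Y ^ 2) * ω' X Y| ≤ 2 * 1 * (13 * A * σ ^ 2) := by gcongr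
      _ = _ := by ring

theorem WT.toMK (h : WT b A c ω ω') (hb : 0 < b) (hc : 0 < c) : MK b (13 * A / c) (mW ω ω') where
  meas := by
    have h1 : Measurable (Function.uncurry (mk0 (HK' ω ω'))) := (mk0_MK (h.dk hb)).meas
    have h2 : Measurable fun p : ℝ × ℝ => ω p.2 0 := by
      have : Measurable fun p : ℝ × ℝ => Function.uncurry ω (p.2, 0) := h.meas.comp (by fun_prop)
      exact this
    have h3 : Measurable fun p : ℝ × ℝ => (6 * p.2 - 30 * p.1) / (8 * p.2 ^ 2) := by fun_prop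
    exact h3.sub (h1.div (Measurable.mul measurable_const (Measurable.mul (by fun_prop) h2)))
  bd := by
    intro X σ hX hXσ hσ
    have hσ0 : 0 < σ := lt_trans hX hXσ
    have hw : c ≤ ω σ 0 := h.low σ hσ0 hσ
    have hw0 : 0 < ω σ 0 := lt_of_lt_of_le hc hw
    have hp := pi_pos
    have hA := h.A_nonneg hb
    rw [mW_eq h hb hc hX hXσ hσ, abs_neg, abs_div, abs_of_pos (by positivity : 0 < π * (σ ^ 2 * ω σ 0))]
    have h1 := JW_le h hb hX hXσ hσ
    calc |JW ω ω' X σ| / (π * (σ ^ 2 * ω σ 0)) ≤ π * (13 * A * σ ^ 2) / (π * (σ ^ 2 * c)) := by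
          gcongr
      _ = 13 * A / c := by field_simp
  cont := by
    intro X hX
    rcases le_or_gt X b with hXb | hXb
    · have h1 := (mk0_MK (h.dk hb)).cont X hX
      have hs : Ioc X b ⊆ Ioc 0 b := Ioc_subset_Ioc_left hX.le
      refine ContinuousOn.sub ?_ ?_
      · refine ContinuousOn.div (by fun_prop) (by fun_prop) (fun σ hσ => ?_)
        have : 0 < σ := lt_trans hX hσ.1
        positivity
      · refine ContinuousOn.div h1 ?_ (fun σ hσ => ?_)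
        · exact continuousOn_const.mul (ContinuousOn.mul (by fun_prop) (h.diag.mono hs))
        · have h2 : 0 < σ := lt_trans hX hσ.1
          have h3 := lt_of_lt_of_le hc (h.low σ h2 hσ.2)
          have hp := pi_pos
          positivity
    · rw [Ioc_eq_empty (by linarith)]
      exact continuousOn_empty _

/-- the differentiated equation in terms of the Volterra equation -/
theorem RR_mW (h : WT b A c ω ω') (hb : 0 < b) {G : ℝ → ℝ}
    (hG : IntegrableOn G (Ioo 0 b)) {σ : ℝ} (hσ : σ ∈ Ioc 0 b) :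
    -(3 / 4) / σ * (∫ X in (0 : ℝ)..σ, G X) +
    15 / 4 / σ ^ 2 * (∫ X in (0 : ℝ)..σ, X * G X) + RR (mW ω ω') G σ =
      - (RR (mk0 (HK' ω ω')) G σ / (π * (σ ^ 2 * ω σ 0))) := by
  have hGσ : IntegrableOn G (Ioo 0 σ) := hG.mono_set (Ioo_subset_Ioo_right hσ.2)
  have hXG : IntegrableOn (fun X => X * G X) (Ioo 0 σ) := by
    refine Integrable.bdd_mul hGσ (Continuous.aestronglyMeasurable (by fun_prop)) (c := σ) ?_
    refine (ae_restrict_iff' measurableSet_Ioo).mpr (Eventually.of_forall fun X hX => ?_)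
    rw [Real.norm_of_nonneg hX.1.le]
    exact hX.2.le
  have h1 : IntegrableOn (fun X => mk0 (HK' ω ω') X σ * G X) (Ioo 0 σ) :=
    (mk0_MK (h.dk hb)).integrable hG hσ.2
  have e : ∀ X : ℝ, mW ω ω' X σ * G X = ((3 / 4) / σ * G X - 15 / 4 / σ ^ 2 * (X * G X)) -
      (π * (σ ^ 2 * ω σ 0))⁻¹ * (mk0 (HK' ω ω') X σ * G X) := by
    intro X
    have hσ0 := hσ.1
    rw [mW, mk0, div_eq_mul_inv (kd (HK' ω ω') X (σ - X))]
    have : (6 * σ - 30 * X) / (8 * σ ^ 2) = 3 / 4 / σ - 15 / 4 / σ ^ 2 * X := by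
      field_simp
      ring
    rw [this]
    ring
  have h2 : RR (mW ω ω') G σ = ((3 / 4) / σ * (∫ X in Ioo 0 σ, G X) -
      15 / 4 / σ ^ 2 * (∫ X in Ioo 0 σ, X * G X)) -
      (π * (σ ^ 2 * ω σ 0))⁻¹ * RR (mk0 (HK' ω ω')) G σ := by
    rw [RR]
    simp only [e]
    have h3 : IntegrableOn (fun X => 3 / 4 / σ * G X - 15 / 4 / σ ^ 2 * (X * G X)) (Ioo 0 σ) :=
      (hGσ.const_mul _).sub (hXG.const_mul _)
    rw [integral_sub h3 (h1.const_mul _),
      integral_sub (hGσ.const_mul _) (hXG.const_mul _), integral_const_mul, integral_const_mul,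
      integral_const_mul, ← RR]
  rw [h2, intervalIntegral.integral_of_le hσ.1.le, intervalIntegral.integral_of_le hσ.1.le,
    integral_Ioc_eq_integral_Ioo, integral_Ioc_eq_integral_Ioo]
  ring

/-- solutions of `T G = 0` on `(0,b)` -/
structure SolW (b : ℝ) (ω : ℝ → ℝ → ℝ) (G : ℝ → ℝ) : Prop where
  cont : ContinuousOn G (Ioc 0 b)
  int : IntegrableOn G (Ioo 0 b)
  eq : ∀ᵐ s ∂(volume.restrict (Ioo (0 : ℝ) b)), TG (HK ω) G s = 0

theorem SolW.sv (h : WT b A c ω ω') (hb : 0 < b) (hc : 0 < c) {G : ℝ → ℝ} (hG : SolW b ω G) :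
    SVsol b (mW ω ω') G where
  cont := hG.cont
  int := hG.int
  eq := by
    intro σ hσ
    have h1 := VV_zero hb (h.dk hb) hG.int hG.cont h.diagH hG.eq σ hσ
    rw [RR_mW h hb hG.int hσ]
    rw [VV, HK_zero] at h1
    have hw : 0 < ω σ 0 := lt_of_lt_of_le hc (h.low σ hσ.1 hσ.2)
    have hσ0 := hσ.1
    have hp := pi_pos
    have h2 : RR (mk0 (HK' ω ω')) G σ = -(π * (σ ^ 2 * ω σ 0) * G σ) := by linarith
    rw [h2]
    field_simp

theorem SVsol.solW (h : WT b A c ω ω') (hb : 0 < b) (hc : 0 < c) {G : ℝ → ℝ}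
    (hG : SVsol b (mW ω ω') G) : SolW b ω G where
  cont := hG.cont
  int := hG.int
  eq := by
    refine TG_zero hb (h.dk hb) hG.int (fun σ hσ => ?_)
    have h1 := hG.eq σ ⟨hσ.1, hσ.2.le⟩
    rw [RR_mW h hb hG.int ⟨hσ.1, hσ.2.le⟩] at h1
    have hw : 0 < ω σ 0 := lt_of_lt_of_le hc (h.low σ hσ.1 hσ.2.le)
    have hσ0 := hσ.1
    have hp := pi_pos
    rw [VV, HK_zero, h1]
    field_simp
    ring

end Pool.Agent.Lib.MP_85963d_gt.H87
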