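import Pool.Agent.Lib.MP_85963d_gt.H87.AB4

/-!
# Section 7 (helper87): continuity of the solutions in the weight
-/

open MeasureTheory Set Filter Topology Real

namespace Pool.Agent.Lib.MP_85963d_gt.H87

variable {b A c : ℝ} {ω ω' ω₁ ω₁' : ℝ → ℝ → ℝ}

/-- the integrand of `JW` -/
noncomputable def jW (ω ω' : ℝ → ℝ → ℝ) (X σ Y : ℝ) : ℝ :=
  (2 * Y - 6 * X) * (ω X Y - ω σ 0) + (X ^ 2 - 6 * X * Y + Y ^ 2) * ω' X Y

theorem JW_int (h : WT b A c ω ω') (hb : 0 < b) {X σ : ℝ} (hX : 0 < X) (hXσ : X < σ)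
    (hσ : σ ≤ b) :
    IntegrableOn (fun θ => 2 * sin θ ^ 2 * jW ω ω' X σ ((σ - X) * sin θ ^ 2)) (Ioo 0 (π / 2)) := by
  have hi1 : IntegrableOn (fun θ => 2 * sin θ ^ 2 * HK' ω ω' X ((σ - X) * sin θ ^ 2))
      (Ioo 0 (π / 2)) := by
    refine Integrable.mono' (g := fun _ => 2 * ((6 * b + b ^ 2) * (1 + A * b) + b ^ 2 * A))
      (integrableOn_const (by simp)) ?_ ?_
    · have : Measurable fun θ : ℝ => Function.uncurry (HK' ω ω') (X, (σ - X) * sin θ ^ 2) :=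
        (h.dk hb).bk'.meas.comp (by fun_prop)
      exact (Measurable.mul (by fun_prop) this).aestronglyMeasurable
    · exact Eventually.of_forall fun θ =>
        kd_integrand_le (h.dk hb).bk' hX (by linarith) (by linarith) θ
  have hi2 : IntegrableOn (fun θ => ω σ 0 *
      (2 * sin θ ^ 2 * (2 * ((σ - X) * sin θ ^ 2) - 6 * X))) (Ioo 0 (π / 2)) :=
    (Continuous.integrableOn_Icc (by fun_prop)).mono_set Ioo_subset_Icc_self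
  refine (hi1.sub hi2).congr (Eventually.of_forall fun θ => ?_)
  simp only [Pi.sub_apply, HK', jW]
  ring

theorem JW_diff (h : WT b A c ω ω') (h₁ : WT b A c ω₁ ω₁') (hb : 0 < b) {η : ℝ → ℝ} {ε : ℝ}
    (d1 : ∀ X Y, 0 < X → 0 ≤ Y → X + Y ≤ b → |ω₁ X Y - ω X Y| ≤ (X + Y) * η X)
    (d2 : ∀ X Y, 0 < X → 0 ≤ Y → X + Y ≤ b → |ω₁' X Y - ω' X Y| ≤ η X)
    (d3 : ∀ s ∈ Ioc (0 : ℝ) b, |ω₁ s 0 - ω s 0| ≤ s * ε)
    {X σ : ℝ} (hX : 0 < X) (hXσ : X < σ) (hσ : σ ≤ b) :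
    |JW ω₁ ω₁' X σ - JW ω ω' X σ| ≤ π * (σ ^ 2 * (7 * η X + 6 * ε)) := by
  have hσ0 : 0 < σ := lt_trans hX hXσ
  have i0 := JW_int h hb hX hXσ hσ
  have i1 := JW_int h₁ hb hX hXσ hσ
  have hη : 0 ≤ η X := (abs_nonneg _).trans (d2 X 0 hX le_rfl (by linarith))
  have hε : 0 ≤ ε := by
    have := (abs_nonneg _).trans (d3 σ ⟨hσ0, hσ⟩)
    by_contra hneg
    push Not at hneg
    nlinarith
  have e : JW ω₁ ω₁' X σ - JW ω ω' X σ = ∫ θ in Ioo 0 (π / 2),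
      (2 * sin θ ^ 2 * jW ω₁ ω₁' X σ ((σ - X) * sin θ ^ 2) -
        2 * sin θ ^ 2 * jW ω ω' X σ ((σ - X) * sin θ ^ 2)) := by
    rw [integral_sub i1 i0]
    rfl
  rw [e, ← Real.norm_eq_abs]
  have h2 := norm_setIntegral_le_of_norm_le_const (μ := volume) (s := Ioo 0 (π / 2))
    (C := 2 * (σ ^ 2 * (7 * η X + 6 * ε)))
    (f := fun θ => 2 * sin θ ^ 2 * jW ω₁ ω₁' X σ ((σ - X) * sin θ ^ 2) -
        2 * sin θ ^ 2 * jW ω ω' X σ ((σ - X) * sin θ ^ 2)) (by simp) (fun θ _ => ?_)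
  · rw [vol_half_pi] at h2
    refine h2.trans (le_of_eq ?_)
    ring
  · set Y := (σ - X) * sin θ ^ 2 with hY
    have h1 : 0 ≤ Y ∧ Y ≤ σ - X := sinsq_le (by linarith) θ
    have hXY : X + Y ≤ σ := by linarith
    have h3 := sin_sq_le_one θ
    have h4 : 0 ≤ sin θ ^ 2 := sq_nonneg _
    have h5 := quad_le hX.le h1.1
    have h6 := lin_le hX.le h1.1
    have h9 : (X + Y) ^ 2 ≤ σ ^ 2 := by
      have := h1.1
      gcongr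
    have a1 := d1 X Y hX h1.1 (by linarith)
    have a2 := d2 X Y hX h1.1 (by linarith)
    have a3 := d3 σ ⟨hσ0, hσ⟩
    have a4 : |(ω₁ X Y - ω X Y) - (ω₁ σ 0 - ω σ 0)| ≤ σ * η X + σ * ε := by
      refine (abs_sub _ _).trans ?_
      have : (X + Y) * η X ≤ σ * η X := by gcongr
      linarith
    have a5 : |(2 * Y - 6 * X) * ((ω₁ X Y - ω X Y) - (ω₁ σ 0 - ω σ 0))| ≤
        6 * σ * (σ * η X + σ * ε) := by
      rw [abs_mul]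
      gcongr
      linarith
    have a6 : |(X ^ 2 - 6 * X * Y + Y ^ 2) * (ω₁' X Y - ω' X Y)| ≤ σ ^ 2 * η X := by
      rw [abs_mul]
      gcongr
      exact h5.trans h9
    have a7 : |jW ω₁ ω₁' X σ Y - jW ω ω' X σ Y| ≤ σ ^ 2 * (7 * η X + 6 * ε) := by
      have : jW ω₁ ω₁' X σ Y - jW ω ω' X σ Y =
          (2 * Y - 6 * X) * ((ω₁ X Y - ω X Y) - (ω₁ σ 0 - ω σ 0)) +
          (X ^ 2 - 6 * X * Y + Y ^ 2) * (ω₁' X Y - ω' X Y) := by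
        rw [jW, jW]; ring
      rw [this]
      refine (abs_add_le _ _).trans ?_
      calc _ ≤ 6 * σ * (σ * η X + σ * ε) + σ ^ 2 * η X := add_le_add a5 a6
        _ = _ := by ring
    rw [← mul_sub, norm_mul, Real.norm_eq_abs, Real.norm_eq_abs, abs_of_nonneg (by positivity)]
    calc 2 * sin θ ^ 2 * |jW ω₁ ω₁' X σ Y - jW ω ω' X σ Y| ≤
        2 * 1 * (σ ^ 2 * (7 * η X + 6 * ε)) := by gcongr
      _ = _ := by ring

theorem mW_diff (h : WT b A c ω ω') (h₁ : WT b A c ω₁ ω₁') (hb : 0 < b) (hc : 0 < c)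
    {η : ℝ → ℝ} {ε : ℝ}
    (d1 : ∀ X Y, 0 < X → 0 ≤ Y → X + Y ≤ b → |ω₁ X Y - ω X Y| ≤ (X + Y) * η X)
    (d2 : ∀ X Y, 0 < X → 0 ≤ Y → X + Y ≤ b → |ω₁' X Y - ω' X Y| ≤ η X)
    (d3 : ∀ s ∈ Ioc (0 : ℝ) b, |ω₁ s 0 - ω s 0| ≤ s * ε)
    {X σ : ℝ} (hX : 0 < X) (hXσ : X < σ) (hσ : σ ≤ b) :
    |mW ω₁ ω₁' X σ - mW ω ω' X σ| ≤ 7 / c * η X + (6 / c + 13 * A * b / c ^ 2) * ε := by
  have hσ0 : 0 < σ := lt_trans hX hXσ
  have hA := h.A_nonneg hb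
  have hp := pi_pos
  have w0 := h.low σ hσ0 hσ
  have w1 := h₁.low σ hσ0 hσ
  have w0p := lt_of_lt_of_le hc w0
  have w1p := lt_of_lt_of_le hc w1
  have hη : 0 ≤ η X := (abs_nonneg _).trans (d2 X 0 hX le_rfl (by linarith))
  have a3 := d3 σ ⟨hσ0, hσ⟩
  have hε : 0 ≤ ε := by
    have := (abs_nonneg _).trans a3
    by_contra hneg
    push Not at hneg
    nlinarith
  have hJ := JW_diff h h₁ hb d1 d2 d3 hX hXσ hσ
  have hJ0 := JW_le h hb hX hXσ hσ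
  set J1 := JW ω₁ ω₁' X σ
  set J0 := JW ω ω' X σ
  set u1 := ω₁ σ 0
  set u0 := ω σ 0
  have key : mW ω₁ ω₁' X σ - mW ω ω' X σ =
      -((J1 - J0) / (π * (σ ^ 2 * u1))) + J0 * (u1 - u0) / (π * (σ ^ 2 * (u0 * u1))) := by
    rw [mW_eq h hb hc hX hXσ hσ, mW_eq h₁ hb hc hX hXσ hσ]
    show -(J1 / (π * (σ ^ 2 * u1))) - -(J0 / (π * (σ ^ 2 * u0))) = _
    field_simp
    ring
  rw [key]
  refine (abs_add_le _ _).trans ?_
  have b1 : |-((J1 - J0) / (π * (σ ^ 2 * u1)))| ≤ (7 * η X + 6 * ε) / c := by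
    rw [abs_neg, abs_div, abs_of_pos (by positivity : 0 < π * (σ ^ 2 * u1))]
    calc |J1 - J0| / (π * (σ ^ 2 * u1)) ≤ π * (σ ^ 2 * (7 * η X + 6 * ε)) / (π * (σ ^ 2 * c)) := by
          gcongr
      _ = _ := by field_simp
  have b2 : |J0 * (u1 - u0) / (π * (σ ^ 2 * (u0 * u1)))| ≤ 13 * A * b / c ^ 2 * ε := by
    rw [abs_div, abs_mul, abs_of_pos (by positivity : 0 < π * (σ ^ 2 * (u0 * u1)))]
    calc |J0| * |u1 - u0| / (π * (σ ^ 2 * (u0 * u1))) ≤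
        π * (13 * A * σ ^ 2) * (b * ε) / (π * (σ ^ 2 * (c * c))) := by
          gcongr
          exact a3.trans (by gcongr)
      _ = _ := by field_simp
  calc _ ≤ (7 * η X + 6 * ε) / c + 13 * A * b / c ^ 2 * ε := add_le_add b1 b2
    _ = _ := by ring

/-- Continuity of the solutions in the weight. -/
theorem cont_dep (h : WT b A c ω ω') (hb : 0 < b) (hc : 0 < c) {x : ℝ} (hx : 0 < x) (hxb : x ≤ b)
    {G : ℝ → ℝ} (hG : SolW b ω G) :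
    ∃ K : ℝ, 0 ≤ K ∧ ∀ (ω₁ ω₁' : ℝ → ℝ → ℝ) (G₁ η : ℝ → ℝ) (ε : ℝ), WT b A c ω₁ ω₁' →
      SolW b ω₁ G₁ → (∀ X ∈ Ioc (0 : ℝ) x, G₁ X = G X) →
      (∀ X Y, 0 < X → 0 ≤ Y → X + Y ≤ x → ω₁ X Y = ω X Y ∧ ω₁' X Y = ω' X Y) →
      0 ≤ ε → IntegrableOn η (Ioo 0 b) → (∀ X ∈ Ioo (0 : ℝ) b, 0 ≤ η X) →
      (∀ X ∈ Ioo (0 : ℝ) b, X < x → η X ≤ ε) → ∫ X in Ioo (0 : ℝ) b, η X ≤ ε →
      (∀ X Y, 0 < X → 0 ≤ Y → X + Y ≤ b → |ω₁ X Y - ω X Y| ≤ (X + Y) * η X) →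
      (∀ X Y, 0 < X → 0 ≤ Y → X + Y ≤ b → |ω₁' X Y - ω' X Y| ≤ η X) →
      (∀ s ∈ Ioc (0 : ℝ) b, |ω₁ s 0 - ω s 0| ≤ s * ε) →
      ∀ X ∈ Ioc (0 : ℝ) b, |G₁ X - G X| ≤ K * ε / √X := by
  have hm := h.toMK hb hc
  have hC := hm.C_nonneg hb
  have hA := h.A_nonneg hb
  obtain ⟨δ, hδ, hδx, hδs⟩ := exists_delta _ hC hx
  have hδb := hδx.trans hxb
  obtain ⟨α, β, g, hg, -, hGg, hfix⟩ := fix_of_sv hm hC hδ hδb (hG.sv h hb hc)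
  obtain ⟨K, hK, hst⟩ := stab hm hδ hδb hδs hg hx hfix
  set P : ℝ := 7 / c + (6 / c + 13 * A * b / c ^ 2) with hP
  have hP7 : 0 ≤ 7 / c := by positivity
  have hP6 : 0 ≤ 6 / c + 13 * A * b / c ^ 2 := by positivity
  have hP0 : 0 ≤ P := by positivity
  refine ⟨K * P, by positivity, ?_⟩
  intro ω₁ ω₁' G₁ η ε h₁ hG₁ hGG hωω hε hηi hη0 hηx hηI d1 d2 d3 X hX
  have hm₁ := h₁.toMK hb hc
  obtain ⟨α₁, β₁, g₁, hg₁, -, hGg₁, hfix₁⟩ := fix_of_sv hm₁ hC hδ hδb (hG₁.sv h₁ hb hc)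
  have heq : ∀ X ∈ Ioc (0 : ℝ) x, g₁ X = g X := by
    intro X hX
    have hs : √X ≠ 0 := (Real.sqrt_pos.mpr hX.1).ne'
    have a1 := hGg₁ X ⟨hX.1, hX.2.trans hxb⟩
    have a2 := hGg X ⟨hX.1, hX.2.trans hxb⟩
    have a3 := hGG X hX
    rw [a1, a2] at a3
    field_simp at a3
    exact a3
  have hmm : ∀ X σ, 0 < X → X < σ → σ ≤ x → mW ω₁ ω₁' X σ = mW ω ω' X σ := by
    intro X σ hX hXσ hσ
    rw [mW, mW, (hωω σ 0 (lt_trans hX hXσ) le_rfl (by linarith)).1]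
    congr 2
    rw [kd, kd]
    refine setIntegral_congr_fun measurableSet_Ioo (fun θ _ => ?_)
    have h1 := sinsq_le (D := σ - X) (by linarith) θ
    have h2 := hωω X ((σ - X) * sin θ ^ 2) hX h1.1 (by linarith)
    simp only [HK']
    rw [h2.1, h2.2]
  obtain ⟨ea, eb⟩ := data_local hx hδx hmm heq
    (fun σ hσ => hfix₁ σ ⟨hσ.1, hσ.2.trans hxb⟩) (fun σ hσ => hfix σ ⟨hσ.1, hσ.2.trans hxb⟩)
  subst ea eb
  have hst1 := hst (mW ω₁ ω₁') g₁ (fun X => 7 / c * η X) (P * ε) hm₁ hg₁ hfix₁ (by positivity)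
    (hηi.const_mul _) (fun X hX => mul_nonneg hP7 (hη0 X hX)) (fun X hX hXx => ?_) ?_ ?_
    X ⟨hX.1.le, hX.2⟩
  · rw [hGg₁ X hX, hGg X hX, ← sub_div, abs_div, abs_of_nonneg (Real.sqrt_nonneg X)]
    have : K * P * ε = K * (P * ε) := by ring
    rw [this]
    gcongr
  · have := hηx X hX hXx
    calc 7 / c * η X ≤ 7 / c * ε := by gcongr
      _ ≤ P * ε := by
          gcongr
          rw [hP]; linarith
  · rw [integral_const_mul]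
    calc 7 / c * ∫ X in Ioo (0 : ℝ) b, η X ≤ 7 / c * ε := by gcongr
      _ ≤ P * ε := by
          gcongr
          rw [hP]; linarith
  · intro X σ hX hXσ hσ
    refine (mW_diff h h₁ hb hc d1 d2 d3 hX hXσ hσ).trans ?_
    have : (6 / c + 13 * A * b / c ^ 2) * ε ≤ P * ε := by
      gcongr
      rw [hP]; linarith
    linarith

/-- sequence form -/
theorem cont_seq (h : WT b A c ω ω') (hb : 0 < b) (hc : 0 < c) {x : ℝ} (hx : 0 < x) (hxb : x ≤ b)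
    {G : ℝ → ℝ} (hG : SolW b ω G) {ωn ωn' : ℕ → ℝ → ℝ → ℝ} {Gn ηn : ℕ → ℝ → ℝ} {εn : ℕ → ℝ}
    (hn : ∀ n, WT b A c (ωn n) (ωn' n)) (hGn : ∀ n, SolW b (ωn n) (Gn n))
    (hGG : ∀ n, ∀ X ∈ Ioc (0 : ℝ) x, Gn n X = G X)
    (hωω : ∀ n, ∀ X Y, 0 < X → 0 ≤ Y → X + Y ≤ x → ωn n X Y = ω X Y ∧ ωn' n X Y = ω' X Y)
    (hηi : ∀ n, IntegrableOn (ηn n) (Ioo 0 b)) (hη0 : ∀ n, ∀ X ∈ Ioo (0 : ℝ) b, 0 ≤ ηn n X)
    (hηx : ∀ n, ∀ X ∈ Ioo (0 : ℝ) b, X < x → ηn n X ≤ εn n)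
    (hηI : ∀ n, ∫ X in Ioo (0 : ℝ) b, ηn n X ≤ εn n)
    (d1 : ∀ n, ∀ X Y, 0 < X → 0 ≤ Y → X + Y ≤ b → |ωn n X Y - ω X Y| ≤ (X + Y) * ηn n X)
    (d2 : ∀ n, ∀ X Y, 0 < X → 0 ≤ Y → X + Y ≤ b → |ωn' n X Y - ω' X Y| ≤ ηn n X)
    (d3 : ∀ n, ∀ s ∈ Ioc (0 : ℝ) b, |ωn n s 0 - ω s 0| ≤ s * εn n)
    (hε : Tendsto εn atTop (𝓝 0)) :
    (∀ X ∈ Ioc (0 : ℝ) b, Tendsto (fun n => Gn n X) atTop (𝓝 (G X))) ∧
    ∃ K : ℝ, 0 ≤ K ∧ ∀ n, ∀ X ∈ Ioc (0 : ℝ) b, |Gn n X| ≤ K / √X := by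
  obtain ⟨K, hK, hst⟩ := cont_dep h hb hc hx hxb hG
  have hε0 : ∀ n, 0 ≤ εn n := fun n =>
    (setIntegral_nonneg measurableSet_Ioo (hη0 n)).trans (hηI n)
  have hdiff : ∀ n, ∀ X ∈ Ioc (0 : ℝ) b, |Gn n X - G X| ≤ K * εn n / √X := fun n =>
    hst (ωn n) (ωn' n) (Gn n) (ηn n) (εn n) (hn n) (hGn n) (hGG n) (hωω n) (hε0 n) (hηi n)
      (hη0 n) (hηx n) (hηI n) (d1 n) (d2 n) (d3 n)
  constructor
  · intro X hX
    rw [tendsto_iff_norm_sub_tendsto_zero]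
    have h1 : Tendsto (fun n => K * εn n / √X) atTop (𝓝 0) := by
      have := (hε.const_mul K).div_const (√X)
      simpa using this
    exact squeeze_zero (fun n => norm_nonneg _) (fun n => hdiff n X hX) h1
  · obtain ⟨g, -, -, K₀, hK₀, hb₀⟩ := hG.bound h hb hc
    obtain ⟨E, hE⟩ := hε.bddAbove_range
    have hE' : ∀ n, εn n ≤ E := fun n => hE ⟨n, rfl⟩
    have hE0 : 0 ≤ E := (hε0 0).trans (hE' 0)
    refine ⟨K * E + K₀, by positivity, fun n X hX => ?_⟩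
    have h1 := hdiff n X hX
    have h2 := hb₀ X hX
    have h3 : |Gn n X| ≤ |Gn n X - G X| + |G X| := by
      calc |Gn n X| = |(Gn n X - G X) + G X| := by rw [sub_add_cancel]
        _ ≤ _ := abs_add_le _ _
    have h4 : K * εn n / √X ≤ K * E / √X := by
      have := hE' n
      gcongr
    rw [add_div]
    linarith

end Pool.Agent.Lib.MP_85963d_gt.H87
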