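import Pool.Agent.Lib.MP_85963d_gt.H87.AB5
import Pool.Agent.Lib.MP_85963d_gt.H70.Bord2

/-!
# Section 7 for profiles (helper87): bridge to `TX`, `IsSol`, `om P Q S K`
-/

open MeasureTheory Set Filter Topology Real

namespace Pool.Agent.Lib.MP_85963d_gt.H87

open Pool.Agent.Lib.MP_85963d_gt.H70

/-! ### `TG` and `TX` -/

theorem cker_eq {X s : ℝ} (hs : 0 < s) :
    cker X s = 1 / s ^ 2 * ((X ^ 2 - 6 * X * (s - X) + (s - X) ^ 2) / √(s - X)) := by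
  have : 1 - 8 * X * (s - X) / s ^ 2 =
      1 / s ^ 2 * (X ^ 2 - 6 * X * (s - X) + (s - X) ^ 2) := by
    field_simp
    ring
  rw [cker, this]
  ring

theorem TX_eq {ω : ℝ → ℝ → ℝ} {G : ℝ → ℝ} {s : ℝ} (hs : 0 < s) :
    TX ω G s = 1 / s ^ 2 * TG (HK ω) G s := by
  rw [TX, TG, ← integral_const_mul]
  refine setIntegral_congr_fun measurableSet_Ioo (fun X _ => ?_)
  simp only [HK]
  rw [cker_eq hs]
  ring

theorem TX_smul {ω : ℝ → ℝ → ℝ} {G : ℝ → ℝ} {s k : ℝ} :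
    TX (fun X Y => k * ω X Y) G s = k * TX ω G s := by
  rw [TX, TX, ← integral_const_mul]
  refine setIntegral_congr_fun measurableSet_Ioo (fun X _ => ?_)
  ring

variable {b A c C p₀ : ℝ} {ω ω' : ℝ → ℝ → ℝ} {P Q S K : ℝ → ℝ}

theorem int_of_bd {G : ℝ → ℝ} (hb : 0 < b) (hc : ContinuousOn G (Ioc 0 b))
    (hbd : ∃ C, ∀ X ∈ Ioc 0 b, |G X| ≤ C / √X) : IntegrableOn G (Ioo 0 b) := by
  obtain ⟨C, hC⟩ := hbd
  refine Integrable.mono' ((int_inv_sqrt hb.le).1.const_mul C)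
    ((hc.mono Ioo_subset_Ioc_self).aestronglyMeasurable measurableSet_Ioo) ?_
  refine (ae_restrict_iff' measurableSet_Ioo).mpr (Eventually.of_forall fun X hX => ?_)
  rw [Real.norm_eq_abs]
  have := hC X ⟨hX.1, hX.2.le⟩
  rwa [mul_one_div]

theorem eq_iff {G : ℝ → ℝ} :
    (∀ᵐ s : ℝ, s ∈ Ioo 0 b → TX ω G s = 0) ↔
    ∀ᵐ s ∂(volume.restrict (Ioo (0 : ℝ) b)), TG (HK ω) G s = 0 := by
  rw [ae_restrict_iff' measurableSet_Ioo]
  refine ⟨fun h => ?_, fun h => ?_⟩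
  · filter_upwards [h] with s hs hsb
    have h1 := hs hsb
    rw [TX_eq hsb.1] at h1
    have h2 : (1 : ℝ) / s ^ 2 ≠ 0 := by have := hsb.1; positivity
    exact (mul_eq_zero.mp h1).resolve_left h2
  · filter_upwards [h] with s hs hsb
    rw [TX_eq hsb.1, hs hsb, mul_zero]

theorem solW_of_isSol {G : ℝ → ℝ} (hb : 0 < b) (h : IsSol ω b G) : SolW b ω G :=
  ⟨h.cont, int_of_bd hb h.cont h.bd, eq_iff.mp h.eq⟩

theorem SolW.isSol {G : ℝ → ℝ} (hw : WT b A c ω ω') (hb : 0 < b) (hc : 0 < c) (h : SolW b ω G) :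
    IsSol ω b G := by
  obtain ⟨-, -, -, K, -, hK⟩ := h.bound hw hb hc
  exact ⟨h.cont, ⟨K, hK⟩, eq_iff.mpr h.eq⟩

theorem isSol_smul {G : ℝ → ℝ} {k : ℝ} (hk : k ≠ 0) :
    IsSol (fun X Y => k * ω X Y) b G ↔ IsSol ω b G := by
  refine ⟨fun h => ⟨h.cont, h.bd, ?_⟩, fun h => ⟨h.cont, h.bd, ?_⟩⟩
  · filter_upwards [h.eq] with s hs hsb
    have := hs hsb
    rw [TX_smul] at this
    exact (mul_eq_zero.mp this).resolve_left hk
  · filter_upwards [h.eq] with s hs hsb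
    rw [TX_smul, hs hsb, mul_zero]

/-! ### the box -/

/-- `r(P,Q,S,K,Y)` -/
noncomputable def r5 (p : ℝ × ℝ × ℝ × ℝ × ℝ) : ℝ :=
  √(p.1 ^ 2 + p.2.2.2.2 * (p.2.1 ^ 2 + p.2.2.1 ^ 2))

/-- the weight as a function of `(P,Q,S,K,Y)` -/
noncomputable def F5 (p : ℝ × ℝ × ℝ × ℝ × ℝ) : ℝ :=
  (p.2.2.1 + p.2.2.2.2 * p.2.2.2.1) / r5 p ^ 3

/-- its derivative in `Y` -/
noncomputable def F5' (p : ℝ × ℝ × ℝ × ℝ × ℝ) : ℝ :=
  p.2.2.2.1 / r5 p ^ 3 -
    3 / 2 * ((p.2.2.1 + p.2.2.2.2 * p.2.2.2.1) * (p.2.1 ^ 2 + p.2.2.1 ^ 2)) / r5 p ^ 5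

/-- the box -/
def box5 (b c C : ℝ) : Set (ℝ × ℝ × ℝ × ℝ × ℝ) :=
  Icc c C ×ˢ Icc (-C) C ×ˢ Icc c C ×ˢ Icc (-C) C ×ˢ Icc 0 b

theorem box5_compact (b c C : ℝ) : IsCompact (box5 b c C) :=
  isCompact_Icc.prod (isCompact_Icc.prod (isCompact_Icc.prod (isCompact_Icc.prod isCompact_Icc)))

theorem box5_convex (b c C : ℝ) : Convex ℝ (box5 b c C) :=
  (convex_Icc _ _).prod ((convex_Icc _ _).prod ((convex_Icc _ _).prod
    ((convex_Icc _ _).prod (convex_Icc _ _))))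

theorem box5_q (hc : 0 < c) {p : ℝ × ℝ × ℝ × ℝ × ℝ} (hp : p ∈ box5 b c C) :
    0 < p.1 ^ 2 + p.2.2.2.2 * (p.2.1 ^ 2 + p.2.2.1 ^ 2) := by
  have h1 : c ≤ p.1 := hp.1.1
  have h2 : 0 ≤ p.2.2.2.2 := hp.2.2.2.2.1
  have h3 : 0 < p.1 := lt_of_lt_of_le hc h1
  have h4 : 0 ≤ p.2.2.2.2 * (p.2.1 ^ 2 + p.2.2.1 ^ 2) := by positivity
  have h5 : 0 < p.1 ^ 2 := by positivity
  linarith

theorem r5_pos (hc : 0 < c) {p : ℝ × ℝ × ℝ × ℝ × ℝ} (hp : p ∈ box5 b c C) : 0 < r5 p :=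
  Real.sqrt_pos.mpr (box5_q hc hp)

theorem r5_contDiff (hc : 0 < c) : ContDiffOn ℝ 1 r5 (box5 b c C) := by
  refine ContDiffOn.sqrt ?_ (fun p hp => (box5_q hc hp).ne')
  exact (ContDiff.contDiffOn (by fun_prop))

theorem F5_contDiff (hc : 0 < c) : ContDiffOn ℝ 1 F5 (box5 b c C) := by
  refine ContDiffOn.div (ContDiff.contDiffOn (by fun_prop)) ((r5_contDiff hc).pow 3)
    (fun p hp => ?_)
  have := r5_pos hc hp
  positivity

theorem F5'_contDiff (hc : 0 < c) : ContDiffOn ℝ 1 F5' (box5 b c C) := by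
  refine ContDiffOn.sub ?_ ?_
  · refine ContDiffOn.div (ContDiff.contDiffOn (by fun_prop)) ((r5_contDiff hc).pow 3)
      (fun p hp => ?_)
    have := r5_pos hc hp
    positivity
  · refine ContDiffOn.div (ContDiff.contDiffOn (by fun_prop)) ((r5_contDiff hc).pow 5)
      (fun p hp => ?_)
    have := r5_pos hc hp
    positivity

theorem lip_box {f : ℝ × ℝ × ℝ × ℝ × ℝ → ℝ} (hf : ContDiffOn ℝ 1 f (box5 b c C)) :
    ∃ L : ℝ, 0 ≤ L ∧ ∀ p ∈ box5 b c C, ∀ q ∈ box5 b c C, |f p - f q| ≤ L * ‖p - q‖ := by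
  obtain ⟨K, hK⟩ := (hf.locallyLipschitzOn (box5_convex b c C)).exists_lipschitzOnWith_of_compact
    (box5_compact b c C)
  refine ⟨K, K.2, fun p hp q hq => ?_⟩
  have := hK.dist_le_mul p hp q hq
  rwa [Real.dist_eq, dist_eq_norm] at this

/-! ### profile data -/

/-- profile data on `(0,√b]` -/
structure PD (b c C p₀ : ℝ) (P Q S K : ℝ → ℝ) : Prop where
  mP : Measurable P
  mQ : Measurable Q
  mS : Measurable S
  mK : Measurable K
  cP : ContinuousOn P (Ioc 0 (√b))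
  cS : ContinuousOn S (Ioc 0 (√b))
  p0 : c ≤ p₀ ∧ p₀ ≤ C
  bP : ∀ t ∈ Ioc 0 (√b), c ≤ P t ∧ P t ≤ C
  bS : ∀ t ∈ Ioc 0 (√b), c ≤ S t ∧ S t ≤ C
  bQ : ∀ t ∈ Ioc 0 (√b), |Q t| ≤ C
  bK : ∀ t ∈ Ioc 0 (√b), |K t| ≤ C
  nP : ∀ t ∈ Ioc 0 (√b), |P t - p₀| ≤ C * t ^ 2
  nS : ∀ t ∈ Ioc 0 (√b), |S t - p₀| ≤ C * t ^ 2

/-- the derivative of `om` in `Y` -/
noncomputable def om' (P Q S K : ℝ → ℝ) (X Y : ℝ) : ℝ :=
  F5' (P (√X), Q (√X), S (√X), K (√X), Y)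

theorem om_eq (P Q S K : ℝ → ℝ) (X Y : ℝ) :
    om P Q S K X Y = F5 (P (√X), Q (√X), S (√X), K (√X), Y) := rfl

theorem sqrt_mem {X : ℝ} (hX : 0 < X) (hXb : X ≤ b) : √X ∈ Ioc 0 (√b) :=
  ⟨Real.sqrt_pos.mpr hX, Real.sqrt_le_sqrt hXb⟩

theorem PD.mem_box (h : PD b c C p₀ P Q S K) {X Y : ℝ} (hX : 0 < X) (hY : 0 ≤ Y)
    (hXY : X + Y ≤ b) : (P (√X), Q (√X), S (√X), K (√X), Y) ∈ box5 b c C := by
  have ht := sqrt_mem (b := b) hX (by linarith)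
  exact ⟨h.bP _ ht, abs_le.mp (h.bQ _ ht), h.bS _ ht, abs_le.mp (h.bK _ ht), hY, by linarith⟩

theorem PD.C_pos (h : PD b c C p₀ P Q S K) (hc : 0 < c) : 0 < C :=
  lt_of_lt_of_le hc (h.p0.1.trans h.p0.2)

/-- derivative in `Y` -/
theorem F5_hasDerivAt {P Q S K Y : ℝ} (hq : 0 < P ^ 2 + Y * (Q ^ 2 + S ^ 2)) :
    HasDerivAt (fun Y => F5 (P, Q, S, K, Y)) (F5' (P, Q, S, K, Y)) Y := by
  have h1 : HasDerivAt (fun Y : ℝ => P ^ 2 + Y * (Q ^ 2 + S ^ 2)) (Q ^ 2 + S ^ 2) Y := by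
    have := ((hasDerivAt_id Y).mul_const (Q ^ 2 + S ^ 2)).const_add (P ^ 2)
    simpa using this
  have h2 := h1.sqrt hq.ne'
  have h3 := h2.pow 3
  have h4 : HasDerivAt (fun Y : ℝ => S + Y * K) K Y := by
    have := ((hasDerivAt_id Y).mul_const K).const_add S
    simpa using this
  have hr : 0 < √(P ^ 2 + Y * (Q ^ 2 + S ^ 2)) := Real.sqrt_pos.mpr hq
  have h5 := h4.div h3 (by simp only [Pi.pow_apply]; positivity)
  refine h5.congr_deriv ?_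
  simp only [F5', r5, Pi.pow_apply]
  field_simp
  ring

theorem PD.cont_in_Y (h : PD b c C p₀ P Q S K) (hc : 0 < c) {X : ℝ} (hX : 0 < X) :
    ContinuousOn (om' P Q S K X) (Icc 0 (b - X)) := by
  have h1 : ContinuousOn F5' (box5 b c C) := (F5'_contDiff hc).continuousOn
  refine h1.comp (f := fun Y => (P (√X), Q (√X), S (√X), K (√X), Y)) (by fun_prop) ?_
  intro Y hY
  exact h.mem_box hX hY.1 (by linarith [hY.2])

theorem PD.meas (h : PD b c C p₀ P Q S K) : Measurable (Function.uncurry (om P Q S K)) := by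
  have h1 := h.mP
  have h2 := h.mQ
  have h3 := h.mS
  have h4 := h.mK
  unfold om Function.uncurry
  fun_prop

theorem PD.meas' (h : PD b c C p₀ P Q S K) : Measurable (Function.uncurry (om' P Q S K)) := by
  have h1 := h.mP
  have h2 := h.mQ
  have h3 := h.mS
  have h4 := h.mK
  unfold om' F5' r5 Function.uncurry
  fun_prop

/-- the weight of a normalised profile -/
theorem wt_unif (b : ℝ) (hb : 0 < b) (hc : 0 < c) (C : ℝ) :
    ∃ A c' : ℝ, 0 < c' ∧ ∀ P Q S K : ℝ → ℝ, PD b c C 1 P Q S K →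
      WT b A c' (om P Q S K) (om' P Q S K) := by
  rcases le_or_gt C 0 with hC0 | hC0
  · refine ⟨0, 1, one_pos, fun P Q S K h => ?_⟩
    have := h.C_pos hc
    linarith
  obtain ⟨A₁, hA₁⟩ := (box5_compact b c C).exists_bound_of_continuousOn
    (F5'_contDiff (b := b) (C := C) hc).continuousOn
  obtain ⟨L, hL0, hL⟩ := lip_box (F5_contDiff (b := b) (C := C) hc)
  have hA₁' : ∀ p ∈ box5 b c C, |F5' p| ≤ |A₁| := fun p hp =>
    (hA₁ p hp).trans (le_abs_self _)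
  refine ⟨|A₁| + L * C, c / C ^ 3, by positivity, fun P Q S K h => ?_⟩
  have hder : ∀ X Y, 0 < X → 0 ≤ Y → X + Y ≤ b →
      HasDerivAt (om P Q S K X) (om' P Q S K X Y) Y := by
    intro X Y hX hY hXY
    exact F5_hasDerivAt (box5_q hc (h.mem_box hX hY hXY))
  have hbd : ∀ X Y, 0 < X → 0 ≤ Y → X + Y ≤ b → |om' P Q S K X Y| ≤ |A₁| := fun X Y hX hY hXY =>
    hA₁' _ (h.mem_box hX hY hXY)
  have h1C : (1 : ℝ) ∈ Icc c C := h.p0
  have h0C : (0 : ℝ) ∈ Icc (-C) C := ⟨by linarith, hC0.le⟩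
  have hone : ((1, 0, 1, 0, 0) : ℝ × ℝ × ℝ × ℝ × ℝ) ∈ box5 b c C :=
    ⟨h1C, h0C, h1C, h0C, le_rfl, hb.le⟩
  have hd0 : ∀ X : ℝ, 0 < X → X ≤ b →
      om P Q S K X 0 = F5 (P (√X), 0, S (√X), 0, 0) := by
    intro X hX hXb
    simp [om_eq, F5, r5]
  have hF1 : F5 (1, 0, 1, 0, 0) = 1 := by simp [F5, r5]
  refine ⟨h.meas, h.meas', hder, fun X hX hXb => h.cont_in_Y hc hX, ?_, ?_, ?_, ?_⟩
  · intro X Y hX hY hXY
    have ht := sqrt_mem (b := b) hX (by linarith)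
    have hmem := h.mem_box (Y := 0) hX le_rfl (by linarith)
    have a1 : |om P Q S K X 0 - 1| ≤ L * (C * X) := by
      rw [hd0 X hX (by linarith)]
      have hm : ((P (√X), 0, S (√X), 0, 0) : ℝ × ℝ × ℝ × ℝ × ℝ) ∈ box5 b c C :=
        ⟨h.bP _ ht, h0C, h.bS _ ht, h0C, le_rfl, hb.le⟩
      have := hL _ hm _ hone
      rw [hF1] at this
      refine this.trans ?_
      gcongr
      have e1 := h.nP _ ht
      have e2 := h.nS _ ht
      rw [Real.sq_sqrt hX.le] at e1 e2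
      have e3 : 0 ≤ C * X := by positivity
      simp only [Prod.mk_sub_mk, sub_self, Prod.norm_mk, norm_zero, Real.norm_eq_abs]
      exact max_le e1 (max_le e3 (max_le e2 e3))
    have a2 : |om P Q S K X Y - om P Q S K X 0| ≤ |A₁| * Y := by
      have := norm_image_sub_le_of_norm_deriv_le_segment' (a := 0) (b := Y) (C := |A₁|)
        (f := om P Q S K X) (f' := om' P Q S K X)
        (fun y hy => (hder X y hX hy.1 (by linarith [hy.2])).hasDerivWithinAt)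
        (fun y hy => hbd X y hX hy.1 (by linarith [hy.2])) Y ⟨hY, le_rfl⟩
      simpa using this
    have a3 : |om P Q S K X Y - 1| ≤ |om P Q S K X Y - om P Q S K X 0| +
        |om P Q S K X 0 - 1| := abs_sub_le _ _ _
    have a4 : 0 ≤ |A₁| * X := by positivity
    have a5 : 0 ≤ L * C * Y := by positivity
    nlinarith
  · intro X Y hX hY hXY
    refine (hbd X Y hX hY hXY).trans ?_
    have : 0 ≤ L * C := by positivity
    linarith
  · have e : (fun s => om P Q S K s 0) = fun s => (S (√s)) / √(P (√s) ^ 2) ^ 3 := by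
      funext s; simp [om]
    rw [e]
    have hmap : MapsTo (fun s : ℝ => √s) (Ioc 0 b) (Ioc 0 (√b)) := fun s hs =>
      sqrt_mem hs.1 hs.2
    have cS : ContinuousOn (fun s => S (√s)) (Ioc 0 b) := h.cS.comp (by fun_prop) hmap
    have cP : ContinuousOn (fun s => P (√s)) (Ioc 0 b) := h.cP.comp (by fun_prop) hmap
    refine cS.div ((cP.pow 2).sqrt.pow 3) (fun s hs => ?_)
    have h1 := lt_of_lt_of_le hc (h.bP _ (hmap hs)).1
    simp only at h1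
    positivity
  · intro s hs hsb
    have ht := sqrt_mem (b := b) hs hsb
    have h1 := h.bP _ ht
    have h2 := h.bS _ ht
    have h3 : 0 < P (√s) := lt_of_lt_of_le hc h1.1
    have e : om P Q S K s 0 = S (√s) / P (√s) ^ 3 := by
      simp [om, Real.sqrt_sq h3.le]
    rw [e]
    have h4 : 0 < S (√s) := lt_of_lt_of_le hc h2.1
    gcongr
    · exact h2.1
    · exact h1.2

end Pool.Agent.Lib.MP_85963d_gt.H87
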