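import Mathlib

/-!
# Laplace transforms of functions bounded by a power (helper87)

For `f` measurable on `(0,∞)` with `|f X| ≤ A X^(a-1)` (`a > 0`): convergence, derivative,
product formula and behaviour at `+∞` (Watson's lemma).  Used in section 9 of the Gardner project.
-/

open MeasureTheory Set Filter Topology

namespace Pool.Agent.Lib.MP_85963d_gt.H87

/-- `f` is measurable on `(0,∞)` and bounded by `A X^(a-1)` there. -/
structure PB (f : ℝ → ℝ) (a A : ℝ) : Prop where
  meas : AEStronglyMeasurable f (volume.restrict (Ioi (0 : ℝ)))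
  bd : ∀ X : ℝ, 0 < X → |f X| ≤ A * X ^ (a - 1)

/-- the Laplace transform -/
noncomputable def lap (f : ℝ → ℝ) (p : ℝ) : ℝ := ∫ X in Ioi (0 : ℝ), Real.exp (-(p * X)) * f X

theorem expPow_int {a p : ℝ} (ha : 0 < a) (hp : 0 < p) :
    IntegrableOn (fun X : ℝ => Real.exp (-(p * X)) * X ^ (a - 1)) (Ioi 0) := by
  have h := integrableOn_rpow_mul_exp_neg_mul_rpow (s := a - 1) (p := 1) (b := p)
    (by linarith) one_pos hp
  refine h.congr_fun (fun X hX => ?_) measurableSet_Ioi
  simp only [Real.rpow_one]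
  rw [mul_comm, neg_mul]

theorem PB.expMul_meas {f : ℝ → ℝ} {a A : ℝ} (hf : PB f a A) (p : ℝ) :
    AEStronglyMeasurable (fun X : ℝ => Real.exp (-(p * X)) * f X)
      (volume.restrict (Ioi (0 : ℝ))) :=
  (Continuous.aestronglyMeasurable (by fun_prop)).mul hf.meas

theorem PB.int {f : ℝ → ℝ} {a A : ℝ} (hf : PB f a A) (ha : 0 < a) {p : ℝ} (hp : 0 < p) :
    IntegrableOn (fun X : ℝ => Real.exp (-(p * X)) * f X) (Ioi 0) := by
  refine Integrable.mono' ((expPow_int ha hp).const_mul A) (hf.expMul_meas p) ?_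
  refine (ae_restrict_iff' measurableSet_Ioi).mpr (Eventually.of_forall fun X hX => ?_)
  rw [norm_mul, Real.norm_eq_abs, Real.norm_eq_abs, abs_of_pos (Real.exp_pos _)]
  calc Real.exp (-(p * X)) * |f X| ≤ Real.exp (-(p * X)) * (A * X ^ (a - 1)) :=
        mul_le_mul_of_nonneg_left (hf.bd X hX) (Real.exp_pos _).le
    _ = A * (Real.exp (-(p * X)) * X ^ (a - 1)) := by ring

theorem PB.mulX {f : ℝ → ℝ} {a A : ℝ} (hf : PB f a A) : PB (fun X => X * f X) (a + 1) A := by
  refine ⟨(continuous_id.aestronglyMeasurable).mul hf.meas, fun X hX => ?_⟩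
  rw [abs_mul, abs_of_pos hX]
  calc X * |f X| ≤ X * (A * X ^ (a - 1)) := mul_le_mul_of_nonneg_left (hf.bd X hX) hX.le
    _ = A * X ^ (a + 1 - 1) := by
      rw [show a + 1 - 1 = (a - 1) + 1 by ring, Real.rpow_add hX, Real.rpow_one]; ring

theorem PB.lap_bound {f : ℝ → ℝ} {a A : ℝ} (hf : PB f a A) (ha : 0 < a) {p : ℝ} (hp : 0 < p) :
    |lap f p| ≤ A * Real.Gamma a * p ^ (-a) := by
  have h1 : |lap f p| ≤ ∫ X in Ioi (0 : ℝ), A * (X ^ (a - 1) * Real.exp (-(p * X))) := by
    rw [lap, ← Real.norm_eq_abs]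
    refine norm_integral_le_of_norm_le ?_ ?_
    · have h0 : IntegrableOn (fun X : ℝ => A * (Real.exp (-(p * X)) * X ^ (a - 1))) (Ioi 0) :=
        (expPow_int ha hp).const_mul A
      refine h0.congr_fun (fun X _ => ?_) measurableSet_Ioi
      change A * (Real.exp (-(p * X)) * X ^ (a - 1)) = A * (X ^ (a - 1) * Real.exp (-(p * X)))
      ring
    · refine (ae_restrict_iff' measurableSet_Ioi).mpr (Eventually.of_forall fun X hX => ?_)
      rw [norm_mul, Real.norm_eq_abs, Real.norm_eq_abs, abs_of_pos (Real.exp_pos _)]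
      calc Real.exp (-(p * X)) * |f X| ≤ Real.exp (-(p * X)) * (A * X ^ (a - 1)) :=
            mul_le_mul_of_nonneg_left (hf.bd X hX) (Real.exp_pos _).le
        _ = A * (X ^ (a - 1) * Real.exp (-(p * X))) := by ring
  rw [integral_const_mul, Real.integral_rpow_mul_exp_neg_mul_Ioi ha hp] at h1
  refine h1.trans (le_of_eq ?_)
  rw [one_div, Real.inv_rpow hp.le, Real.rpow_neg hp.le]; ring

theorem PB.hasDerivAt {f : ℝ → ℝ} {a A : ℝ} (hf : PB f a A) (ha : 0 < a) {p : ℝ} (hp : 0 < p) :
    HasDerivAt (lap f) (-(lap (fun X => X * f X) p)) p := by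
  have hp2 : 0 < p / 2 := by linarith
  have hg := hf.mulX
  have key := hasDerivAt_integral_of_dominated_loc_of_deriv_le
    (μ := volume.restrict (Ioi (0 : ℝ))) (x₀ := p) (s := Ioi (p / 2))
    (F := fun q X => Real.exp (-(q * X)) * f X)
    (F' := fun q X => -(Real.exp (-(q * X)) * (X * f X)))
    (bound := fun X => A * (Real.exp (-(p / 2 * X)) * X ^ (a + 1 - 1)))
    (Ioi_mem_nhds (by linarith))
    (Eventually.of_forall fun q => hf.expMul_meas q)
    (hf.int ha hp)
    (hg.expMul_meas p).neg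
    ?_ ((expPow_int (by linarith) hp2).const_mul A) ?_
  · refine key.2.congr_deriv ?_
    rw [lap, ← integral_neg]
  · refine (ae_restrict_iff' measurableSet_Ioi).mpr (Eventually.of_forall fun X hX q hq => ?_)
    have hX' : 0 < X := hX
    have hq' : p / 2 < q := hq
    rw [norm_neg, norm_mul, Real.norm_eq_abs, Real.norm_eq_abs, abs_of_pos (Real.exp_pos _)]
    calc Real.exp (-(q * X)) * |X * f X|
        ≤ Real.exp (-(p / 2 * X)) * (A * X ^ (a + 1 - 1)) := by
          refine mul_le_mul ?_ (hg.bd X hX) (abs_nonneg _) (Real.exp_pos _).le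
          refine Real.exp_le_exp.mpr (neg_le_neg ?_)
          exact mul_le_mul_of_nonneg_right hq'.le hX'.le
      _ = A * (Real.exp (-(p / 2 * X)) * X ^ (a + 1 - 1)) := by ring
  · refine Eventually.of_forall fun X q _ => ?_
    have h1 : HasDerivAt (fun q : ℝ => -(q * X)) (-(1 * X)) q :=
      ((hasDerivAt_id q).mul_const X).neg
    have h2 := (h1.exp).mul_const (f X)
    refine h2.congr_deriv ?_
    ring

theorem PB.watson {f : ℝ → ℝ} {a A c : ℝ} (hf : PB f a A) (ha : 0 < a)
    (hlim : Tendsto (fun X : ℝ => X ^ (1 - a) * f X) (𝓝[>] 0) (𝓝 c)) :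
    Tendsto (fun p : ℝ => p ^ a * lap f p) atTop (𝓝 (c * Real.Gamma a)) := by
  have hrepr : ∀ p : ℝ, 0 < p → p ^ a * lap f p =
      ∫ x in Ioi (0 : ℝ), Real.exp (-x) * x ^ (a - 1) * ((x / p) ^ (1 - a) * f (x / p)) := by
    intro p hp
    have h1 := integral_comp_mul_left_Ioi
      (fun x => Real.exp (-x) * f (x / p)) 0 hp
    have h2 : lap f p = p⁻¹ * ∫ x in Ioi (0 : ℝ), Real.exp (-x) * f (x / p) := by
      rw [mul_zero, smul_eq_mul] at h1
      rw [← h1, lap]
      refine setIntegral_congr_fun measurableSet_Ioi (fun X _ => ?_)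
      rw [mul_div_cancel_left₀ _ hp.ne']
    rw [h2, ← mul_assoc, ← integral_const_mul]
    refine setIntegral_congr_fun measurableSet_Ioi (fun x hx => ?_)
    have hx' : 0 < x := hx
    rw [Real.div_rpow hx'.le hp.le]
    have e1 : x ^ (a - 1) * x ^ (1 - a) = 1 := by
      rw [← Real.rpow_add hx']; simp
    have e2 : p ^ a * p⁻¹ = (p ^ (1 - a))⁻¹ := by
      rw [← Real.rpow_neg_one p, ← Real.rpow_add hp, ← Real.rpow_neg hp.le]
      congr 1; ring
    rw [e2]
    calc (p ^ (1 - a))⁻¹ * (Real.exp (-x) * f (x / p))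
        = (x ^ (a - 1) * x ^ (1 - a)) * ((p ^ (1 - a))⁻¹ * (Real.exp (-x) * f (x / p))) := by
          rw [e1, one_mul]
      _ = _ := by rw [div_eq_mul_inv (x ^ (1 - a)) (p ^ (1 - a))]; ring
  have hmain : Tendsto (fun p : ℝ => ∫ x in Ioi (0 : ℝ),
      Real.exp (-x) * x ^ (a - 1) * ((x / p) ^ (1 - a) * f (x / p))) atTop
      (𝓝 (∫ x in Ioi (0 : ℝ), Real.exp (-x) * x ^ (a - 1) * c)) := by
    refine tendsto_integral_filter_of_dominated_convergence
      (fun x => A * (Real.exp (-x) * x ^ (a - 1))) ?_ ?_ ?_ ?_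
    · filter_upwards [eventually_gt_atTop 0] with p hp
      have hm : AEStronglyMeasurable (fun x : ℝ => f (x / p)) (volume.restrict (Ioi (0 : ℝ))) := by
        have hqmp : Measure.QuasiMeasurePreserving (fun x : ℝ => x / p)
            (volume.restrict (Ioi (0 : ℝ))) (volume.restrict (Ioi (0 : ℝ))) := by
          have h0 : Measure.QuasiMeasurePreserving (fun x : ℝ => x / p) volume volume := by
            refine ⟨by fun_prop, ?_⟩
            have : (fun x : ℝ => x / p) = (fun x : ℝ => x * p⁻¹) := by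
              ext x; rw [div_eq_mul_inv]
            rw [this, Real.map_volume_mul_right (inv_ne_zero hp.ne')]
            exact Measure.smul_absolutelyContinuous
          refine h0.restrict (fun x hx => ?_)
          exact div_pos hx hp
        exact hf.meas.comp_quasiMeasurePreserving hqmp
      refine AEStronglyMeasurable.mul (AEStronglyMeasurable.mul ?_ ?_)
        (AEStronglyMeasurable.mul ?_ hm)
      · exact Continuous.aestronglyMeasurable (by fun_prop)
      · exact (measurable_id.pow_const (a - 1)).aestronglyMeasurable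
      · exact ((measurable_id.div_const p).pow_const (1 - a)).aestronglyMeasurable
    · filter_upwards [eventually_gt_atTop 0] with p hp
      refine (ae_restrict_iff' measurableSet_Ioi).mpr (Eventually.of_forall fun x hx => ?_)
      have hx' : 0 < x := hx
      have hq : 0 < x / p := div_pos hx' hp
      rw [norm_mul, Real.norm_eq_abs, Real.norm_eq_abs,
        abs_of_pos (mul_pos (Real.exp_pos _) (Real.rpow_pos_of_pos hx' _)), abs_mul,
        abs_of_pos (Real.rpow_pos_of_pos hq _)]
      have hb := hf.bd (x / p) hq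
      have e1 : (x / p) ^ (1 - a) * (x / p) ^ (a - 1) = 1 := by
        rw [← Real.rpow_add hq]; simp
      calc Real.exp (-x) * x ^ (a - 1) * ((x / p) ^ (1 - a) * |f (x / p)|)
          ≤ Real.exp (-x) * x ^ (a - 1) * ((x / p) ^ (1 - a) * (A * (x / p) ^ (a - 1))) := by
            gcongr
        _ = A * (Real.exp (-x) * x ^ (a - 1)) * ((x / p) ^ (1 - a) * (x / p) ^ (a - 1)) := by
            ring
        _ = A * (Real.exp (-x) * x ^ (a - 1)) := by rw [e1, mul_one]
    · exact (Real.GammaIntegral_convergent ha).const_mul A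
    · refine (ae_restrict_iff' measurableSet_Ioi).mpr (Eventually.of_forall fun x hx => ?_)
      have hx' : 0 < x := hx
      refine Tendsto.const_mul _ ?_
      refine hlim.comp ?_
      refine tendsto_nhdsWithin_iff.mpr ⟨?_, ?_⟩
      · exact tendsto_const_nhds.div_atTop tendsto_id
      · filter_upwards [eventually_gt_atTop 0] with p hp
        exact div_pos hx' hp
  rw [integral_mul_const, ← Real.Gamma_eq_integral ha, mul_comm] at hmain
  refine hmain.congr' ?_
  filter_upwards [eventually_gt_atTop 0] with p hp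
  exact (hrepr p hp).symm

/-- integrability of the convolution integrand with weights -/
theorem lap_mul {f g : ℝ → ℝ} {a b A B : ℝ} (hf : PB f a A) (hg : PB g b B) (ha : 0 < a)
    (hb : 0 < b) {p : ℝ} (hp : 0 < p) :
    ∫ s in Ioi (0 : ℝ), Real.exp (-(p * s)) * (∫ t in (0 : ℝ)..s, f t * g (s - t)) =
      lap f p * lap g p := by
  have h := integral_posConvolution (μ := volume) (ν := volume) (hf.int ha hp) (hg.int hb hp)
    (ContinuousLinearMap.mul ℝ ℝ)
  simp only [ContinuousLinearMap.mul_apply'] at h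
  rw [lap, lap, ← h]
  refine setIntegral_congr_fun measurableSet_Ioi (fun s _ => ?_)
  rw [← intervalIntegral.integral_const_mul]
  refine intervalIntegral.integral_congr (fun t _ => ?_)
  have : Real.exp (-(p * s)) = Real.exp (-(p * t)) * Real.exp (-(p * (s - t))) := by
    rw [← Real.exp_add]; congr 1; ring
  rw [this]; ring

theorem lap_conv_int {f g : ℝ → ℝ} {a b A B : ℝ} (hf : PB f a A) (hg : PB g b B) (ha : 0 < a)
    (hb : 0 < b) {p : ℝ} (hp : 0 < p) :
    IntegrableOn (fun s : ℝ => Real.exp (-(p * s)) * (∫ t in (0 : ℝ)..s, f t * g (s - t)))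
      (Ioi 0) := by
  have h := integrable_posConvolution (μ := volume) (ν := volume) (hf.int ha hp) (hg.int hb hp)
    (ContinuousLinearMap.mul ℝ ℝ)
  rw [posConvolution, integrable_indicator_iff measurableSet_Ioi] at h
  refine h.congr_fun (fun s _ => ?_) measurableSet_Ioi
  simp only [ContinuousLinearMap.mul_apply']
  rw [← intervalIntegral.integral_const_mul]
  refine intervalIntegral.integral_congr (fun t _ => ?_)
  have : Real.exp (-(p * s)) = Real.exp (-(p * t)) * Real.exp (-(p * (s - t))) := by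
    rw [← Real.exp_add]; congr 1; ring
  rw [this]; ring

end Pool.Agent.Lib.MP_85963d_gt.H87
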