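import Mathlib

/-!
# Singular Volterra equation, part 1 (helper87)

The equation of (7.3)-(7.4) of the Gardner project in the variables `X = t^2`, `σ = y^2`,
`G = g / √X`:

`G(σ) = -(3/4) σ⁻¹ ∫_0^σ G + (15/4) σ⁻² ∫_0^σ X G + ∫_0^σ m(X,σ) G(X) dX`,  `0 < σ ≤ b`,

with a bounded kernel `m`, continuous in `σ`.  This file: the kernel class and the integral
operator `RR`.
-/

open MeasureTheory Set Filter Topology

namespace Pool.Agent.Lib.MP_85963d_gt.H87

/-- the kernel class -/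
structure MK (b C : ℝ) (m : ℝ → ℝ → ℝ) : Prop where
  meas : Measurable (Function.uncurry m)
  bd : ∀ X σ, 0 < X → X < σ → σ ≤ b → |m X σ| ≤ C
  cont : ∀ X, 0 < X → ContinuousOn (m X) (Ioc X b)

/-- the operator `G ↦ ∫_0^σ m(X,σ) G(X) dX` -/
noncomputable def RR (m : ℝ → ℝ → ℝ) (G : ℝ → ℝ) (σ : ℝ) : ℝ := ∫ X in Ioo (0 : ℝ) σ, m X σ * G X

variable {b C : ℝ} {m : ℝ → ℝ → ℝ}

theorem MK.meas_left (hm : MK b C m) (σ : ℝ) : Measurable fun X => m X σ :=
  hm.meas.comp (measurable_id.prodMk measurable_const)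

theorem MK.C_nonneg (hm : MK b C m) (hb : 0 < b) : 0 ≤ C :=
  (abs_nonneg _).trans (hm.bd (b / 2) b (by linarith) (by linarith) le_rfl)

theorem MK.integrable (hm : MK b C m) {G : ℝ → ℝ} (hG : IntegrableOn G (Ioo 0 b)) {σ : ℝ}
    (hσ : σ ≤ b) : IntegrableOn (fun X => m X σ * G X) (Ioo 0 σ) := by
  have hG' : IntegrableOn G (Ioo 0 σ) := hG.mono_set (Ioo_subset_Ioo_right hσ)
  refine Integrable.bdd_mul hG' (hm.meas_left σ).aestronglyMeasurable (c := C) ?_
  refine (ae_restrict_iff' measurableSet_Ioo).mpr (Eventually.of_forall fun X hX => ?_)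
  exact hm.bd X σ hX.1 hX.2 hσ

/-- the basic bound -/
theorem MK.RR_le (hm : MK b C m) {G F : ℝ → ℝ} {σ : ℝ} (hσ : σ ≤ b)
    (hF : IntegrableOn F (Ioo 0 σ)) (hGF : ∀ X ∈ Ioo 0 σ, |G X| ≤ F X) (hC : 0 ≤ C) :
    |RR m G σ| ≤ C * ∫ X in Ioo (0 : ℝ) σ, F X := by
  rw [RR, ← Real.norm_eq_abs, ← integral_const_mul]
  refine norm_integral_le_of_norm_le (hF.const_mul C) ?_
  refine (ae_restrict_iff' measurableSet_Ioo).mpr (Eventually.of_forall fun X hX => ?_)
  rw [norm_mul, Real.norm_eq_abs, Real.norm_eq_abs]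
  exact mul_le_mul (hm.bd X σ hX.1 hX.2 hσ) (hGF X hX) (abs_nonneg _) hC

theorem MK.RR_cont (hm : MK b C m) {G : ℝ → ℝ} (hG : IntegrableOn G (Ioo 0 b)) :
    ContinuousOn (RR m G) (Ioc 0 b) := by
  intro σ₀ hσ₀
  have hb : 0 < b := lt_of_lt_of_le hσ₀.1 hσ₀.2
  have hC := hm.C_nonneg hb
  set F : ℝ → ℝ → ℝ := fun σ X => (Ioo (0 : ℝ) σ).indicator (fun X => m X σ * G X) X with hF
  have hrepr : ∀ σ ∈ Ioc (0 : ℝ) b, RR m G σ = ∫ X in Ioo (0 : ℝ) b, F σ X := by
    intro σ hσ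
    rw [RR, hF]
    rw [setIntegral_indicator measurableSet_Ioo,
      inter_eq_self_of_subset_right (Ioo_subset_Ioo_right hσ.2)]
  have hcw : ContinuousWithinAt (fun σ => ∫ X in Ioo (0 : ℝ) b, F σ X) (Ioc 0 b) σ₀ := by
    refine continuousWithinAt_of_dominated (bound := fun X => C * |G X|) ?_ ?_ ?_ ?_
    · filter_upwards [self_mem_nhdsWithin] with σ hσ
      exact ((hm.meas_left σ).aestronglyMeasurable.mul hG.1).indicator measurableSet_Ioo
    · filter_upwards [self_mem_nhdsWithin] with σ hσ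
      refine (ae_restrict_iff' measurableSet_Ioo).mpr (Eventually.of_forall fun X hX => ?_)
      by_cases h : X ∈ Ioo (0 : ℝ) σ
      · simp only [hF, indicator_of_mem h, norm_mul, Real.norm_eq_abs]
        exact mul_le_mul_of_nonneg_right (hm.bd X σ h.1 h.2 hσ.2) (abs_nonneg _)
      · simp only [hF, indicator_of_notMem h, norm_zero]
        positivity
    · exact hG.norm.const_mul C
    · have hne : ∀ᵐ X ∂(volume.restrict (Ioo (0 : ℝ) b)), X ≠ σ₀ := by
        refine ae_restrict_of_ae ?_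
        rw [ae_iff]
        simp
      filter_upwards [hne, ae_restrict_mem measurableSet_Ioo] with X hXne hX
      rcases lt_or_gt_of_ne hXne with h | h
      · have h1 : ContinuousWithinAt (fun σ => m X σ * G X) (Ioc 0 b) σ₀ := by
          have h2 : ContinuousWithinAt (m X) (Ioc X b) σ₀ := hm.cont X hX.1 σ₀ ⟨h, hσ₀.2⟩
          have h3 : Ioc X b ∈ 𝓝[Ioc 0 b] σ₀ := by
            rw [mem_nhdsWithin]
            exact ⟨Ioi X, isOpen_Ioi, h, fun σ hσ => ⟨hσ.1, hσ.2.2⟩⟩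
          exact (h2.mono_of_mem_nhdsWithin h3).mul continuousWithinAt_const
        refine h1.congr_of_eventuallyEq ?_ ?_
        · have h4 : Ioi X ∈ 𝓝[Ioc 0 b] σ₀ := mem_nhdsWithin_of_mem_nhds (Ioi_mem_nhds h)
          filter_upwards [h4] with σ hσ
          simp only [hF]
          exact indicator_of_mem (show X ∈ Ioo (0 : ℝ) σ from ⟨hX.1, hσ⟩) _
        · simp only [hF]
          exact indicator_of_mem (show X ∈ Ioo (0 : ℝ) σ₀ from ⟨hX.1, h⟩) _
      · have h1 : ContinuousWithinAt (fun _ : ℝ => (0 : ℝ)) (Ioc 0 b) σ₀ :=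
          continuousWithinAt_const
        refine h1.congr_of_eventuallyEq ?_ ?_
        · have h4 : Iio X ∈ 𝓝[Ioc 0 b] σ₀ := mem_nhdsWithin_of_mem_nhds (Iio_mem_nhds h)
          filter_upwards [h4] with σ hσ
          simp only [hF]
          exact indicator_of_notMem (fun h' => not_lt.mpr (le_of_lt hσ) h'.2) _
        · simp only [hF]
          exact indicator_of_notMem (fun h' => not_lt.mpr (le_of_lt h) h'.2) _
  exact hcw.congr (fun σ hσ => hrepr σ hσ) (hrepr σ₀ hσ₀)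

/-! ### integrals of powers -/

theorem int_inv_sqrt {σ : ℝ} (hσ : 0 ≤ σ) :
    IntegrableOn (fun X : ℝ => 1 / √X) (Ioo 0 σ) ∧ ∫ X in Ioo (0 : ℝ) σ, 1 / √X = 2 * √σ := by
  have hd : ∀ X ∈ Ioo (0 : ℝ) σ, HasDerivAt (fun X => 2 * √X) (1 / √X) X := by
    intro X hX
    have h := ((hasDerivAt_id X).sqrt (ne_of_gt hX.1)).const_mul 2
    refine h.congr_deriv ?_
    have : √X ≠ 0 := (Real.sqrt_pos.mpr hX.1).ne'
    simp only [id]
    field_simp
  have hc : ContinuousOn (fun X : ℝ => 2 * √X) (Icc 0 σ) := by fun_prop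
  have hi : IntervalIntegrable (fun X : ℝ => 1 / √X) volume 0 σ :=
    intervalIntegral.intervalIntegrable_deriv_of_nonneg (by rwa [uIcc_of_le hσ])
      (by rw [min_eq_left hσ, max_eq_right hσ]; exact hd)
      (fun X _ => by positivity)
  have hI := intervalIntegral.integral_eq_sub_of_hasDerivAt_of_le hσ hc hd hi
  rw [intervalIntegrable_iff_integrableOn_Ioo_of_le hσ] at hi
  refine ⟨hi, ?_⟩
  rw [intervalIntegral.integral_of_le hσ, integral_Ioc_eq_integral_Ioo] at hI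
  rw [hI]; simp

end Pool.Agent.Lib.MP_85963d_gt.H87
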