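import Pool.Agent.Lib.MP_85963d_gt.H87.SV1

/-!
# Singular Volterra equation, part 2: weighted estimates (helper87)
-/

open MeasureTheory Set Filter Topology

namespace Pool.Agent.Lib.MP_85963d_gt.H87

variable {b C : ℝ} {m : ℝ → ℝ → ℝ}

/-- `R g (σ) = ∫_0^σ m(X,σ) g(X)/√X dX` -/
noncomputable def Rg (m : ℝ → ℝ → ℝ) (g : ℝ → ℝ) (σ : ℝ) : ℝ := RR m (fun X => g X / √X) σ

/-- the operator `T` -/
noncomputable def TT (m : ℝ → ℝ → ℝ) (δ : ℝ) (g : ℝ → ℝ) (σ : ℝ) : ℝ :=
  √σ * Rg m g σ - 3 / 4 * (∫ X in (0 : ℝ)..σ, Rg m g X / √X) +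
    15 / 4 * (σ * ∫ X in δ..σ, Rg m g X / (X * √X))

theorem exp_int {lam : ℝ} (hl : 0 < lam) (σ : ℝ) :
    ∫ X in (0 : ℝ)..σ, Real.exp (lam * X) ≤ Real.exp (lam * σ) / lam := by
  have hd : ∀ X ∈ uIcc 0 σ, HasDerivAt (fun X => Real.exp (lam * X) / lam)
      (Real.exp (lam * X)) X := by
    intro X _
    have h := (((hasDerivAt_id X).const_mul lam).exp).div_const lam
    refine h.congr_deriv ?_
    simp only [id, mul_one]
    field_simp
  rw [intervalIntegral.integral_eq_sub_of_hasDerivAt hd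
    (Continuous.intervalIntegrable (by fun_prop) _ _)]
  have : 0 < Real.exp (lam * 0) / lam := by positivity
  linarith

/-- `∫_0^σ e^{λX}/√X ≤ (4/λ) e^{λσ}/√σ` -/
theorem exp_sqrt_int {lam σ : ℝ} (hl : 0 < lam) (hσ : 0 < σ) :
    IntegrableOn (fun X => Real.exp (lam * X) * (1 / √X)) (Ioo 0 σ) ∧
    ∫ X in Ioo (0 : ℝ) σ, Real.exp (lam * X) * (1 / √X) ≤ 4 / lam * (Real.exp (lam * σ) / √σ) := by
  have hint : ∀ τ : ℝ, 0 ≤ τ →
      IntegrableOn (fun X => Real.exp (lam * X) * (1 / √X)) (Ioo 0 τ) := by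
    intro τ hτ
    refine Integrable.bdd_mul (int_inv_sqrt hτ).1
      (Continuous.aestronglyMeasurable (by fun_prop)) (c := Real.exp (lam * τ)) ?_
    refine (ae_restrict_iff' measurableSet_Ioo).mpr (Eventually.of_forall fun X hX => ?_)
    rw [Real.norm_eq_abs, abs_of_pos (Real.exp_pos _)]
    exact Real.exp_le_exp.mpr (mul_le_mul_of_nonneg_left hX.2.le hl.le)
  -- small values
  have hsmall : ∀ τ : ℝ, 0 < τ → lam * τ ≤ 2 →
      ∫ X in Ioo (0 : ℝ) τ, Real.exp (lam * X) * (1 / √X) ≤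
        4 / lam * (Real.exp (lam * τ) / √τ) := by
    intro τ hτ hl2
    have hs : 0 < √τ := Real.sqrt_pos.mpr hτ
    have h1 : ∫ X in Ioo (0 : ℝ) τ, Real.exp (lam * X) * (1 / √X) ≤
        ∫ X in Ioo (0 : ℝ) τ, Real.exp (lam * τ) * (1 / √X) := by
      refine setIntegral_mono_on (hint τ hτ.le) ((int_inv_sqrt hτ.le).1.const_mul _)
        measurableSet_Ioo (fun X hX => ?_)
      refine mul_le_mul_of_nonneg_right ?_ (by positivity)
      exact Real.exp_le_exp.mpr (mul_le_mul_of_nonneg_left hX.2.le hl.le)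
    rw [integral_const_mul, (int_inv_sqrt hτ.le).2] at h1
    refine h1.trans ?_
    have h2 : 2 * √τ ≤ 4 / lam / √τ := by
      rw [le_div_iff₀ hs, le_div_iff₀ hl]
      have h3 : 2 * √τ * √τ * lam = 2 * (lam * τ) := by
        rw [mul_assoc 2, Real.mul_self_sqrt hτ.le]; ring
      rw [h3]
      linarith
    calc Real.exp (lam * τ) * (2 * √τ) ≤ Real.exp (lam * τ) * (4 / lam / √τ) := by gcongr
      _ = 4 / lam * (Real.exp (lam * τ) / √τ) := by ring
  refine ⟨hint σ hσ.le, ?_⟩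
  rcases le_or_gt (lam * σ) 2 with h | h
  · exact hsmall σ hσ h
  set τ := 2 / lam with hτ
  have hτ0 : 0 < τ := by positivity
  have hτσ : τ ≤ σ := by rw [hτ, div_le_iff₀ hl]; linarith
  have hlτ : lam * τ = 2 := by rw [hτ]; field_simp
  have h1 := hsmall τ hτ0 hlτ.le
  have hd : ∀ X ∈ uIcc τ σ, HasDerivAt (fun X => 4 / lam * (Real.exp (lam * X) / √X))
      (4 / lam * ((Real.exp (lam * X) * lam * √X - Real.exp (lam * X) * (1 / (2 * √X))) /
        √X ^ 2)) X := by
    intro X hX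
    rw [uIcc_of_le hτσ] at hX
    have hX0 : 0 < X := lt_of_lt_of_le hτ0 hX.1
    have hs : √X ≠ 0 := (Real.sqrt_pos.mpr hX0).ne'
    have he : HasDerivAt (fun X => Real.exp (lam * X)) (Real.exp (lam * X) * lam) X := by
      have := ((hasDerivAt_id X).const_mul lam).exp
      simpa using this
    have hq : HasDerivAt (fun X : ℝ => √X) (1 / (2 * √X)) X :=
      (hasDerivAt_id X).sqrt hX0.ne'
    exact (he.div hq hs).const_mul _
  have hc : ContinuousOn (fun X => 4 / lam * ((Real.exp (lam * X) * lam * √X -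
      Real.exp (lam * X) * (1 / (2 * √X))) / √X ^ 2)) (uIcc τ σ) := by
    rw [uIcc_of_le hτσ]
    have hne : ∀ X ∈ Icc τ σ, √X ≠ 0 := fun X hX =>
      (Real.sqrt_pos.mpr (lt_of_lt_of_le hτ0 hX.1)).ne'
    refine ContinuousOn.mul continuousOn_const (ContinuousOn.div ?_ (by fun_prop)
      (fun X hX => pow_ne_zero 2 (hne X hX)))
    refine ContinuousOn.sub (by fun_prop) (ContinuousOn.mul (by fun_prop)
      (ContinuousOn.div continuousOn_const (by fun_prop)
        (fun X hX => mul_ne_zero two_ne_zero (hne X hX))))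
  have h2 := intervalIntegral.integral_eq_sub_of_hasDerivAt hd hc.intervalIntegrable
  have hi2 : IntervalIntegrable (fun X => Real.exp (lam * X) * (1 / √X)) volume τ σ := by
    rw [intervalIntegrable_iff_integrableOn_Ioo_of_le hτσ]
    exact (hint σ hσ.le).mono_set (Ioo_subset_Ioo_left hτ0.le)
  have h3 : ∫ X in τ..σ, Real.exp (lam * X) * (1 / √X) ≤
      ∫ X in τ..σ, 4 / lam * ((Real.exp (lam * X) * lam * √X -
      Real.exp (lam * X) * (1 / (2 * √X))) / √X ^ 2) := by
    refine intervalIntegral.integral_mono_on hτσ hi2 hc.intervalIntegrable (fun X hX => ?_)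
    have hX0 : 0 < X := lt_of_lt_of_le hτ0 hX.1
    have hs : 0 < √X := Real.sqrt_pos.mpr hX0
    have hlX : 2 ≤ lam * X := by
      rw [← hlτ]; exact mul_le_mul_of_nonneg_left hX.1 hl.le
    have hsq : √X * √X = X := Real.mul_self_sqrt hX0.le
    have e : 4 / lam * ((Real.exp (lam * X) * lam * √X -
        Real.exp (lam * X) * (1 / (2 * √X))) / √X ^ 2) =
        Real.exp (lam * X) * (1 / √X) * (4 - 2 / (lam * X)) := by
      have e2 : 2 / (lam * X) = 2 / (lam * (√X * √X)) := by rw [hsq]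
      rw [e2]
      field_simp
      ring
    rw [e]
    have hp : 0 < Real.exp (lam * X) * (1 / √X) := by positivity
    have h4 : 2 / (lam * X) ≤ 1 := by
      rw [div_le_one (by linarith)]; exact hlX
    nlinarith
  have hsplit : ∫ X in Ioo (0 : ℝ) σ, Real.exp (lam * X) * (1 / √X) =
      (∫ X in Ioo (0 : ℝ) τ, Real.exp (lam * X) * (1 / √X)) +
      ∫ X in τ..σ, Real.exp (lam * X) * (1 / √X) := by
    have i1 : IntervalIntegrable (fun X => Real.exp (lam * X) * (1 / √X)) volume 0 τ := by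
      rw [intervalIntegrable_iff_integrableOn_Ioo_of_le hτ0.le]; exact hint τ hτ0.le
    have := intervalIntegral.integral_add_adjacent_intervals i1 hi2
    rw [intervalIntegral.integral_of_le hτ0.le, intervalIntegral.integral_of_le hσ.le,
      integral_Ioc_eq_integral_Ioo, integral_Ioc_eq_integral_Ioo] at this
    exact this.symm
  rw [hsplit]
  linarith

/-- `∫_δ^σ e^{λX} X^{-2} ≤ e^{λσ}/σ` if `λ δ = 2` -/
theorem exp_sq_int {lam δ σ : ℝ} (hδ : 0 < δ) (hld : lam * δ = 2) (hσ : δ ≤ σ) :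
    ∫ X in δ..σ, Real.exp (lam * X) / X ^ 2 ≤ Real.exp (lam * σ) / σ := by
  have hl : 0 < lam := by
    by_contra h
    push Not at h
    nlinarith
  have hd : ∀ X ∈ uIcc δ σ, HasDerivAt (fun X => Real.exp (lam * X) / X)
      ((Real.exp (lam * X) * lam * X - Real.exp (lam * X) * 1) / X ^ 2) X := by
    intro X hX
    rw [uIcc_of_le hσ] at hX
    have hX0 : 0 < X := lt_of_lt_of_le hδ hX.1
    have he : HasDerivAt (fun X => Real.exp (lam * X)) (Real.exp (lam * X) * lam) X := by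
      have := ((hasDerivAt_id X).const_mul lam).exp
      simpa using this
    exact he.div (hasDerivAt_id X) hX0.ne'
  have hne : ∀ X ∈ Icc δ σ, X ≠ 0 := fun X hX => (lt_of_lt_of_le hδ hX.1).ne'
  have hc : ContinuousOn (fun X => (Real.exp (lam * X) * lam * X - Real.exp (lam * X) * 1) / X ^ 2)
      (uIcc δ σ) := by
    rw [uIcc_of_le hσ]
    exact ContinuousOn.div (by fun_prop) (by fun_prop) (fun X hX => pow_ne_zero 2 (hne X hX))
  have hc2 : ContinuousOn (fun X => Real.exp (lam * X) / X ^ 2) (uIcc δ σ) := by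
    rw [uIcc_of_le hσ]
    exact ContinuousOn.div (by fun_prop) (by fun_prop) (fun X hX => pow_ne_zero 2 (hne X hX))
  have h2 := intervalIntegral.integral_eq_sub_of_hasDerivAt hd hc.intervalIntegrable
  have h3 : ∫ X in δ..σ, Real.exp (lam * X) / X ^ 2 ≤
      ∫ X in δ..σ, (Real.exp (lam * X) * lam * X - Real.exp (lam * X) * 1) / X ^ 2 := by
    refine intervalIntegral.integral_mono_on hσ hc2.intervalIntegrable hc.intervalIntegrable
      (fun X hX => ?_)
    have hX0 : 0 < X := lt_of_lt_of_le hδ hX.1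
    have hlX : 2 ≤ lam * X := by rw [← hld]; exact mul_le_mul_of_nonneg_left hX.1 hl.le
    refine div_le_div_of_nonneg_right ?_ (by positivity)
    have := Real.exp_pos (lam * X)
    nlinarith
  have h4 : 0 < Real.exp (lam * δ) / δ := by positivity
  linarith

theorem sigma_log {δ σ : ℝ} (hσ : 0 < σ) (hδ : σ ≤ δ) :
    σ * ∫ X in σ..δ, 1 / X ≤ δ ∧ σ * ∫ X in σ..δ, 1 / X ≤ 2 * √δ * √σ := by
  have hδ0 : 0 < δ := by linarith
  rw [integral_one_div_of_pos hσ hδ0]
  constructor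
  · have h := Real.log_le_sub_one_of_pos (show 0 < δ / σ by positivity)
    calc σ * Real.log (δ / σ) ≤ σ * (δ / σ - 1) := by gcongr
      _ = δ - σ := by field_simp
      _ ≤ δ := by linarith
  · have hs : 0 < √σ := Real.sqrt_pos.mpr hσ
    have hd : 0 < √δ := Real.sqrt_pos.mpr hδ0
    have h := Real.log_le_sub_one_of_pos (show 0 < √(δ / σ) by positivity)
    have h1 : Real.log (δ / σ) = 2 * Real.log √(δ / σ) := by
      rw [Real.log_sqrt (by positivity)]; ring
    have h2 : √(δ / σ) = √δ / √σ := Real.sqrt_div hδ0.le σ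
    have hsq : √σ * √σ = σ := Real.mul_self_sqrt hσ.le
    calc σ * Real.log (δ / σ) = 2 * σ * Real.log √(δ / σ) := by rw [h1]; ring
      _ ≤ 2 * σ * √(δ / σ) := by
        have : Real.log √(δ / σ) ≤ √(δ / σ) := by linarith
        gcongr
      _ = 2 * (√σ * √σ) * (√δ / √σ) := by rw [hsq, h2]
      _ = 2 * √δ * √σ := by field_simp

section est

variable {g : ℝ → ℝ} {M lam δ : ℝ}

theorem gi (hg : ContinuousOn g (Icc 0 b)) (hb : 0 < b) :
    IntegrableOn (fun X => g X / √X) (Ioo 0 b) := by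
  obtain ⟨K, hK⟩ := isCompact_Icc.exists_bound_of_continuousOn hg
  have h : IntegrableOn (fun X => g X * (1 / √X)) (Ioo 0 b) := by
    refine Integrable.bdd_mul (int_inv_sqrt hb.le).1
      ((hg.mono Ioo_subset_Icc_self).aestronglyMeasurable measurableSet_Ioo) (c := K) ?_
    refine (ae_restrict_iff' measurableSet_Ioo).mpr (Eventually.of_forall fun X hX => ?_)
    exact hK X (Ioo_subset_Icc_self hX)
  refine h.congr_fun (fun X _ => ?_) measurableSet_Ioo
  change g X * (1 / √X) = g X / √X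
  ring

theorem Rg_le1 (hm : MK b C m) (hC : 0 ≤ C) (hM : 0 ≤ M) (hl : 0 < lam)
    (hgM : ∀ X ∈ Ioo (0 : ℝ) b, |g X| ≤ M * Real.exp (lam * X)) {σ : ℝ} (hσ : σ ∈ Ioc 0 b) :
    |Rg m g σ| ≤ 2 * C * M * √σ * Real.exp (lam * σ) := by
  have h := hm.RR_le (G := fun X => g X / √X) (F := fun X => M * Real.exp (lam * σ) * (1 / √X))
    hσ.2 ((int_inv_sqrt hσ.1.le).1.const_mul _) (fun X hX => ?_) hC
  · rw [integral_const_mul, (int_inv_sqrt hσ.1.le).2] at h
    refine h.trans (le_of_eq ?_)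
    ring
  · have hs : 0 < √X := Real.sqrt_pos.mpr hX.1
    rw [abs_div, abs_of_pos hs, div_eq_mul_one_div]
    refine mul_le_mul_of_nonneg_right ?_ (by positivity)
    refine (hgM X ⟨hX.1, lt_of_lt_of_le hX.2 hσ.2⟩).trans ?_
    have : Real.exp (lam * X) ≤ Real.exp (lam * σ) :=
      Real.exp_le_exp.mpr (mul_le_mul_of_nonneg_left hX.2.le hl.le)
    gcongr

theorem Rg_le2 (hm : MK b C m) (hC : 0 ≤ C) (hM : 0 ≤ M) (hl : 0 < lam)
    (hgM : ∀ X ∈ Ioo (0 : ℝ) b, |g X| ≤ M * Real.exp (lam * X)) {σ : ℝ} (hσ : σ ∈ Ioc 0 b) :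
    |Rg m g σ| ≤ 4 * C * M / lam * (Real.exp (lam * σ) / √σ) := by
  have h := hm.RR_le (G := fun X => g X / √X)
    (F := fun X => M * (Real.exp (lam * X) * (1 / √X)))
    hσ.2 ((exp_sqrt_int hl hσ.1).1.const_mul _) (fun X hX => ?_) hC
  · rw [integral_const_mul] at h
    refine h.trans ?_
    have := (exp_sqrt_int hl hσ.1).2
    calc C * (M * ∫ X in Ioo (0 : ℝ) σ, Real.exp (lam * X) * (1 / √X))
        ≤ C * (M * (4 / lam * (Real.exp (lam * σ) / √σ))) := by gcongr
      _ = _ := by ring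
  · have hs : 0 < √X := Real.sqrt_pos.mpr hX.1
    rw [abs_div, abs_of_pos hs, div_eq_mul_one_div, ← mul_assoc]
    exact mul_le_mul_of_nonneg_right (hgM X ⟨hX.1, lt_of_lt_of_le hX.2 hσ.2⟩) (by positivity)

theorem Rg_cont (hm : MK b C m) (hg : ContinuousOn g (Icc 0 b)) (hb : 0 < b) :
    ContinuousOn (Rg m g) (Ioc 0 b) := hm.RR_cont (gi hg hb)

/-- `R g / √X` is integrable on `(0,σ)` -/
theorem P2_int (hm : MK b C m) (hC : 0 ≤ C) (hM : 0 ≤ M) (hl : 0 < lam)
    (hg : ContinuousOn g (Icc 0 b)) (hb : 0 < b)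
    (hgM : ∀ X ∈ Ioo (0 : ℝ) b, |g X| ≤ M * Real.exp (lam * X)) :
    IntegrableOn (fun X => Rg m g X / √X) (Ioc 0 b) := by
  refine Integrable.mono' (g := fun _ : ℝ => 2 * C * M * Real.exp (lam * b))
    (integrable_const _) ?_ ?_
  · refine ContinuousOn.aestronglyMeasurable ?_ measurableSet_Ioc
    exact (Rg_cont hm hg hb).div (by fun_prop) (fun X hX => (Real.sqrt_pos.mpr hX.1).ne')
  · refine (ae_restrict_iff' measurableSet_Ioc).mpr (Eventually.of_forall fun X hX => ?_)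
    have hs : 0 < √X := Real.sqrt_pos.mpr hX.1
    rw [Real.norm_eq_abs, abs_div, abs_of_pos hs, div_le_iff₀ hs]
    refine (Rg_le1 hm hC hM hl hgM hX).trans ?_
    have : Real.exp (lam * X) ≤ Real.exp (lam * b) :=
      Real.exp_le_exp.mpr (mul_le_mul_of_nonneg_left hX.2 hl.le)
    calc 2 * C * M * √X * Real.exp (lam * X) ≤ 2 * C * M * √X * Real.exp (lam * b) := by gcongr
      _ = _ := by ring

theorem P2_le (hm : MK b C m) (hC : 0 ≤ C) (hM : 0 ≤ M) (hl : 0 < lam)
    (hgM : ∀ X ∈ Ioo (0 : ℝ) b, |g X| ≤ M * Real.exp (lam * X)) {σ : ℝ} (hσ : σ ∈ Ioc 0 b) :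
    |∫ X in (0 : ℝ)..σ, Rg m g X / √X| ≤ 2 * C * M / lam * Real.exp (lam * σ) := by
  have h1 : |∫ X in (0 : ℝ)..σ, Rg m g X / √X| ≤
      ∫ X in (0 : ℝ)..σ, 2 * C * M * Real.exp (lam * X) := by
    rw [← Real.norm_eq_abs]
    refine intervalIntegral.norm_integral_le_of_norm_le hσ.1.le ?_
      (Continuous.intervalIntegrable (by fun_prop) _ _)
    refine Eventually.of_forall fun X hX => ?_
    have hs : 0 < √X := Real.sqrt_pos.mpr hX.1
    rw [Real.norm_eq_abs, abs_div, abs_of_pos hs, div_le_iff₀ hs]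
    refine (Rg_le1 hm hC hM hl hgM ⟨hX.1, hX.2.trans hσ.2⟩).trans (le_of_eq ?_)
    ring
  refine h1.trans ?_
  rw [intervalIntegral.integral_const_mul]
  have := exp_int hl σ
  calc 2 * C * M * ∫ X in (0 : ℝ)..σ, Real.exp (lam * X)
      ≤ 2 * C * M * (Real.exp (lam * σ) / lam) := by gcongr
    _ = _ := by ring

theorem P3_int (hm : MK b C m) (hg : ContinuousOn g (Icc 0 b)) (hb : 0 < b) {u v : ℝ}
    (hu : u ∈ Ioc 0 b) (hv : v ∈ Ioc 0 b) :
    IntervalIntegrable (fun X => Rg m g X / (X * √X)) volume u v := by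
  refine ContinuousOn.intervalIntegrable ?_
  have hsub : uIcc u v ⊆ Ioc 0 b := fun x hx => by
    rcases le_total u v with h | h
    · rw [uIcc_of_le h] at hx; exact ⟨lt_of_lt_of_le hu.1 hx.1, hx.2.trans hv.2⟩
    · rw [uIcc_of_ge h] at hx; exact ⟨lt_of_lt_of_le hv.1 hx.1, hx.2.trans hu.2⟩
  refine ContinuousOn.mono ?_ hsub
  refine (Rg_cont hm hg hb).div (by fun_prop) (fun X hX => ?_)
  exact mul_ne_zero hX.1.ne' (Real.sqrt_pos.mpr hX.1).ne'

/-- the last term, `σ ≤ δ` -/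
theorem P3_small (hm : MK b C m) (hC : 0 ≤ C) (hM : 0 ≤ M) (hl : 0 < lam)
    (hgM : ∀ X ∈ Ioo (0 : ℝ) b, |g X| ≤ M * Real.exp (lam * X)) (hδb : δ ≤ b) {σ : ℝ}
    (hσ : 0 < σ) (hσδ : σ ≤ δ) :
    |∫ X in δ..σ, Rg m g X / (X * √X)| ≤
      2 * C * M * Real.exp (lam * δ) * ∫ X in σ..δ, 1 / X := by
  have hc1 : IntervalIntegrable (fun X : ℝ => 2 * C * M * Real.exp (lam * δ) * (1 / X))
      volume σ δ := by
    refine ContinuousOn.intervalIntegrable ?_
    rw [uIcc_of_le hσδ]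
    refine ContinuousOn.mul continuousOn_const (ContinuousOn.div continuousOn_const
      continuousOn_id (fun X hX => (lt_of_lt_of_le hσ hX.1).ne'))
  rw [intervalIntegral.integral_symm, abs_neg, ← Real.norm_eq_abs,
    ← intervalIntegral.integral_const_mul]
  refine intervalIntegral.norm_integral_le_of_norm_le hσδ ?_ hc1
  refine Eventually.of_forall fun X hX => ?_
  have hX0 : 0 < X := lt_trans hσ hX.1
  have hs : 0 < √X := Real.sqrt_pos.mpr hX0
  rw [Real.norm_eq_abs, abs_div, abs_of_pos (mul_pos hX0 hs), div_le_iff₀ (mul_pos hX0 hs)]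
  refine (Rg_le1 hm hC hM hl hgM ⟨hX0, hX.2.trans hδb⟩).trans ?_
  have he : Real.exp (lam * X) ≤ Real.exp (lam * δ) :=
    Real.exp_le_exp.mpr (mul_le_mul_of_nonneg_left hX.2 hl.le)
  calc 2 * C * M * √X * Real.exp (lam * X) ≤ 2 * C * M * √X * Real.exp (lam * δ) := by gcongr
    _ = 2 * C * M * Real.exp (lam * δ) * (1 / X) * (X * √X) := by field_simp

/-- the last term, `σ ≥ δ`, `λ δ = 2` -/
theorem P3_large (hm : MK b C m) (hC : 0 ≤ C) (hM : 0 ≤ M) (hδ : 0 < δ) (hld : lam * δ = 2)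
    (hgM : ∀ X ∈ Ioo (0 : ℝ) b, |g X| ≤ M * Real.exp (lam * X)) {σ : ℝ}
    (hσ : δ ≤ σ) (hσb : σ ≤ b) :
    |σ * ∫ X in δ..σ, Rg m g X / (X * √X)| ≤ 4 * C * M / lam * Real.exp (lam * σ) := by
  have hl : 0 < lam := by
    by_contra h
    push Not at h
    nlinarith
  have hσ0 : 0 < σ := lt_of_lt_of_le hδ hσ
  have hc1 : IntervalIntegrable (fun X : ℝ => 4 * C * M / lam * (Real.exp (lam * X) / X ^ 2))
      volume δ σ := by
    refine ContinuousOn.intervalIntegrable ?_
    rw [uIcc_of_le hσ]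
    exact ContinuousOn.mul continuousOn_const (ContinuousOn.div (by fun_prop)
      (by fun_prop) (fun X hX => pow_ne_zero 2 (lt_of_lt_of_le hδ hX.1).ne'))
  have h1 : |∫ X in δ..σ, Rg m g X / (X * √X)| ≤
      ∫ X in δ..σ, 4 * C * M / lam * (Real.exp (lam * X) / X ^ 2) := by
    rw [← Real.norm_eq_abs]
    refine intervalIntegral.norm_integral_le_of_norm_le hσ ?_ hc1
    refine Eventually.of_forall fun X hX => ?_
    have hX0 : 0 < X := lt_trans hδ hX.1
    have hs : 0 < √X := Real.sqrt_pos.mpr hX0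
    have hsq : √X * √X = X := Real.mul_self_sqrt hX0.le
    rw [Real.norm_eq_abs, abs_div, abs_of_pos (mul_pos hX0 hs), div_le_iff₀ (mul_pos hX0 hs)]
    refine (Rg_le2 hm hC hM hl hgM ⟨hX0, hX.2.trans hσb⟩).trans (le_of_eq ?_)
    have e : Real.exp (lam * X) / √X = Real.exp (lam * X) / X ^ 2 * (X * √X) := by
      have : X ^ 2 = X * (√X * √X) := by rw [hsq]; ring
      rw [this]
      field_simp
    rw [e]; ring
  rw [intervalIntegral.integral_const_mul] at h1
  have h2 := exp_sq_int hδ hld hσ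
  rw [abs_mul, abs_of_pos hσ0]
  calc σ * |∫ X in δ..σ, Rg m g X / (X * √X)|
      ≤ σ * (4 * C * M / lam * (Real.exp (lam * σ) / σ)) := by
        have : 4 * C * M / lam * ∫ X in δ..σ, Real.exp (lam * X) / X ^ 2 ≤
          4 * C * M / lam * (Real.exp (lam * σ) / σ) := by gcongr
        gcongr
        exact h1.trans this
    _ = _ := by field_simp

theorem exp_two_le : Real.exp 2 ≤ 15 / 2 := by
  have h := Real.exp_one_lt_d9
  have : Real.exp 2 = Real.exp 1 * Real.exp 1 := by rw [← Real.exp_add]; norm_num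
  rw [this]
  have h0 := Real.exp_pos 1
  nlinarith

/-- The weighted bound: `|T g(σ)| ≤ 60 C δ M e^{λσ}`, `λ δ = 2`. -/
theorem TT_le (hm : MK b C m) (hC : 0 ≤ C) (hM : 0 ≤ M) (hδ : 0 < δ) (hδb : δ ≤ b)
    (hld : lam * δ = 2)
    (hgM : ∀ X ∈ Ioo (0 : ℝ) b, |g X| ≤ M * Real.exp (lam * X)) {σ : ℝ} (hσ : σ ∈ Ioc 0 b) :
    |TT m δ g σ| ≤ 60 * C * δ * M * Real.exp (lam * σ) := by
  have hl : 0 < lam := by
    by_contra h
    push Not at h
    nlinarith
  have hinv : 1 / lam = δ / 2 := by field_simp; linarith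
  have hs : 0 < √σ := Real.sqrt_pos.mpr hσ.1
  have hexp1 : 1 ≤ Real.exp (lam * σ) := Real.one_le_exp (mul_pos hl hσ.1).le
  have hexp0 := Real.exp_pos (lam * σ)
  -- first term
  have a1 : |√σ * Rg m g σ| ≤ 2 * C * δ * M * Real.exp (lam * σ) := by
    rw [abs_mul, abs_of_pos hs]
    calc √σ * |Rg m g σ| ≤ √σ * (4 * C * M / lam * (Real.exp (lam * σ) / √σ)) := by
          gcongr; exact Rg_le2 hm hC hM hl hgM hσ
      _ = 4 * C * M * (1 / lam) * Real.exp (lam * σ) := by field_simp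
      _ = 2 * C * δ * M * Real.exp (lam * σ) := by rw [hinv]; ring
  -- second term
  have a2 : |3 / 4 * ∫ X in (0 : ℝ)..σ, Rg m g X / √X| ≤
      3 / 4 * (C * δ * M * Real.exp (lam * σ)) := by
    rw [abs_mul, abs_of_pos (by norm_num : (0 : ℝ) < 3 / 4)]
    refine mul_le_mul_of_nonneg_left ?_ (by norm_num)
    refine (P2_le hm hC hM hl hgM hσ).trans (le_of_eq ?_)
    calc 2 * C * M / lam * Real.exp (lam * σ) = 2 * C * M * (1 / lam) * Real.exp (lam * σ) := by
          ring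
      _ = _ := by rw [hinv]; ring
  -- third term
  have a3 : |15 / 4 * (σ * ∫ X in δ..σ, Rg m g X / (X * √X))| ≤
      15 / 4 * (15 * C * δ * M * Real.exp (lam * σ)) := by
    rw [abs_mul, abs_of_pos (by norm_num : (0 : ℝ) < 15 / 4)]
    refine mul_le_mul_of_nonneg_left ?_ (by norm_num)
    rcases le_total σ δ with h | h
    · have h1 := P3_small hm hC hM hl hgM hδb hσ.1 h
      have h2 := (sigma_log hσ.1 h).1
      rw [abs_mul, abs_of_pos hσ.1]
      have hI : 0 ≤ ∫ X in σ..δ, 1 / X := by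
        rw [integral_one_div_of_pos hσ.1 hδ]
        exact Real.log_nonneg (by rw [le_div_iff₀ hσ.1]; linarith)
      calc σ * |∫ X in δ..σ, Rg m g X / (X * √X)|
          ≤ σ * (2 * C * M * Real.exp (lam * δ) * ∫ X in σ..δ, 1 / X) :=
            mul_le_mul_of_nonneg_left h1 hσ.1.le
        _ = 2 * C * M * Real.exp 2 * (σ * ∫ X in σ..δ, 1 / X) := by rw [hld]; ring
        _ ≤ 2 * C * M * (15 / 2) * δ := by
          refine mul_le_mul ?_ h2 (mul_nonneg hσ.1.le hI) (by positivity)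
          have := exp_two_le
          gcongr
        _ = 15 * C * δ * M * 1 := by ring
        _ ≤ 15 * C * δ * M * Real.exp (lam * σ) := by gcongr
    · refine (P3_large hm hC hM hδ hld hgM h hσ.2).trans ?_
      calc 4 * C * M / lam * Real.exp (lam * σ) =
            4 * C * M * (1 / lam) * Real.exp (lam * σ) := by ring
        _ = 2 * C * δ * M * Real.exp (lam * σ) := by rw [hinv]; ring
        _ ≤ 15 * C * δ * M * Real.exp (lam * σ) := by
          have : 0 ≤ C * δ * M * Real.exp (lam * σ) := by positivity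
          nlinarith
  have htot : |TT m δ g σ| ≤ |√σ * Rg m g σ| + |3 / 4 * ∫ X in (0 : ℝ)..σ, Rg m g X / √X| +
      |15 / 4 * (σ * ∫ X in δ..σ, Rg m g X / (X * √X))| := by
    unfold TT
    exact (abs_add_le _ _).trans (by gcongr; exact abs_sub _ _)
  have : 0 ≤ C * δ * M * Real.exp (lam * σ) := by positivity
  nlinarith

theorem TT_zero : TT m δ g 0 = 0 := by simp [TT]

/-- `T g` is continuous on `[0,b]` -/
theorem TT_cont (hm : MK b C m) (hC : 0 ≤ C) (hδ : 0 < δ) (hδb : δ ≤ b)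
    (hg : ContinuousOn g (Icc 0 b)) : ContinuousOn (TT m δ g) (Icc 0 b) := by
  have hb : 0 < b := lt_of_lt_of_le hδ hδb
  obtain ⟨M, hM⟩ := isCompact_Icc.exists_bound_of_continuousOn hg
  have hM0 : 0 ≤ M := (norm_nonneg _).trans (hM 0 ⟨le_rfl, hb.le⟩)
  have hgM : ∀ X ∈ Ioo (0 : ℝ) b, |g X| ≤ M * Real.exp (1 * X) := fun X hX => by
    refine (hM X (Ioo_subset_Icc_self hX)).trans ?_
    have : 1 ≤ Real.exp (1 * X) := Real.one_le_exp (by linarith [hX.1])
    nlinarith
  have hpos : ContinuousOn (TT m δ g) (Ioc 0 b) := by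
    unfold TT
    refine ContinuousOn.add (ContinuousOn.sub ?_ ?_) ?_
    · exact ContinuousOn.mul (by fun_prop) (Rg_cont hm hg hb)
    · refine ContinuousOn.mul continuousOn_const ?_
      have h1 : IntegrableOn (fun X => Rg m g X / √X) (Icc 0 b) := by
        rw [integrableOn_Icc_iff_integrableOn_Ioc]
        exact P2_int hm hC hM0 one_pos hg hb hgM
      have := intervalIntegral.continuousOn_primitive_interval (a := 0) (b := b) (μ := volume)
        (f := fun X => Rg m g X / √X) (by rwa [uIcc_of_le hb.le])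
      rw [uIcc_of_le hb.le] at this
      exact this.mono Ioc_subset_Icc_self
    · refine ContinuousOn.mul continuousOn_const (ContinuousOn.mul continuousOn_id ?_)
      intro σ hσ
      have hc : ContinuousWithinAt (fun σ => ∫ X in δ..σ, Rg m g X / (X * √X))
          (Icc (σ / 2) b) σ := by
        have hσ2 : 0 < σ / 2 := by linarith [hσ.1]
        have h2 : σ / 2 ≤ b := by linarith [hσ.2]
        have h3 := intervalIntegral.continuousOn_primitive_interval' (a := δ)
          (b₁ := min (σ / 2) δ) (b₂ := b) (μ := volume) (f := fun X => Rg m g X / (X * √X))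
          (P3_int hm hg hb ⟨lt_min hσ2 hδ, (min_le_left _ _).trans h2⟩ ⟨hb, le_rfl⟩)
          (by rw [uIcc_of_le ((min_le_left _ _).trans h2)]; exact ⟨min_le_right _ _, hδb⟩)
        rw [uIcc_of_le ((min_le_left _ _).trans h2)] at h3
        refine (h3 σ ⟨(min_le_left _ _).trans (by linarith [hσ.1]), hσ.2⟩).mono ?_
        exact Icc_subset_Icc_left (min_le_left _ _)
      refine hc.mono_of_mem_nhdsWithin ?_
      rw [mem_nhdsWithin]
      exact ⟨Ioi (σ / 2), isOpen_Ioi, by simp only [mem_Ioi]; linarith [hσ.1],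
        fun τ hτ => ⟨le_of_lt hτ.1, hτ.2.2⟩⟩
  intro σ hσ
  rcases eq_or_lt_of_le hσ.1 with h0 | h0
  · subst h0
    -- continuity at `0`
    set E := Real.exp (1 * b) with hE
    have hEpos : 0 < E := Real.exp_pos _
    set K : ℝ := 2 * C * M * E * √b + 3 / 2 * C * M * E * √b + 15 * C * M * E * √δ with hK
    have hK0 : 0 ≤ K := by positivity
    have hbd : ∀ σ ∈ Ioc (0 : ℝ) δ, |TT m δ g σ| ≤ K * √σ := by
      intro σ hσ
      have hσb : σ ∈ Ioc (0 : ℝ) b := ⟨hσ.1, hσ.2.trans hδb⟩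
      have hs : 0 < √σ := Real.sqrt_pos.mpr hσ.1
      have hsb : √σ ≤ √b := Real.sqrt_le_sqrt hσb.2
      have hexp : Real.exp (1 * σ) ≤ E := Real.exp_le_exp.mpr (by linarith [hσb.2])
      have hexpδ : Real.exp (1 * δ) ≤ E := Real.exp_le_exp.mpr (by linarith)
      have a1 : |√σ * Rg m g σ| ≤ 2 * C * M * E * √b * √σ := by
        rw [abs_mul, abs_of_pos hs]
        calc √σ * |Rg m g σ| ≤ √σ * (2 * C * M * √σ * Real.exp (1 * σ)) := by
              gcongr; exact Rg_le1 hm hC hM0 one_pos hgM hσb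
          _ ≤ √σ * (2 * C * M * √b * E) := by gcongr
          _ = _ := by ring
      have a2 : |3 / 4 * ∫ X in (0 : ℝ)..σ, Rg m g X / √X| ≤ 3 / 2 * C * M * E * √b * √σ := by
        rw [abs_mul, abs_of_pos (by norm_num : (0 : ℝ) < 3 / 4)]
        have h1 : |∫ X in (0 : ℝ)..σ, Rg m g X / √X| ≤ 2 * C * M * E * |σ - 0| := by
          rw [← Real.norm_eq_abs]
          refine intervalIntegral.norm_integral_le_of_norm_le_const (fun X hX => ?_)
          rw [uIoc_of_le hσ.1.le] at hX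
          have hsX : 0 < √X := Real.sqrt_pos.mpr hX.1
          rw [Real.norm_eq_abs, abs_div, abs_of_pos hsX, div_le_iff₀ hsX]
          refine (Rg_le1 hm hC hM0 one_pos hgM ⟨hX.1, hX.2.trans hσb.2⟩).trans ?_
          have : Real.exp (1 * X) ≤ E := Real.exp_le_exp.mpr (by linarith [hX.2, hσb.2])
          calc 2 * C * M * √X * Real.exp (1 * X) ≤ 2 * C * M * √X * E := by gcongr
            _ = _ := by ring
        rw [sub_zero, abs_of_pos hσ.1] at h1
        have hsq : √σ * √σ = σ := Real.mul_self_sqrt hσ.1.le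
        calc 3 / 4 * |∫ X in (0 : ℝ)..σ, Rg m g X / √X| ≤ 3 / 4 * (2 * C * M * E * σ) := by gcongr
          _ = 3 / 2 * C * M * E * √σ * √σ := by rw [mul_assoc _ √σ √σ, hsq]; ring
          _ ≤ 3 / 2 * C * M * E * √b * √σ := by gcongr
      have a3 : |15 / 4 * (σ * ∫ X in δ..σ, Rg m g X / (X * √X))| ≤
          15 * C * M * E * √δ * √σ := by
        rw [abs_mul, abs_of_pos (by norm_num : (0 : ℝ) < 15 / 4), abs_mul, abs_of_pos hσ.1]
        have h1 := P3_small hm hC hM0 one_pos hgM hδb hσ.1 hσ.2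
        have h2 := (sigma_log hσ.1 hσ.2).2
        have hI : 0 ≤ ∫ X in σ..δ, 1 / X := by
          rw [integral_one_div_of_pos hσ.1 hδ]
          exact Real.log_nonneg (by rw [le_div_iff₀ hσ.1]; linarith [hσ.2])
        calc 15 / 4 * (σ * |∫ X in δ..σ, Rg m g X / (X * √X)|)
            ≤ 15 / 4 * (σ * (2 * C * M * Real.exp (1 * δ) * ∫ X in σ..δ, 1 / X)) := by
              have := hσ.1.le
              gcongr
          _ = 15 / 2 * C * M * Real.exp (1 * δ) * (σ * ∫ X in σ..δ, 1 / X) := by ring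
          _ ≤ 15 / 2 * C * M * E * (2 * √δ * √σ) := by
            refine mul_le_mul ?_ h2 (mul_nonneg hσ.1.le hI) (by positivity)
            gcongr
          _ = _ := by ring
      have htot : |TT m δ g σ| ≤ |√σ * Rg m g σ| +
          |3 / 4 * ∫ X in (0 : ℝ)..σ, Rg m g X / √X| +
          |15 / 4 * (σ * ∫ X in δ..σ, Rg m g X / (X * √X))| := by
        unfold TT
        exact (abs_add_le _ _).trans (by gcongr; exact abs_sub _ _)
      rw [hK]
      linarith
    rw [ContinuousWithinAt, TT_zero]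
    rw [tendsto_iff_norm_sub_tendsto_zero]
    have hlim : Tendsto (fun σ : ℝ => K * √σ) (𝓝[Icc 0 b] 0) (𝓝 0) := by
      have : ContinuousAt (fun σ : ℝ => K * √σ) 0 := by fun_prop
      have h := this.tendsto
      simp only [Real.sqrt_zero, mul_zero] at h
      exact h.mono_left nhdsWithin_le_nhds
    refine squeeze_zero' (Eventually.of_forall fun _ => norm_nonneg _) ?_ hlim
    have hev : ∀ᶠ τ in 𝓝[Icc 0 b] (0 : ℝ), τ < δ :=
      mem_nhdsWithin_of_mem_nhds (Iio_mem_nhds hδ)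
    filter_upwards [hev, self_mem_nhdsWithin] with τ h1 h2
    rw [sub_zero, Real.norm_eq_abs]
    rcases eq_or_lt_of_le h2.1 with h3 | h3
    · rw [← h3, TT_zero]; simp
    · exact hbd τ ⟨h3, h1.le⟩
  · refine (hpos σ ⟨h0, hσ.2⟩).mono_of_mem_nhdsWithin ?_
    rw [mem_nhdsWithin]
    exact ⟨Ioi 0, isOpen_Ioi, h0, fun τ hτ => ⟨hτ.1, hτ.2.2⟩⟩

end est

end Pool.Agent.Lib.MP_85963d_gt.H87
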