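import Pool.Agent.Lib.MP_85963d_gt.H87.SV2

/-!
# Singular Volterra equation, part 3: the fixed point (helper87)
-/

open MeasureTheory Set Filter Topology

namespace Pool.Agent.Lib.MP_85963d_gt.H87

variable {b C : ℝ} {m : ℝ → ℝ → ℝ}

section lin

variable {g g₁ g₂ : ℝ → ℝ} {δ : ℝ}

theorem Rg_smul (c : ℝ) (g : ℝ → ℝ) (σ : ℝ) : Rg m (fun X => c * g X) σ = c * Rg m g σ := by
  unfold Rg RR
  rw [← integral_const_mul]
  refine setIntegral_congr_fun measurableSet_Ioo (fun X _ => ?_)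
  ring

theorem Rg_add (hm : MK b C m) (hb : 0 < b) (h1 : ContinuousOn g₁ (Icc 0 b))
    (h2 : ContinuousOn g₂ (Icc 0 b)) {σ : ℝ} (hσ : σ ≤ b) :
    Rg m (fun X => g₁ X + g₂ X) σ = Rg m g₁ σ + Rg m g₂ σ := by
  unfold Rg RR
  rw [← integral_add (hm.integrable (gi h1 hb) hσ) (hm.integrable (gi h2 hb) hσ)]
  refine setIntegral_congr_fun measurableSet_Ioo (fun X _ => ?_)
  ring

theorem bound_of_cont (hg : ContinuousOn g (Icc 0 b)) (hb : 0 < b) :
    ∃ M : ℝ, 0 ≤ M ∧ ∀ X ∈ Ioo (0 : ℝ) b, |g X| ≤ M * Real.exp (1 * X) := by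
  obtain ⟨M, hM⟩ := isCompact_Icc.exists_bound_of_continuousOn hg
  have hM0 : 0 ≤ M := (norm_nonneg _).trans (hM 0 ⟨le_rfl, hb.le⟩)
  refine ⟨M, hM0, fun X hX => ?_⟩
  refine (hM X (Ioo_subset_Icc_self hX)).trans ?_
  have : 1 ≤ Real.exp (1 * X) := Real.one_le_exp (by linarith [hX.1])
  nlinarith

theorem P2_intv (hm : MK b C m) (hC : 0 ≤ C) (hb : 0 < b) (hg : ContinuousOn g (Icc 0 b)) {σ : ℝ}
    (hσ : σ ∈ Icc 0 b) : IntervalIntegrable (fun X => Rg m g X / √X) volume 0 σ := by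
  obtain ⟨M, hM0, hM⟩ := bound_of_cont hg hb
  rw [intervalIntegrable_iff_integrableOn_Ioc_of_le hσ.1]
  exact (P2_int hm hC hM0 one_pos hg hb hM).mono_set (Ioc_subset_Ioc_right hσ.2)

theorem TT_smul (c : ℝ) (g : ℝ → ℝ) (σ : ℝ) : TT m δ (fun X => c * g X) σ = c * TT m δ g σ := by
  unfold TT
  have e1 : ∫ X in (0 : ℝ)..σ, Rg m (fun X => c * g X) X / √X =
      c * ∫ X in (0 : ℝ)..σ, Rg m g X / √X := by
    rw [← intervalIntegral.integral_const_mul]
    refine intervalIntegral.integral_congr (fun X _ => ?_)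
    simp only [Rg_smul]; ring
  have e2 : ∫ X in δ..σ, Rg m (fun X => c * g X) X / (X * √X) =
      c * ∫ X in δ..σ, Rg m g X / (X * √X) := by
    rw [← intervalIntegral.integral_const_mul]
    refine intervalIntegral.integral_congr (fun X _ => ?_)
    simp only [Rg_smul]; ring
  rw [e1, e2, Rg_smul]; ring

theorem TT_add (hm : MK b C m) (hC : 0 ≤ C) (hδ : 0 < δ) (hδb : δ ≤ b)
    (h1 : ContinuousOn g₁ (Icc 0 b)) (h2 : ContinuousOn g₂ (Icc 0 b)) {σ : ℝ}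
    (hσ : σ ∈ Icc 0 b) :
    TT m δ (fun X => g₁ X + g₂ X) σ = TT m δ g₁ σ + TT m δ g₂ σ := by
  have hb : 0 < b := lt_of_lt_of_le hδ hδb
  rcases eq_or_lt_of_le hσ.1 with h0 | h0
  · rw [← h0]; simp [TT_zero]
  unfold TT
  have e1 : ∫ X in (0 : ℝ)..σ, Rg m (fun X => g₁ X + g₂ X) X / √X =
      (∫ X in (0 : ℝ)..σ, Rg m g₁ X / √X) + ∫ X in (0 : ℝ)..σ, Rg m g₂ X / √X := by
    rw [← intervalIntegral.integral_add (P2_intv hm hC hb h1 hσ) (P2_intv hm hC hb h2 hσ)]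
    refine intervalIntegral.integral_congr (fun X hX => ?_)
    rw [uIcc_of_le hσ.1] at hX
    simp only [Rg_add hm hb h1 h2 (hX.2.trans hσ.2)]; ring
  have hσ' : σ ∈ Ioc 0 b := ⟨h0, hσ.2⟩
  have e2 : ∫ X in δ..σ, Rg m (fun X => g₁ X + g₂ X) X / (X * √X) =
      (∫ X in δ..σ, Rg m g₁ X / (X * √X)) + ∫ X in δ..σ, Rg m g₂ X / (X * √X) := by
    rw [← intervalIntegral.integral_add (P3_int hm h1 hb ⟨hδ, hδb⟩ hσ')
      (P3_int hm h2 hb ⟨hδ, hδb⟩ hσ')]
    refine intervalIntegral.integral_congr (fun X hX => ?_)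
    have hXb : X ≤ b := by
      rcases le_total δ σ with h | h
      · rw [uIcc_of_le h] at hX; exact hX.2.trans hσ.2
      · rw [uIcc_of_ge h] at hX; exact hX.2.trans hδb
    simp only [Rg_add hm hb h1 h2 hXb]; ring
  rw [e1, e2, Rg_add hm hb h1 h2 hσ.2]; ring

theorem TT_sub (hm : MK b C m) (hC : 0 ≤ C) (hδ : 0 < δ) (hδb : δ ≤ b)
    (h1 : ContinuousOn g₁ (Icc 0 b)) (h2 : ContinuousOn g₂ (Icc 0 b)) {σ : ℝ}
    (hσ : σ ∈ Icc 0 b) :
    TT m δ (fun X => g₁ X - g₂ X) σ = TT m δ g₁ σ - TT m δ g₂ σ := by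
  have e : (fun X => g₁ X - g₂ X) = fun X => g₁ X + (-1) * g₂ X := by
    ext X; ring
  have h3 : ContinuousOn (fun X => (-1) * g₂ X) (Icc 0 b) := continuousOn_const.mul h2
  rw [e, TT_add hm hC hδ hδb h1 h3 hσ, TT_smul]; ring

end lin

/-- A priori estimate. -/
theorem apriori {δ lam F : ℝ} {h : ℝ → ℝ} (hm : MK b C m) (hC : 0 ≤ C) (hδ : 0 < δ) (hδb : δ ≤ b)
    (hld : lam * δ = 2) (hsm : 120 * C * δ ≤ 1) (hh : ContinuousOn h (Icc 0 b))
    (hF : ∀ σ ∈ Icc (0 : ℝ) b, |h σ - TT m δ h σ| ≤ F * Real.exp (lam * σ)) :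
    ∀ σ ∈ Icc (0 : ℝ) b, |h σ| ≤ 2 * F * Real.exp (lam * σ) := by
  have hb : 0 < b := lt_of_lt_of_le hδ hδb
  have hne : (Icc (0 : ℝ) b).Nonempty := ⟨0, le_rfl, hb.le⟩
  have hc : ContinuousOn (fun σ => |h σ| * Real.exp (-(lam * σ))) (Icc 0 b) :=
    hh.abs.mul (by fun_prop)
  obtain ⟨σ₀, hσ₀, hmax⟩ := isCompact_Icc.exists_isMaxOn hne hc
  set M := |h σ₀| * Real.exp (-(lam * σ₀)) with hMdef
  have hM0 : 0 ≤ M := by positivity
  have hle : ∀ σ ∈ Icc (0 : ℝ) b, |h σ| ≤ M * Real.exp (lam * σ) := by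
    intro σ hσ
    have h1 : |h σ| * Real.exp (-(lam * σ)) ≤ M := hmax hσ
    have h2 : Real.exp (-(lam * σ)) * Real.exp (lam * σ) = 1 := by
      rw [← Real.exp_add]; simp
    calc |h σ| = |h σ| * Real.exp (-(lam * σ)) * Real.exp (lam * σ) := by
          rw [mul_assoc, h2, mul_one]
      _ ≤ M * Real.exp (lam * σ) := mul_le_mul_of_nonneg_right h1 (Real.exp_pos _).le
  have hT : ∀ σ ∈ Icc (0 : ℝ) b, |TT m δ h σ| ≤ M / 2 * Real.exp (lam * σ) := by
    intro σ hσ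
    rcases eq_or_lt_of_le hσ.1 with h0 | h0
    · rw [← h0, TT_zero]; simp only [abs_zero, mul_zero, Real.exp_zero, mul_one]; positivity
    · refine (TT_le hm hC hM0 hδ hδb hld (fun X hX => hle X (Ioo_subset_Icc_self hX))
        ⟨h0, hσ.2⟩).trans ?_
      have h3 := Real.exp_pos (lam * σ)
      have h4 : 60 * C * δ * M ≤ M / 2 := by nlinarith
      exact mul_le_mul_of_nonneg_right h4 h3.le
  have h5 := hF σ₀ hσ₀
  have h6 := hT σ₀ hσ₀
  have h7 : |h σ₀| ≤ (F + M / 2) * Real.exp (lam * σ₀) := by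
    calc |h σ₀| = |(h σ₀ - TT m δ h σ₀) + TT m δ h σ₀| := by ring_nf
      _ ≤ |h σ₀ - TT m δ h σ₀| + |TT m δ h σ₀| := abs_add_le _ _
      _ ≤ _ := by linarith
  have h8 : M ≤ F + M / 2 := by
    have h2 : Real.exp (lam * σ₀) * Real.exp (-(lam * σ₀)) = 1 := by
      rw [← Real.exp_add]; simp
    calc M = |h σ₀| * Real.exp (-(lam * σ₀)) := rfl
      _ ≤ (F + M / 2) * Real.exp (lam * σ₀) * Real.exp (-(lam * σ₀)) :=
        mul_le_mul_of_nonneg_right h7 (Real.exp_pos _).le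
      _ = F + M / 2 := by rw [mul_assoc, h2, mul_one]
  intro σ hσ
  refine (hle σ hσ).trans (mul_le_mul_of_nonneg_right (by linarith) (Real.exp_pos _).le)

/-! ### existence -/

section exist

open BoundedContinuousFunction

/-- clamp to `[0,b]` -/
noncomputable def cl (b σ : ℝ) : ℝ := max 0 (min σ b)

theorem cl_mem (hb : 0 < b) (σ : ℝ) : cl b σ ∈ Icc 0 b :=
  ⟨le_max_left _ _, max_le hb.le (min_le_right _ _)⟩

theorem cl_eq {σ : ℝ} (hσ : σ ∈ Icc 0 b) : cl b σ = σ := by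
  unfold cl; rw [min_eq_left hσ.2, max_eq_right hσ.1]

theorem cl_cont : Continuous (cl b) := by unfold cl; fun_prop

/-- the conjugated operator on bounded continuous functions -/
noncomputable def TBfun (m : ℝ → ℝ → ℝ) (b δ lam : ℝ) (v : ℝ →ᵇ ℝ) (σ : ℝ) : ℝ :=
  Real.exp (-(lam * cl b σ)) * TT m δ (fun X => Real.exp (lam * X) * v X) (cl b σ)

theorem TBfun_bound {δ lam : ℝ} (hm : MK b C m) (hC : 0 ≤ C) (hδ : 0 < δ) (hδb : δ ≤ b)
    (hld : lam * δ = 2) (v : ℝ →ᵇ ℝ) (σ : ℝ) :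
    ‖TBfun m b δ lam v σ‖ ≤ 60 * C * δ * ‖v‖ := by
  have hb : 0 < b := lt_of_lt_of_le hδ hδb
  have hmem := cl_mem hb σ
  unfold TBfun
  rw [norm_mul, Real.norm_eq_abs, Real.norm_eq_abs, abs_of_pos (Real.exp_pos _)]
  rcases eq_or_lt_of_le hmem.1 with h0 | h0
  · rw [← h0, TT_zero]; simp only [abs_zero, mul_zero]; positivity
  · have h1 := TT_le hm hC (norm_nonneg v) hδ hδb hld
      (g := fun X => Real.exp (lam * X) * v X) (fun X _ => ?_) ⟨h0, hmem.2⟩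
    · have h2 : Real.exp (-(lam * cl b σ)) * Real.exp (lam * cl b σ) = 1 := by
        rw [← Real.exp_add]; simp
      calc Real.exp (-(lam * cl b σ)) * |TT m δ (fun X => Real.exp (lam * X) * v X) (cl b σ)|
          ≤ Real.exp (-(lam * cl b σ)) * (60 * C * δ * ‖v‖ * Real.exp (lam * cl b σ)) := by
            gcongr
        _ = 60 * C * δ * ‖v‖ * (Real.exp (-(lam * cl b σ)) * Real.exp (lam * cl b σ)) := by ring
        _ = 60 * C * δ * ‖v‖ := by rw [h2, mul_one]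
    · rw [abs_mul, abs_of_pos (Real.exp_pos _), mul_comm]
      exact mul_le_mul_of_nonneg_right (v.norm_coe_le_norm X) (Real.exp_pos _).le

theorem TBfun_cont {δ lam : ℝ} (hm : MK b C m) (hC : 0 ≤ C) (hδ : 0 < δ) (hδb : δ ≤ b)
    (v : ℝ →ᵇ ℝ) : Continuous (TBfun m b δ lam v) := by
  have hb : 0 < b := lt_of_lt_of_le hδ hδb
  unfold TBfun
  refine Continuous.mul ?_ ?_
  · have := cl_cont (b := b)
    fun_prop
  · have hg : ContinuousOn (fun X => Real.exp (lam * X) * v X) (Icc 0 b) := by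
      have := v.continuous
      fun_prop
    exact (TT_cont hm hC hδ hδb hg).comp_continuous cl_cont (fun σ => cl_mem hb σ)

/-- the operator as a continuous linear map -/
noncomputable def TB {δ lam : ℝ} (hm : MK b C m) (hC : 0 ≤ C) (hδ : 0 < δ) (hδb : δ ≤ b)
    (hld : lam * δ = 2) : (ℝ →ᵇ ℝ) →L[ℝ] (ℝ →ᵇ ℝ) :=
  LinearMap.mkContinuous
    { toFun := fun v => BoundedContinuousFunction.ofNormedAddCommGroup (TBfun m b δ lam v)
        (TBfun_cont hm hC hδ hδb v) (60 * C * δ * ‖v‖) (TBfun_bound hm hC hδ hδb hld v)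
      map_add' := fun v₁ v₂ => by
        have hb : 0 < b := lt_of_lt_of_le hδ hδb
        ext σ
        have c1 : ContinuousOn (fun X => Real.exp (lam * X) * v₁ X) (Icc 0 b) := by
          have := v₁.continuous
          fun_prop
        have c2 : ContinuousOn (fun X => Real.exp (lam * X) * v₂ X) (Icc 0 b) := by
          have := v₂.continuous
          fun_prop
        change TBfun m b δ lam (v₁ + v₂) σ = TBfun m b δ lam v₁ σ + TBfun m b δ lam v₂ σ
        unfold TBfun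
        have e : (fun X => Real.exp (lam * X) * (v₁ + v₂) X) =
            fun X => Real.exp (lam * X) * v₁ X + Real.exp (lam * X) * v₂ X := by
          ext X
          rw [BoundedContinuousFunction.add_apply]; ring
        rw [e, TT_add hm hC hδ hδb c1 c2 (cl_mem hb σ)]; ring
      map_smul' := fun c v => by
        ext σ
        change TBfun m b δ lam (c • v) σ = c • TBfun m b δ lam v σ
        unfold TBfun
        have e : (fun X => Real.exp (lam * X) * (c • v) X) =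
            fun X => c * (Real.exp (lam * X) * v X) := by
          ext X
          rw [BoundedContinuousFunction.smul_apply, smul_eq_mul]; ring
        rw [e, TT_smul, smul_eq_mul]; ring }
    (60 * C * δ)
    (fun v => by
      refine (BoundedContinuousFunction.norm_le (by positivity)).mpr (fun σ => ?_)
      exact TBfun_bound hm hC hδ hδb hld v σ)

theorem TB_apply {δ lam : ℝ} (hm : MK b C m) (hC : 0 ≤ C) (hδ : 0 < δ) (hδb : δ ≤ b)
    (hld : lam * δ = 2) (v : ℝ →ᵇ ℝ) (σ : ℝ) :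
    TB hm hC hδ hδb hld v σ = TBfun m b δ lam v σ := rfl

/-- existence of solutions of `g = f + T g` -/
theorem exists_fix {δ lam : ℝ} (hm : MK b C m) (hC : 0 ≤ C) (hδ : 0 < δ) (hδb : δ ≤ b)
    (hld : lam * δ = 2) (hsm : 120 * C * δ ≤ 1) {f : ℝ → ℝ} (hf : Continuous f) :
    ∃ g : ℝ → ℝ, Continuous g ∧ ∀ σ ∈ Icc (0 : ℝ) b, g σ = f σ + TT m δ g σ := by
  have hb : 0 < b := lt_of_lt_of_le hδ hδb
  have hnorm : ‖TB hm hC hδ hδb hld‖ < 1 := by
    have : ‖TB hm hC hδ hδb hld‖ ≤ 60 * C * δ :=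
      LinearMap.mkContinuous_norm_le _ (by positivity) _
    linarith
  set v₀ : ℝ →ᵇ ℝ := BoundedContinuousFunction.mkOfCompact
    ⟨fun σ : Icc (0 : ℝ) b => Real.exp (-(lam * (σ : ℝ))) * f σ, by fun_prop⟩ |>.compContinuous
    ⟨fun σ : ℝ => (⟨cl b σ, cl_mem hb σ⟩ : Icc (0 : ℝ) b),
      (cl_cont (b := b)).subtype_mk _⟩ with hv₀
  have hv₀app : ∀ σ, v₀ σ = Real.exp (-(lam * cl b σ)) * f (cl b σ) := fun σ => rfl
  set u := Units.oneSub (TB hm hC hδ hδb hld) hnorm with hu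
  set v : ℝ →ᵇ ℝ := (↑u⁻¹ : (ℝ →ᵇ ℝ) →L[ℝ] (ℝ →ᵇ ℝ)) v₀ with hv
  have hfix : v = v₀ + TB hm hC hδ hδb hld v := by
    have h1 : (↑u * ↑u⁻¹ : (ℝ →ᵇ ℝ) →L[ℝ] (ℝ →ᵇ ℝ)) v₀ = v₀ := by
      rw [Units.mul_inv]; rfl
    have h2 : (1 - TB hm hC hδ hδb hld) v = v₀ := h1
    have h3 : v - TB hm hC hδ hδb hld v = v₀ := h2
    rw [← h3]; abel
  refine ⟨fun X => Real.exp (lam * X) * v X, by have := v.continuous; fun_prop,
    fun σ hσ => ?_⟩
  have h4 : v σ = v₀ σ + TB hm hC hδ hδb hld v σ := by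
    conv_lhs => rw [hfix]
    rfl
  rw [hv₀app, TB_apply, TBfun, cl_eq hσ] at h4
  have h2 : Real.exp (lam * σ) * Real.exp (-(lam * σ)) = 1 := by
    rw [← Real.exp_add]; simp
  simp only
  rw [h4]
  calc Real.exp (lam * σ) * (Real.exp (-(lam * σ)) * f σ + Real.exp (-(lam * σ)) *
        TT m δ (fun X => Real.exp (lam * X) * v X) σ)
      = (Real.exp (lam * σ) * Real.exp (-(lam * σ))) * (f σ +
        TT m δ (fun X => Real.exp (lam * X) * v X) σ) := by ring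
    _ = _ := by rw [h2, one_mul]

end exist

end Pool.Agent.Lib.MP_85963d_gt.H87
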